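import Pool.Agent.Lib_helper98.K2.Defs

set_option autoImplicit false

namespace Pool.Agent.K2

open Complex Matrix MeasureTheory
open scoped MatrixGroups Real

/-- independence of the height -/
theorem cf_indep (f : ℂ → ℂ) (Y0 : ℝ) (hf : DifferentiableOn ℂ f {z | Y0 < z.im})
    (hp : ∀ z : ℂ, Y0 < z.im → f (z + 1) = f z) (m : ℤ) (Y1 Y2 : ℝ) (h1 : Y0 < Y1)
    (h2 : Y0 < Y2) : cf f m Y1 = cf f m Y2 := by
  set φ : ℂ → ℂ := fun z => f z * cexp (-(2 * π * I * m * z)) with hφ
  have hd : DifferentiableOn ℂ φ {z | Y0 < z.im} := hf.mul (by fun_prop)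
  have hper : ∀ z : ℂ, Y0 < z.im → φ (z + 1) = φ z := by
    intro z hz
    simp only [hφ]
    rw [hp z hz]
    have h4 : (-(2 * π * I * m * (z + 1)) : ℂ) =
        -(2 * π * I * m * z) + (-m : ℤ) * (2 * π * I) := by
      push_cast
      ring
    rw [h4, Complex.exp_add, Complex.exp_int_mul_two_pi_mul_I, mul_one]
  have hrect := Complex.integral_boundary_rect_eq_zero_of_differentiableOn φ
    (⟨0, Y1⟩ : ℂ) (⟨1, Y2⟩ : ℂ) (hd.mono (by
      intro z hz
      rw [Complex.mem_reProdIm] at hz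
      have h3 := hz.2
      simp only [Set.mem_uIcc] at h3
      show Y0 < z.im
      rcases h3 with h3 | h3 <;> linarith [h3.1]))
  simp only at hrect
  have hside : ∀ y : ℝ, y ∈ Set.uIcc Y1 Y2 →
      φ (((1 : ℝ) : ℂ) + y * I) = φ (((0 : ℝ) : ℂ) + y * I) := by
    intro y hy
    have hy0 : Y0 < y := by
      rw [Set.mem_uIcc] at hy
      rcases hy with hy | hy <;> linarith [hy.1]
    have h4 : (((1 : ℝ) : ℂ) + y * I) = (((0 : ℝ) : ℂ) + y * I) + 1 := by
      push_cast
      ring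
    rw [h4, hper]
    simpa using hy0
  rw [intervalIntegral.integral_congr (g := fun y : ℝ => φ (((0 : ℝ) : ℂ) + y * I)) hside] at hrect
  have e : ∀ Y : ℝ, cf f m Y = ∫ x in (0 : ℝ)..1, φ (x + Y * I) := fun Y => rfl
  rw [e, e]
  linear_combination hrect

end Pool.Agent.K2
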