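import Pool.Agent.Lib_helper98.K2.Defs
import Pool.Agent.Lib_helper98.K2.W.CFI1

set_option autoImplicit false

namespace Pool.Agent.K2

open Complex Matrix MeasureTheory
open scoped MatrixGroups Real

/-- bound -/
theorem cf_bound (f : ℂ → ℂ) (m : ℤ) (Y B : ℝ)
    (hB : ∀ x : ℝ, 0 ≤ x → x ≤ 1 → ‖f (x + Y * I)‖ ≤ B) :
    ‖cf f m Y‖ ≤ B * Real.exp (2 * π * m * Y) := by
  unfold cf
  have key : ∀ x ∈ Set.uIoc (0 : ℝ) 1,
      ‖f (x + Y * I) * cexp (-(2 * π * I * m * (x + Y * I)))‖ ≤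
        B * Real.exp (2 * π * m * Y) := by
    intro x hx
    rw [Set.uIoc_of_le zero_le_one] at hx
    have h1 : ‖cexp (-(2 * π * I * m * (x + Y * I)))‖ = Real.exp (2 * π * m * Y) := by
      rw [Complex.norm_exp]
      congr 1
      simp [mul_add]
    rw [norm_mul, h1]
    exact mul_le_mul_of_nonneg_right (hB x hx.1.le hx.2) (Real.exp_pos _).le
  have h2 := intervalIntegral.norm_integral_le_of_norm_le_const key
  simpa using h2

theorem cfaux_zero (w : ℂ) (K δ Y0 : ℝ) (a : ℕ) (hδ : 0 < δ)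
    (h : ∀ Y : ℝ, Y0 ≤ Y → ‖w‖ ≤ K * (3 * Y) ^ a * Real.exp (-(δ * Y))) : w = 0 := by
  have h1 : Filter.Tendsto (fun Y : ℝ => K * (3 * Y) ^ a * Real.exp (-(δ * Y))) Filter.atTop
      (nhds 0) := by
    have h2 := (Real.tendsto_pow_mul_exp_neg_atTop_nhds_zero a).comp
      (Filter.Tendsto.const_mul_atTop hδ Filter.tendsto_id)
    have h3 := h2.const_mul (K * (3 / δ) ^ a)
    rw [mul_zero] at h3
    refine h3.congr fun Y => ?_
    simp only [Function.comp_apply, id]
    have : (3 * Y) ^ a = (3 / δ) ^ a * (δ * Y) ^ a := by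
      rw [← mul_pow]; congr 1; field_simp
    rw [this]; ring
  have h4 : ‖w‖ ≤ 0 := by
    refine ge_of_tendsto h1 ?_
    filter_upwards [Filter.eventually_ge_atTop Y0] with Y hY using h Y hY
  exact norm_le_zero_iff.1 h4

theorem cfaux_mu (x Y : ℝ) (hx0 : 0 ≤ x) (hx1 : x ≤ 1) (hY : 1 ≤ Y) :
    mu (x + Y * I) ≤ 3 * Y := by
  have hYp : 0 < Y := by linarith
  have h1 : ‖(x + Y * I : ℂ)‖ ^ 2 = x ^ 2 + Y ^ 2 := by
    rw [← Complex.normSq_eq_norm_sq, Complex.normSq_add_mul_I]
  have h2 : ((x + Y * I : ℂ)).im = Y := by simp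
  unfold mu
  rw [h1, h2, div_le_iff₀ hYp]
  nlinarith

theorem cfaux_mu0 (x Y : ℝ) (hY : 1 ≤ Y) : 0 ≤ mu (x + Y * I) := by
  have h2 : ((x + Y * I : ℂ)).im = Y := by simp
  unfold mu
  rw [h2]
  positivity

/-- growth `μ^a e^(2 π s y)` kills the coefficients of `q^m`, `m < -s` -/
theorem cf_growth (f : ℂ → ℂ) (hf : DifferentiableOn ℂ f {z | 1 < z.im})
    (hp : ∀ z : ℂ, 1 < z.im → f (z + 1) = f z) (s C : ℝ) (a : ℕ)
    (hg : ∀ z : ℂ, 1 < z.im → ‖f z‖ ≤ C * mu z ^ a * Real.exp (2 * π * (s * z.im)))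
    (m : ℤ) (hm : (m : ℝ) < -s) (Y : ℝ) (hY : 1 < Y) : cf f m Y = 0 := by
  have hδ : 0 < 2 * π * (-(m + s)) := by
    have : 0 < -((m : ℝ) + s) := by linarith
    positivity
  refine cfaux_zero _ |C| (2 * π * (-(m + s))) 2 a hδ fun Y' hY' => ?_
  rw [cf_indep f 1 hf hp m Y Y' hY (by linarith)]
  have h1 := cf_bound f m Y' (|C| * (3 * Y') ^ a * Real.exp (2 * π * (s * Y'))) fun x hx0 hx1 => by
    have h2 : ((x + Y' * I : ℂ)).im = Y' := by simp
    refine (hg _ (by rw [h2]; linarith)).trans ?_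
    rw [h2]
    refine mul_le_mul_of_nonneg_right ?_ (Real.exp_pos _).le
    have h3 := cfaux_mu x Y' hx0 hx1 (by linarith)
    have h4 := cfaux_mu0 x Y' (by linarith)
    have h5 : mu (x + Y' * I) ^ a ≤ (3 * Y') ^ a := pow_le_pow_left₀ h4 h3 a
    calc C * mu (x + Y' * I) ^ a ≤ |C| * mu (x + Y' * I) ^ a :=
          mul_le_mul_of_nonneg_right (le_abs_self C) (pow_nonneg h4 a)
      _ ≤ |C| * (3 * Y') ^ a := mul_le_mul_of_nonneg_left h5 (abs_nonneg C)
  refine h1.trans (le_of_eq ?_)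
  rw [mul_assoc, ← Real.exp_add]
  congr 2
  ring

theorem cfaux_coeff (f : ℂ → ℂ) (Y : ℝ) (g : C(AddCircle (1 : ℝ), ℂ))
    (hgf : ∀ x : ℝ, g (x : AddCircle (1 : ℝ)) = f (x + Y * I)) (m : ℤ) :
    fourierCoeff g m = cf f m Y * cexp (-(2 * π * m * Y)) := by
  rw [fourierCoeff_eq_intervalIntegral (g : AddCircle (1 : ℝ) → ℂ) m 0]
  unfold cf
  rw [← intervalIntegral.integral_mul_const]
  simp only [div_one, one_smul, zero_add]
  refine intervalIntegral.integral_congr fun x _ => ?_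
  simp only [fourier_coe_apply, hgf, smul_eq_mul]
  rw [mul_comm (cexp _) (f _), mul_assoc (f _), ← Complex.exp_add]
  congr 2
  push_cast
  have hI : I * I = -1 := Complex.I_mul_I
  linear_combination (2 * π * m * Y) * hI

/-- no negative coefficients: bounded at the cusp -/
theorem cf_bounded (f : ℂ → ℂ) (hf : DifferentiableOn ℂ f H)
    (hp : ∀ z ∈ H, f (z + 1) = f z) (h0 : ∀ m : ℤ, m < 0 → cf f m 2 = 0) (y1 : ℝ)
    (hy1 : 0 < y1) : ∃ C : ℝ, ∀ z : ℂ, y1 ≤ z.im → ‖f z‖ ≤ C := by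
  have hfc : ContinuousOn f H := hf.continuousOn
  -- a bound on the segment of height y1 / 2
  have hcont : ∀ Y : ℝ, 0 < Y → Continuous fun x : ℝ => f (x + Y * I) := by
    intro Y hY
    refine hfc.comp_continuous (by fun_prop) fun x => ?_
    show 0 < ((x + Y * I : ℂ)).im
    simpa using hY
  obtain ⟨B, hB⟩ : ∃ B : ℝ, ∀ x : ℝ, 0 ≤ x → x ≤ 1 → ‖f (x + (y1 / 2 : ℝ) * I)‖ ≤ B := by
    obtain ⟨B, hB⟩ := (isCompact_Icc (a := (0 : ℝ)) (b := 1)).exists_bound_of_continuousOn
      (hcont (y1 / 2) (by linarith)).continuousOn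
    exact ⟨B, fun x hx0 hx1 => hB x ⟨hx0, hx1⟩⟩
  have hB0 : 0 ≤ B := (norm_nonneg _).trans (hB 0 le_rfl zero_le_one)
  set r : ℝ := Real.exp (-(π * y1)) with hr
  have hr0 : 0 < r := Real.exp_pos _
  have hr1 : r < 1 := by
    rw [hr, Real.exp_lt_one_iff]
    have : 0 < π * y1 := by positivity
    linarith
  have hsumN : Summable fun n : ℕ => B * r ^ n := (summable_geometric_of_lt_one hr0.le hr1).mul_left B
  have hsum : Summable fun m : ℤ => B * r ^ m.natAbs := by
    refine Summable.of_nat_of_neg ?_ ?_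
    · simpa using hsumN
    · simpa using hsumN
  refine ⟨∑' m : ℤ, B * r ^ m.natAbs, fun z hz => ?_⟩
  set Y := z.im with hYdef
  set x := z.re with hxdef
  have hYpos : 0 < Y := by linarith
  have hzxy : z = x + Y * I := (Complex.re_add_im z).symm
  have hper : Function.Periodic (fun t : ℝ => f (t + Y * I)) 1 := by
    intro t
    have h1 : ((t + 1 : ℝ) : ℂ) + Y * I = (t + Y * I) + 1 := by push_cast; ring
    show f (((t + 1 : ℝ) : ℂ) + Y * I) = f (t + Y * I)
    rw [h1]
    refine hp _ ?_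
    show 0 < ((t + Y * I : ℂ)).im
    simpa using hYpos
  let g : C(AddCircle (1 : ℝ), ℂ) := ⟨hper.lift, by
    refine continuous_coinduced_dom.2 ?_
    exact hcont Y hYpos⟩
  have hgf : ∀ t : ℝ, g (t : AddCircle (1 : ℝ)) = f (t + Y * I) := fun t => hper.lift_coe t
  have hco : ∀ m : ℤ, ‖fourierCoeff g m‖ ≤ B * r ^ m.natAbs := by
    intro m
    rw [cfaux_coeff f Y g hgf m]
    have hH : H = {z : ℂ | (0 : ℝ) < z.im} := rfl
    rcases lt_or_ge m 0 with hm | hm
    · have h1 : cf f m Y = 0 := by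
        rw [cf_indep f 0 (by rw [← hH]; exact hf) (fun z hz => hp z hz) m Y 2 hYpos (by norm_num)]
        exact h0 m hm
      rw [h1, zero_mul, norm_zero]
      positivity
    · have h1 : cf f m Y = cf f m (y1 / 2) :=
        cf_indep f 0 (by rw [← hH]; exact hf) (fun z hz => hp z hz) m Y (y1 / 2) hYpos
          (by linarith)
      have h2 := cf_bound f m (y1 / 2) B hB
      have h3 : ‖cexp (-(2 * π * m * Y))‖ = Real.exp (-(2 * π * m * Y)) := by
        rw [Complex.norm_exp]
        congr 1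
        have : (-(2 * π * m * Y) : ℂ) = ((-(2 * π * m * Y) : ℝ) : ℂ) := by push_cast; ring
        rw [this, Complex.ofReal_re]
      rw [norm_mul, h3, h1]
      calc ‖cf f m (y1 / 2)‖ * Real.exp (-(2 * π * m * Y))
          ≤ (B * Real.exp (2 * π * m * (y1 / 2))) * Real.exp (-(2 * π * m * Y)) :=
            mul_le_mul_of_nonneg_right h2 (Real.exp_pos _).le
        _ = B * Real.exp (2 * π * m * (y1 / 2) + -(2 * π * m * Y)) := by
            rw [mul_assoc, ← Real.exp_add]
        _ ≤ B * Real.exp (-(π * y1) * m.natAbs) := by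
            refine mul_le_mul_of_nonneg_left (Real.exp_le_exp.2 ?_) hB0
            have hmn : ((m.natAbs : ℕ) : ℝ) = (m : ℝ) := by
              rw [Nat.cast_natAbs, abs_of_nonneg hm]
            rw [hmn]
            have hm' : (0 : ℝ) ≤ m := by exact_mod_cast hm
            have h5 : 0 ≤ π * m * (Y - y1) := by
              have : 0 ≤ Y - y1 := by linarith
              positivity
            nlinarith
        _ = B * r ^ m.natAbs := by
            rw [hr, ← Real.exp_nat_mul]
            congr 2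
            ring
  have hs : Summable (fourierCoeff g) := Summable.of_norm_bounded hsum hco
  have h6 := has_pointwise_sum_fourier_series_of_summable hs (x : AddCircle (1 : ℝ))
  rw [hgf x, ← hzxy] at h6
  refine h6.norm_le_of_bounded hsum.hasSum fun m => ?_
  rw [norm_smul]
  have h7 : ‖(fourier m) (x : AddCircle (1 : ℝ))‖ = 1 := by
    rw [fourier_apply, Circle.norm_coe]
  rw [h7, mul_one]
  exact hco m

theorem cfaux_mono (k m : ℤ) (Y : ℝ) :
    cf (fun z => cexp (2 * π * I * k * z)) m Y = if k = m then 1 else 0 := by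
  unfold cf
  have h1 : ∀ x : ℝ, cexp (2 * π * I * k * (x + Y * I)) * cexp (-(2 * π * I * m * (x + Y * I))) =
      cexp (2 * π * I * (k - m) * (Y * I)) * cexp ((2 * π * I * (k - m)) * x) := by
    intro x
    rw [← Complex.exp_add, ← Complex.exp_add]
    congr 1
    ring
  simp only [h1]
  rw [intervalIntegral.integral_const_mul]
  split_ifs with h
  · subst h
    simp
  · have hkm : (k : ℂ) - m ≠ 0 := by
      rw [sub_ne_zero]
      exact_mod_cast h
    have hc : (2 * π * I * (k - m) : ℂ) ≠ 0 := by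
      refine mul_ne_zero (mul_ne_zero (mul_ne_zero two_ne_zero ?_) Complex.I_ne_zero) hkm
      exact_mod_cast Real.pi_ne_zero
    rw [integral_exp_mul_complex hc]
    have h2 : cexp (2 * π * I * (k - m) * ((1 : ℝ) : ℂ)) = 1 := by
      rw [Complex.exp_eq_one_iff]
      exact ⟨k - m, by push_cast; ring⟩
    rw [h2]
    simp

/-- a `q` polynomial which decays fast has no low coefficients -/
theorem qpoly_zero (N : ℕ) (c : ℕ → ℂ) (s C : ℝ) (a : ℕ)
    (h : ∀ z : ℂ, 3 ≤ z.im → ‖∑ m ∈ Finset.range (N + 1), c m * cexp (2 * π * I * m * z)‖ ≤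
      C * mu z ^ a * Real.exp (-(2 * π * s * z.im))) (m : ℕ) (hm : m ≤ N) (hs : (m : ℝ) < s) :
    c m = 0 := by
  set f : ℂ → ℂ := fun z => ∑ m ∈ Finset.range (N + 1), c m * cexp (2 * π * I * m * z) with hf
  have hcf : ∀ Y : ℝ, cf f m Y = c m := by
    intro Y
    have h1 : cf f m Y = ∑ k ∈ Finset.range (N + 1),
        c k * cf (fun z => cexp (2 * π * I * (k : ℤ) * z)) m Y := by
      unfold cf
      rw [hf]
      simp only [Finset.sum_mul]
      rw [intervalIntegral.integral_finsetSum]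
      · refine Finset.sum_congr rfl fun k _ => ?_
        rw [← intervalIntegral.integral_const_mul]
        refine intervalIntegral.integral_congr fun x _ => ?_
        push_cast
        ring
      · intro k _
        refine Continuous.intervalIntegrable ?_ _ _
        fun_prop
    rw [h1]
    simp only [cfaux_mono]
    rw [Finset.sum_eq_single m]
    · simp
    · intro k _ hk
      have : ¬ ((k : ℤ) = (m : ℤ)) := by exact_mod_cast hk
      rw [if_neg this, mul_zero]
    · intro h2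
      exact absurd (Finset.mem_range.2 (by omega)) h2
  have hδ : 0 < 2 * π * (s - m) := by
    have : 0 < s - m := by linarith
    positivity
  refine cfaux_zero _ |C| (2 * π * (s - m)) 3 a hδ fun Y hY => ?_
  rw [← hcf Y]
  have h1 := cf_bound f m Y (|C| * (3 * Y) ^ a * Real.exp (-(2 * π * s * Y))) fun x hx0 hx1 => by
    have h2 : ((x + Y * I : ℂ)).im = Y := by simp
    refine (h _ (by rw [h2]; exact hY)).trans ?_
    rw [h2]
    refine mul_le_mul_of_nonneg_right ?_ (Real.exp_pos _).le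
    have h3 := cfaux_mu x Y hx0 hx1 (by linarith)
    have h4 := cfaux_mu0 x Y (by linarith)
    have h5 : mu (x + Y * I) ^ a ≤ (3 * Y) ^ a := pow_le_pow_left₀ h4 h3 a
    calc C * mu (x + Y * I) ^ a ≤ |C| * mu (x + Y * I) ^ a :=
          mul_le_mul_of_nonneg_right (le_abs_self C) (pow_nonneg h4 a)
      _ ≤ |C| * (3 * Y) ^ a := mul_le_mul_of_nonneg_left h5 (abs_nonneg C)
  refine h1.trans (le_of_eq ?_)
  rw [mul_assoc, ← Real.exp_add]
  congr 2
  push_cast
  ring

end Pool.Agent.K2
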