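import Pool.Agent.Lib_helper98.K2.Defs
import Pool.Agent.Lib_helper98.K2.W.CFI1
import Pool.Agent.Lib_helper98.K2.W.CFI3

set_option autoImplicit false

namespace Pool.Agent.K2

open Complex Matrix MeasureTheory
open scoped MatrixGroups Real

/-- the coefficient does not depend on the height -/
theorem CFI4_indep (f : ℂ → ℂ) (hf : DifferentiableOn ℂ f H) (hp : ∀ z ∈ H, f (z + 1) = f z)
    (m : ℤ) (Y : ℝ) (hY : 0 < Y) : cf f m Y = cf f m 2 := by
  refine cf_indep f 0 ?_ ?_ m Y 2 hY (by norm_num)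
  · exact hf
  · exact fun z hz => hp z hz

/-- the bound at height `1/(m+1)` -/
theorem CFI4_bound (f : ℂ → ℂ) (hf : DifferentiableOn ℂ f H) (hp : ∀ z ∈ H, f (z + 1) = f z)
    (hm : Mod f) : ∃ (C : ℝ) (A : ℕ), 0 ≤ C ∧ ∀ m : ℕ, ‖cf f m 2‖ ≤ C * ((m : ℝ) + 1) ^ A := by
  obtain ⟨C, a, hC⟩ := hm
  refine ⟨|C| * 3 ^ a * Real.exp (2 * π), a, by positivity, fun m => ?_⟩
  have hm1 : (0 : ℝ) < (m : ℝ) + 1 := by positivity
  set Y : ℝ := 1 / ((m : ℝ) + 1) with hYdef
  have hY : 0 < Y := by positivity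
  have hY1 : Y ≤ 1 := by
    rw [hYdef, div_le_one hm1]
    have : (0 : ℝ) ≤ (m : ℝ) := Nat.cast_nonneg m
    linarith
  have hB : ∀ x : ℝ, 0 ≤ x → x ≤ 1 → ‖f (x + Y * I)‖ ≤ |C| * (3 * ((m : ℝ) + 1)) ^ a := by
    intro x hx0 hx1
    have him : ((x : ℂ) + Y * I).im = Y := by simp
    have hre : ((x : ℂ) + Y * I).re = x := by simp
    have hH : ((x : ℂ) + Y * I) ∈ H := by
      show 0 < ((x : ℂ) + Y * I).im
      rw [him]; exact hY
    refine (hC _ hH).trans ?_
    have hnorm : ‖(x : ℂ) + Y * I‖ ^ 2 = x ^ 2 + Y ^ 2 := by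
      rw [← Complex.normSq_eq_norm_sq, Complex.normSq_apply, him, hre]
      ring
    have hmu : mu ((x : ℂ) + Y * I) = (1 + (x ^ 2 + Y ^ 2)) / Y := by
      unfold mu
      rw [him, hnorm]
    have hmu0 : 0 ≤ mu ((x : ℂ) + Y * I) := by
      rw [hmu]; positivity
    have hmule : mu ((x : ℂ) + Y * I) ≤ 3 * ((m : ℝ) + 1) := by
      rw [hmu, div_le_iff₀ hY]
      have h1 : 3 * ((m : ℝ) + 1) * Y = 3 := by
        rw [hYdef]; field_simp
      rw [h1]
      nlinarith
    calc C * mu ((x : ℂ) + Y * I) ^ a ≤ |C| * mu ((x : ℂ) + Y * I) ^ a :=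
          mul_le_mul_of_nonneg_right (le_abs_self C) (pow_nonneg hmu0 a)
      _ ≤ |C| * (3 * ((m : ℝ) + 1)) ^ a :=
          mul_le_mul_of_nonneg_left (pow_le_pow_left₀ hmu0 hmule a) (abs_nonneg C)
  have h := cf_bound f (m : ℤ) Y _ hB
  rw [CFI4_indep f hf hp m Y hY] at h
  refine h.trans ?_
  have he : Real.exp (2 * π * ((m : ℤ) : ℝ) * Y) ≤ Real.exp (2 * π) := by
    apply Real.exp_le_exp.mpr
    have h2 : ((m : ℤ) : ℝ) * Y ≤ 1 := by
      rw [hYdef, mul_one_div, div_le_one hm1]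
      push_cast
      linarith
    have h3 : (0 : ℝ) ≤ 2 * π := by positivity
    calc 2 * π * ((m : ℤ) : ℝ) * Y = 2 * π * (((m : ℤ) : ℝ) * Y) := by ring
      _ ≤ 2 * π * 1 := mul_le_mul_of_nonneg_left h2 h3
      _ = 2 * π := by ring
  calc |C| * (3 * ((m : ℝ) + 1)) ^ a * Real.exp (2 * π * ((m : ℤ) : ℝ) * Y)
      ≤ |C| * (3 * ((m : ℝ) + 1)) ^ a * Real.exp (2 * π) :=
        mul_le_mul_of_nonneg_left he (by positivity)
    _ = |C| * 3 ^ a * Real.exp (2 * π) * ((m : ℝ) + 1) ^ a := by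
        rw [mul_pow]; ring

/-- the exponential factor at height `y` -/
theorem CFI4_exp (m : ℤ) (x y : ℝ) :
    cexp (-(2 * π * I * m * ((x : ℂ) + y * I))) =
      cexp (2 * π * I * ((-m : ℤ) : ℂ) * x / ((1 : ℝ) : ℂ)) * cexp (2 * π * m * y) := by
  rw [← Complex.exp_add]
  congr 1
  push_cast
  have hI : I * I = -1 := Complex.I_mul_I
  linear_combination (-(2 * (π : ℂ) * m * y)) * hI

/-- Hecke: `q`-expansion of a moderate periodic function on `H` -/
theorem qexp_mod (f : ℂ → ℂ) (hf : DifferentiableOn ℂ f H) (hp : ∀ z ∈ H, f (z + 1) = f z)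
    (hm : Mod f) (h0 : ∀ m : ℤ, m < 0 → cf f m 2 = 0) :
    ∃ (C : ℝ) (A : ℕ), (∀ m : ℕ, ‖cf f m 2‖ ≤ C * ((m : ℝ) + 1) ^ A) ∧
      ∀ z ∈ H, HasSum (fun m : ℕ => cf f m 2 * cexp (2 * π * I * m * z)) (f z) := by
  obtain ⟨C, A, hC0, hCA⟩ := CFI4_bound f hf hp hm
  refine ⟨C, A, hCA, fun z hz => ?_⟩
  have hz' : 0 < z.im := hz
  have hT : Fact ((0 : ℝ) < 1) := ⟨one_pos⟩
  set y : ℝ := z.im with hy
  -- the restriction to the horizontal line
  set F : ℝ → ℂ := fun x => f ((x : ℂ) + y * I) with hF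
  have hmem : ∀ x : ℝ, ((x : ℂ) + y * I) ∈ H := by
    intro x
    show 0 < ((x : ℂ) + y * I).im
    simpa using hz'
  have hper : Function.Periodic F 1 := by
    intro x
    show f (((x + 1 : ℝ) : ℂ) + y * I) = f ((x : ℂ) + y * I)
    rw [← hp _ (hmem x)]
    congr 1
    push_cast
    ring
  have hopen : IsOpen H := isOpen_lt continuous_const Complex.continuous_im
  have hFc : Continuous F := by
    rw [continuous_iff_continuousAt]
    intro x
    have h1 : ContinuousAt f ((x : ℂ) + y * I) :=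
      (hf.differentiableAt (hopen.mem_nhds (hmem x))).continuousAt
    have h2 : ContinuousAt (fun x : ℝ => (x : ℂ) + y * I) x := by fun_prop
    exact ContinuousAt.comp (f := fun x : ℝ => (x : ℂ) + y * I) h1 h2
  have hgc : Continuous (hper.lift : AddCircle (1 : ℝ) → ℂ) := by
    have hq := QuotientAddGroup.isQuotientMap_mk (AddSubgroup.zmultiples (1 : ℝ))
    exact hq.continuous_iff.mpr hFc
  let g : C(AddCircle (1 : ℝ), ℂ) := ⟨hper.lift, hgc⟩
  have hgx : ∀ x : ℝ, g (x : AddCircle (1 : ℝ)) = f ((x : ℂ) + y * I) := fun x => rfl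
  -- Fourier coefficients
  have hcoeff : ∀ m : ℤ, fourierCoeff g m = cf f m 2 * cexp (-(2 * π * m * y)) := by
    intro m
    rw [fourierCoeff_eq_intervalIntegral _ m 0, ← CFI4_indep f hf hp m y hz']
    unfold cf
    rw [← intervalIntegral.integral_mul_const]
    simp only [one_div, inv_one, one_smul, zero_add]
    apply intervalIntegral.integral_congr
    intro x _
    simp only [hgx, smul_eq_mul]
    rw [fourier_coe_apply, CFI4_exp m x y]
    have h1 : cexp (2 * π * m * y) * cexp (-(2 * π * m * y)) = 1 := by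
      rw [← Complex.exp_add, add_neg_cancel, Complex.exp_zero]
    linear_combination (-(f ((x : ℂ) + y * I)) *
      cexp (2 * π * I * ((-m : ℤ) : ℂ) * x / ((1 : ℝ) : ℂ))) * h1
  -- summability
  have hneg : ∀ m : ℤ, m ∉ Set.range ((↑) : ℕ → ℤ) → fourierCoeff g m = 0 := by
    intro m hm'
    have : m < 0 := by
      by_contra hcon
      push Not at hcon
      exact hm' ⟨m.toNat, Int.toNat_of_nonneg hcon⟩
    rw [hcoeff m, h0 m this, zero_mul]
  have hinj : Function.Injective ((↑) : ℕ → ℤ) := Nat.cast_injective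
  have hnorm_e : ∀ m : ℕ, ‖cexp (-(2 * π * ((m : ℤ) : ℂ) * y))‖ =
      Real.exp (-(2 * π * y)) ^ m := by
    intro m
    rw [Complex.norm_exp, ← Real.exp_nat_mul]
    congr 1
    have : (-(2 * (π : ℂ) * ((m : ℤ) : ℂ) * y)) = (((m : ℝ) * (-(2 * π * y)) : ℝ) : ℂ) := by
      push_cast
      ring
    rw [this, Complex.ofReal_re]
  have hsumN : Summable (fun m : ℕ => fourierCoeff g (m : ℤ)) := by
    set r : ℝ := Real.exp (-(2 * π * y)) with hr
    have hr0 : 0 < r := Real.exp_pos _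
    have hr1 : r < 1 := by
      rw [hr, Real.exp_lt_one_iff]
      have := Real.pi_pos
      have : 0 < 2 * π * y := by positivity
      linarith
    have hs : Summable (fun m : ℕ => (((m : ℝ) + 1) ^ A) * r ^ m) := by
      have h1 : Summable (fun n : ℕ => ((n : ℝ) ^ A) * r ^ n) :=
        summable_pow_mul_geometric_of_norm_lt_one A (by
          rw [Real.norm_eq_abs, abs_of_pos hr0]; exact hr1)
      have h2 : Summable (fun n : ℕ => (((n + 1 : ℕ) : ℝ) ^ A) * r ^ (n + 1)) :=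
        (summable_nat_add_iff 1).mpr h1
      have h3 := h2.mul_right r⁻¹
      refine h3.congr (fun n => ?_)
      push_cast
      rw [pow_succ]
      field_simp
    refine Summable.of_norm_bounded (g := fun m : ℕ => C * ((((m : ℝ) + 1) ^ A) * r ^ m))
      (hs.mul_left C) (fun m => ?_)
    rw [hcoeff, norm_mul, hnorm_e]
    calc ‖cf f (m : ℤ) 2‖ * r ^ m ≤ (C * ((m : ℝ) + 1) ^ A) * r ^ m :=
          mul_le_mul_of_nonneg_right (hCA m) (pow_nonneg hr0.le m)
      _ = C * ((((m : ℝ) + 1) ^ A) * r ^ m) := by ring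
  have hsum : Summable (fourierCoeff g) :=
    (hinj.summable_iff hneg).mp hsumN
  have hpt := has_pointwise_sum_fourier_series_of_summable hsum (z.re : AddCircle (1 : ℝ))
  have hfz : g (z.re : AddCircle (1 : ℝ)) = f z := by
    rw [hgx]
    congr 1
    exact Complex.re_add_im z
  rw [hfz] at hpt
  have hpt2 : HasSum (fun m : ℕ => fourierCoeff g (m : ℤ) •
      fourier (m : ℤ) (z.re : AddCircle (1 : ℝ))) (f z) := by
    have := (hinj.hasSum_iff (f := fun i : ℤ => fourierCoeff g i •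
      fourier i (z.re : AddCircle (1 : ℝ))) (a := f z) (fun m hm' => by
        show fourierCoeff g m • fourier m (z.re : AddCircle (1 : ℝ)) = 0
        rw [hneg m hm', zero_smul])).mpr hpt
    exact this
  refine hpt2.congr_fun ?_
  intro m
  rw [hcoeff, fourier_coe_apply, smul_eq_mul]
  have h1 : cexp (2 * π * I * m * z) = cexp (-(2 * π * ((m : ℤ) : ℂ) * y)) *
      cexp (2 * π * I * ((m : ℤ) : ℂ) * z.re / ((1 : ℝ) : ℂ)) := by
    rw [← Complex.exp_add]
    congr 1
    have hz2 : z = (z.re : ℂ) + y * I := (Complex.re_add_im z).symm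
    have hI : I * I = -1 := Complex.I_mul_I
    push_cast
    rw [div_one]
    linear_combination (2 * (π : ℂ) * I * m) * hz2 + (2 * (π : ℂ) * m * y) * hI
  rw [h1]
  ring

end Pool.Agent.K2
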