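import Pool.Agent.Lib_helper98.K2.Defs

set_option autoImplicit false

namespace Pool.Agent.K2

open Complex Matrix MeasureTheory
open scoped MatrixGroups Real

theorem MOB1_det (g : SL(2, ℤ)) : g 0 0 * g 1 1 - g 0 1 * g 1 0 = 1 := by
  have h := g.det_coe
  rwa [Matrix.det_fin_two] at h

theorem MOB1_detC (g : SL(2, ℤ)) :
    (g 0 0 : ℂ) * (g 1 1 : ℂ) - (g 0 1 : ℂ) * (g 1 0 : ℂ) = 1 := by
  exact_mod_cast congrArg (fun x : ℤ => (x : ℂ)) (MOB1_det g)

theorem MOB1_detR (g : SL(2, ℤ)) :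
    (g 0 0 : ℝ) * (g 1 1 : ℝ) - (g 0 1 : ℝ) * (g 1 0 : ℝ) = 1 := by
  exact_mod_cast congrArg (fun x : ℤ => (x : ℝ)) (MOB1_det g)

theorem den_ne (g : SL(2, ℤ)) {z : ℂ} (hz : z ∈ H) : den g z ≠ 0 := by
  intro h
  have hz' : 0 < z.im := hz
  have h1 : (den g z).im = (g 1 0 : ℝ) * z.im := by
    simp [den]
  rw [h] at h1
  have h2 : (g 1 0 : ℝ) = 0 := by
    rcases mul_eq_zero.1 h1.symm with h3 | h3
    · exact h3
    · exact absurd h3 hz'.ne'
  have h3 : g 1 0 = 0 := by exact_mod_cast h2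
  have h4 : (g 1 1 : ℂ) = 0 := by
    have := h
    rw [den, h3] at this
    simpa using this
  have h5 : g 1 1 = 0 := by exact_mod_cast h4
  have h6 := MOB1_det g
  rw [h3, h5] at h6
  simp at h6

theorem mob_im (g : SL(2, ℤ)) {z : ℂ} (hz : z ∈ H) :
    (mob g z).im = z.im / ‖den g z‖ ^ 2 := by
  have h1 := MOB1_detR g
  have h0 := den_ne g hz
  rw [mob, Complex.div_im, ← Complex.normSq_eq_norm_sq]
  have h2 : Complex.normSq (den g z) ≠ 0 := by
    rwa [Ne, Complex.normSq_eq_zero]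
  rw [← sub_div]
  congr 1
  simp only [den, add_im, mul_im, intCast_re, intCast_im, add_re, mul_re]
  ring_nf
  linear_combination z.im * h1

theorem mob_mem (g : SL(2, ℤ)) {z : ℂ} (hz : z ∈ H) : mob g z ∈ H := by
  show 0 < (mob g z).im
  rw [mob_im g hz]
  have h0 := den_ne g hz
  exact div_pos hz (by positivity)

theorem MOB1_mul (g h : SL(2, ℤ)) (i j : Fin 2) :
    ((g * h) i j : ℂ) = (g i 0 : ℂ) * (h 0 j : ℂ) + (g i 1 : ℂ) * (h 1 j : ℂ) := by
  have : (g * h) i j = g i 0 * h 0 j + g i 1 * h 1 j := by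
    rw [Matrix.SpecialLinearGroup.coe_mul, Matrix.mul_apply, Fin.sum_univ_two]
  rw [this]
  push_cast
  ring

theorem den_mul (g h : SL(2, ℤ)) {z : ℂ} (hz : z ∈ H) :
    den (g * h) z = den g (mob h z) * den h z := by
  have h0 := den_ne h hz
  have h1 : mob h z * den h z = (h 0 0 : ℂ) * z + (h 0 1 : ℂ) := by
    rw [mob]
    exact div_mul_cancel₀ _ h0
  have h2 : den g (mob h z) * den h z =
      (g 1 0 : ℂ) * (mob h z * den h z) + (g 1 1 : ℂ) * den h z := by
    rw [den]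
    ring
  rw [h2, h1, den, den, MOB1_mul, MOB1_mul]
  ring

theorem mob_mul (g h : SL(2, ℤ)) {z : ℂ} (hz : z ∈ H) : mob (g * h) z = mob g (mob h z) := by
  have h0 := den_ne h hz
  have h1 : mob h z * den h z = (h 0 0 : ℂ) * z + (h 0 1 : ℂ) := by
    rw [mob]
    exact div_mul_cancel₀ _ h0
  have h3 := den_ne g (mob_mem h hz)
  rw [mob, den_mul g h hz, mob.eq_1 g (mob h z), div_eq_div_iff (mul_ne_zero h3 h0) h3]
  have h4 : ((g * h) 0 0 : ℂ) * z + ((g * h) 0 1 : ℂ) =
      ((g 0 0 : ℂ) * mob h z + (g 0 1 : ℂ)) * den h z := by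
    have h2 : ((g 0 0 : ℂ) * mob h z + (g 0 1 : ℂ)) * den h z =
        (g 0 0 : ℂ) * (mob h z * den h z) + (g 0 1 : ℂ) * den h z := by ring
    rw [h2, h1, den, MOB1_mul, MOB1_mul]
    ring
  rw [h4]
  ring

theorem mob_one (z : ℂ) : mob 1 z = z := by
  simp [mob, den]

theorem den_one (z : ℂ) : den 1 z = 1 := by
  simp [den]

theorem den_neg (g : SL(2, ℤ)) (z : ℂ) : den (-g) z = -den g z := by
  simp only [den, Matrix.SpecialLinearGroup.coe_neg, Matrix.neg_apply]
  push_cast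
  ring

theorem mob_neg (g : SL(2, ℤ)) (z : ℂ) : mob (-g) z = mob g z := by
  rw [mob, den_neg, mob, ← neg_div_neg_eq]
  congr 1
  · simp only [Matrix.SpecialLinearGroup.coe_neg, Matrix.neg_apply]
    push_cast
    ring
  · ring

theorem mob_S (z : ℂ) : mob ModularGroup.S z = -1 / z := by
  simp [mob, den, ModularGroup.S]

theorem den_S (z : ℂ) : den ModularGroup.S z = z := by
  simp [den, ModularGroup.S]

theorem mob_T (z : ℂ) : mob ModularGroup.T z = z + 1 := by
  simp [mob, den, ModularGroup.T]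

theorem den_T (z : ℂ) : den ModularGroup.T z = 1 := by
  simp [den, ModularGroup.T]

theorem S_mem {z : ℂ} (hz : z ∈ H) : -1 / z ∈ H := by
  rw [← mob_S]
  exact mob_mem _ hz

theorem T_mem {z : ℂ} (hz : z ∈ H) : z + 1 ∈ H := by
  rw [← mob_T]
  exact mob_mem _ hz

theorem num_eq (g : SL(2, ℤ)) {z : ℂ} (hz : z ∈ H) : num g z = (mob g z + I) * den g z := by
  have h0 := den_ne g hz
  have h1 : mob g z * den g z = (g 0 0 : ℂ) * z + (g 0 1 : ℂ) := by
    rw [mob]
    exact div_mul_cancel₀ _ h0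
  rw [add_mul, h1, num]

theorem mob_sub (g : SL(2, ℤ)) {z w : ℂ} (hz : z ∈ H) (hw : w ∈ H) :
    mob g z - mob g w = (z - w) / (den g z * den g w) := by
  have h0 := den_ne g hz
  have h1 := den_ne g hw
  rw [mob, mob, div_sub_div _ _ h0 h1]
  congr 1
  have h2 := MOB1_detC g
  simp only [den]
  linear_combination (z - w) * h2

theorem den_diff (g : SL(2, ℤ)) : Differentiable ℂ (den g) := by
  unfold den
  fun_prop

theorem mob_diffOn (g : SL(2, ℤ)) : DifferentiableOn ℂ (mob g) H := by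
  intro z hz
  have h0 := den_ne g hz
  apply DifferentiableAt.differentiableWithinAt
  unfold mob
  exact DifferentiableAt.div (by fun_prop) (den_diff g z) h0

theorem isOpen_H : IsOpen H :=
  isOpen_lt continuous_const Complex.continuous_im

end Pool.Agent.K2
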