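import Pool.Agent.Lib_helper98.K2.Defs
import Pool.Agent.Lib_helper98.K2.W.MOB1

set_option autoImplicit false

namespace Pool.Agent.K2

open Complex Matrix MeasureTheory
open scoped MatrixGroups Real

theorem MOB2_N (z : ℂ) : ‖z‖ ^ 2 = z.re ^ 2 + z.im ^ 2 := by
  rw [Complex.sq_norm, Complex.normSq_apply]
  ring

theorem MOB2_lin (a b : ℤ) (z : ℂ) :
    ‖(a : ℂ) * z + (b : ℂ)‖ ^ 2 = ((a : ℝ) * z.re + b) ^ 2 + ((a : ℝ) * z.im) ^ 2 := by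
  rw [MOB2_N]
  simp

theorem MOB2_detR (g : SL(2, ℤ)) :
    (g 0 0 : ℝ) * (g 1 1 : ℝ) - (g 0 1 : ℝ) * (g 1 0 : ℝ) = 1 := by
  have h := g.det_coe
  rw [Matrix.det_fin_two] at h
  exact_mod_cast congrArg (fun x : ℤ => (x : ℝ)) h

theorem MOB2_low (a b : ℝ) {z : ℂ} (hz : z ∈ H) :
    (a ^ 2 + b ^ 2) / mu z ^ 2 ≤ (a * z.re + b) ^ 2 + (a * z.im) ^ 2 := by
  have hy : 0 < z.im := hz
  have hN := MOB2_N z
  have h1 : (0 : ℝ) < 1 + ‖z‖ ^ 2 := by positivity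
  have h2 : (a ^ 2 + b ^ 2) / mu z ^ 2 = (a ^ 2 + b ^ 2) * z.im ^ 2 / (1 + ‖z‖ ^ 2) ^ 2 := by
    rw [mu]
    field_simp
  set x := z.re
  set y := z.im
  rw [h2, div_le_iff₀ (by positivity)]
  rw [hN] at h1 ⊢
  have h3 : (a ^ 2 + b ^ 2) * y ^ 2 ≤
      ((a * x + b) ^ 2 + (a * y) ^ 2) * (1 + (x ^ 2 + y ^ 2)) := by
    nlinarith [sq_nonneg (a * (x ^ 2 + y ^ 2) + b * x), sq_nonneg (a * x + b)]
  have h4 : 0 ≤ (a * x + b) ^ 2 + (a * y) ^ 2 := by positivity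
  have h5 : (1 : ℝ) ≤ 1 + (x ^ 2 + y ^ 2) := by nlinarith [sq_nonneg x, sq_nonneg y]
  calc (a ^ 2 + b ^ 2) * y ^ 2 ≤ ((a * x + b) ^ 2 + (a * y) ^ 2) * (1 + (x ^ 2 + y ^ 2)) := h3
    _ ≤ ((a * x + b) ^ 2 + (a * y) ^ 2) * (1 + (x ^ 2 + y ^ 2)) * (1 + (x ^ 2 + y ^ 2)) :=
        le_mul_of_one_le_right (by positivity) h5
    _ = _ := by ring

theorem mu_ge_two {z : ℂ} (hz : z ∈ H) : 2 ≤ mu z := by
  have hy : 0 < z.im := hz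
  rw [mu, le_div_iff₀ hy, MOB2_N]
  nlinarith [sq_nonneg z.re, sq_nonneg (z.im - 1)]

theorem MOB2_pos {z : ℂ} (hz : z ∈ H) : 0 < mu z := by
  linarith [mu_ge_two hz]

theorem MOB2_npos {z : ℂ} (hz : z ∈ H) : 0 < ‖z‖ := by
  have hy : 0 < z.im := hz
  rw [norm_pos_iff]
  rintro rfl
  simp at hy

theorem MOB2_im_le {z : ℂ} (hz : z ∈ H) : z.im ≤ ‖z‖ :=
  (le_abs_self _).trans (Complex.abs_im_le_norm z)

theorem mu_S {z : ℂ} (hz : z ∈ H) : mu (-1 / z) = mu z := by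
  have hy : 0 < z.im := hz
  have hn := MOB2_npos hz
  have h1 : (-1 / z).im = z.im / ‖z‖ ^ 2 := by
    rw [Complex.div_im, ← Complex.normSq_eq_norm_sq]
    simp [neg_div]
  have h2 : ‖-1 / z‖ = 1 / ‖z‖ := by
    rw [norm_div, norm_neg, norm_one]
  rw [mu, mu, h1, h2]
  field_simp
  ring

theorem im_le_mu {z : ℂ} (hz : z ∈ H) : z.im ≤ mu z := by
  have hy : 0 < z.im := hz
  rw [mu, le_div_iff₀ hy, MOB2_N]
  nlinarith [sq_nonneg z.re]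

theorem inv_mu_le_im {z : ℂ} (hz : z ∈ H) : (mu z)⁻¹ ≤ z.im := by
  have hy : 0 < z.im := hz
  rw [mu, inv_div, div_le_iff₀ (by positivity)]
  nlinarith [mul_nonneg hy.le (sq_nonneg ‖z‖)]

theorem norm_le_mu {z : ℂ} (hz : z ∈ H) : ‖z‖ ≤ mu z := by
  have hy : 0 < z.im := hz
  have h := MOB2_im_le hz
  rw [mu, le_div_iff₀ hy]
  nlinarith [norm_nonneg z]

theorem inv_norm_le_mu {z : ℂ} (hz : z ∈ H) : ‖z‖⁻¹ ≤ mu z := by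
  have hn := MOB2_npos hz
  have h1 : -1 / z ∈ H := S_mem hz
  have h2 := norm_le_mu h1
  rw [mu_S hz, norm_div, norm_neg, norm_one, one_div] at h2
  exact h2

theorem mu_add_int {z : ℂ} (hz : z ∈ H) (m : ℤ) :
    mu (z + m) ≤ 3 * mu z * (1 + |(m : ℝ)|) ^ 2 := by
  have hy : 0 < z.im := hz
  have h1 : (z + m).im = z.im := by simp
  have h2 : ‖z + m‖ ^ 2 ≤ 2 * ‖z‖ ^ 2 + 2 * |(m : ℝ)| ^ 2 := by
    rw [MOB2_N, MOB2_N, sq_abs]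
    simp only [add_re, intCast_re, add_im, intCast_im, add_zero]
    nlinarith [sq_nonneg (z.re - m), sq_nonneg z.im]
  rw [mu, mu, h1]
  have h3 : 3 * ((1 + ‖z‖ ^ 2) / z.im) * (1 + |(m : ℝ)|) ^ 2 =
      (3 * (1 + ‖z‖ ^ 2) * (1 + |(m : ℝ)|) ^ 2) / z.im := by ring
  rw [h3]
  apply div_le_div_of_nonneg_right _ hy.le
  have h4 : 0 ≤ |(m : ℝ)| := abs_nonneg _
  have h5 : 0 ≤ ‖z‖ ^ 2 := by positivity
  nlinarith [mul_nonneg h4 h5, mul_nonneg (sq_nonneg |(m : ℝ)|) h5, sq_nonneg |(m : ℝ)|]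

theorem MOB2_sz_pos (g : SL(2, ℤ)) : 0 ≤ sz g := by
  unfold sz
  positivity

theorem MOB2_int {m : ℤ} (h : |(m : ℝ)| < 1) : m = 0 := by
  have : |m| < 1 := by exact_mod_cast h
  exact Int.abs_lt_one_iff.1 this

theorem sz_ge (g : SL(2, ℤ)) : 1 ≤ sz g := by
  by_contra h
  push Not at h
  have hd := g.det_coe
  rw [Matrix.det_fin_two] at hd
  unfold sz at h
  have p0 := abs_nonneg (g 0 0 : ℝ)
  have p1 := abs_nonneg (g 0 1 : ℝ)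
  have p2 := abs_nonneg (g 1 0 : ℝ)
  have p3 := abs_nonneg (g 1 1 : ℝ)
  have a : g 0 0 = 0 := MOB2_int (by linarith)
  have b : g 0 1 = 0 := MOB2_int (by linarith)
  rw [a, b] at hd
  simp at hd

theorem sz_inv (g : SL(2, ℤ)) : sz g⁻¹ = sz g := by
  have h : (g⁻¹ : SL(2, ℤ)).1 = !![g 1 1, -g 0 1; -g 1 0, g 0 0] := by
    rw [Matrix.SpecialLinearGroup.coe_inv, Matrix.adjugate_fin_two]
  have h00 : g⁻¹ 0 0 = g 1 1 := by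
    show (g⁻¹ : SL(2, ℤ)).1 0 0 = _
    rw [h]; rfl
  have h01 : g⁻¹ 0 1 = -g 0 1 := by
    show (g⁻¹ : SL(2, ℤ)).1 0 1 = _
    rw [h]; rfl
  have h10 : g⁻¹ 1 0 = -g 1 0 := by
    show (g⁻¹ : SL(2, ℤ)).1 1 0 = _
    rw [h]; rfl
  have h11 : g⁻¹ 1 1 = g 0 0 := by
    show (g⁻¹ : SL(2, ℤ)).1 1 1 = _
    rw [h]; rfl
  unfold sz
  rw [h00, h01, h10, h11]
  push_cast
  rw [abs_neg, abs_neg]
  ring

theorem MOB2_mulR (g h : SL(2, ℤ)) (i j : Fin 2) :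
    ((g * h) i j : ℝ) = (g i 0 : ℝ) * (h 0 j : ℝ) + (g i 1 : ℝ) * (h 1 j : ℝ) := by
  have : (g * h) i j = g i 0 * h 0 j + g i 1 * h 1 j := by
    rw [Matrix.SpecialLinearGroup.coe_mul, Matrix.mul_apply, Fin.sum_univ_two]
  rw [this]
  push_cast
  ring

theorem MOB2_abs (a b c d : ℝ) : |a * b + c * d| ≤ |a| * |b| + |c| * |d| := by
  rw [← abs_mul, ← abs_mul]
  exact abs_add_le _ _

theorem sz_mul (g h : SL(2, ℤ)) : sz (g * h) ≤ sz g * sz h := by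
  unfold sz
  rw [MOB2_mulR, MOB2_mulR, MOB2_mulR, MOB2_mulR]
  have e1 := MOB2_abs (g 0 0) (h 0 0) (g 0 1) (h 1 0)
  have e2 := MOB2_abs (g 0 0) (h 0 1) (g 0 1) (h 1 1)
  have e3 := MOB2_abs (g 1 0) (h 0 0) (g 1 1) (h 1 0)
  have e4 := MOB2_abs (g 1 0) (h 0 1) (g 1 1) (h 1 1)
  have p0 := abs_nonneg (g 0 0 : ℝ)
  have p1 := abs_nonneg (g 0 1 : ℝ)
  have p2 := abs_nonneg (g 1 0 : ℝ)
  have p3 := abs_nonneg (g 1 1 : ℝ)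
  have q0 := abs_nonneg (h 0 0 : ℝ)
  have q1 := abs_nonneg (h 0 1 : ℝ)
  have q2 := abs_nonneg (h 1 0 : ℝ)
  have q3 := abs_nonneg (h 1 1 : ℝ)
  nlinarith [mul_nonneg p0 q2, mul_nonneg p0 q3, mul_nonneg p1 q0, mul_nonneg p1 q1,
    mul_nonneg p2 q2, mul_nonneg p2 q3, mul_nonneg p3 q0, mul_nonneg p3 q1]

theorem MOB2_sumsq (g : SL(2, ℤ)) :
    (g 0 0 : ℝ) ^ 2 + (g 0 1 : ℝ) ^ 2 + ((g 1 0 : ℝ) ^ 2 + (g 1 1 : ℝ) ^ 2) ≤ sz g ^ 2 := by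
  unfold sz
  have p0 := abs_nonneg (g 0 0 : ℝ)
  have p1 := abs_nonneg (g 0 1 : ℝ)
  have p2 := abs_nonneg (g 1 0 : ℝ)
  have p3 := abs_nonneg (g 1 1 : ℝ)
  rw [← sq_abs (g 0 0 : ℝ), ← sq_abs (g 0 1 : ℝ), ← sq_abs (g 1 0 : ℝ), ← sq_abs (g 1 1 : ℝ)]
  nlinarith [mul_nonneg p0 p1, mul_nonneg p0 p2, mul_nonneg p0 p3, mul_nonneg p1 p2,
    mul_nonneg p1 p3, mul_nonneg p2 p3]

theorem MOB2_sumsq' (g : SL(2, ℤ)) :
    sz g ^ 2 ≤ 4 * ((g 0 0 : ℝ) ^ 2 + (g 0 1 : ℝ) ^ 2 + ((g 1 0 : ℝ) ^ 2 + (g 1 1 : ℝ) ^ 2)) := by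
  unfold sz
  rw [← sq_abs (g 0 0 : ℝ), ← sq_abs (g 0 1 : ℝ), ← sq_abs (g 1 0 : ℝ), ← sq_abs (g 1 1 : ℝ)]
  set a := |(g 0 0 : ℝ)|
  set b := |(g 0 1 : ℝ)|
  set c := |(g 1 0 : ℝ)|
  set d := |(g 1 1 : ℝ)|
  nlinarith [sq_nonneg (a - b), sq_nonneg (a - c), sq_nonneg (a - d), sq_nonneg (b - c),
    sq_nonneg (b - d), sq_nonneg (c - d)]

theorem MOB2_cs (a b x y : ℝ) :
    (a * x + b) ^ 2 + (a * y) ^ 2 ≤ (a ^ 2 + b ^ 2) * (1 + (x ^ 2 + y ^ 2)) := by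
  nlinarith [sq_nonneg (a - b * x), sq_nonneg (b * y)]

theorem mu_mob_le (g : SL(2, ℤ)) {z : ℂ} (hz : z ∈ H) : mu (mob g z) ≤ sz g ^ 2 * mu z := by
  have hy : 0 < z.im := hz
  have h0 := den_ne g hz
  have h0' : 0 < ‖den g z‖ := norm_pos_iff.2 h0
  have h1 : ‖mob g z‖ = ‖(g 0 0 : ℂ) * z + (g 0 1 : ℂ)‖ / ‖den g z‖ := by
    rw [mob, norm_div]
  have h2 : mu (mob g z) =
      (‖(g 0 0 : ℂ) * z + (g 0 1 : ℂ)‖ ^ 2 + ‖(g 1 0 : ℂ) * z + (g 1 1 : ℂ)‖ ^ 2) / z.im := by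
    have h3 : ‖(g 1 0 : ℂ) * z + (g 1 1 : ℂ)‖ = ‖den g z‖ := rfl
    rw [mu, mob_im g hz, h1, h3]
    have h4 : ‖den g z‖ ≠ 0 := h0'.ne'
    field_simp
    ring
  rw [h2, mu, ← mul_div_assoc]
  apply div_le_div_of_nonneg_right _ hy.le
  rw [MOB2_lin, MOB2_lin, MOB2_N z]
  have e1 := MOB2_cs (g 0 0) (g 0 1) z.re z.im
  have e2 := MOB2_cs (g 1 0) (g 1 1) z.re z.im
  have e3 := MOB2_sumsq g
  have e4 : (0 : ℝ) ≤ 1 + (z.re ^ 2 + z.im ^ 2) := by positivity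
  nlinarith [mul_le_mul_of_nonneg_right e3 e4]

theorem MOB2_num (g : SL(2, ℤ)) (z : ℂ) :
    ‖num g z‖ ^ 2 = ((g 0 0 : ℝ) * z.re + g 0 1) ^ 2 + ((g 0 0 : ℝ) * z.im) ^ 2 +
      (((g 1 0 : ℝ) * z.re + g 1 1) ^ 2 + ((g 1 0 : ℝ) * z.im) ^ 2) + 2 * z.im := by
  have h := MOB2_detR g
  rw [MOB2_N]
  simp only [num, den, add_re, mul_re, intCast_re, intCast_im, add_im, mul_im, I_re, I_im]
  linear_combination (2 * z.im) * h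

theorem num_ge_one (g : SL(2, ℤ)) {z : ℂ} (hz : z ∈ H) : 2 * z.im ≤ ‖num g z‖ ^ 2 := by
  rw [MOB2_num]
  have : 0 ≤ ((g 0 0 : ℝ) * z.re + g 0 1) ^ 2 + ((g 0 0 : ℝ) * z.im) ^ 2 +
      (((g 1 0 : ℝ) * z.re + g 1 1) ^ 2 + ((g 1 0 : ℝ) * z.im) ^ 2) := by positivity
  linarith

theorem num_ge (g : SL(2, ℤ)) {z : ℂ} (hz : z ∈ H) : sz g / (2 * mu z) ≤ ‖num g z‖ := by
  have hy : 0 < z.im := hz
  have hm := MOB2_pos hz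
  have h1 := MOB2_low (g 0 0) (g 0 1) hz
  have h2 := MOB2_low (g 1 0) (g 1 1) hz
  have h3 := MOB2_sumsq' g
  have hs := MOB2_sz_pos g
  apply le_of_sq_le_sq _ (norm_nonneg _)
  rw [MOB2_num]
  have h4 : (sz g / (2 * mu z)) ^ 2 ≤ ((g 0 0 : ℝ) ^ 2 + (g 0 1 : ℝ) ^ 2) / mu z ^ 2 +
      ((g 1 0 : ℝ) ^ 2 + (g 1 1 : ℝ) ^ 2) / mu z ^ 2 := by
    rw [← add_div, div_pow, div_le_div_iff₀ (by positivity) (by positivity)]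
    nlinarith [mul_le_mul_of_nonneg_right h3 (sq_nonneg (mu z))]
  linarith

theorem den_le (g : SL(2, ℤ)) {z : ℂ} (hz : z ∈ H) : ‖den g z‖ ≤ sz g * mu z := by
  have hm := mu_ge_two hz
  have hn := norm_le_mu hz
  have p0 := abs_nonneg (g 0 0 : ℝ)
  have p1 := abs_nonneg (g 0 1 : ℝ)
  have p2 := abs_nonneg (g 1 0 : ℝ)
  have p3 := abs_nonneg (g 1 1 : ℝ)
  calc ‖den g z‖ ≤ ‖(g 1 0 : ℂ) * z‖ + ‖(g 1 1 : ℂ)‖ := norm_add_le _ _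
    _ = |(g 1 0 : ℝ)| * ‖z‖ + |(g 1 1 : ℝ)| := by
        rw [norm_mul, Complex.norm_intCast, Complex.norm_intCast]
    _ ≤ sz g * mu z := by
        unfold sz
        nlinarith [mul_le_mul_of_nonneg_left hn p2, mul_nonneg p0 (by linarith : 0 ≤ mu z),
          mul_nonneg p1 (by linarith : 0 ≤ mu z),
          mul_nonneg p3 (by linarith : 0 ≤ mu z - 1)]

theorem den_ge (g : SL(2, ℤ)) {z : ℂ} (hz : z ∈ H) : (mu z)⁻¹ ≤ ‖den g z‖ := by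
  have hm := MOB2_pos hz
  have h2 := MOB2_low (g 1 0) (g 1 1) hz
  apply le_of_sq_le_sq _ (norm_nonneg _)
  rw [den, MOB2_lin]
  refine le_trans ?_ h2
  rw [inv_pow, ← one_div]
  apply div_le_div_of_nonneg_right _ (by positivity)
  have h3 : (1 : ℤ) ≤ g 1 0 ^ 2 + g 1 1 ^ 2 := by
    by_contra h
    push Not at h
    have e0 : g 1 0 ^ 2 = 0 := by nlinarith [sq_nonneg (g 1 0), sq_nonneg (g 1 1)]
    have e1 : g 1 1 ^ 2 = 0 := by nlinarith [sq_nonneg (g 1 0), sq_nonneg (g 1 1)]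
    have hd := g.det_coe
    rw [Matrix.det_fin_two, pow_eq_zero_iff (two_ne_zero) |>.1 e0,
      pow_eq_zero_iff (two_ne_zero) |>.1 e1] at hd
    simp at hd
  exact_mod_cast h3

end Pool.Agent.K2
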