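import Pool.Agent.Lib_helper98.K2.Defs
import Pool.Agent.Lib_helper98.K2.W.MOB1
import Pool.Agent.Lib_helper98.K2.W.MOB2

set_option autoImplicit false

namespace Pool.Agent.K2

open Complex Matrix MeasureTheory
open scoped MatrixGroups Real

/-! Dedekind eta function; see `Mathlib.NumberTheory.ModularForms.DedekindEta`,
`Mathlib.NumberTheory.ModularForms.Discriminant`. -/

theorem et_ne {z : ℂ} (hz : z ∈ H) : et z ≠ 0 := ModularForm.eta_ne_zero hz

theorem et_diffOn : DifferentiableOn ℂ et H := fun _ hz =>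
  (ModularForm.differentiableAt_eta_of_mem_upperHalfPlaneSet hz).differentiableWithinAt

theorem et_T {z : ℂ} (_hz : z ∈ H) : et (z + 1) = cexp (π * I / 12) * et z := by
  have h1 : ∀ n : ℕ, ModularForm.eta_q n (z + 1) = ModularForm.eta_q n z := by
    intro n
    rw [ModularForm.eta_q_eq_pow, ModularForm.eta_q_eq_pow]
    congr 1
    rw [show 2 * (π : ℂ) * I * (z + 1) = 2 * π * I * z + 2 * π * I by ring]
    exact Complex.exp_periodic _
  unfold et ModularForm.eta
  rw [show (∏' n, (1 - ModularForm.eta_q n (z + 1))) = ∏' n, (1 - ModularForm.eta_q n z) from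
    tprod_congr fun n => by rw [h1], ← mul_assoc]
  congr 1
  simp only [Function.Periodic.qParam]
  rw [← Complex.exp_add]
  congr 1
  push_cast
  ring

theorem et_T_pow (d : ℕ) {z : ℂ} (hz : z ∈ H) : et (z + 1) ^ d = thi d * et z ^ d := by
  rw [et_T hz, mul_pow, ← Complex.exp_nat_mul]
  unfold thi
  congr 2
  ring

/-- `η(-1/z) = (z/i)^(1/2) η(z)` -/
theorem et_S {z : ℂ} (hz : z ∈ H) : et (-1 / z) = (-I * z) ^ (1 / 2 : ℂ) * et z := by
  have hz' : 0 < z.im := hz
  have hz0 : z ≠ 0 := fun h => by simp [h] at hz'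
  have h := ModularForm.eta_comp_eq_csqrt_I_inv hz
  simp only [Function.comp, Pi.smul_apply, Pi.mul_apply, smul_eq_mul] at h
  unfold et
  rw [h, ← mul_assoc]
  congr 1
  have hI : (I : ℂ) ≠ 0 := I_ne_zero
  have hnI : (-I : ℂ) ≠ 0 := neg_ne_zero.mpr I_ne_zero
  have harg0 : 0 ≤ arg z := Complex.arg_nonneg_iff.mpr hz'.le
  have harg1 : arg z ≤ π := Complex.arg_le_pi z
  have hlog : Complex.log (-I * z) = Complex.log (-I) + Complex.log z := by
    rw [Complex.log_mul_eq_add_log_iff hnI hz0]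
    rw [Complex.arg_neg_I]
    constructor <;> linarith [Real.pi_pos]
  rw [sqrt_eq_exp hI, sqrt_eq_exp hz0, ← Complex.exp_neg, ← Complex.exp_add,
    Complex.cpow_def_of_ne_zero (mul_ne_zero hnI hz0), hlog]
  congr 1
  rw [Complex.log_neg_I, Complex.log_I]
  ring

theorem Jd_cpow (d : ℕ) {z : ℂ} (hz : z ∈ H) : Jd d z = (-I * z) ^ ((d : ℂ) / 2) := by
  unfold Jd
  rw [et_S hz, mul_div_assoc, div_self (et_ne hz), mul_one, ← Complex.cpow_mul_nat]
  congr 1
  ring

theorem Jd_norm (d : ℕ) {z : ℂ} (hz : z ∈ H) : ‖Jd d z‖ = ‖z‖ ^ ((d : ℝ) / 2) := by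
  have hz' : 0 < z.im := hz
  have hz0 : z ≠ 0 := fun h => by simp [h] at hz'
  have hnI : (-I : ℂ) ≠ 0 := neg_ne_zero.mpr I_ne_zero
  rw [Jd_cpow d hz, Complex.norm_cpow_of_ne_zero (mul_ne_zero hnI hz0)]
  have h1 : ((d : ℂ) / 2).re = (d : ℝ) / 2 := by
    have : ((d : ℂ) / 2) = (((d : ℝ) / 2 : ℝ) : ℂ) := by push_cast; ring
    rw [this, Complex.ofReal_re]
  have h2 : ((d : ℂ) / 2).im = 0 := by
    have : ((d : ℂ) / 2) = (((d : ℝ) / 2 : ℝ) : ℂ) := by push_cast; ring
    rw [this, Complex.ofReal_im]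
  rw [h1, h2, mul_zero, Real.exp_zero, div_one, norm_mul, norm_neg, Complex.norm_I, one_mul]

theorem Jd_ne (d : ℕ) {z : ℂ} (hz : z ∈ H) : Jd d z ≠ 0 := by
  unfold Jd
  exact pow_ne_zero _ (div_ne_zero (et_ne (S_mem hz)) (et_ne hz))

theorem neg_inv_diffOn : DifferentiableOn ℂ (fun z : ℂ => -1 / z) H := by
  intro z hz
  have hz' : 0 < z.im := hz
  have hz0 : z ≠ 0 := fun h => by simp [h] at hz'
  exact (DifferentiableAt.div (differentiableAt_const _) differentiableAt_id
    hz0).differentiableWithinAt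

theorem Jd_diffOn (d : ℕ) : DifferentiableOn ℂ (Jd d) H := by
  unfold Jd
  apply DifferentiableOn.pow
  apply DifferentiableOn.div
  · exact et_diffOn.comp neg_inv_diffOn (fun z hz => S_mem hz)
  · exact et_diffOn
  · intro z hz
    exact et_ne hz

theorem neg_inv_neg_inv (z : ℂ) : -1 / (-1 / z) = z := by
  by_cases h : z = 0
  · simp [h]
  · field_simp

theorem Jd_mul (d : ℕ) {z : ℂ} (hz : z ∈ H) : Jd d z * Jd d (-1 / z) = 1 := by
  unfold Jd
  rw [neg_inv_neg_inv, ← mul_pow, div_mul_div_comm, mul_comm (et z),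
    div_self (mul_ne_zero (et_ne (S_mem hz)) (et_ne hz)), one_pow]

theorem Jd_T (d : ℕ) {z : ℂ} (hz : z ∈ H) :
    Jd d z * Jd d (-1 / z - 1) = cc d * Jd d (z + 1) := by
  have hz' : 0 < z.im := hz
  have hz0 : z ≠ 0 := fun h => by simp [h] at hz'
  have hT : z + 1 ∈ H := T_mem hz
  have hz1 : z + 1 ≠ 0 := by
    intro h
    have : 0 < (z + 1).im := hT
    rw [h] at this
    simp at this
  have hS := S_mem hz
  have hST := S_mem hT
  have hw : -1 / z - 1 ∈ H := by
    have : 0 < (-1 / z).im := hS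
    show 0 < (-1 / z - 1).im
    simpa using this
  have h1 : -1 / (-1 / z - 1) = -1 / (z + 1) + 1 := by
    have h2 : -1 / z - 1 ≠ 0 := by
      intro h
      have : 0 < (-1 / z - 1).im := hw
      rw [h] at this
      simp at this
    rw [div_add_one hz1, div_eq_div_iff h2 hz1]
    field_simp
    ring
  have e1 : et (-1 / (-1 / z - 1)) = cexp (π * I / 12) * et (-1 / (z + 1)) := by
    rw [h1, et_T hST]
  have e2 : et (-1 / z) = cexp (π * I / 12) * et (-1 / z - 1) := by
    have := et_T hw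
    rwa [sub_add_cancel] at this
  have e3 : et (z + 1) = cexp (π * I / 12) * et z := et_T hz
  have hc : cc d = (cexp (π * I / 12) ^ 3) ^ d := by
    unfold cc
    rw [← Complex.exp_nat_mul, ← Complex.exp_nat_mul]
    congr 1
    push_cast
    ring
  unfold Jd
  rw [hc, ← mul_pow, ← mul_pow]
  congr 1
  have n1 := et_ne hz
  have n2 := et_ne hw
  have n3 := Complex.exp_ne_zero (π * I / 12)
  rw [e1, e2, e3, mul_comm (cexp (π * I / 12)) (et (-1 / z - 1)), mul_comm (cexp (π * I / 12)) (et z)]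
  generalize et (-1 / z - 1) = A at *
  generalize et (-1 / (z + 1)) = B at *
  generalize et z = D at *
  generalize cexp (π * I / 12) = E at *
  field_simp

/-- at the cusp -/
theorem et_cusp : ∃ C : ℝ, 0 < C ∧ ∀ z ∈ H, 1 / 4 ≤ z.im →
    ‖et z‖ ≤ C * Real.exp (-(2 * π * (z.im / 24))) ∧
    Real.exp (-(2 * π * (z.im / 24))) ≤ C * ‖et z‖ := by
  set r : ℝ := Real.exp (-(π / 2)) with hr
  have hr1 : r < 1 := by
    rw [hr, Real.exp_lt_one_iff]
    linarith [Real.pi_pos]
  have hsub : Metric.closedBall (0 : ℂ) r ⊆ Metric.ball 0 1 := Metric.closedBall_subset_ball hr1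
  have hcont : ContinuousOn (fun q : ℂ => ∏' n : ℕ, (1 - q ^ (n + 1))) (Metric.closedBall 0 r) :=
    (ModularForm.differentiableOn_tprod_one_sub_pow.mono hsub).continuousOn
  have hne : ∀ q ∈ Metric.closedBall (0 : ℂ) r, (∏' n : ℕ, (1 - q ^ (n + 1))) ≠ 0 := by
    intro q hq
    have hq1 : ‖q‖ < 1 := by simpa using hsub hq
    have hs : Summable fun n : ℕ => ‖-q ^ (n + 1)‖ := by
      simpa using (summable_nat_add_iff 1).mpr (summable_geometric_of_lt_one (norm_nonneg _) hq1)
    have := tprod_one_add_ne_zero_of_summable (f := fun n : ℕ => -q ^ (n + 1)) (fun n => by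
      have h3 : ‖q ^ (n + 1)‖ < 1 := by
        rw [norm_pow]
        exact pow_lt_one₀ (norm_nonneg _) hq1 (Nat.succ_ne_zero n)
      intro h4
      have : q ^ (n + 1) = 1 := by
        have : 1 - q ^ (n + 1) = 0 := by simpa [sub_eq_add_neg] using h4
        exact (sub_eq_zero.mp this).symm
      rw [this] at h3
      simp at h3) hs
    simpa [sub_eq_add_neg] using this
  have hcomp : IsCompact (Metric.closedBall (0 : ℂ) r) := isCompact_closedBall 0 r
  obtain ⟨C1, hC1⟩ := hcomp.exists_bound_of_continuousOn hcont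
  obtain ⟨C2, hC2⟩ := hcomp.exists_bound_of_continuousOn (hcont.inv₀ hne)
  refine ⟨max 1 (max C1 C2), lt_of_lt_of_le one_pos (le_max_left _ _), ?_⟩
  intro z hz hy
  have hq : cexp (2 * π * I * z) ∈ Metric.closedBall (0 : ℂ) r := by
    rw [mem_closedBall_zero_iff, Complex.norm_exp, hr]
    apply Real.exp_le_exp.mpr
    have : (2 * (π : ℂ) * I * z).re = -(2 * π * z.im) := by
      simp [Complex.mul_re, Complex.mul_im]
    rw [this]
    nlinarith [Real.pi_pos]
  have h24 : ‖Function.Periodic.qParam 24 z‖ = Real.exp (-(2 * π * (z.im / 24))) := by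
    simp only [Function.Periodic.qParam, Complex.norm_exp]
    congr 1
    have : (2 * (π : ℂ) * I * z / ((24 : ℝ) : ℂ)) = ((1 / 24 : ℝ) : ℂ) * (2 * (π : ℂ) * I * z) := by
      push_cast
      ring
    rw [this, Complex.re_ofReal_mul]
    simp [Complex.mul_re, Complex.mul_im]
    ring
  have heta : et z = Function.Periodic.qParam 24 z *
      ∏' n : ℕ, (1 - (cexp (2 * π * I * z)) ^ (n + 1)) := by
    unfold et ModularForm.eta
    congr 1
    exact tprod_congr fun n => by rw [ModularForm.eta_q_eq_pow]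
  have b1 := hC1 _ hq
  have b2 := hC2 _ hq
  have hne1 := hne _ hq
  set P := ∏' n : ℕ, (1 - (cexp (2 * π * I * z)) ^ (n + 1)) with hP
  have hPpos : 0 < ‖P‖ := norm_pos_iff.mpr hne1
  have hE := Real.exp_pos (-(2 * π * (z.im / 24)))
  constructor
  · rw [heta, norm_mul, h24, mul_comm]
    exact mul_le_mul_of_nonneg_right (b1.trans ((le_max_left _ _).trans (le_max_right _ _))) hE.le
  · rw [heta, norm_mul, h24]
    have h5 : 1 ≤ max 1 (max C1 C2) * ‖P‖ := by
      have h6 : ‖P‖⁻¹ ≤ max 1 (max C1 C2) := by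
        rw [← norm_inv]
        exact b2.trans ((le_max_right _ _).trans (le_max_right _ _))
      calc (1 : ℝ) = ‖P‖⁻¹ * ‖P‖ := (inv_mul_cancel₀ hPpos.ne').symm
        _ ≤ _ := mul_le_mul_of_nonneg_right h6 hPpos.le
    calc Real.exp (-(2 * π * (z.im / 24))) = Real.exp (-(2 * π * (z.im / 24))) * 1 := by ring
      _ ≤ Real.exp (-(2 * π * (z.im / 24))) * (max 1 (max C1 C2) * ‖P‖) :=
        mul_le_mul_of_nonneg_left h5 hE.le
      _ = _ := by ring

theorem Del_ne {z : ℂ} (hz : z ∈ H) : Del z ≠ 0 := pow_ne_zero _ (et_ne hz)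

theorem Del_diffOn : DifferentiableOn ℂ Del H := et_diffOn.pow 24

theorem Del_mob (g : SL(2, ℤ)) {z : ℂ} (hz : z ∈ H) : Del (mob g z) = den g z ^ 12 * Del z := by
  have h := SlashInvariantForm.slash_action_generators_SL2Z
    ModularForm.discriminant_S_invariant ModularForm.discriminant_T_invariant g
  have h2 := congrFun h ⟨z, hz⟩
  rw [ModularForm.SL_slash_apply] at h2
  have h3 : ((g • (⟨z, hz⟩ : UpperHalfPlane) : UpperHalfPlane) : ℂ) = mob g z := by
    rw [UpperHalfPlane.coe_specialLinearGroup_apply]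
    simp [mob, den]
  have h4 : UpperHalfPlane.denom (g : GL (Fin 2) ℝ) ((⟨z, hz⟩ : UpperHalfPlane) : ℂ) = den g z := by
    simp [UpperHalfPlane.denom, den]
  rw [h4] at h2
  simp only [ModularForm.discriminant] at h2
  rw [h3] at h2
  have hd := den_ne g hz
  unfold Del et
  rw [← h2, _root_.zpow_neg]
  have h5 : (den g z) ^ (12 : ℤ) = den g z ^ 12 := by norm_cast
  rw [h5]
  field_simp

theorem Q_mob (n : ℕ) (g : SL(2, ℤ)) {z : ℂ} (hz : z ∈ H) :
    Q n (mob g z) = Del z ^ n * num g z ^ (12 * n) := by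
  unfold Q
  rw [Del_mob g hz, num_eq g hz, mul_pow, mul_pow (mob g z + I), ← pow_mul]
  ring

theorem Q_ne (n : ℕ) {z : ℂ} (hz : z ∈ H) : Q n z ≠ 0 := by
  unfold Q
  have hz' : 0 < z.im := hz
  refine mul_ne_zero (pow_ne_zero _ (Del_ne hz)) (pow_ne_zero _ ?_)
  intro h
  have : (z + I).im = 0 := by rw [h]; simp
  simp at this
  linarith

theorem Q_diffOn (n : ℕ) : DifferentiableOn ℂ (Q n) H := by
  unfold Q
  exact (Del_diffOn.pow n).mul ((differentiableOn_id.add_const _).pow _)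

end Pool.Agent.K2
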