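import Pool.Agent.Lib_helper98.K2.Defs
import Pool.Agent.Lib_helper98.K2.W.MOB1
import Pool.Agent.Lib_helper98.K2.W.MOB2
import Pool.Agent.Lib_helper98.K2.W.ETA1

set_option autoImplicit false

namespace Pool.Agent.K2

open Complex Matrix MeasureTheory
open scoped MatrixGroups Real

theorem DATA_ne {z : ℂ} (hz : z ∈ H) : z ≠ 0 := by
  rintro rfl
  simp [H] at hz

theorem DATA_SS {z : ℂ} (hz : z ∈ H) : -1 / (-1 / z) = z := by
  have := DATA_ne hz
  field_simp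

theorem DATA_sub_mem {z : ℂ} (hz : z ∈ H) : z - 1 ∈ H := by
  have h : 0 < z.im := hz
  show 0 < (z - 1).im
  simpa using h

/-- `|1 - e^w| ≤ |w|` in the left half plane -/
theorem DATA_exp {w : ℂ} (hw : w.re ≤ 0) : ‖1 - cexp w‖ ≤ ‖w‖ := by
  have hconv : Convex ℝ {x : ℂ | x.re ≤ 0} := convex_halfSpace_re_le 0
  have h := hconv.norm_image_sub_le_of_norm_hasDerivWithin_le (f := cexp) (f' := cexp) (C := 1)
    (x := 0) (y := w) (fun x _ => (Complex.hasDerivAt_exp x).hasDerivWithinAt)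
    (fun x hx => by
      rw [Complex.norm_exp]
      exact Real.exp_le_one_iff.mpr hx) (by simp) hw
  rw [Complex.exp_zero, sub_zero, one_mul] at h
  rwa [norm_sub_rev]

theorem DATA_e1 (r : ℝ) {z : ℂ} (hz : z ∈ H) : ‖cexp (π * I * r ^ 2 * z)‖ ≤ 1 := by
  rw [Complex.norm_exp]
  apply Real.exp_le_one_iff.mpr
  have h : (π * I * r ^ 2 * z : ℂ).re = -(π * r ^ 2 * z.im) := by
    have : (π * I * r ^ 2 * z : ℂ) = ((π * r ^ 2 : ℝ) : ℂ) * (I * z) := by push_cast; ring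
    rw [this, Complex.re_ofReal_mul]
    simp
  rw [h]
  have : 0 < z.im := hz
  have := Real.pi_pos
  have : 0 ≤ π * r ^ 2 * z.im := by positivity
  linarith

theorem DATA_re (z : ℂ) : (2 * π * I * z : ℂ).re = -(2 * π * z.im) := by
  have : (2 * π * I * z : ℂ) = ((2 * π : ℝ) : ℂ) * (I * z) := by push_cast; ring
  rw [this, Complex.re_ofReal_mul]
  simp

theorem ee_diff (r : ℝ) : Differentiable ℂ (ee r) := by
  unfold ee
  fun_prop

theorem ee_T (r : ℝ) (z : ℂ) : ee r (z + 1) = cexp (π * I * r ^ 2) * ee r z := by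
  unfold ee
  rw [mul_add, mul_add, Complex.exp_add, Complex.exp_add, mul_one, mul_one, Complex.exp_two_pi_mul_I]
  ring

theorem ee_le (r : ℝ) {z : ℂ} (hz : z ∈ H) : ‖ee r z‖ ≤ 2 := by
  unfold ee
  rw [norm_mul]
  have h1 := DATA_e1 r hz
  have h2 : ‖(1 : ℂ) - cexp (2 * π * I * z)‖ ≤ 2 := by
    refine (norm_sub_le _ _).trans ?_
    have : ‖cexp (2 * π * I * z)‖ ≤ 1 := by
      rw [Complex.norm_exp, DATA_re]
      apply Real.exp_le_one_iff.mpr
      have : 0 < z.im := hz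
      have := Real.pi_pos
      have : 0 ≤ 2 * π * z.im := by positivity
      linarith
    simp only [norm_one]
    linarith
  calc ‖cexp (π * I * r ^ 2 * z)‖ * ‖(1 : ℂ) - cexp (2 * π * I * z)‖ ≤ 1 * 2 :=
        mul_le_mul h1 h2 (norm_nonneg _) zero_le_one
    _ = 2 := by norm_num

/-- the zero of `1 - q` at `0` -/
theorem ee_S_le (d : ℕ) (r : ℝ) {z : ℂ} (hz : z ∈ H) :
    ‖(Jd d z)⁻¹ * ee r (-1 / z)‖ ≤ 2 * π * ‖z‖ ^ (-((d : ℝ) / 2) - 1) := by
  have hz0 := DATA_ne hz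
  have hS := S_mem hz
  have hzp : 0 < ‖z‖ := norm_pos_iff.mpr hz0
  rw [norm_mul, norm_inv, Jd_norm d hz]
  have h2 : ‖ee r (-1 / z)‖ ≤ 2 * π * ‖z‖⁻¹ := by
    unfold ee
    rw [norm_mul]
    have h1 := DATA_e1 r hS
    have h3 : ‖(1 : ℂ) - cexp (2 * π * I * (-1 / z))‖ ≤ 2 * π * ‖z‖⁻¹ := by
      refine (DATA_exp ?_).trans ?_
      · rw [DATA_re]
        have : 0 < (-1 / z).im := hS
        have := Real.pi_pos
        have : 0 ≤ 2 * π * (-1 / z).im := by positivity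
        linarith
      · rw [norm_mul, norm_mul, norm_mul, norm_div, norm_neg, norm_one, Complex.norm_I,
          Complex.norm_real, Real.norm_of_nonneg Real.pi_pos.le]
        simp
    calc ‖cexp (π * I * r ^ 2 * (-1 / z))‖ * ‖(1 : ℂ) - cexp (2 * π * I * (-1 / z))‖
        ≤ 1 * (2 * π * ‖z‖⁻¹) := mul_le_mul h1 h3 (norm_nonneg _) zero_le_one
      _ = _ := by ring
  have h4 : ‖z‖ ^ (-((d : ℝ) / 2) - 1) = (‖z‖ ^ ((d : ℝ) / 2))⁻¹ * ‖z‖⁻¹ := by
    rw [Real.rpow_sub hzp, Real.rpow_neg hzp.le, Real.rpow_one]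
    rfl
  rw [h4]
  have h5 : 0 ≤ (‖z‖ ^ ((d : ℝ) / 2))⁻¹ := by positivity
  calc (‖z‖ ^ ((d : ℝ) / 2))⁻¹ * ‖ee r (-1 / z)‖ ≤ (‖z‖ ^ ((d : ℝ) / 2))⁻¹ * (2 * π * ‖z‖⁻¹) :=
        mul_le_mul_of_nonneg_left h2 h5
    _ = _ := by ring

theorem DATA_diffS : DifferentiableOn ℂ (fun z : ℂ => -1 / z) H := by
  intro z hz
  exact ((differentiableAt_const _).div differentiableAt_id (DATA_ne hz)).differentiableWithinAt

theorem DATA_mapsS : Set.MapsTo (fun z : ℂ => -1 / z) H H := fun _ hz => S_mem hz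

theorem DD_diffOn (d : ℕ) (e : ℤ) (r : ℝ) : DifferentiableOn ℂ (DD d e r) H := by
  have h1 : DifferentiableOn ℂ (ee r) H := (ee_diff r).differentiableOn
  have h2 : DifferentiableOn ℂ (fun z => ee r (-1 / z)) H := h1.comp DATA_diffS DATA_mapsS
  have h3 : DifferentiableOn ℂ (fun z => (Jd d z)⁻¹) H := (Jd_diffOn d).inv (fun z hz => Jd_ne d hz)
  exact h1.add ((h3.mul h2).const_mul (e : ℂ))

theorem DATA_e2 {e : ℤ} (he : e = 1 ∨ e = -1) : (e : ℂ) * e = 1 := by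
  rcases he with rfl | rfl <;> norm_num

theorem DD_S (d : ℕ) (e : ℤ) (he : e = 1 ∨ e = -1) (r : ℝ) {z : ℂ} (hz : z ∈ H) :
    (Jd d z)⁻¹ * DD d e r (-1 / z) = e * DD d e r z := by
  have hJ := Jd_mul d hz
  have hJ0 := Jd_ne d hz
  have hJ1 := Jd_ne d (S_mem hz)
  have he2 := DATA_e2 he
  unfold DD
  rw [DATA_SS hz]
  have h1 : (Jd d z)⁻¹ * (Jd d (-1 / z))⁻¹ = 1 := by
    rw [← mul_inv, hJ, inv_one]
  calc (Jd d z)⁻¹ * (ee r (-1 / z) + e * ((Jd d (-1 / z))⁻¹ * ee r z))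
      = (Jd d z)⁻¹ * ee r (-1 / z) + e * (((Jd d z)⁻¹ * (Jd d (-1 / z))⁻¹) * ee r z) := by ring
    _ = (e * e) * ((Jd d z)⁻¹ * ee r (-1 / z)) + e * ee r z := by rw [h1, he2]; ring
    _ = _ := by ring

theorem DATA_enorm {e : ℤ} (he : e = 1 ∨ e = -1) : ‖(e : ℂ)‖ = 1 := by
  rcases he with rfl | rfl <;> simp

theorem DATA_rpow_le (d : ℕ) {z : ℂ} (hz : z ∈ H) :
    ‖z‖ ^ (-((d : ℝ) / 2) - 1) ≤ mu z ^ (d + 1) := by
  have hzp : 0 < ‖z‖ := norm_pos_iff.mpr (DATA_ne hz)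
  have hm := mu_ge_two hz
  have h1 : ‖z‖ ^ (-((d : ℝ) / 2) - 1) = (‖z‖⁻¹) ^ ((d : ℝ) / 2 + 1) := by
    rw [Real.inv_rpow hzp.le, ← Real.rpow_neg hzp.le]
    congr 1
    ring
  rw [h1]
  calc (‖z‖⁻¹) ^ ((d : ℝ) / 2 + 1) ≤ (mu z) ^ ((d : ℝ) / 2 + 1) :=
        Real.rpow_le_rpow (by positivity) (inv_norm_le_mu hz) (by positivity)
    _ ≤ (mu z) ^ ((d + 1 : ℕ) : ℝ) := by
        apply Real.rpow_le_rpow_of_exponent_le (by linarith)
        push_cast
        have : (0 : ℝ) ≤ d := Nat.cast_nonneg d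
        linarith
    _ = _ := Real.rpow_natCast _ _

theorem DATA_DD_le (d : ℕ) (e : ℤ) (he : e = 1 ∨ e = -1) (r : ℝ) {z : ℂ} (hz : z ∈ H) :
    ‖DD d e r z‖ ≤ 2 + 2 * π * ‖z‖ ^ (-((d : ℝ) / 2) - 1) := by
  unfold DD
  refine (norm_add_le _ _).trans (add_le_add (ee_le r hz) ?_)
  rw [norm_mul, DATA_enorm he, one_mul]
  exact ee_S_le d r hz

theorem DD_Mod (d : ℕ) (e : ℤ) (he : e = 1 ∨ e = -1) (r : ℝ) : Mod (DD d e r) := by
  refine ⟨2 + 2 * π, d + 1, fun z hz => ?_⟩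
  refine (DATA_DD_le d e he r hz).trans ?_
  have h1 := DATA_rpow_le d hz
  have hm := mu_ge_two hz
  have h2 : 1 ≤ mu z ^ (d + 1) := one_le_pow₀ (by linarith)
  have hpi := Real.pi_pos
  nlinarith

theorem DATA_etS (d : ℕ) {z : ℂ} (hz : z ∈ H) : et (-1 / z) ^ d = Jd d z * et z ^ d := by
  unfold Jd
  rw [← mul_pow, div_mul_cancel₀ _ (et_ne hz)]

theorem Dh_S (d : ℕ) (e : ℤ) (he : e = 1 ∨ e = -1) (r : ℝ) {z : ℂ} (hz : z ∈ H) :
    Dh d e r (-1 / z) = e * Dh d e r z := by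
  unfold Dh
  rw [DATA_etS d hz, ← mul_div_assoc, ← DD_S d e he r hz]
  have := Jd_ne d hz
  have := et_ne hz
  field_simp

theorem DATA_Dh_diffOn (d : ℕ) (e : ℤ) (r : ℝ) : DifferentiableOn ℂ (Dh d e r) H := by
  unfold Dh
  exact (DD_diffOn d e r).div (et_diffOn.pow d) (fun z hz => pow_ne_zero _ (et_ne hz))

theorem DATA_dw_diffOn (d : ℕ) (e : ℤ) (r : ℝ) : DifferentiableOn ℂ (dw d e r) H := by
  have h1 := DATA_Dh_diffOn d e r
  have h2 : DifferentiableOn ℂ (fun z : ℂ => z - 1) H := by fun_prop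
  have h3 : DifferentiableOn ℂ (fun z => Dh d e r (z - 1)) H :=
    h1.comp h2 (fun z hz => DATA_sub_mem hz)
  exact h1.neg.add (h3.const_mul _)

theorem dv_diffOn (d : ℕ) (e : ℤ) (r : ℝ) (i : Fin 3) :
    DifferentiableOn ℂ (fun z => dv d e r z i) H := by
  have h1 := DATA_Dh_diffOn d e r
  have h2 := DATA_dw_diffOn d e r
  have h3 : DifferentiableOn ℂ (fun z => dw d e r (-1 / z)) H := h2.comp DATA_diffS DATA_mapsS
  fin_cases i
  · exact h1
  · exact h2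
  · exact h3.neg

theorem dv_S (d : ℕ) (e : ℤ) (he : e = 1 ∨ e = -1) (r : ℝ) {z : ℂ} (hz : z ∈ H) :
    dv d e r (-1 / z) = -(AS e *ᵥ dv d e r z) := by
  unfold dv AS
  rw [DATA_SS hz, Dh_S d e he r hz]
  ext i
  fin_cases i
  · simp [mul_comm]
  · simp
  · simp

theorem DATA_th (d : ℕ) : th d * thi d = 1 := by
  unfold th thi
  rw [← Complex.exp_add, neg_add_cancel, Complex.exp_zero]

/-- components of `η^d dv`: `D`, `D(z-1) - D`, `ε D - D|T⁻¹S` -/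
theorem dv_eq (d : ℕ) (e : ℤ) (he : e = 1 ∨ e = -1) (r : ℝ) {z : ℂ} (hz : z ∈ H) :
    et z ^ d • dv d e r z =
      ![DD d e r z, DD d e r (z - 1) - DD d e r z,
        e * DD d e r z - (Jd d z)⁻¹ * DD d e r (-1 / z - 1)] := by
  have hS := S_mem hz
  have het : et z ^ d ≠ 0 := pow_ne_zero _ (et_ne hz)
  have hz1 := DATA_sub_mem hz
  have hS1 := DATA_sub_mem hS
  have hth := DATA_th d
  have hth0 : th d ≠ 0 := left_ne_zero_of_mul_eq_one hth
  have hthi0 : thi d ≠ 0 := right_ne_zero_of_mul_eq_one hth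
  have hJ := Jd_ne d hz
  have e1 : et z ^ d = thi d * et (z - 1) ^ d := by
    have := et_T_pow d hz1
    rwa [sub_add_cancel] at this
  have e2 : Jd d z * et z ^ d = thi d * et (-1 / z - 1) ^ d := by
    have := et_T_pow d hS1
    rwa [sub_add_cancel, DATA_etS d hz] at this
  have n1 : et (z - 1) ^ d ≠ 0 := pow_ne_zero _ (et_ne hz1)
  have n2 : et (-1 / z - 1) ^ d ≠ 0 := pow_ne_zero _ (et_ne hS1)
  have c1 : et z ^ d * Dh d e r z = DD d e r z := by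
    unfold Dh
    field_simp
  have c2 : et z ^ d * (th d * Dh d e r (z - 1)) = DD d e r (z - 1) := by
    unfold Dh
    rw [e1]
    calc thi d * et (z - 1) ^ d * (th d * (DD d e r (z - 1) / et (z - 1) ^ d))
        = (th d * thi d) * (et (z - 1) ^ d / et (z - 1) ^ d) * DD d e r (z - 1) := by ring
      _ = _ := by rw [hth, div_self n1]; ring
  have c3 : et z ^ d * (th d * Dh d e r (-1 / z - 1)) = (Jd d z)⁻¹ * DD d e r (-1 / z - 1) := by
    unfold Dh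
    have e3 : et z ^ d = (Jd d z)⁻¹ * (thi d * et (-1 / z - 1) ^ d) := by
      rw [← e2, ← mul_assoc, inv_mul_cancel₀ hJ, one_mul]
    rw [e3]
    calc (Jd d z)⁻¹ * (thi d * et (-1 / z - 1) ^ d) *
          (th d * (DD d e r (-1 / z - 1) / et (-1 / z - 1) ^ d))
        = (th d * thi d) * (et (-1 / z - 1) ^ d / et (-1 / z - 1) ^ d) *
          ((Jd d z)⁻¹ * DD d e r (-1 / z - 1)) := by ring
      _ = _ := by rw [hth, div_self n2]; ring
  ext i
  fin_cases i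
  · simpa [dv] using c1
  · show et z ^ d * dw d e r z = DD d e r (z - 1) - DD d e r z
    unfold dw
    rw [mul_add, c2, mul_neg, c1]
    ring
  · show et z ^ d * (-dw d e r (-1 / z)) = e * DD d e r z - (Jd d z)⁻¹ * DD d e r (-1 / z - 1)
    unfold dw
    rw [Dh_S d e he r hz]
    calc et z ^ d * -(-(e * Dh d e r z) + th d * Dh d e r (-1 / z - 1))
        = e * (et z ^ d * Dh d e r z) - et z ^ d * (th d * Dh d e r (-1 / z - 1)) := by ring
      _ = _ := by rw [c1, c3]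

end Pool.Agent.K2
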