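import Pool.Agent.Lib_helper98.K2.Defs

set_option autoImplicit false

namespace Pool.Agent.K2

open Complex Matrix MeasureTheory
open scoped MatrixGroups Real

theorem EMAT1_nu_exp (d : ℕ) (e : ℤ) (he : e = 1 ∨ e = -1) :
    cexp (2 * π * I * nu d e) = lam d e := by
  have hfr : (nu d e : ℂ) = (((d : ℝ) / 8 + (1 - (e : ℝ)) / 4 : ℝ) : ℂ)
      - ((⌊((d : ℝ) / 8 + (1 - (e : ℝ)) / 4)⌋ : ℤ) : ℂ) := by
    unfold nu
    rw [Int.fract]
    push_cast
    ring
  rw [hfr]
  have h1 : 2 * (π : ℂ) * I * ((((d : ℝ) / 8 + (1 - (e : ℝ)) / 4 : ℝ) : ℂ)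
      - ((⌊((d : ℝ) / 8 + (1 - (e : ℝ)) / 4)⌋ : ℤ) : ℂ))
      = 2 * (π : ℂ) * I * (((d : ℝ) / 8 + (1 - (e : ℝ)) / 4 : ℝ) : ℂ)
      - ((⌊((d : ℝ) / 8 + (1 - (e : ℝ)) / 4)⌋ : ℤ) : ℂ) * (2 * π * I) := by ring
  rw [h1, Complex.exp_periodic.sub_int_mul_eq]
  unfold lam cc
  rcases he with rfl | rfl
  · push_cast
    rw [one_mul]
    congr 1
    ring
  · push_cast
    have h2 : 2 * (π : ℂ) * I * ((d : ℂ) / 8 + (1 - -1) / 4) = π * I * d / 4 + π * I := by ring
    rw [h2, Complex.exp_add, Complex.exp_pi_mul_I]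
    ring

theorem EMAT1_e20 (d : ℕ) (e : ℤ) (he : e = 1 ∨ e = -1) (z : ℂ) :
    e20 d e (z + 1) - (cc d + e) = lam d e * e20 d e z := by
  have hee : (e : ℂ) * e = 1 := by rcases he with rfl | rfl <;> norm_num
  unfold e20
  split_ifs with h
  · have hc : cc d = e := by
      have : (e : ℂ) * (e * cc d) = e * 1 := by
        rw [show (e : ℂ) * cc d = 1 from h]
      rw [← mul_assoc, hee] at this
      simpa using this
    rw [hc, h]
    ring
  · have h' : lam d e - 1 ≠ 0 := sub_ne_zero.mpr h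
    unfold y0
    rw [if_neg h]
    field_simp
    ring

theorem EMAT1_e21 (d : ℕ) (e : ℤ) (z : ℂ) :
    e20 d e (z + 1) + (e21 d e (z + 1) - (z + 1) * e20 d e (z + 1)) - e
      = lam d e * (e21 d e z - z * e20 d e z) := by
  unfold e20 e21
  split_ifs with h
  · rw [h]
    ring
  · have h' : lam d e - 1 ≠ 0 := sub_ne_zero.mpr h
    field_simp
    ring

theorem Einv_T (d : ℕ) (e : ℤ) (he : e = 1 ∨ e = -1) (z : ℂ) :
    Einv d e (z + 1) * BT d e = Einv d e z := by
  have hl : cexp (2 * π * I * nu d e) = lam d e := EMAT1_nu_exp d e he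
  have hq : cexp (-(2 * π * I * nu d e * z)) = cexp (-(2 * π * I * nu d e * (z + 1))) * lam d e := by
    rw [← hl, ← Complex.exp_add]
    congr 1
    ring
  have h0 := EMAT1_e20 d e he z
  have h1 := EMAT1_e21 d e z
  unfold Einv BT
  rw [hq]
  generalize cexp (-(2 * π * I * nu d e * (z + 1))) = q
  ext i j
  fin_cases i <;> fin_cases j <;>
    simp [Matrix.mul_apply, Fin.sum_univ_three] <;>
    first
      | done
      | ring1
      | linear_combination q * h0
      | linear_combination (-q) * h0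
      | linear_combination (-q) * h1

theorem Einv_det (d : ℕ) (e : ℤ) (z : ℂ) : (Einv d e z).det ≠ 0 := by
  unfold Einv
  rw [Matrix.det_fin_three]
  simp [Complex.exp_ne_zero]

theorem Einv_diff (d : ℕ) (e : ℤ) (i j : Fin 3) : Differentiable ℂ (fun z => Einv d e z i j) := by
  have h0 : Differentiable ℂ (e20 d e) := by
    unfold e20
    by_cases h : lam d e = 1
    · simp only [h, if_true]
      fun_prop
    · simp only [h, if_false]
      fun_prop
  have h1 : Differentiable ℂ (e21 d e) := by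
    unfold e21
    by_cases h : lam d e = 1
    · simp only [h, if_true]
      fun_prop
    · simp only [h, if_false]
      fun_prop
  have hq : Differentiable ℂ (fun z : ℂ => cexp (-(2 * π * I * nu d e * z))) := by fun_prop
  fin_cases i <;> fin_cases j <;> simp only [Einv] <;> simp <;> fun_prop

theorem Pc_T (d : ℕ) (e : ℤ) (he : e = 1 ∨ e = -1) (G : ℂ → Fin 3 → ℂ) (z : ℂ)
    (h : G (z + 1) = BT d e *ᵥ G z) (i : Fin 3) : Pc d e G i (z + 1) = Pc d e G i z := by
  unfold Pc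
  rw [h, Matrix.mulVec_mulVec, Einv_T d e he]

theorem nu_bds (d : ℕ) (hd : 1 ≤ d) (e : ℤ) (he : e = 1 ∨ e = -1) :
    0 ≤ nu d e ∧ nu d e < 1 ∧ 1 < (d : ℝ) / 4 + 6 * (1 - nu d e) := by
  have h0 : 0 ≤ nu d e := Int.fract_nonneg _
  have h1 : nu d e < 1 := Int.fract_lt_one _
  refine ⟨h0, h1, ?_⟩
  by_cases h4 : 4 ≤ d
  · have : (4 : ℝ) ≤ d := by exact_mod_cast h4
    linarith
  · have hle : nu d e ≤ (d : ℝ) / 8 + (1 - (e : ℝ)) / 4 := by
      unfold nu
      have hnn : (0 : ℝ) ≤ (d : ℝ) / 8 + (1 - (e : ℝ)) / 4 := by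
        rcases he with rfl | rfl <;> push_cast <;> positivity
      have hf := Int.fract_add_floor ((d : ℝ) / 8 + (1 - (e : ℝ)) / 4)
      have hfl : (0 : ℝ) ≤ (⌊(d : ℝ) / 8 + (1 - (e : ℝ)) / 4⌋ : ℤ) := by
        exact_mod_cast Int.floor_nonneg.mpr hnn
      linarith
    have hd3 : (d : ℝ) ≤ 3 := by
      have : d ≤ 3 := by omega
      exact_mod_cast this
    have hd1 : (1 : ℝ) ≤ d := by exact_mod_cast hd
    rcases he with rfl | rfl
    · push_cast at hle
      linarith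
    · push_cast at hle
      linarith

theorem nu_exp (d : ℕ) (e : ℤ) (he : e = 1 ∨ e = -1) :
    cexp (2 * π * I * nu d e) = lam d e := EMAT1_nu_exp d e he

end Pool.Agent.K2
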