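import Pool.Agent.Lib_helper98.K2.Defs
import Pool.Agent.Lib_helper98.K2.W.MOB1
import Pool.Agent.Lib_helper98.K2.W.MOB2
import Pool.Agent.Lib_helper98.K2.W.EMAT1

set_option autoImplicit false
set_option linter.unusedSimpArgs false

namespace Pool.Agent.K2

open Complex Matrix MeasureTheory
open scoped MatrixGroups Real

private theorem nu_nonneg' (d : ℕ) (e : ℤ) : 0 ≤ nu d e := Int.fract_nonneg _

private theorem norm_c0 (d : ℕ) (e : ℤ) (z : ℂ) :
    ‖cexp (-(2 * π * I * nu d e * z))‖ = Real.exp (2 * π * nu d e * z.im) := by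
  rw [Complex.norm_exp]
  congr 1
  have : (-(2 * (π : ℂ) * I * (nu d e : ℂ) * z)) = ((-(2 * π * nu d e) : ℝ) : ℂ) * (I * z) := by
    push_cast; ring
  rw [this, Complex.re_ofReal_mul]
  simp

private theorem c0_inv (d : ℕ) (e : ℤ) (z : ℂ) :
    cexp (2 * π * I * nu d e * z) * cexp (-(2 * π * I * nu d e * z)) = 1 := by
  rw [← Complex.exp_add]; simp

private theorem norm_c0i (d : ℕ) (e : ℤ) (z : ℂ) (hz : z ∈ H) :
    ‖cexp (2 * π * I * nu d e * z)‖ ≤ 1 := by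
  have h1 := congrArg norm (c0_inv d e z)
  rw [norm_mul, norm_c0, norm_one] at h1
  have h2 : 1 ≤ Real.exp (2 * π * nu d e * z.im) := by
    apply Real.one_le_exp
    have := nu_nonneg' d e
    have hy : 0 < z.im := hz
    positivity
  have h3 : 0 ≤ ‖cexp (2 * π * I * nu d e * z)‖ := norm_nonneg _
  nlinarith

private theorem e_bd (d : ℕ) (e : ℤ) : ∃ K : ℝ, 0 ≤ K ∧ ∀ z ∈ H,
    ‖e20 d e z‖ ≤ K * mu z ∧ ‖e21 d e z‖ ≤ K * mu z ^ 2 := by
  by_cases hl : lam d e = 1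
  · refine ⟨2 * ‖(e : ℂ)‖, by positivity, fun z hz => ?_⟩
    have h1 := norm_le_mu hz
    have h0 : 0 ≤ ‖z‖ := norm_nonneg _
    have he : 0 ≤ ‖(e : ℂ)‖ := norm_nonneg _
    constructor
    · rw [e20, if_pos hl, norm_mul, norm_mul]
      simp only [Complex.norm_ofNat]
      exact mul_le_mul_of_nonneg_left h1 (by positivity)
    · rw [e21, if_pos hl, norm_mul, norm_pow]
      have : ‖z‖ ^ 2 ≤ mu z ^ 2 := pow_le_pow_left₀ h0 h1 2
      calc ‖(e : ℂ)‖ * ‖z‖ ^ 2 ≤ ‖(e : ℂ)‖ * mu z ^ 2 := mul_le_mul_of_nonneg_left this he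
        _ ≤ 2 * ‖(e : ℂ)‖ * mu z ^ 2 := by
          have : 0 ≤ ‖(e : ℂ)‖ * mu z ^ 2 := by positivity
          linarith
  · set a : ℝ := ‖y0 d e‖ with ha
    set b : ℝ := ‖((e : ℂ) + y0 d e) / (lam d e - 1)‖ with hb
    have ha0 : 0 ≤ a := norm_nonneg _
    have hb0 : 0 ≤ b := norm_nonneg _
    refine ⟨a + b, by positivity, fun z hz => ?_⟩
    have h1 := norm_le_mu hz
    have h2 := mu_ge_two hz
    have h0 : 0 ≤ ‖z‖ := norm_nonneg _
    constructor
    · rw [e20, if_neg hl, norm_neg, ← ha]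
      nlinarith [mul_nonneg ha0 (by linarith : (0 : ℝ) ≤ mu z - 1),
        mul_nonneg hb0 (by linarith : (0 : ℝ) ≤ mu z)]
    · rw [e21, if_neg hl]
      have h3 : ‖-(((e : ℂ) + y0 d e) / (lam d e - 1)) - y0 d e * z‖ ≤ b + a * ‖z‖ := by
        refine (norm_sub_le _ _).trans ?_
        rw [norm_neg, norm_mul]
      refine h3.trans ?_
      have h4 : a * ‖z‖ ≤ a * mu z := mul_le_mul_of_nonneg_left h1 ha0
      have h5 : mu z ≤ mu z ^ 2 := by nlinarith
      have h6 : a * mu z ≤ a * mu z ^ 2 := mul_le_mul_of_nonneg_left h5 ha0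
      have h7 : b * 1 ≤ b * mu z ^ 2 := mul_le_mul_of_nonneg_left (by nlinarith) hb0
      nlinarith

private theorem Pc0 (d : ℕ) (e : ℤ) (G : ℂ → Fin 3 → ℂ) (z : ℂ) :
    Pc d e G 0 z = G z 0 - z * G z 1 := by
  simp [Pc, Einv, Matrix.mulVec, dotProduct, Fin.sum_univ_three]
  ring

private theorem Pc1 (d : ℕ) (e : ℤ) (G : ℂ → Fin 3 → ℂ) (z : ℂ) :
    Pc d e G 1 z = G z 1 := by
  simp [Pc, Einv, Matrix.mulVec, dotProduct, Fin.sum_univ_three]

private theorem Pc2 (d : ℕ) (e : ℤ) (G : ℂ → Fin 3 → ℂ) (z : ℂ) :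
    Pc d e G 2 z = cexp (-(2 * π * I * nu d e * z)) *
      (-(e20 d e z * G z 0) - (e21 d e z - z * e20 d e z) * G z 1 + G z 2) := by
  simp [Pc, Einv, Matrix.mulVec, dotProduct, Fin.sum_univ_three]
  ring

/-- upper bound for `Pc` on `Im z ≥ 1/4` -/
theorem Pc_le (d : ℕ) (e : ℤ) : ∃ C : ℝ, ∀ (G : ℂ → Fin 3 → ℂ), ∀ z ∈ H, 1 / 4 ≤ z.im →
    ∀ (B : ℝ), (∀ j, ‖G z j‖ ≤ B) → ∀ i,
    ‖Pc d e G i z‖ ≤ C * mu z ^ 2 * Real.exp (2 * π * nu d e * z.im) * B := by
  obtain ⟨K, hK, hKb⟩ := e_bd d e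
  refine ⟨3 * K + 2, fun G z hz _ B hB i => ?_⟩
  have hB0 : 0 ≤ B := (norm_nonneg _).trans (hB 0)
  obtain ⟨h20, h21⟩ := hKb z hz
  have hmu := mu_ge_two hz
  have hzm := norm_le_mu hz
  have hz0 : 0 ≤ ‖z‖ := norm_nonneg _
  have hex : 1 ≤ Real.exp (2 * π * nu d e * z.im) := by
    apply Real.one_le_exp
    have := nu_nonneg' d e
    have hy : 0 < z.im := hz
    positivity
  set X := Real.exp (2 * π * nu d e * z.im) with hX
  have hmm : mu z ≤ mu z ^ 2 := by nlinarith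
  have key : ∀ t : ℝ, t ≤ (3 * K + 2) * mu z ^ 2 * B → t ≤ (3 * K + 2) * mu z ^ 2 * X * B := by
    intro t ht
    refine ht.trans ?_
    have : 0 ≤ (3 * K + 2) * mu z ^ 2 * B := by positivity
    nlinarith
  have hKmB : 0 ≤ K * mu z ^ 2 * B := by positivity
  fin_cases i
  · apply key
    simp only [Fin.zero_eta, Fin.mk_one, Fin.reduceFinMk]
    rw [Pc0]
    have h1 : ‖G z 0 - z * G z 1‖ ≤ B + mu z * B := by
      refine (norm_sub_le _ _).trans ?_
      rw [norm_mul]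
      have := mul_le_mul hzm (hB 1) (norm_nonneg _) (by linarith)
      linarith [hB 0]
    refine h1.trans ?_
    have h2 : B + mu z * B ≤ 2 * mu z ^ 2 * B := by
      have : 1 + mu z ≤ 2 * mu z ^ 2 := by nlinarith
      nlinarith [mul_le_mul_of_nonneg_right this hB0]
    nlinarith
  · apply key
    simp only [Fin.zero_eta, Fin.mk_one, Fin.reduceFinMk]
    rw [Pc1]
    refine (hB 1).trans ?_
    have : 1 ≤ 2 * mu z ^ 2 := by nlinarith
    nlinarith [mul_le_mul_of_nonneg_right this hB0]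
  · simp only [Fin.zero_eta, Fin.mk_one, Fin.reduceFinMk]
    rw [Pc2, norm_mul, norm_c0, ← hX]
    have h1 : ‖-(e20 d e z * G z 0) - (e21 d e z - z * e20 d e z) * G z 1 + G z 2‖ ≤
        K * mu z * B + (K * mu z ^ 2 + mu z * (K * mu z)) * B + B := by
      refine (norm_add_le _ _).trans ?_
      have a1 : ‖-(e20 d e z * G z 0) - (e21 d e z - z * e20 d e z) * G z 1‖ ≤
          K * mu z * B + (K * mu z ^ 2 + mu z * (K * mu z)) * B := by
        refine (norm_sub_le _ _).trans ?_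
        rw [norm_neg, norm_mul, norm_mul]
        have b1 : ‖e20 d e z‖ * ‖G z 0‖ ≤ K * mu z * B :=
          mul_le_mul h20 (hB 0) (norm_nonneg _) (by positivity)
        have b2 : ‖e21 d e z - z * e20 d e z‖ ≤ K * mu z ^ 2 + mu z * (K * mu z) := by
          refine (norm_sub_le _ _).trans ?_
          rw [norm_mul]
          have := mul_le_mul hzm h20 (norm_nonneg _) (by linarith)
          linarith
        have b3 : ‖e21 d e z - z * e20 d e z‖ * ‖G z 1‖ ≤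
            (K * mu z ^ 2 + mu z * (K * mu z)) * B :=
          mul_le_mul b2 (hB 1) (norm_nonneg _) (by positivity)
        linarith
      linarith [hB 2]
    have h2 : K * mu z * B + (K * mu z ^ 2 + mu z * (K * mu z)) * B + B ≤
        (3 * K + 2) * mu z ^ 2 * B := by
      have c1 : K * mu z * B ≤ K * mu z ^ 2 * B :=
        mul_le_mul_of_nonneg_right (mul_le_mul_of_nonneg_left hmm hK) hB0
      have c2 : B ≤ mu z ^ 2 * B := by nlinarith
      nlinarith
    calc X * ‖-(e20 d e z * G z 0) - (e21 d e z - z * e20 d e z) * G z 1 + G z 2‖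
        ≤ X * ((3 * K + 2) * mu z ^ 2 * B) :=
          mul_le_mul_of_nonneg_left (h1.trans h2) (by linarith)
      _ = (3 * K + 2) * mu z ^ 2 * X * B := by ring

/-- the first two components need no exponential -/
theorem Pc_le01 (d : ℕ) (e : ℤ) : ∃ C : ℝ, ∀ (G : ℂ → Fin 3 → ℂ), ∀ z ∈ H,
    ∀ (B : ℝ), (∀ j, ‖G z j‖ ≤ B) → ∀ i, i ≠ 2 → ‖Pc d e G i z‖ ≤ C * mu z * B := by
  refine ⟨2, fun G z hz B hB i hi => ?_⟩
  have hB0 : 0 ≤ B := (norm_nonneg _).trans (hB 0)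
  have hmu := mu_ge_two hz
  have hzm := norm_le_mu hz
  fin_cases i
  · simp only [Fin.zero_eta, Fin.mk_one, Fin.reduceFinMk]
    rw [Pc0]
    have h1 : ‖G z 0 - z * G z 1‖ ≤ B + mu z * B := by
      refine (norm_sub_le _ _).trans ?_
      rw [norm_mul]
      have := mul_le_mul hzm (hB 1) (norm_nonneg _) (by linarith)
      linarith [hB 0]
    nlinarith
  · simp only [Fin.zero_eta, Fin.mk_one, Fin.reduceFinMk]
    rw [Pc1]
    nlinarith [hB 1]
  · exact absurd rfl hi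

/-- `G` from `Pc` -/
theorem G_le_Pc (d : ℕ) (e : ℤ) : ∃ C : ℝ, ∀ (G : ℂ → Fin 3 → ℂ), ∀ z ∈ H,
    ∀ (B : ℝ), (∀ j, ‖Pc d e G j z‖ ≤ B) → ∀ i, ‖G z i‖ ≤ C * mu z ^ 2 * B := by
  obtain ⟨K, hK, hKb⟩ := e_bd d e
  refine ⟨2 * K + 2, fun G z hz B hB i => ?_⟩
  have hB0 : 0 ≤ B := (norm_nonneg _).trans (hB 0)
  obtain ⟨h20, h21⟩ := hKb z hz
  have hmu := mu_ge_two hz
  have hzm := norm_le_mu hz
  have hmm : mu z ≤ mu z ^ 2 := by nlinarith
  have hKmB : 0 ≤ K * mu z ^ 2 * B := by positivity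
  have e1 : G z 1 = Pc d e G 1 z := (Pc1 d e G z).symm
  have e0 : G z 0 = Pc d e G 0 z + z * Pc d e G 1 z := by rw [Pc0, Pc1]; ring
  have e2 : G z 2 = cexp (2 * π * I * nu d e * z) * Pc d e G 2 z + e20 d e z * Pc d e G 0 z +
      e21 d e z * Pc d e G 1 z := by
    rw [Pc0, Pc1, Pc2, ← mul_assoc, c0_inv]; ring
  fin_cases i
  · simp only [Fin.zero_eta, Fin.mk_one, Fin.reduceFinMk]
    rw [e0]
    have h1 : ‖Pc d e G 0 z + z * Pc d e G 1 z‖ ≤ B + mu z * B := by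
      refine (norm_add_le _ _).trans ?_
      rw [norm_mul]
      have := mul_le_mul hzm (hB 1) (norm_nonneg _) (by linarith)
      linarith [hB 0]
    have h2 : B + mu z * B ≤ 2 * mu z ^ 2 * B := by
      have : 1 + mu z ≤ 2 * mu z ^ 2 := by nlinarith
      nlinarith [mul_le_mul_of_nonneg_right this hB0]
    nlinarith
  · simp only [Fin.zero_eta, Fin.mk_one, Fin.reduceFinMk]
    rw [e1]
    refine (hB 1).trans ?_
    have : 1 ≤ 2 * mu z ^ 2 := by nlinarith
    nlinarith [mul_le_mul_of_nonneg_right this hB0]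
  · simp only [Fin.zero_eta, Fin.mk_one, Fin.reduceFinMk]
    rw [e2]
    have b1 : ‖cexp (2 * π * I * nu d e * z) * Pc d e G 2 z‖ ≤ 1 * B := by
      rw [norm_mul]; exact mul_le_mul (norm_c0i d e z hz) (hB 2) (norm_nonneg _) zero_le_one
    have b2 : ‖e20 d e z * Pc d e G 0 z‖ ≤ K * mu z * B := by
      rw [norm_mul]; exact mul_le_mul h20 (hB 0) (norm_nonneg _) (by positivity)
    have b3 : ‖e21 d e z * Pc d e G 1 z‖ ≤ K * mu z ^ 2 * B := by
      rw [norm_mul]; exact mul_le_mul h21 (hB 1) (norm_nonneg _) (by positivity)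
    have b4 := norm_add_le (cexp (2 * π * I * nu d e * z) * Pc d e G 2 z +
      e20 d e z * Pc d e G 0 z) (e21 d e z * Pc d e G 1 z)
    have b5 := norm_add_le (cexp (2 * π * I * nu d e * z) * Pc d e G 2 z)
      (e20 d e z * Pc d e G 0 z)
    have c1 : K * mu z * B ≤ K * mu z ^ 2 * B :=
      mul_le_mul_of_nonneg_right (mul_le_mul_of_nonneg_left hmm hK) hB0
    have c2 : B ≤ mu z ^ 2 * B := by nlinarith
    nlinarith

/-- the row vector of the coefficient functions of a functional, times `E` -/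
theorem row_Einv (d : ℕ) (e : ℤ) : ∃ C : ℝ, ∀ (x : Fin 3 → ℂ), ∀ z ∈ H, ∀ B : ℝ,
    (∀ j, ‖∑ i, x i * Einv d e z i j‖ ≤ B) → ∀ i, ‖x i‖ ≤ C * mu z ^ 2 * B := by
  obtain ⟨K, hK, hKb⟩ := e_bd d e
  refine ⟨2 * K + 2, fun x z hz B hB i => ?_⟩
  have hB0 : 0 ≤ B := (norm_nonneg _).trans (hB 0)
  obtain ⟨h20, h21⟩ := hKb z hz
  have hmu := mu_ge_two hz
  have hzm := norm_le_mu hz
  have hmm : mu z ≤ mu z ^ 2 := by nlinarith
  have hKmB : 0 ≤ K * mu z ^ 2 * B := by positivity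
  set r0 := ∑ i, x i * Einv d e z i 0 with hr0
  set r1 := ∑ i, x i * Einv d e z i 1 with hr1
  set r2 := ∑ i, x i * Einv d e z i 2 with hr2
  have B0 : ‖r0‖ ≤ B := hB 0
  have B1 : ‖r1‖ ≤ B := hB 1
  have B2 : ‖r2‖ ≤ B := hB 2
  have q0 : r0 = x 0 - x 2 * (cexp (-(2 * π * I * nu d e * z)) * e20 d e z) := by
    rw [hr0]; simp [Einv, Fin.sum_univ_three]; ring
  have q1 : r1 = -(x 0 * z) + x 1 -
      x 2 * (cexp (-(2 * π * I * nu d e * z)) * (e21 d e z - z * e20 d e z)) := by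
    rw [hr1]; simp [Einv, Fin.sum_univ_three]; ring
  have q2 : r2 = x 2 * cexp (-(2 * π * I * nu d e * z)) := by
    rw [hr2]; simp [Einv, Fin.sum_univ_three]
  have e2 : x 2 = cexp (2 * π * I * nu d e * z) * r2 := by
    rw [q2]; linear_combination (-(x 2)) * c0_inv d e z
  have e0 : x 0 = r0 + e20 d e z * r2 := by rw [q0, q2]; ring
  have e1 : x 1 = r1 + z * r0 + e21 d e z * r2 := by rw [q0, q1, q2]; ring
  fin_cases i
  · simp only [Fin.zero_eta, Fin.mk_one, Fin.reduceFinMk]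
    rw [e0]
    have b2 : ‖e20 d e z * r2‖ ≤ K * mu z * B := by
      rw [norm_mul]; exact mul_le_mul h20 B2 (norm_nonneg _) (by positivity)
    have b4 := norm_add_le r0 (e20 d e z * r2)
    have c1 : K * mu z * B ≤ K * mu z ^ 2 * B :=
      mul_le_mul_of_nonneg_right (mul_le_mul_of_nonneg_left hmm hK) hB0
    have c2 : B ≤ mu z ^ 2 * B := by nlinarith
    nlinarith
  · simp only [Fin.zero_eta, Fin.mk_one, Fin.reduceFinMk]
    rw [e1]
    have b3 : ‖e21 d e z * r2‖ ≤ K * mu z ^ 2 * B := by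
      rw [norm_mul]; exact mul_le_mul h21 B2 (norm_nonneg _) (by positivity)
    have b2 : ‖z * r0‖ ≤ mu z * B := by
      rw [norm_mul]; exact mul_le_mul hzm B0 (norm_nonneg _) (by linarith)
    have b4 := norm_add_le (r1 + z * r0) (e21 d e z * r2)
    have b5 := norm_add_le r1 (z * r0)
    have h2 : B + mu z * B ≤ 2 * mu z ^ 2 * B := by
      have : 1 + mu z ≤ 2 * mu z ^ 2 := by nlinarith
      nlinarith [mul_le_mul_of_nonneg_right this hB0]
    nlinarith
  · simp only [Fin.zero_eta, Fin.mk_one, Fin.reduceFinMk]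
    rw [e2]
    have b1 : ‖cexp (2 * π * I * nu d e * z) * r2‖ ≤ 1 * B := by
      rw [norm_mul]; exact mul_le_mul (norm_c0i d e z hz) B2 (norm_nonneg _) zero_le_one
    have : 1 ≤ 2 * mu z ^ 2 := by nlinarith
    nlinarith [mul_le_mul_of_nonneg_right this hB0]

end Pool.Agent.K2
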