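import Pool.Agent.Lib_helper98.K2.Defs
import Pool.Agent.Lib_helper98.K2.W.MOB1
import Pool.Agent.Lib_helper98.K2.W.MOB2
import Pool.Agent.Lib_helper98.K2.W.CFI1
import Pool.Agent.Lib_helper98.K2.W.CFI3
import Pool.Agent.Lib_helper98.K2.W.EMAT1
import Pool.Agent.Lib_helper98.K2.W.EMAT2

set_option autoImplicit false

namespace Pool.Agent.K2

open Complex Matrix MeasureTheory
open scoped MatrixGroups Real

/-- good at the cusp -/
theorem GOOD_blk (d : ℕ) (e : ℤ) (he : e = 1 ∨ e = -1) (n : ℕ) (G : ℂ → Fin 3 → ℂ)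
    (hol : ∀ i, DifferentiableOn ℂ (fun z => G z i) H)
    (hT : ∀ z ∈ H, G (z + 1) = BT d e *ᵥ G z)
    (h0 : ∀ m : ℕ, 1 ≤ m → ∀ i, cf (Pc d e G i) (-(m : ℤ)) 2 = 0) :
    ∃ (C : ℝ) (a : ℕ), ∀ z : ℂ, 1 / 2 ≤ z.im → ∀ i, ‖G z i‖ ≤ C * mu z ^ a := by
  have hb : ∀ i : Fin 3, ∃ C : ℝ, ∀ z : ℂ, (1 / 2 : ℝ) ≤ z.im → ‖Pc d e G i z‖ ≤ C := by
    intro i
    refine cf_bounded (Pc d e G i) ?_ ?_ ?_ (1 / 2) (by norm_num)
    · have hsum : Pc d e G i = fun z => ∑ j, Einv d e z i j * G z j := by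
        funext z
        simp only [Pc, Matrix.mulVec, dotProduct]
      rw [hsum]
      refine DifferentiableOn.fun_sum (fun j _ => ?_)
      exact (Einv_diff d e i j).differentiableOn.mul (hol j)
    · intro z hz
      exact Pc_T d e he G z (hT z hz) i
    · intro m hm
      have h1 : 1 ≤ m.natAbs := by omega
      have h2 : m = -((m.natAbs : ℕ) : ℤ) := by omega
      rw [h2]
      exact h0 m.natAbs h1 i
  choose Ci hCi using hb
  obtain ⟨C, hC⟩ := G_le_Pc d e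
  refine ⟨C * ∑ i, |Ci i|, 2, ?_⟩
  intro z hz i
  have hzH : z ∈ H := by
    show 0 < z.im
    linarith
  have hB : ∀ j, ‖Pc d e G j z‖ ≤ ∑ i, |Ci i| := by
    intro j
    calc ‖Pc d e G j z‖ ≤ Ci j := hCi j z hz
      _ ≤ |Ci j| := le_abs_self _
      _ ≤ ∑ i, |Ci i| := Finset.single_le_sum (f := fun i => |Ci i|) (fun _ _ => abs_nonneg _) (Finset.mem_univ j)
  have := hC G z hzH _ hB i
  calc ‖G z i‖ ≤ C * mu z ^ 2 * ∑ i, |Ci i| := this
    _ = C * (∑ i, |Ci i|) * mu z ^ 2 := by ring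

end Pool.Agent.K2
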