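import Pool.Agent.Lib_helper98.K2.Defs

/-!
# Polynomial growth of representations of `SL(2,ℤ)`

A submultiplicative function on `SL(2,ℤ)` which grows polynomially along the powers of `T`
grows polynomially in the entries.
-/

set_option autoImplicit false

open scoped MatrixGroups
open ModularGroup

namespace Pool.Agent.K2.GROW

/-- The sum of the absolute values of the entries. -/
noncomputable def siz (g : SL(2, ℤ)) : ℝ :=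
  |((g 0 0 : ℤ) : ℝ)| + |((g 0 1 : ℤ) : ℝ)| + |((g 1 0 : ℤ) : ℝ)| + |((g 1 1 : ℤ) : ℝ)|

theorem det_eq (g : SL(2, ℤ)) : g 0 0 * g 1 1 - g 0 1 * g 1 0 = 1 := by
  have := g.det_coe
  rwa [Matrix.det_fin_two] at this

theorem Tz_mul_00 (q : ℤ) (g : SL(2, ℤ)) : (T ^ q * g) 0 0 = g 0 0 + q * g 1 0 := by
  simp [Matrix.mul_apply, Fin.sum_univ_two, coe_T_zpow]

theorem Tz_mul_01 (q : ℤ) (g : SL(2, ℤ)) : (T ^ q * g) 0 1 = g 0 1 + q * g 1 1 := by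
  simp [Matrix.mul_apply, Fin.sum_univ_two, coe_T_zpow]

theorem Tz_mul_10 (q : ℤ) (g : SL(2, ℤ)) : (T ^ q * g) 1 0 = g 1 0 := by
  simp

theorem Tz_mul_11 (q : ℤ) (g : SL(2, ℤ)) : (T ^ q * g) 1 1 = g 1 1 := by
  simp

theorem S_mul_00 (g : SL(2, ℤ)) : (S * g) 0 0 = - g 1 0 := by
  simp [Matrix.mul_apply, Fin.sum_univ_two, coe_S]

theorem S_mul_01 (g : SL(2, ℤ)) : (S * g) 0 1 = - g 1 1 := by
  simp [Matrix.mul_apply, Fin.sum_univ_two, coe_S]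

theorem S_mul_10 (g : SL(2, ℤ)) : (S * g) 1 0 = g 0 0 := by
  simp [Matrix.mul_apply, Fin.sum_univ_two, coe_S]

theorem S_mul_11 (g : SL(2, ℤ)) : (S * g) 1 1 = g 0 1 := by
  simp [Matrix.mul_apply, Fin.sum_univ_two, coe_S]

/-- Elements with lower left entry `0`. -/
theorem upper_form (g : SL(2, ℤ)) (hc : g 1 0 = 0) :
    g = T ^ (g 0 1) ∨ g = (-1) * T ^ (-(g 0 1)) := by
  have hd := det_eq g
  rw [hc, mul_zero, sub_zero] at hd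
  rcases Int.mul_eq_one_iff_eq_one_or_neg_one.mp hd with ⟨h1, h2⟩ | ⟨h1, h2⟩
  · left
    ext i j
    rw [coe_T_zpow]
    fin_cases i <;> fin_cases j <;> simp [h1, h2, hc]
  · right
    ext i j
    rw [neg_one_mul, Matrix.SpecialLinearGroup.coe_neg, coe_T_zpow]
    fin_cases i <;> fin_cases j <;> simp [h1, h2, hc]

theorem upper_bound (ν : SL(2, ℤ) → ℝ) (p : ℕ) (C : ℝ) (h0 : ∀ g, 0 ≤ ν g)
    (hmul : ∀ g h, ν (g * h) ≤ ν g * ν h)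
    (hT : ∀ n : ℤ, ν (T ^ n) ≤ C * (1 + |(n : ℝ)|) ^ p) (g : SL(2, ℤ)) (hc : g 1 0 = 0) :
    ν g ≤ (1 + ν (-1)) * (C * (1 + |((g 0 1 : ℤ) : ℝ)|) ^ p) := by
  have hν : 0 ≤ ν (-1) := h0 _
  rcases upper_form g hc with h | h
  · have h1 := hT (g 0 1)
    rw [← h] at h1
    have h2 : 0 ≤ C * (1 + |((g 0 1 : ℤ) : ℝ)|) ^ p := (h0 g).trans h1
    nlinarith [mul_nonneg hν h2]
  · have h1 := hT (-(g 0 1))
    have h2 := hmul (-1) (T ^ (-(g 0 1)))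
    rw [← h] at h2
    push_cast at h1
    rw [abs_neg] at h1
    have h3 : 0 ≤ C * (1 + |((g 0 1 : ℤ) : ℝ)|) ^ p := (h0 _).trans h1
    have h4 : ν (-1) * ν (T ^ (-(g 0 1))) ≤
        ν (-1) * (C * (1 + |((g 0 1 : ℤ) : ℝ)|) ^ p) := mul_le_mul_of_nonneg_left h1 hν
    linarith

theorem round_exists (a c : ℤ) (hc : c ≠ 0) : ∃ q : ℤ, 2 * |a - q * c| ≤ |c| := by
  refine ⟨round ((a : ℝ) / c), ?_⟩
  have h1 := abs_sub_round ((a : ℝ) / c)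
  have hc' : (0 : ℝ) < |(c : ℝ)| := by
    rw [abs_pos]; exact_mod_cast hc
  have hc2 : (c : ℝ) ≠ 0 := by exact_mod_cast hc
  have h2 : |(a : ℝ) - round ((a : ℝ) / c) * c| ≤ 1 / 2 * |(c : ℝ)| := by
    have : (a : ℝ) - round ((a : ℝ) / c) * c = ((a : ℝ) / c - round ((a : ℝ) / c)) * c := by
      field_simp
    rw [this, abs_mul]
    exact mul_le_mul_of_nonneg_right h1 hc'.le
  have h3 : 2 * |(a : ℝ) - round ((a : ℝ) / c) * c| ≤ |(c : ℝ)| := by linarith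
  exact_mod_cast h3

/-- The real inequality behind the induction step. -/
theorem step_ineq (p N : ℕ) (hpN : p ≤ N) (D K a' c R R' q' : ℝ) (ha : 1 ≤ a') (hac : 2 * a' ≤ c)
    (hq : 2 * (q' * a') ≤ 2 * c + a') (hq0 : 0 ≤ q') (hR : c ≤ R) (hR'0 : 0 ≤ R')
    (hR' : R' * c ≤ a' * (R + 1)) (hD : 0 ≤ D) (hK : 0 ≤ K)
    (hDN : D * (2 ^ (2 * p) * (3 / 4) ^ N) ≤ 1) :
    D * (K * ((1 + q') ^ p * R' ^ N)) ≤ K * R ^ N := by
  have hc : 0 < c := by linarith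
  have ha0 : 0 < a' := by linarith
  have hRp : 0 < R := by linarith
  set y : ℝ := a' / c with hy
  have hy0 : 0 < y := by positivity
  have hy1 : y ≤ 1 / 2 := by
    rw [hy, div_le_iff₀ hc]; linarith
  have h1 : 1 + q' ≤ 2 / y := by
    rw [hy, le_div_iff₀ (by positivity), mul_div_assoc', div_le_iff₀ hc]
    nlinarith
  have h2 : R' ≤ 3 / 2 * R * y := by
    rw [hy, mul_div_assoc', le_div_iff₀ hc]
    have : a' * (R + 1) ≤ 3 / 2 * R * a' := by nlinarith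
    linarith
  have h3 : (1 + q') ^ p * R' ^ N ≤ (2 / y) ^ p * (3 / 2 * R * y) ^ N := by
    apply mul_le_mul (pow_le_pow_left₀ (by linarith) h1 p) (pow_le_pow_left₀ hR'0 h2 N)
      (by positivity) (by positivity)
  obtain ⟨k, rfl⟩ := Nat.exists_eq_add_of_le hpN
  have h4 : (2 / y) ^ p * (3 / 2 * R * y) ^ (p + k) =
      (2 : ℝ) ^ p * (3 / 2) ^ (p + k) * R ^ (p + k) * y ^ k := by
    rw [div_pow, mul_pow, mul_pow, pow_add y]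
    field_simp
  have h5 : y ^ k ≤ (1 / 2) ^ k := pow_le_pow_left₀ hy0.le hy1 k
  have h6 : (2 : ℝ) ^ p * (3 / 2) ^ (p + k) * R ^ (p + k) * (1 / 2) ^ k =
      2 ^ (2 * p) * (3 / 4) ^ (p + k) * R ^ (p + k) := by
    have e1 : (3 / 4 : ℝ) ^ (p + k) = (3 / 2) ^ (p + k) * (1 / 2) ^ (p + k) := by
      rw [← mul_pow]; norm_num
    rw [e1, pow_add (1 / 2 : ℝ) p k]
    have e2 : (2 : ℝ) ^ (2 * p) = 2 ^ p * 2 ^ p := by rw [two_mul, pow_add]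
    have e3 : (2 : ℝ) ^ p * (1 / 2) ^ p = 1 := by rw [← mul_pow]; norm_num
    rw [e2]
    calc (2 : ℝ) ^ p * (3 / 2) ^ (p + k) * R ^ (p + k) * (1 / 2) ^ k
        = 2 ^ p * (3 / 2) ^ (p + k) * R ^ (p + k) * (1 / 2) ^ k * 1 := by ring
      _ = 2 ^ p * (3 / 2) ^ (p + k) * R ^ (p + k) * (1 / 2) ^ k * (2 ^ p * (1 / 2) ^ p) := by
          rw [e3]
      _ = _ := by ring
  have h7 : (1 + q') ^ p * R' ^ (p + k) ≤ 2 ^ (2 * p) * (3 / 4) ^ (p + k) * R ^ (p + k) := by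
    calc (1 + q') ^ p * R' ^ (p + k) ≤ _ := h3
      _ = _ := h4
      _ ≤ (2 : ℝ) ^ p * (3 / 2) ^ (p + k) * R ^ (p + k) * (1 / 2) ^ k :=
          mul_le_mul_of_nonneg_left h5 (by positivity)
      _ = _ := h6
  calc D * (K * ((1 + q') ^ p * R' ^ (p + k)))
      ≤ D * (K * (2 ^ (2 * p) * (3 / 4) ^ (p + k) * R ^ (p + k))) := by gcongr
    _ = D * (2 ^ (2 * p) * (3 / 4) ^ (p + k)) * (K * R ^ (p + k)) := by ring
    _ ≤ 1 * (K * R ^ (p + k)) := mul_le_mul_of_nonneg_right hDN (by positivity)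
    _ = _ := one_mul _

theorem lower_bound (ν : SL(2, ℤ) → ℝ) (p N : ℕ) (hpN : p ≤ N) (C : ℝ) (hC : 0 ≤ C)
    (h0 : ∀ g, 0 ≤ ν g) (hmul : ∀ g h, ν (g * h) ≤ ν g * ν h)
    (hT : ∀ n : ℤ, ν (T ^ n) ≤ C * (1 + |(n : ℝ)|) ^ p)
    (hDN : C * ν S⁻¹ * (2 ^ (2 * p) * (3 / 4) ^ N) ≤ 1) :
    ∀ n : ℕ, ∀ g : SL(2, ℤ), g 1 0 ≠ 0 → (g 1 0).natAbs ≤ n → ∀ q : ℤ,
      2 * |g 0 0 - q * g 1 0| ≤ |g 1 0| →
      ν g ≤ C * ν S⁻¹ * ((1 + ν (-1)) * C) * (1 + |(q : ℝ)|) ^ p *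
        (|((g 1 0 : ℤ) : ℝ)| + |((g 1 1 : ℤ) : ℝ)|) ^ N := by
  intro n
  induction n with
  | zero =>
    intro g hg hn
    exact absurd (Int.natAbs_eq_zero.mp (Nat.le_zero.mp hn)) hg
  | succ n ih =>
    intro g hg hn q hq
    set g' : SL(2, ℤ) := S * (T ^ (-q) * g) with hg'
    have hgg : g = T ^ q * (S⁻¹ * g') := by
      rw [hg']; group
    have e00 : g' 0 0 = - g 1 0 := by rw [hg', S_mul_00, Tz_mul_10]
    have e01 : g' 0 1 = - g 1 1 := by rw [hg', S_mul_01, Tz_mul_11]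
    have e10 : g' 1 0 = g 0 0 - q * g 1 0 := by rw [hg', S_mul_10, Tz_mul_00]; ring
    have e11 : g' 1 1 = g 0 1 - q * g 1 1 := by rw [hg', S_mul_11, Tz_mul_01]; ring
    have hdet := det_eq g'
    rw [e00, e01] at hdet
    have hνS : 0 ≤ ν S⁻¹ := h0 _
    have hν1 : 0 ≤ ν (-1) := h0 _
    have hstep : ν g ≤ C * (1 + |(q : ℝ)|) ^ p * (ν S⁻¹ * ν g') := by
      calc ν g = ν (T ^ q * (S⁻¹ * g')) := by rw [← hgg]
        _ ≤ ν (T ^ q) * ν (S⁻¹ * g') := hmul _ _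
        _ ≤ (C * (1 + |(q : ℝ)|) ^ p) * (ν S⁻¹ * ν g') :=
            mul_le_mul (hT q) (hmul _ _) (h0 _) ((h0 _).trans (hT q))
    have hP : 0 ≤ (1 + |(q : ℝ)|) ^ p := by positivity
    have hcp : (1 : ℤ) ≤ |g 1 0| := Int.one_le_abs hg
    have hcR : (1 : ℝ) ≤ |((g 1 0 : ℤ) : ℝ)| := by exact_mod_cast hcp
    by_cases ha : g' 1 0 = 0
    · -- the reduction ends
      have h1 := upper_bound ν p C h0 hmul hT g' ha
      rw [e01] at h1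
      push_cast at h1
      rw [abs_neg] at h1
      have h2 : (1 + |((g 1 1 : ℤ) : ℝ)|) ^ p ≤
          (|((g 1 0 : ℤ) : ℝ)| + |((g 1 1 : ℤ) : ℝ)|) ^ N := by
        calc (1 + |((g 1 1 : ℤ) : ℝ)|) ^ p ≤ (1 + |((g 1 1 : ℤ) : ℝ)|) ^ N :=
              pow_le_pow_right₀ (by linarith [abs_nonneg ((g 1 1 : ℤ) : ℝ)]) hpN
          _ ≤ _ := pow_le_pow_left₀ (by positivity) (by linarith) N
      calc ν g ≤ C * (1 + |(q : ℝ)|) ^ p * (ν S⁻¹ * ν g') := hstep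
        _ ≤ C * (1 + |(q : ℝ)|) ^ p * (ν S⁻¹ * ((1 + ν (-1)) *
            (C * (|((g 1 0 : ℤ) : ℝ)| + |((g 1 1 : ℤ) : ℝ)|) ^ N))) := by
              gcongr
              exact h1.trans (by gcongr)
        _ = _ := by ring
    · -- induction
      have hq1 : |g' 1 0| < |g 1 0| := by
        rw [e10]
        have : 0 ≤ |g 0 0 - q * g 1 0| := abs_nonneg _
        omega
      have hn' : (g' 1 0).natAbs ≤ n := by
        have h1 : (g' 1 0).natAbs < (g 1 0).natAbs := by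
          zify; exact hq1
        omega
      obtain ⟨q', hq'⟩ := round_exists (g' 0 0) (g' 1 0) ha
      have h1 := ih g' ha hn' q' hq'
      have ha1 : (1 : ℤ) ≤ |g' 1 0| := Int.one_le_abs ha
      have ha1R : (1 : ℝ) ≤ |((g' 1 0 : ℤ) : ℝ)| := by exact_mod_cast ha1
      have hac : 2 * |((g' 1 0 : ℤ) : ℝ)| ≤ |((g 1 0 : ℤ) : ℝ)| := by
        rw [← e10] at hq
        exact_mod_cast hq
      have hqq : 2 * (|(q' : ℝ)| * |((g' 1 0 : ℤ) : ℝ)|) ≤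
          2 * |((g 1 0 : ℤ) : ℝ)| + |((g' 1 0 : ℤ) : ℝ)| := by
        have h2 : 2 * |((g' 0 0 : ℤ) : ℝ) - q' * ((g' 1 0 : ℤ) : ℝ)| ≤
            |((g' 1 0 : ℤ) : ℝ)| := by exact_mod_cast hq'
        have h3 : |(q' : ℝ) * ((g' 1 0 : ℤ) : ℝ)| ≤ |((g' 0 0 : ℤ) : ℝ)| +
            |((g' 0 0 : ℤ) : ℝ) - q' * ((g' 1 0 : ℤ) : ℝ)| := by
          have := abs_sub ((g' 0 0 : ℤ) : ℝ) (((g' 0 0 : ℤ) : ℝ) - q' * ((g' 1 0 : ℤ) : ℝ))
          rwa [sub_sub_cancel] at this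
        have h4 : |((g' 0 0 : ℤ) : ℝ)| = |((g 1 0 : ℤ) : ℝ)| := by
          rw [e00]; push_cast; rw [abs_neg]
        rw [abs_mul, h4] at h3
        linarith
      have hRR : (|((g' 1 0 : ℤ) : ℝ)| + |((g' 1 1 : ℤ) : ℝ)|) * |((g 1 0 : ℤ) : ℝ)| ≤
          |((g' 1 0 : ℤ) : ℝ)| * (|((g 1 0 : ℤ) : ℝ)| + |((g 1 1 : ℤ) : ℝ)| + 1) := by
        have h2 : g' 1 1 * g 1 0 = g 1 1 * g' 1 0 - 1 := by linarith
        have h3 : |((g' 1 1 : ℤ) : ℝ)| * |((g 1 0 : ℤ) : ℝ)| ≤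
            |((g 1 1 : ℤ) : ℝ)| * |((g' 1 0 : ℤ) : ℝ)| + 1 := by
          rw [← abs_mul, ← abs_mul]
          have h5 : ((g' 1 1 : ℤ) : ℝ) * ((g 1 0 : ℤ) : ℝ) =
              ((g 1 1 : ℤ) : ℝ) * ((g' 1 0 : ℤ) : ℝ) - 1 := by exact_mod_cast h2
          rw [h5]
          have := abs_sub (((g 1 1 : ℤ) : ℝ) * ((g' 1 0 : ℤ) : ℝ)) 1
          rwa [abs_one] at this
        nlinarith
      have key := step_ineq p N hpN (C * ν S⁻¹) (C * ν S⁻¹ * ((1 + ν (-1)) * C))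
        |((g' 1 0 : ℤ) : ℝ)| |((g 1 0 : ℤ) : ℝ)|
        (|((g 1 0 : ℤ) : ℝ)| + |((g 1 1 : ℤ) : ℝ)|)
        (|((g' 1 0 : ℤ) : ℝ)| + |((g' 1 1 : ℤ) : ℝ)|) |(q' : ℝ)| ha1R hac hqq (abs_nonneg _)
        (by linarith [abs_nonneg ((g 1 1 : ℤ) : ℝ)]) (by positivity) hRR (by positivity)
        (by positivity) hDN
      calc ν g ≤ C * (1 + |(q : ℝ)|) ^ p * (ν S⁻¹ * ν g') := hstep
        _ ≤ C * (1 + |(q : ℝ)|) ^ p * (ν S⁻¹ * (C * ν S⁻¹ * ((1 + ν (-1)) * C) *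
            (1 + |(q' : ℝ)|) ^ p *
            (|((g' 1 0 : ℤ) : ℝ)| + |((g' 1 1 : ℤ) : ℝ)|) ^ N)) := by gcongr
        _ = (1 + |(q : ℝ)|) ^ p * (C * ν S⁻¹ * (C * ν S⁻¹ * ((1 + ν (-1)) * C) *
            ((1 + |(q' : ℝ)|) ^ p *
            (|((g' 1 0 : ℤ) : ℝ)| + |((g' 1 1 : ℤ) : ℝ)|) ^ N))) := by ring
        _ ≤ (1 + |(q : ℝ)|) ^ p * (C * ν S⁻¹ * ((1 + ν (-1)) * C) *
            (|((g 1 0 : ℤ) : ℝ)| + |((g 1 1 : ℤ) : ℝ)|) ^ N) :=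
              mul_le_mul_of_nonneg_left key hP
        _ = _ := by ring

/-- **Polynomial growth**: a non-negative submultiplicative function on `SL(2,ℤ)` with polynomial
growth along the powers of `T` has polynomial growth in the entries. -/
theorem growth (ν : SL(2, ℤ) → ℝ) (p : ℕ) (C : ℝ) (h0 : ∀ g, 0 ≤ ν g)
    (hmul : ∀ g h, ν (g * h) ≤ ν g * ν h)
    (hT : ∀ n : ℤ, ν (T ^ n) ≤ C * (1 + |(n : ℝ)|) ^ p) :
    ∃ K : ℝ, ∃ N : ℕ, 0 ≤ K ∧ ∀ g, ν g ≤ K * siz g ^ N := by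
  have hC : 0 ≤ C := by
    have := (h0 _).trans (hT 0)
    simpa using this
  have hνS : 0 ≤ ν S⁻¹ := h0 _
  have hν1 : 0 ≤ ν (-1) := h0 _
  obtain ⟨N0, hN0⟩ : ∃ N0 : ℕ, C * ν S⁻¹ * (2 ^ (2 * p) * (3 / 4) ^ N0) ≤ 1 := by
    have h1 : Filter.Tendsto (fun n : ℕ => C * ν S⁻¹ * (2 ^ (2 * p) * (3 / 4 : ℝ) ^ n))
        Filter.atTop (nhds (C * ν S⁻¹ * (2 ^ (2 * p) * 0))) := by
      apply Filter.Tendsto.const_mul
      apply Filter.Tendsto.const_mul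
      exact tendsto_pow_atTop_nhds_zero_of_lt_one (by norm_num) (by norm_num)
    rw [mul_zero, mul_zero] at h1
    exact (h1.eventually_le_const one_pos).exists
  set N : ℕ := p + N0 with hN
  have hDN : C * ν S⁻¹ * (2 ^ (2 * p) * (3 / 4) ^ N) ≤ 1 := by
    refine le_trans ?_ hN0
    gcongr ?_ * (?_ * ?_)
    exact pow_le_pow_of_le_one (by norm_num) (by norm_num) (by omega)
  have hlow := lower_bound ν p N (by omega) C hC h0 hmul hT hDN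
  refine ⟨(1 + ν (-1)) * C * 2 ^ p + C * ν S⁻¹ * ((1 + ν (-1)) * C) * 2 ^ p, p + N,
    by positivity, ?_⟩
  intro g
  have hs1 : 1 ≤ siz g := by
    have h1 : g 1 0 ≠ 0 ∨ g 1 1 ≠ 0 := by
      by_contra hcon
      push Not at hcon
      have := det_eq g
      rw [hcon.1, hcon.2] at this
      simp at this
    unfold siz
    rcases h1 with h1 | h1
    · have h2 : (1 : ℝ) ≤ |((g 1 0 : ℤ) : ℝ)| := by exact_mod_cast Int.one_le_abs h1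
      linarith [abs_nonneg ((g 0 0 : ℤ) : ℝ), abs_nonneg ((g 0 1 : ℤ) : ℝ),
        abs_nonneg ((g 1 1 : ℤ) : ℝ)]
    · have h2 : (1 : ℝ) ≤ |((g 1 1 : ℤ) : ℝ)| := by exact_mod_cast Int.one_le_abs h1
      linarith [abs_nonneg ((g 0 0 : ℤ) : ℝ), abs_nonneg ((g 0 1 : ℤ) : ℝ),
        abs_nonneg ((g 1 0 : ℤ) : ℝ)]
  have hs0 : 0 ≤ siz g := by linarith
  by_cases hc : g 1 0 = 0
  · have h1 := upper_bound ν p C h0 hmul hT g hc
    have h2 : (1 + |((g 0 1 : ℤ) : ℝ)|) ^ p ≤ 2 ^ p * siz g ^ (p + N) := by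
      have h3 : 1 + |((g 0 1 : ℤ) : ℝ)| ≤ 2 * siz g := by
        unfold siz at hs1 ⊢
        linarith [abs_nonneg ((g 0 0 : ℤ) : ℝ), abs_nonneg ((g 1 0 : ℤ) : ℝ),
          abs_nonneg ((g 1 1 : ℤ) : ℝ)]
      calc (1 + |((g 0 1 : ℤ) : ℝ)|) ^ p ≤ (2 * siz g) ^ p :=
            pow_le_pow_left₀ (by positivity) h3 p
        _ = 2 ^ p * siz g ^ p := mul_pow _ _ _
        _ ≤ 2 ^ p * siz g ^ (p + N) :=
            mul_le_mul_of_nonneg_left (pow_le_pow_right₀ hs1 (by omega)) (by positivity)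
    calc ν g ≤ (1 + ν (-1)) * (C * (1 + |((g 0 1 : ℤ) : ℝ)|) ^ p) := h1
      _ ≤ (1 + ν (-1)) * (C * (2 ^ p * siz g ^ (p + N))) := by gcongr
      _ = (1 + ν (-1)) * C * 2 ^ p * siz g ^ (p + N) := by ring
      _ ≤ _ := by
        apply mul_le_mul_of_nonneg_right _ (by positivity)
        have : 0 ≤ C * ν S⁻¹ * ((1 + ν (-1)) * C) * 2 ^ p := by positivity
        linarith
  · obtain ⟨q, hq⟩ := round_exists (g 0 0) (g 1 0) hc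
    have h1 := hlow (g 1 0).natAbs g hc le_rfl q hq
    have hcp : (1 : ℤ) ≤ |g 1 0| := Int.one_le_abs hc
    have hcR : (1 : ℝ) ≤ |((g 1 0 : ℤ) : ℝ)| := by exact_mod_cast hcp
    have h2 : 1 + |(q : ℝ)| ≤ 2 * siz g := by
      have h3 : 2 * |((g 0 0 : ℤ) : ℝ) - q * ((g 1 0 : ℤ) : ℝ)| ≤ |((g 1 0 : ℤ) : ℝ)| := by
        exact_mod_cast hq
      have h4 : |(q : ℝ)| * |((g 1 0 : ℤ) : ℝ)| ≤ |((g 0 0 : ℤ) : ℝ)| +
          |((g 0 0 : ℤ) : ℝ) - q * ((g 1 0 : ℤ) : ℝ)| := by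
        have := abs_sub ((g 0 0 : ℤ) : ℝ) (((g 0 0 : ℤ) : ℝ) - q * ((g 1 0 : ℤ) : ℝ))
        rwa [sub_sub_cancel, abs_mul] at this
      have h5 : |(q : ℝ)| ≤ |(q : ℝ)| * |((g 1 0 : ℤ) : ℝ)| := by
        nlinarith [abs_nonneg (q : ℝ)]
      unfold siz at hs1 ⊢
      linarith [abs_nonneg ((g 0 0 : ℤ) : ℝ), abs_nonneg ((g 0 1 : ℤ) : ℝ),
        abs_nonneg ((g 1 1 : ℤ) : ℝ)]
    have h3 : |((g 1 0 : ℤ) : ℝ)| + |((g 1 1 : ℤ) : ℝ)| ≤ siz g := by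
      unfold siz
      linarith [abs_nonneg ((g 0 0 : ℤ) : ℝ), abs_nonneg ((g 0 1 : ℤ) : ℝ)]
    calc ν g ≤ C * ν S⁻¹ * ((1 + ν (-1)) * C) * (1 + |(q : ℝ)|) ^ p *
        (|((g 1 0 : ℤ) : ℝ)| + |((g 1 1 : ℤ) : ℝ)|) ^ N := h1
      _ ≤ C * ν S⁻¹ * ((1 + ν (-1)) * C) * (2 * siz g) ^ p * (siz g) ^ N := by
          gcongr
      _ = C * ν S⁻¹ * ((1 + ν (-1)) * C) * 2 ^ p * siz g ^ (p + N) := by
          rw [mul_pow, pow_add]; ring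
      _ ≤ _ := by
        apply mul_le_mul_of_nonneg_right _ (by positivity)
        have : 0 ≤ (1 + ν (-1)) * C * 2 ^ p := by positivity
        linarith

end Pool.Agent.K2.GROW

namespace Pool.Agent.K2

theorem GROW_blk (N : SL(2, ℤ) → ℝ) (h0 : ∀ g, 0 ≤ N g) (hm : ∀ g h, N (g * h) ≤ N g * N h)
    (C : ℝ) (hT : ∀ m : ℤ, N (ModularGroup.T ^ m) ≤ C * (1 + |(m : ℝ)|) ^ 2) :
    ∃ (C0 : ℝ) (a0 : ℕ), ∀ g, N g ≤ C0 * sz g ^ a0 := by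
  obtain ⟨K, n, -, h⟩ := GROW.growth N 2 C h0 hm hT
  exact ⟨K, n, h⟩

end Pool.Agent.K2
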