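import Pool.Agent.Lib_helper98.K2.Defs

/-!
# Homomorphisms out of `SL(2,ℤ)` that kill `-1`

For a group `G` and `s t : G` with `s ^ 2 = 1` and `(s * t) ^ 3 = 1` there is a homomorphism
`SL(2,ℤ) →* G` with `S ↦ s` and `T ↦ t` (ping-pong on the half planes `Re > 0`, `Re < 0`).
-/

set_option autoImplicit false

open UpperHalfPlane
open scoped MatrixGroups

namespace Pool.Agent.K2.PRES

/-- The homomorphism from `ZMod n` (written multiplicatively) sending the generator to `g`. -/
noncomputable def zh {G : Type*} [Group G] (n : ℕ) (g : G) (h : g ^ n = 1) :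
    Multiplicative (ZMod n) →* G :=
  AddMonoidHom.toMultiplicativeLeft
    (ZMod.lift n ⟨(zmultiplesHom (Additive G)) (Additive.ofMul g), by
      rw [zmultiplesHom_apply, ← ofMul_zpow, zpow_natCast, h]; rfl⟩)

theorem zh_apply {G : Type*} [Group G] (n : ℕ) (g : G) (h : g ^ n = 1) (k : ℤ) :
    zh n g h (Multiplicative.ofAdd ((k : ℤ) : ZMod n)) = g ^ k := by
  unfold zh
  rw [AddMonoidHom.coe_toMultiplicativeLeft]
  simp only [Function.comp_apply, toAdd_ofAdd]
  rw [ZMod.lift_coe]
  simp [zmultiplesHom_apply]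

/-- The orders `2` and `3`. -/
def ord (b : Bool) : ℕ := cond b 3 2

/-- The action of `SL(2,ℤ)` on the upper half plane, as permutations. -/
noncomputable def PP : SL(2, ℤ) →* Equiv.Perm ℍ := MulAction.toPermHom SL(2, ℤ) ℍ

theorem PP_apply (g : SL(2, ℤ)) (z : ℍ) : PP g z = g • z := rfl

theorem PP_neg (g : SL(2, ℤ)) : PP (-g) = PP g := by
  ext1 z
  rw [PP_apply, PP_apply]
  exact ModularGroup.SL_neg_smul g z

/-- The two generators `S` and `S T`. -/
noncomputable def gen (b : Bool) : SL(2, ℤ) :=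
  cond b (ModularGroup.S * ModularGroup.T) ModularGroup.S

theorem gen_pow (b : Bool) : gen b ^ ord b = -1 := by
  cases b
  · change ModularGroup.S ^ 2 = -1
    decide
  · change (ModularGroup.S * ModularGroup.T) ^ 3 = -1
    decide

theorem PP_gen_pow (b : Bool) : (PP (gen b)) ^ ord b = 1 := by
  rw [← map_pow, gen_pow, PP_neg, map_one]

/-- The family of homomorphisms used for the ping-pong. -/
noncomputable def ff (b : Bool) : Multiplicative (ZMod (ord b)) →* Equiv.Perm ℍ :=
  zh (ord b) (PP (gen b)) (PP_gen_pow b)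

theorem S_re (z : ℍ) : (ModularGroup.S • z).re = - z.re / Complex.normSq (z : ℂ) := by
  rw [UpperHalfPlane.modular_S_smul]
  change ((-(z : ℂ))⁻¹).re = _
  rw [Complex.inv_re, Complex.normSq_neg, Complex.neg_re]
  rfl

theorem T_re (z : ℍ) : (ModularGroup.T • z).re = z.re + 1 := by
  rw [UpperHalfPlane.modular_T_smul]
  simp [add_comm]

theorem normSq_pos' (z : ℍ) : 0 < Complex.normSq (z : ℂ) :=
  Complex.normSq_pos.mpr z.ne_zero

theorem S_pos (z : ℍ) (h : z.re < 0) : 0 < (ModularGroup.S • z).re := by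
  rw [S_re]
  have := normSq_pos' z
  apply div_pos <;> linarith

theorem S_neg (z : ℍ) (h : 0 < z.re) : (ModularGroup.S • z).re < 0 := by
  rw [S_re]
  have := normSq_pos' z
  apply div_neg_of_neg_of_pos <;> linarith

theorem U_neg (z : ℍ) (h : 0 < z.re) : ((ModularGroup.S * ModularGroup.T) • z).re < 0 := by
  rw [mul_smul]
  apply S_neg
  rw [T_re]; linarith

theorem U_re (z : ℍ) (h : 0 < z.re) : -1 < ((ModularGroup.S * ModularGroup.T) • z).re := by
  rw [mul_smul, S_re]
  have h1 := normSq_pos' (ModularGroup.T • z)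
  have h2 : (ModularGroup.T • z).re = z.re + 1 := T_re z
  have h3 : (ModularGroup.T • z).re ^ 2 ≤ Complex.normSq ((ModularGroup.T • z : ℍ) : ℂ) := by
    rw [Complex.normSq_apply]
    have : (ModularGroup.T • z).re = ((ModularGroup.T • z : ℍ) : ℂ).re := rfl
    rw [this]
    nlinarith [mul_self_nonneg ((ModularGroup.T • z : ℍ) : ℂ).im]
  rw [lt_div_iff₀ h1]
  rw [h2] at h3 ⊢
  have h4 : 0 < (ModularGroup.T • z : ℍ).im := (ModularGroup.T • z : ℍ).im_pos
  nlinarith

theorem U2_neg (z : ℍ) (h : 0 < z.re) :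
    ((ModularGroup.S * ModularGroup.T) • ((ModularGroup.S * ModularGroup.T) • z)).re < 0 := by
  have h1 := U_re z h
  rw [mul_smul ModularGroup.S ModularGroup.T ((ModularGroup.S * ModularGroup.T) • z)]
  apply S_neg
  rw [T_re]; linarith

/-- The two half planes. -/
def XX (b : Bool) : Set ℍ := cond b {z | z.re < 0} {z | 0 < z.re}

theorem zm2 (h : Multiplicative (ZMod 2)) (hh : h ≠ 1) :
    h = Multiplicative.ofAdd (((1 : ℤ)) : ZMod 2) := by
  revert h; decide

theorem zm3 (h : Multiplicative (ZMod 3)) (hh : h ≠ 1) :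
    h = Multiplicative.ofAdd (((1 : ℤ)) : ZMod 3) ∨
      h = Multiplicative.ofAdd (((2 : ℤ)) : ZMod 3) := by
  revert h; decide

theorem zmF (h : Multiplicative (ZMod (ord false))) (hh : h ≠ 1) :
    h = Multiplicative.ofAdd (((1 : ℤ)) : ZMod (ord false)) := zm2 h hh

theorem zmT (h : Multiplicative (ZMod (ord true))) (hh : h ≠ 1) :
    h = Multiplicative.ofAdd (((1 : ℤ)) : ZMod (ord true)) ∨
      h = Multiplicative.ofAdd (((2 : ℤ)) : ZMod (ord true)) := zm3 h hh

theorem ff_inj : Function.Injective (Monoid.CoprodI.lift ff) := by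
  apply Monoid.CoprodI.lift_injective_of_ping_pong ff _ XX
  · intro b
    cases b
    · refine ⟨⟨⟨1, 1⟩, by simp⟩, ?_⟩
      change (0 : ℝ) < 1
      norm_num
    · refine ⟨⟨⟨-1, 1⟩, by simp⟩, ?_⟩
      change (-1 : ℝ) < 0
      norm_num
  · intro a b hab
    rw [Function.onFun, Set.disjoint_left]
    intro z hz hz'
    cases a <;> cases b <;> simp [XX] at * <;> linarith
  · intro a b hab h hh
    cases a <;> cases b
    · exact absurd rfl hab
    · rw [zmF h hh]
      rw [ff, zh_apply]
      rintro _ ⟨z, hz, rfl⟩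
      simp only [zpow_one]
      exact S_pos z hz
    · rcases zmT h hh with h1 | h1
      · rw [h1]
        rw [ff, zh_apply]
        rintro _ ⟨z, hz, rfl⟩
        simp only [zpow_one]
        exact U_neg z hz
      · rw [h1]
        rw [ff, zh_apply]
        rintro _ ⟨z, hz, rfl⟩
        exact U2_neg z hz
    · exact absurd rfl hab
  · right
    exact ⟨true, by
      simp [ord, Cardinal.mk_fintype, ZMod.card]⟩

theorem gen_mem (b : Bool) : PP (gen b) ∈ (Monoid.CoprodI.lift ff).range := by
  refine ⟨Monoid.CoprodI.of (Multiplicative.ofAdd (((1 : ℤ)) : ZMod (ord b))), ?_⟩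
  rw [Monoid.CoprodI.lift_of, ff, zh_apply, zpow_one]

theorem PP_mem (g : SL(2, ℤ)) : PP g ∈ (Monoid.CoprodI.lift ff).range := by
  have hS : PP ModularGroup.S ∈ (Monoid.CoprodI.lift ff).range := gen_mem false
  have hT : PP ModularGroup.T ∈ (Monoid.CoprodI.lift ff).range := by
    have h1 : PP (ModularGroup.S * ModularGroup.T) ∈ (Monoid.CoprodI.lift ff).range :=
      gen_mem true
    have h2 : ModularGroup.T = ModularGroup.S⁻¹ * (ModularGroup.S * ModularGroup.T) := by group
    rw [h2, map_mul, map_inv]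
    exact Subgroup.mul_mem _ (Subgroup.inv_mem _ hS) h1
  have h3 : (⊤ : Subgroup SL(2, ℤ)) ≤ (Monoid.CoprodI.lift ff).range.comap PP := by
    rw [← SpecialLinearGroup.SL2Z_generators, Subgroup.closure_le]
    intro x hx
    simp only [Set.mem_insert_iff, Set.mem_singleton_iff] at hx
    rcases hx with rfl | rfl
    · exact hS
    · exact hT
  exact h3 (Subgroup.mem_top g)

/-- **Presentation of `PSL(2,ℤ)`**: every pair `s, t` with `s ^ 2 = 1`, `(s t) ^ 3 = 1` comes from
a homomorphism out of `SL(2,ℤ)`. -/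
theorem sl2_lift {G : Type*} [Group G] (s t : G) (hs : s ^ 2 = 1) (hst : (s * t) ^ 3 = 1) :
    ∃ φ : SL(2, ℤ) →* G, φ ModularGroup.S = s ∧ φ ModularGroup.T = t := by
  let q : Bool → G := fun b => cond b (s * t) s
  have hq : ∀ b, q b ^ ord b = 1 := by
    intro b; cases b
    · exact hs
    · exact hst
  let ψ : Monoid.CoprodI (fun b : Bool => Multiplicative (ZMod (ord b))) →* G :=
    Monoid.CoprodI.lift (fun b => zh (ord b) (q b) (hq b))
  let E := MonoidHom.ofInjective ff_inj
  let c : SL(2, ℤ) →* (Monoid.CoprodI.lift ff).range := PP.codRestrict _ PP_mem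
  let φ : SL(2, ℤ) →* G := (ψ.comp E.symm.toMonoidHom).comp c
  have key : ∀ b, φ (gen b) = q b := by
    intro b
    have h1 : E.symm (c (gen b)) =
        Monoid.CoprodI.of (M := fun b : Bool => Multiplicative (ZMod (ord b))) (i := b)
          (Multiplicative.ofAdd (((1 : ℤ)) : ZMod (ord b))) := by
      rw [MulEquiv.symm_apply_eq]
      ext1
      change PP (gen b) = Monoid.CoprodI.lift ff _
      rw [Monoid.CoprodI.lift_of, ff, zh_apply, zpow_one]
    change ψ (E.symm (c (gen b))) = q b
    rw [h1]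
    change Monoid.CoprodI.lift (fun b => zh (ord b) (q b) (hq b)) _ = _
    rw [Monoid.CoprodI.lift_of, zh_apply, zpow_one]
  have hS : φ ModularGroup.S = s := key false
  have hU : φ (ModularGroup.S * ModularGroup.T) = s * t := key true
  refine ⟨φ, hS, ?_⟩
  rw [map_mul, hS] at hU
  exact mul_left_cancel hU

end Pool.Agent.K2.PRES

namespace Pool.Agent.K2

theorem PRES_blk {M : Type*} [Group M] (a b : M) (ha : a * a = 1) (hab : (a * b) ^ 3 = 1) :
    ∃ φ : SL(2, ℤ) →* M, φ ModularGroup.S = a ∧ φ ModularGroup.T = b :=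
  PRES.sl2_lift a b (by rw [sq]; exact ha) hab

end Pool.Agent.K2
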