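import Pool.Agent.Lib_helper98.K2.Defs
import Pool.Agent.Lib_helper98.K2.W.PRES
import Pool.Agent.Lib_helper98.K2.W.GROW

set_option autoImplicit false

namespace Pool.Agent.K2

open Complex Matrix MeasureTheory
open scoped MatrixGroups Real

theorem REP_e2 {e : ℤ} (he : e = 1 ∨ e = -1) : (e : ℂ) * e = 1 := by
  rcases he with rfl | rfl <;> norm_num

theorem REP_en {e : ℤ} (he : e = 1 ∨ e = -1) : ‖(e : ℂ)‖ = 1 := by
  rcases he with rfl | rfl <;> simp

theorem REP_cc (d : ℕ) : thi d ^ 3 = cc d := by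
  unfold thi cc
  rw [← Complex.exp_nat_mul]
  congr 1
  push_cast
  ring

theorem REP_th (d : ℕ) : th d * thi d = 1 := by
  unfold th thi
  rw [← Complex.exp_add]
  simp

theorem REP_thi (d : ℕ) : thi d * th d = 1 := by
  rw [mul_comm]; exact REP_th d

theorem REP_ccn (d : ℕ) : ‖cc d‖ = 1 := by
  unfold cc
  rw [show (π * I * d / 4 : ℂ) = ((π * d / 4 : ℝ) : ℂ) * I by push_cast; ring]
  exact Complex.norm_exp_ofReal_mul_I _

theorem REP_thn (d : ℕ) : ‖th d‖ = 1 := by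
  unfold th
  rw [show (-(π * I * d / 12) : ℂ) = ((-(π * d / 12) : ℝ) : ℂ) * I by push_cast; ring]
  exact Complex.norm_exp_ofReal_mul_I _

theorem REP_thin (d : ℕ) : ‖thi d‖ = 1 := by
  unfold thi
  rw [show (π * I * d / 12 : ℂ) = ((π * d / 12 : ℝ) : ℂ) * I by push_cast; ring]
  exact Complex.norm_exp_ofReal_mul_I _

theorem REP_lamn (d : ℕ) {e : ℤ} (he : e = 1 ∨ e = -1) : ‖lam d e‖ = 1 := by
  unfold lam
  rw [norm_mul, REP_en he, REP_ccn, one_mul]

/-- `AT = th • BT` -/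
theorem REP_AT (d : ℕ) (e : ℤ) : AT d e = th d • BT d e := by
  have h1 := REP_th d
  have h2 := REP_cc d
  have h3 : thi d ^ 2 = th d * cc d := by
    rw [← h2]
    linear_combination (-thi d ^ 2) * h1
  unfold AT BT lam
  ext i j
  fin_cases i <;> fin_cases j <;> simp [h3] <;> ring

/-- entries of the powers of a matrix of this shape -/
theorem REP_pow {l s p r : ℂ} (hl : ‖l‖ = 1) (m : ℕ) : ∃ x y : ℂ,
    (!![1, s, 0; 0, 1, 0; p, r, l] : Matrix (Fin 3) (Fin 3) ℂ) ^ m =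
      !![1, m * s, 0; 0, 1, 0; x, y, l ^ m] ∧ ‖x‖ ≤ ‖p‖ * m ∧
      ‖y‖ ≤ (‖p‖ * ‖s‖ + ‖r‖) * (m : ℝ) ^ 2 := by
  induction m with
  | zero =>
    refine ⟨0, 0, ?_, by simp, by simp⟩
    rw [pow_zero]
    ext i j
    fin_cases i <;> fin_cases j <;> simp
  | succ m ih =>
    obtain ⟨x, y, h1, h2, h3⟩ := ih
    refine ⟨p + l * x, p * (m * s) + r + l * y, ?_, ?_, ?_⟩
    · rw [pow_succ', h1]
      ext i j
      fin_cases i <;> fin_cases j <;>
        simp [Matrix.mul_apply, Fin.sum_univ_three, pow_succ'] <;> ring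
    · calc ‖p + l * x‖ ≤ ‖p‖ + ‖l * x‖ := norm_add_le _ _
        _ ≤ ‖p‖ + ‖p‖ * m := by rw [norm_mul, hl, one_mul]; linarith
        _ = ‖p‖ * ((m + 1 : ℕ) : ℝ) := by push_cast; ring
    · have h4 : ‖p * (m * s) + r + l * y‖ ≤ ‖p‖ * ‖s‖ * m + ‖r‖ +
          (‖p‖ * ‖s‖ + ‖r‖) * (m : ℝ) ^ 2 := by
        calc ‖p * (m * s) + r + l * y‖ ≤ ‖p * (m * s)‖ + ‖r‖ + ‖l * y‖ := norm_add₃_le
          _ ≤ _ := by
            rw [norm_mul, norm_mul, norm_mul l, hl, one_mul, Complex.norm_natCast]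
            have : ‖p‖ * (↑m * ‖s‖) = ‖p‖ * ‖s‖ * m := by ring
            rw [this]
            linarith
      refine h4.trans ?_
      push_cast
      have hm : (0 : ℝ) ≤ m := Nat.cast_nonneg m
      have h5 : 0 ≤ ‖p‖ * ‖s‖ := by positivity
      have h6 : 0 ≤ ‖r‖ := norm_nonneg r
      nlinarith [mul_nonneg h5 hm, mul_nonneg h6 hm]

theorem REP_pow_le {l s p r : ℂ} (hl : ‖l‖ = 1) : ∃ C : ℝ, ∀ (m : ℕ) (i j : Fin 3),
    ‖((!![1, s, 0; 0, 1, 0; p, r, l] : Matrix (Fin 3) (Fin 3) ℂ) ^ m) i j‖ ≤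
      C * (1 + (m : ℝ)) ^ 2 := by
  refine ⟨1 + ‖s‖ + ‖p‖ + (‖p‖ * ‖s‖ + ‖r‖), fun m i j => ?_⟩
  obtain ⟨x, y, h1, h2, h3⟩ := REP_pow (s := s) (p := p) (r := r) hl m
  rw [h1]
  have hm : (0 : ℝ) ≤ m := Nat.cast_nonneg m
  have a1 : 0 ≤ ‖s‖ := norm_nonneg s
  have a2 : 0 ≤ ‖p‖ := norm_nonneg p
  have a3 : 0 ≤ ‖p‖ * ‖s‖ + ‖r‖ := by positivity
  have q1 : (1 : ℝ) ≤ (1 + (m : ℝ)) ^ 2 := by nlinarith
  have q2 : (m : ℝ) ≤ (1 + (m : ℝ)) ^ 2 := by nlinarith
  have q3 : (m : ℝ) ^ 2 ≤ (1 + (m : ℝ)) ^ 2 := by nlinarith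
  have q0 : (0 : ℝ) ≤ (1 + (m : ℝ)) ^ 2 := by positivity
  have b1 := mul_le_mul_of_nonneg_left q2 a1
  have b2 := mul_le_mul_of_nonneg_left q2 a2
  have b3 := mul_le_mul_of_nonneg_left q3 a3
  have c1 := mul_nonneg a1 q0
  have c2 := mul_nonneg a2 q0
  have c3 := mul_nonneg a3 q0
  have hB : (1 + ‖s‖ + ‖p‖ + (‖p‖ * ‖s‖ + ‖r‖)) * (1 + (m : ℝ)) ^ 2 = (1 + (m : ℝ)) ^ 2 +
      ‖s‖ * (1 + (m : ℝ)) ^ 2 + ‖p‖ * (1 + (m : ℝ)) ^ 2 +
      (‖p‖ * ‖s‖ + ‖r‖) * (1 + (m : ℝ)) ^ 2 := by ring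
  rw [hB]
  generalize (1 + (m : ℝ)) ^ 2 = t at *
  fin_cases i <;> fin_cases j
  · simp; linarith
  · have : ‖(m : ℂ) * s‖ = ‖s‖ * m := by rw [norm_mul, Complex.norm_natCast, mul_comm]
    simp only [Fin.zero_eta, Fin.mk_one, Matrix.of_apply, Matrix.cons_val', Matrix.cons_val_one,
      Matrix.cons_val_zero, Matrix.cons_val_fin_one]
    linarith
  · simp; linarith
  · simp; linarith
  · simp; linarith
  · simp; linarith
  · simp only [Matrix.of_apply, Matrix.cons_val', Matrix.cons_val_fin_one]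
    change ‖x‖ ≤ _
    linarith
  · change ‖y‖ ≤ _
    linarith
  · change ‖l ^ m‖ ≤ _
    rw [norm_pow, hl, one_pow]
    linarith

/-- the inverse of `BT` -/
theorem REP_inv (d : ℕ) {e : ℤ} (he : e = 1 ∨ e = -1) :
    BT d e * !![1, -1, 0; 0, 1, 0; -((cc d + e) * (lam d e)⁻¹), cc d * (lam d e)⁻¹,
      (lam d e)⁻¹] = 1 := by
  have h0 : lam d e ≠ 0 := by
    intro h
    have := REP_lamn d he
    rw [h, norm_zero] at this
    norm_num at this
  unfold BT
  ext i j
  fin_cases i <;> fin_cases j <;> simp [Matrix.mul_apply, Fin.sum_univ_three] <;>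
    field_simp <;> ring

/-- entries of the powers of `BT` grow at most quadratically (`BT ^ m` = the matrix with
`B T^m`; stated for the inverse as well, through an explicit family) -/
theorem BT_pow_blk (d : ℕ) (e : ℤ) (he : e = 1 ∨ e = -1) :
    ∃ C : ℝ, ∀ (m : ℕ) (i j : Fin 3), ‖(BT d e ^ m) i j‖ ≤ C * (1 + (m : ℝ)) ^ 2 ∧
      ‖((BT d e)⁻¹ ^ m) i j‖ ≤ C * (1 + (m : ℝ)) ^ 2 := by
  have hl := REP_lamn d he
  have hl' : ‖(lam d e)⁻¹‖ = 1 := by rw [norm_inv, hl, inv_one]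
  obtain ⟨C1, h1⟩ := REP_pow_le (s := 1) (p := cc d + e) (r := e) hl
  obtain ⟨C2, h2⟩ := REP_pow_le (s := -1) (p := -((cc d + e) * (lam d e)⁻¹))
    (r := cc d * (lam d e)⁻¹) hl'
  have hinv := Matrix.inv_eq_right_inv (REP_inv d he)
  refine ⟨|C1| + |C2|, fun m i j => ⟨?_, ?_⟩⟩
  · refine (h1 m i j).trans ?_
    apply mul_le_mul_of_nonneg_right _ (by positivity)
    linarith [le_abs_self C1, abs_nonneg C2]
  · rw [hinv]
    refine (h2 m i j).trans ?_
    apply mul_le_mul_of_nonneg_right _ (by positivity)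
    linarith [le_abs_self C2, abs_nonneg C1]

theorem BT_det_blk (d : ℕ) (e : ℤ) (he : e = 1 ∨ e = -1) :
    (BT d e).det ≠ 0 ∧ (AT d e).det = e ∧ (AS e).det = e := by
  have hl := REP_lamn d he
  have h0 : lam d e ≠ 0 := by
    intro h
    rw [h, norm_zero] at hl
    norm_num at hl
  have hB : (BT d e).det = lam d e := by
    unfold BT
    rw [Matrix.det_fin_three]
    simp
  refine ⟨by rw [hB]; exact h0, ?_, ?_⟩
  · rw [REP_AT, Matrix.det_smul, hB, Fintype.card_fin]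
    unfold lam
    rw [← REP_cc]
    have h1 := REP_th d
    have h2 : th d ^ 3 * thi d ^ 3 = 1 := by rw [← mul_pow, h1, one_pow]
    linear_combination (e : ℂ) * h2
  · unfold AS
    rw [Matrix.det_fin_three]
    simp

theorem REP_AS2 {e : ℤ} (he : e = 1 ∨ e = -1) : AS e * AS e = 1 := by
  have h := REP_e2 he
  unfold AS
  ext i j
  fin_cases i <;> fin_cases j <;> simp [Matrix.mul_apply, Fin.sum_univ_three, h]

theorem REP_rel (d : ℕ) {e : ℤ} (he : e = 1 ∨ e = -1) : (AS e * AT d e) ^ 3 = 1 := by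
  have h1 := REP_th d
  have h2 := REP_e2 he
  have hM : AS e * AT d e = !![-(e * th d), -(e * th d), 0;
      thi d ^ 2 + e * th d, e * th d, e * thi d ^ 2; 0, th d, 0] := by
    unfold AS AT
    ext i j
    fin_cases i <;> fin_cases j <;> simp [Matrix.mul_apply, Fin.sum_univ_three]
  have hM2 : (AS e * AT d e) * (AS e * AT d e) = !![-(e * thi d), 0, -thi d;
      0, 0, thi d; thi d + e * th d ^ 2, e * th d ^ 2, e * thi d] := by
    rw [hM]
    generalize th d = t at *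
    generalize thi d = s at *
    generalize (e : ℂ) = x at *
    ext i j
    fin_cases i <;> fin_cases j <;> simp [Matrix.mul_apply, Fin.sum_univ_three]
    all_goals first
      | ring1
      | linear_combination s * h1
      | linear_combination (-s) * h1
      | linear_combination (x * s) * h1
      | linear_combination (-x * s) * h1
      | linear_combination (x * x * s) * h1 + s * h2
      | linear_combination (-x * x * s) * h1 - s * h2
      | linear_combination (x * x) * h1 + h2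
      | linear_combination (-x * x) * h1 - h2
      | linear_combination (-x) * h1
      | linear_combination x * h1
      | linear_combination h1
      | linear_combination (s * t) * h2
      | linear_combination (s * x * t) * h1
      | linear_combination (x * x * (t * s + 1)) * h1 + h2
      | linear_combination -h1
      | linear_combination (x * x * t * s + x * x) * h1 + h2
  have h3 : (AS e * AT d e) ^ 3 = (AS e * AT d e) * (AS e * AT d e) * (AS e * AT d e) := by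
    rw [pow_succ, pow_two]
  rw [h3, hM2, hM]
  generalize th d = t at *
  generalize thi d = s at *
  generalize (e : ℂ) = x at *
  ext i j
  fin_cases i <;> fin_cases j <;> simp [Matrix.mul_apply, Fin.sum_univ_three]
  all_goals first
    | ring1
    | linear_combination s * h1
    | linear_combination (-s) * h1
    | linear_combination (x * s) * h1
    | linear_combination (-x * s) * h1
    | linear_combination (x * x * s) * h1 + s * h2
    | linear_combination (-x * x * s) * h1 - s * h2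
    | linear_combination (x * x) * h1 + h2
    | linear_combination (-x * x) * h1 - h2
    | linear_combination (-x) * h1
    | linear_combination x * h1
    | linear_combination h1
      | linear_combination (s * t) * h2
      | linear_combination (s * x * t) * h1
      | linear_combination (x * x * (t * s + 1)) * h1 + h2
    | linear_combination -h1
    | linear_combination (x * x * t * s + x * x) * h1 + h2

theorem REP_norm_mul (A B : Matrix (Fin 3) (Fin 3) ℂ) :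
    ∑ i, ∑ j, ‖(A * B) i j‖ ≤ (∑ i, ∑ j, ‖A i j‖) * ∑ i, ∑ j, ‖B i j‖ := by
  have h1 : ∀ i j, ‖(A * B) i j‖ ≤ ∑ k, ‖A i k‖ * ‖B k j‖ := by
    intro i j
    rw [Matrix.mul_apply]
    refine (norm_sum_le _ _).trans ?_
    apply Finset.sum_le_sum
    intro k _
    rw [norm_mul]
  calc ∑ i, ∑ j, ‖(A * B) i j‖ ≤ ∑ i, ∑ j, ∑ k, ‖A i k‖ * ‖B k j‖ :=
        Finset.sum_le_sum fun i _ => Finset.sum_le_sum fun j _ => h1 i j
    _ = ∑ i, ∑ k, ‖A i k‖ * ∑ j, ‖B k j‖ := by
        apply Finset.sum_congr rfl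
        intro i _
        rw [Finset.sum_comm]
        apply Finset.sum_congr rfl
        intro k _
        rw [Finset.mul_sum]
    _ ≤ ∑ i, ∑ k, ‖A i k‖ * ∑ l, ∑ j, ‖B l j‖ := by
        apply Finset.sum_le_sum
        intro i _
        apply Finset.sum_le_sum
        intro k _
        apply mul_le_mul_of_nonneg_left _ (norm_nonneg _)
        exact Finset.single_le_sum (f := fun l => ∑ j, ‖B l j‖)
          (fun l _ => Finset.sum_nonneg fun j _ => norm_nonneg _) (Finset.mem_univ k)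
    _ = _ := by
        rw [Finset.sum_mul]
        apply Finset.sum_congr rfl
        intro i _
        rw [Finset.sum_mul]

theorem REP_ATinv (d : ℕ) {e : ℤ} (he : e = 1 ∨ e = -1) :
    (AT d e)⁻¹ = thi d • (BT d e)⁻¹ := by
  apply Matrix.inv_eq_right_inv
  have hu : IsUnit (BT d e).det := isUnit_iff_ne_zero.2 (BT_det_blk d e he).1
  rw [REP_AT, Matrix.smul_mul, Matrix.mul_smul, smul_smul, Matrix.mul_nonsing_inv _ hu,
    REP_th, one_smul]

/-- Existence of the representation. -/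
theorem REP_blk (d : ℕ) (e : ℤ) (he : e = 1 ∨ e = -1) :
    ∃ (ρ : SL(2, ℤ) →* Matrix (Fin 3) (Fin 3) ℂ) (C0 : ℝ) (a0 : ℕ), IsRep d e ρ C0 a0 := by
  have he0 : (e : ℂ) ≠ 0 := by
    rcases he with rfl | rfl <;> norm_num
  have hdet : IsUnit (AT d e).det := by
    rw [(BT_det_blk d e he).2.1]
    exact isUnit_iff_ne_zero.2 he0
  set a : (Matrix (Fin 3) (Fin 3) ℂ)ˣ := ⟨AS e, AS e, REP_AS2 he, REP_AS2 he⟩ with ha
  set b : (Matrix (Fin 3) (Fin 3) ℂ)ˣ := Matrix.nonsingInvUnit (AT d e) hdet with hb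
  have hbv : (b : Matrix (Fin 3) (Fin 3) ℂ) = AT d e := rfl
  have hbi : ((b⁻¹ : (Matrix (Fin 3) (Fin 3) ℂ)ˣ) : Matrix (Fin 3) (Fin 3) ℂ) = (AT d e)⁻¹ := rfl
  obtain ⟨φ, hS, hT⟩ := PRES_blk a b (Units.ext (REP_AS2 he)) (Units.ext (by
    rw [Units.val_pow_eq_pow_val, Units.val_mul, Units.val_one]
    exact REP_rel d he))
  set ρ : SL(2, ℤ) →* Matrix (Fin 3) (Fin 3) ℂ :=
    (Units.coeHom (Matrix (Fin 3) (Fin 3) ℂ)).comp φ with hρ
  have hρS : ρ ModularGroup.S = AS e := by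
    change ((φ ModularGroup.S : (Matrix (Fin 3) (Fin 3) ℂ)ˣ) : Matrix (Fin 3) (Fin 3) ℂ) = AS e
    rw [hS]
  have hρT : ρ ModularGroup.T = AT d e := by
    change ((φ ModularGroup.T : (Matrix (Fin 3) (Fin 3) ℂ)ˣ) : Matrix (Fin 3) (Fin 3) ℂ) = AT d e
    rw [hT, hbv]
  obtain ⟨C, hC⟩ := BT_pow_blk d e he
  have hent : ∀ (m : ℤ) (i j : Fin 3), ‖ρ (ModularGroup.T ^ m) i j‖ ≤
      |C| * (1 + |(m : ℝ)|) ^ 2 := by
    intro m i j
    have h1 : ρ (ModularGroup.T ^ m) =
        ((b ^ m : (Matrix (Fin 3) (Fin 3) ℂ)ˣ) : Matrix (Fin 3) (Fin 3) ℂ) := by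
      change ((φ (ModularGroup.T ^ m) : (Matrix (Fin 3) (Fin 3) ℂ)ˣ) :
        Matrix (Fin 3) (Fin 3) ℂ) = _
      rw [map_zpow, hT]
    rw [h1]
    obtain ⟨n, rfl | rfl⟩ := m.eq_nat_or_neg
    · rw [zpow_natCast, Units.val_pow_eq_pow_val, hbv, REP_AT, smul_pow, Matrix.smul_apply,
        norm_smul, norm_pow, REP_thn, one_pow, one_mul]
      refine ((hC n i j).1).trans ?_
      rw [Int.cast_natCast, abs_of_nonneg (Nat.cast_nonneg n : (0 : ℝ) ≤ (n : ℝ))]
      exact mul_le_mul_of_nonneg_right (le_abs_self C) (by positivity)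
    · rw [_root_.zpow_neg, zpow_natCast, ← inv_pow, Units.val_pow_eq_pow_val, hbi,
        REP_ATinv d he, smul_pow, Matrix.smul_apply, norm_smul, norm_pow, REP_thin, one_pow,
        one_mul]
      refine ((hC n i j).2).trans ?_
      rw [Int.cast_neg, Int.cast_natCast, abs_neg, abs_of_nonneg (Nat.cast_nonneg n : (0 : ℝ) ≤ (n : ℝ))]
      exact mul_le_mul_of_nonneg_right (le_abs_self C) (by positivity)
  obtain ⟨C0, a0, hg⟩ := GROW_blk (fun g => ∑ i, ∑ j, ‖ρ g i j‖)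
    (fun g => Finset.sum_nonneg fun i _ => Finset.sum_nonneg fun j _ => norm_nonneg _)
    (fun g h => by
      change ∑ i, ∑ j, ‖ρ (g * h) i j‖ ≤ _
      rw [map_mul]
      exact REP_norm_mul _ _) (9 * |C|) (fun m => by
      change ∑ i, ∑ j, ‖ρ (ModularGroup.T ^ m) i j‖ ≤ _
      calc ∑ i, ∑ j, ‖ρ (ModularGroup.T ^ m) i j‖
          ≤ ∑ i : Fin 3, ∑ j : Fin 3, |C| * (1 + |(m : ℝ)|) ^ 2 :=
            Finset.sum_le_sum fun i _ => Finset.sum_le_sum fun j _ => hent m i j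
        _ = 9 * |C| * (1 + |(m : ℝ)|) ^ 2 := by
            simp only [Finset.sum_const, Finset.card_univ, Fintype.card_fin, nsmul_eq_mul]
            push_cast
            ring)
  refine ⟨ρ, C0, a0, hρS, hρT, fun g i j => ?_⟩
  refine le_trans ?_ (hg g)
  calc ‖ρ g i j‖ ≤ ∑ j, ‖ρ g i j‖ :=
        Finset.single_le_sum (f := fun j => ‖ρ g i j‖) (fun _ _ => norm_nonneg _)
          (Finset.mem_univ j)
    _ ≤ ∑ i, ∑ j, ‖ρ g i j‖ :=
        Finset.single_le_sum (f := fun i => ∑ j, ‖ρ g i j‖)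
          (fun _ _ => Finset.sum_nonneg fun _ _ => norm_nonneg _) (Finset.mem_univ i)

end Pool.Agent.K2
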