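import Pool.Agent.Lib_helper98.K2.Defs
import Pool.Agent.Lib_helper98.K2.W.MOB1
import Pool.Agent.Lib_helper98.K2.W.MOB2
import Pool.Agent.Lib_helper98.K2.W.ETA1
import Pool.Agent.Lib_helper98.K2.W.ETA2
import Pool.Agent.Lib_helper98.K2.W.ETA3
import Pool.Agent.Lib_helper98.K2.W.DATA

set_option autoImplicit false

namespace Pool.Agent.K2

open Complex Matrix MeasureTheory
open scoped MatrixGroups Real

theorem SEC_exp (A : ℕ) (c : ℝ) (hc : 0 < c) :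
    ∃ K : ℝ, 0 ≤ K ∧ ∀ x : ℝ, 0 ≤ x → x ^ A * Real.exp (-(c * x)) ≤ K := by
  refine ⟨A.factorial / c ^ A, by positivity, fun x hx => ?_⟩
  have h := Real.pow_div_factorial_le_exp (c * x) (by positivity) A
  have hf : (0 : ℝ) < A.factorial := by exact_mod_cast A.factorial_pos
  rw [div_le_iff₀ hf, mul_pow] at h
  rw [Real.exp_neg, ← div_eq_mul_inv, div_le_div_iff₀ (Real.exp_pos _) (by positivity)]
  calc x ^ A * c ^ A = c ^ A * x ^ A := by ring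
    _ ≤ Real.exp (c * x) * A.factorial := h
    _ = _ := by ring

theorem SEC_nsq (z : ℂ) : ‖z‖ ^ 2 = z.re ^ 2 + z.im ^ 2 := by
  rw [← Complex.normSq_eq_norm_sq, Complex.normSq_apply]
  ring

theorem SEC_et1 : ∃ C : ℝ, 0 < C ∧ ∀ z ∈ H, |z.re| ≤ z.im → 1 ≤ ‖z‖ →
    ‖et z‖ ≤ C * Real.exp (-(π / 48 * mu z)) := by
  obtain ⟨C, hC, h⟩ := et_cusp
  refine ⟨C, hC, fun z hz hs h1 => ?_⟩
  have hy : 0 < z.im := hz
  have hn := SEC_nsq z
  have hre : z.re ^ 2 ≤ z.im ^ 2 := by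
    rw [← sq_abs z.re]
    exact pow_le_pow_left₀ (abs_nonneg _) hs 2
  have h1' : 1 ≤ ‖z‖ ^ 2 := one_le_pow₀ h1
  have h4 : 1 / 4 ≤ z.im := by nlinarith
  refine (h z hz h4).1.trans ?_
  apply mul_le_mul_of_nonneg_left _ hC.le
  apply Real.exp_le_exp.mpr
  have hmu : mu z ≤ 4 * z.im := by
    unfold mu
    rw [div_le_iff₀ hy]
    nlinarith
  have hpi := Real.pi_pos
  nlinarith

theorem SEC_et : ∃ C : ℝ, 0 < C ∧ ∀ z ∈ H, |z.re| ≤ z.im →
    ‖et z‖ ≤ C * mu z * Real.exp (-(π / 48 * mu z)) := by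
  obtain ⟨C, hC, h⟩ := SEC_et1
  refine ⟨C, hC, fun z hz hs => ?_⟩
  have hm := mu_ge_two hz
  have hE := Real.exp_pos (-(π / 48 * mu z))
  by_cases h1 : 1 ≤ ‖z‖
  · refine (h z hz hs h1).trans ?_
    have : C * Real.exp (-(π / 48 * mu z)) * 1 ≤ C * Real.exp (-(π / 48 * mu z)) * mu z :=
      mul_le_mul_of_nonneg_left (by linarith) (by positivity)
    linarith
  · push Not at h1
    have hS := S_mem hz
    have hzp : 0 < ‖z‖ := norm_pos_iff.mpr (DATA_ne hz)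
    have hns : 0 < Complex.normSq z := Complex.normSq_pos.mpr (DATA_ne hz)
    have hre : (-1 / z).re = -z.re / Complex.normSq z := by
      rw [neg_div, neg_re, one_div, Complex.inv_re, neg_div]
    have him : (-1 / z).im = z.im / Complex.normSq z := by
      rw [neg_div, neg_im, one_div, Complex.inv_im, neg_div, neg_neg]
    have hs' : |(-1 / z).re| ≤ (-1 / z).im := by
      rw [hre, him, abs_div, abs_neg, abs_of_pos hns]
      exact div_le_div_of_nonneg_right hs hns.le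
    have hn' : 1 ≤ ‖-1 / z‖ := by
      rw [norm_div, norm_neg, norm_one, one_le_div hzp]
      exact h1.le
    have h2 := h (-1 / z) hS hs' hn'
    rw [mu_S hz] at h2
    have h3 := Jd_norm 1 hz
    unfold Jd at h3
    rw [pow_one, norm_div, div_eq_iff (norm_ne_zero_iff.mpr (et_ne hz))] at h3
    have h4 : ‖z‖ ≤ ‖z‖ ^ (((1 : ℕ) : ℝ) / 2) := by
      calc ‖z‖ = ‖z‖ ^ (1 : ℝ) := (Real.rpow_one _).symm
        _ ≤ _ := Real.rpow_le_rpow_of_exponent_ge hzp h1.le (by norm_num)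
    have h5 : ‖z‖ * ‖et z‖ ≤ C * Real.exp (-(π / 48 * mu z)) :=
      calc ‖z‖ * ‖et z‖ ≤ ‖z‖ ^ (((1 : ℕ) : ℝ) / 2) * ‖et z‖ :=
            mul_le_mul_of_nonneg_right h4 (norm_nonneg _)
        _ = ‖et (-1 / z)‖ := h3.symm
        _ ≤ _ := h2
    calc ‖et z‖ = ‖z‖⁻¹ * (‖z‖ * ‖et z‖) := by field_simp
      _ ≤ mu z * (C * Real.exp (-(π / 48 * mu z))) :=
          mul_le_mul (inv_norm_le_mu hz) h5 (by positivity) (by linarith)
      _ = _ := by ring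

theorem SEC_mu1 {z : ℂ} (hz : z ∈ H) : mu (z - 1) ≤ 12 * mu z := by
  have h := mu_add_int hz (-1)
  have e1 : z + ((-1 : ℤ) : ℂ) = z - 1 := by push_cast; ring
  rw [e1] at h
  have e2 : |((-1 : ℤ) : ℝ)| = 1 := by simp
  rw [e2] at h
  linarith

theorem SEC_D (d : ℕ) (e : ℤ) (he : e = 1 ∨ e = -1) (r : ℝ) :
    ∃ (K : ℝ) (a : ℕ), 0 ≤ K ∧ ∀ z ∈ H, ∀ i, ‖et z ^ d * dv d e r z i‖ ≤ K * mu z ^ a := by
  obtain ⟨C0, a0, h0⟩ := DD_Mod d e he r
  have h1 : ∀ z ∈ H, ‖DD d e r z‖ ≤ |C0| * mu z ^ a0 := fun z hz =>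
    (h0 z hz).trans (mul_le_mul_of_nonneg_right (le_abs_self _)
      (pow_nonneg (by linarith [mu_ge_two hz]) _))
  have h2 : ∀ z ∈ H, ‖DD d e r (z - 1)‖ ≤ |C0| * (12 * mu z) ^ a0 := fun z hz => by
    have hz1 := DATA_sub_mem hz
    refine (h1 _ hz1).trans (mul_le_mul_of_nonneg_left ?_ (abs_nonneg _))
    exact pow_le_pow_left₀ (by linarith [mu_ge_two hz1]) (SEC_mu1 hz) _
  refine ⟨2 * |C0| * 12 ^ a0, a0 + d, by positivity, fun z hz i => ?_⟩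
  have hm := mu_ge_two hz
  have hS := S_mem hz
  have hzp : 0 < ‖z‖ := norm_pos_iff.mpr (DATA_ne hz)
  have hmd : 1 ≤ mu z ^ d := one_le_pow₀ (by linarith)
  have hA : ‖DD d e r z‖ ≤ |C0| * 12 ^ a0 * mu z ^ a0 * mu z ^ d := by
    have b1 : mu z ^ a0 ≤ 12 ^ a0 * mu z ^ a0 := by
      have : (1 : ℝ) ≤ 12 ^ a0 := one_le_pow₀ (by norm_num)
      nlinarith [pow_nonneg (show (0 : ℝ) ≤ mu z by linarith) a0]
    calc ‖DD d e r z‖ ≤ |C0| * mu z ^ a0 := h1 z hz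
      _ ≤ |C0| * (12 ^ a0 * mu z ^ a0) := mul_le_mul_of_nonneg_left b1 (abs_nonneg _)
      _ = |C0| * 12 ^ a0 * mu z ^ a0 * 1 := by ring
      _ ≤ _ := mul_le_mul_of_nonneg_left hmd (by positivity)
  have hB : ‖DD d e r (z - 1)‖ ≤ |C0| * 12 ^ a0 * mu z ^ a0 * mu z ^ d := by
    calc ‖DD d e r (z - 1)‖ ≤ |C0| * (12 * mu z) ^ a0 := h2 z hz
      _ = |C0| * 12 ^ a0 * mu z ^ a0 * 1 := by rw [mul_pow]; ring
      _ ≤ _ := mul_le_mul_of_nonneg_left hmd (by positivity)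
  have hJ : ‖(Jd d z)⁻¹‖ ≤ mu z ^ d := by
    rw [norm_inv, Jd_norm d hz, ← Real.inv_rpow hzp.le]
    calc (‖z‖⁻¹) ^ ((d : ℝ) / 2) ≤ (mu z) ^ ((d : ℝ) / 2) :=
          Real.rpow_le_rpow (by positivity) (inv_norm_le_mu hz) (by positivity)
      _ ≤ (mu z) ^ ((d : ℕ) : ℝ) := by
          apply Real.rpow_le_rpow_of_exponent_le (by linarith)
          have : (0 : ℝ) ≤ d := Nat.cast_nonneg d
          linarith
      _ = _ := Real.rpow_natCast _ _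
  have hC : ‖(Jd d z)⁻¹ * DD d e r (-1 / z - 1)‖ ≤ |C0| * 12 ^ a0 * mu z ^ a0 * mu z ^ d := by
    rw [norm_mul]
    have b := h2 _ hS
    rw [mu_S hz, mul_pow] at b
    calc ‖(Jd d z)⁻¹‖ * ‖DD d e r (-1 / z - 1)‖ ≤ mu z ^ d * (|C0| * (12 ^ a0 * mu z ^ a0)) :=
          mul_le_mul hJ b (norm_nonneg _) (by positivity)
      _ = _ := by ring
  have hv := congrFun (dv_eq d e he r hz) i
  rw [Pi.smul_apply, smul_eq_mul] at hv
  rw [hv]
  have e0 : 2 * |C0| * 12 ^ a0 * mu z ^ (a0 + d) =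
      |C0| * 12 ^ a0 * mu z ^ a0 * mu z ^ d + |C0| * 12 ^ a0 * mu z ^ a0 * mu z ^ d := by
    rw [pow_add]; ring
  rw [e0]
  have hpos : 0 ≤ |C0| * 12 ^ a0 * mu z ^ a0 * mu z ^ d := by positivity
  fin_cases i
  · show ‖DD d e r z‖ ≤ _
    linarith
  · show ‖DD d e r (z - 1) - DD d e r z‖ ≤ _
    refine (norm_sub_le _ _).trans (add_le_add hB hA)
  · show ‖(e : ℂ) * DD d e r z - (Jd d z)⁻¹ * DD d e r (-1 / z - 1)‖ ≤ _
    refine (norm_sub_le _ _).trans (add_le_add ?_ hC)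
    rw [norm_mul, DATA_enorm he, one_mul]
    exact hA

/-- bound in the sector -/
theorem SEC_blk (d : ℕ) (e : ℤ) (he : e = 1 ∨ e = -1) (r : ℝ) (n : ℕ) (hn : d < 24 * n) :
    ∃ C : ℝ, ∀ z ∈ H, |z.re| ≤ z.im → ∀ i,
      ‖Q n z * dv d e r z i‖ ≤ C * (‖z‖ ^ 2 / (1 + ‖z‖ ^ 4)) := by
  obtain ⟨C1, hC1, h1⟩ := SEC_et
  obtain ⟨K, a, hK, h2⟩ := SEC_D d e he r
  set N := 24 * n - d with hN
  have hN1 : 1 ≤ N := by omega
  obtain ⟨K', hK', h3⟩ := SEC_exp (N + 12 * n + a + 2) (π / 48) (by positivity)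
  refine ⟨C1 ^ N * 2 ^ (12 * n) * K * K', fun z hz hs i => ?_⟩
  have hm := mu_ge_two hz
  have hy : 0 < z.im := hz
  have hzp : 0 < ‖z‖ := norm_pos_iff.mpr (DATA_ne hz)
  have hmp : 0 < mu z := by linarith
  have hE := Real.exp_pos (-(π / 48 * mu z))
  have hE1 : Real.exp (-(π / 48 * mu z)) ≤ 1 := by
    apply Real.exp_le_one_iff.mpr
    have := Real.pi_pos
    have : 0 ≤ π / 48 * mu z := by positivity
    linarith
  have q1 : Q n z * dv d e r z i = et z ^ N * (z + I) ^ (12 * n) * (et z ^ d * dv d e r z i) := by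
    unfold Q Del
    have : (et z ^ 24) ^ n = et z ^ N * et z ^ d := by
      rw [← pow_mul, ← pow_add]
      congr 1
      omega
    rw [this]
    ring
  rw [q1, norm_mul, norm_mul, norm_pow, norm_pow]
  have b1 : ‖et z‖ ^ N ≤ C1 ^ N * mu z ^ N * Real.exp (-(π / 48 * mu z)) := by
    calc ‖et z‖ ^ N ≤ (C1 * mu z * Real.exp (-(π / 48 * mu z))) ^ N :=
          pow_le_pow_left₀ (norm_nonneg _) (h1 z hz hs) _
      _ = C1 ^ N * mu z ^ N * Real.exp (-(π / 48 * mu z)) ^ N := by rw [mul_pow, mul_pow]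
      _ ≤ C1 ^ N * mu z ^ N * Real.exp (-(π / 48 * mu z)) := by
          apply mul_le_mul_of_nonneg_left _ (by positivity)
          calc Real.exp (-(π / 48 * mu z)) ^ N ≤ Real.exp (-(π / 48 * mu z)) ^ 1 :=
                pow_le_pow_of_le_one hE.le hE1 hN1
            _ = _ := pow_one _
  have b2 : ‖z + I‖ ^ (12 * n) ≤ 2 ^ (12 * n) * mu z ^ (12 * n) := by
    rw [← mul_pow]
    apply pow_le_pow_left₀ (norm_nonneg _)
    refine (norm_add_le _ _).trans ?_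
    rw [Complex.norm_I]
    linarith [norm_le_mu hz]
  have b3 := h2 z hz i
  have b4 := h3 (mu z) hmp.le
  have b5 : 1 ≤ mu z ^ 2 * (‖z‖ ^ 2 / (1 + ‖z‖ ^ 4)) := by
    rw [← mul_div_assoc, le_div_iff₀ (by positivity), one_mul]
    have c1 : z.im ^ 2 ≤ ‖z‖ ^ 2 := by
      rw [SEC_nsq z]
      nlinarith [sq_nonneg z.re]
    have c2 : mu z * z.im = 1 + ‖z‖ ^ 2 := by
      unfold mu
      field_simp
    calc 1 + ‖z‖ ^ 4 ≤ (1 + ‖z‖ ^ 2) ^ 2 := by nlinarith [sq_nonneg ‖z‖]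
      _ = mu z ^ 2 * z.im ^ 2 := by rw [← c2]; ring
      _ ≤ mu z ^ 2 * ‖z‖ ^ 2 := mul_le_mul_of_nonneg_left c1 (by positivity)
  calc ‖et z‖ ^ N * ‖z + I‖ ^ (12 * n) * ‖et z ^ d * dv d e r z i‖
      ≤ (C1 ^ N * mu z ^ N * Real.exp (-(π / 48 * mu z))) * (2 ^ (12 * n) * mu z ^ (12 * n)) *
        (K * mu z ^ a) := by
        apply mul_le_mul _ b3 (norm_nonneg _) (by positivity)
        exact mul_le_mul b1 b2 (by positivity) (by positivity)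
    _ = (C1 ^ N * 2 ^ (12 * n) * K) *
        (mu z ^ (N + 12 * n + a) * Real.exp (-(π / 48 * mu z))) * 1 := by
        rw [pow_add, pow_add]; ring
    _ ≤ (C1 ^ N * 2 ^ (12 * n) * K) *
        (mu z ^ (N + 12 * n + a) * Real.exp (-(π / 48 * mu z))) *
        (mu z ^ 2 * (‖z‖ ^ 2 / (1 + ‖z‖ ^ 4))) :=
        mul_le_mul_of_nonneg_left b5 (by positivity)
    _ = (C1 ^ N * 2 ^ (12 * n) * K) * (‖z‖ ^ 2 / (1 + ‖z‖ ^ 4)) *
        (mu z ^ (N + 12 * n + a + 2) * Real.exp (-(π / 48 * mu z))) := by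
        rw [pow_add (mu z) (N + 12 * n + a) 2]; ring
    _ ≤ (C1 ^ N * 2 ^ (12 * n) * K) * (‖z‖ ^ 2 / (1 + ‖z‖ ^ 4)) * K' :=
        mul_le_mul_of_nonneg_left b4 (by positivity)
    _ = _ := by ring

end Pool.Agent.K2
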