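import Pool.Agent.Lib_helper98.K2.Defs
import Pool.Agent.Lib_helper98.K2.W.MOB1
import Pool.Agent.Lib_helper98.K2.W.MOB2

set_option autoImplicit false

namespace Pool.Agent.K2.SD

open ModularGroup MatrixGroups

/-! ## integer core -/

lemma core_sq {a b c d : ℤ} (h : a * d - b * c = 1) :
    (a * d + b * c) ^ 2 = 4 * ((a * c) * (b * d)) + 1 := by
  have : a * d = 1 + b * c := by linarith
  have e : (a * c) * (b * d) = (a * d) * (b * c) := by ring
  rw [e, this]; ring

lemma core_nonneg {m : ℤ} : 0 ≤ m * (m + 1) := by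
  rcases lt_or_ge m 0 with h | h
  · nlinarith
  · positivity

lemma core_p1 {a b c d : ℤ} (h : a * d - b * c = 1) : 0 ≤ (a * c) * (b * d) := by
  have : a * d = b * c + 1 := by linarith
  have e : (a * c) * (b * d) = (b * c) * (a * d) := by ring
  rw [e, this]
  exact core_nonneg

lemma core_p2 {a b c d : ℤ} (h : a * d - b * c = 1) : 0 ≤ (a * c) * ((a + b) * (c + d)) := by
  have e : (a * c) * ((a + b) * (c + d)) = (c * (a + b)) * (a * (c + d)) := by ring
  have : a * (c + d) = c * (a + b) + 1 := by linarith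
  rw [e, this]
  exact core_nonneg

lemma core_p3 {a b c d : ℤ} (h : a * d - b * c = 1) : 0 ≤ (b * d) * ((a + b) * (c + d)) := by
  have e : (b * d) * ((a + b) * (c + d)) = (b * (c + d)) * (d * (a + b)) := by ring
  have : d * (a + b) = b * (c + d) + 1 := by linarith
  rw [e, this]
  exact core_nonneg

/-- `|ad+bc| < |2(ac+bd)|` except for `±1`, `±S`. -/
lemma core_i {a b c d : ℤ} (h : a * d - b * c = 1)
    (hne : ¬ (b = 0 ∧ c = 0)) (hne' : ¬ (a = 0 ∧ d = 0)) :
    (a * d + b * c) ^ 2 < (2 * (a * c + b * d)) ^ 2 := by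
  rw [core_sq h]
  have hp := core_p1 h
  rcases hp.lt_or_eq with h1 | h1
  · nlinarith [sq_nonneg (a * c - b * d)]
  · have h2 : (a * c) ≠ 0 ∨ (b * d) ≠ 0 := by
      by_contra hcon
      push Not at hcon
      obtain ⟨e1, e2⟩ := hcon
      rcases mul_eq_zero.1 e1 with ha | hc
      · rcases mul_eq_zero.1 e2 with hb | hd
        · subst ha; subst hb; simp at h
        · exact hne' ⟨ha, hd⟩
      · rcases mul_eq_zero.1 e2 with hb | hd
        · exact hne ⟨hb, hc⟩
        · subst hc; subst hd; simp at h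
    have h3 : 1 ≤ (a * c) ^ 2 + (b * d) ^ 2 := by
      rcases h2 with h2 | h2
      · have : 0 < (a * c) ^ 2 := by positivity
        nlinarith [sq_nonneg (b * d)]
      · have : 0 < (b * d) ^ 2 := by positivity
        nlinarith [sq_nonneg (a * c)]
    nlinarith

/-- if `Q^2 < P^2` then `P+Q` and `P-Q` have the same sign. -/
lemma core_sign {P Q : ℤ} (h : Q ^ 2 < P ^ 2) : (0 < P - Q ↔ 0 < P + Q) := by
  have h1 : 0 < (P - Q) * (P + Q) := by nlinarith
  constructor
  · intro h2
    exact (pos_iff_pos_of_mul_pos h1).1 h2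
  · intro h2
    exact (pos_iff_pos_of_mul_pos h1).2 h2

lemma core_odd {a b c d : ℤ} (h : a * d - b * c = 1) :
    2 * (a * c) + 2 * (b * d) + a * d + b * c ≠ 0 := by
  have : a * d = 1 + b * c := by linarith
  rw [this]
  omega

/-! ## real core -/

/-- sign of `Re(gz)|cz+d|^2` in `0 ≤ x ≤ 1`, `x ≤ |z|^2`. -/
lemma core_ii {a b c d : ℤ} (h : a * d - b * c = 1) {x y : ℝ} (hx0 : 0 ≤ x) (hx1 : x ≤ 1)
    (hxy : x ≤ x ^ 2 + y ^ 2) (hN : 0 < 2 * (a * c) + 2 * (b * d) + a * d + b * c) :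
    0 ≤ (a : ℝ) * c * (x ^ 2 + y ^ 2) + ((a : ℝ) * d + b * c) * x + b * d := by
  have p1 := core_p1 h
  have p2 := core_p2 h
  have p3 := core_p3 h
  have hs : 0 < a * c + b * d + (a + b) * (c + d) := by linarith
  -- all three are nonnegative
  have n1 : 0 ≤ a * c := by
    by_contra hc
    push Not at hc
    have q1 : b * d ≤ 0 := by
      by_contra h1; push Not at h1
      nlinarith
    have q2 : (a + b) * (c + d) ≤ 0 := by
      by_contra h1; push Not at h1
      nlinarith
    linarith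
  have n2 : 0 ≤ b * d := by
    by_contra hc
    push Not at hc
    have q1 : a * c ≤ 0 := by
      by_contra h1; push Not at h1
      nlinarith
    have q2 : (a + b) * (c + d) ≤ 0 := by
      by_contra h1; push Not at h1
      nlinarith
    linarith
  have n3 : 0 ≤ (a + b) * (c + d) := by
    by_contra hc
    push Not at hc
    have q1 : a * c ≤ 0 := by
      by_contra h1; push Not at h1
      nlinarith
    have q2 : b * d ≤ 0 := by
      by_contra h1; push Not at h1
      nlinarith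
    linarith
  have r1 : (0 : ℝ) ≤ (a : ℝ) * c := by exact_mod_cast n1
  have r2 : (0 : ℝ) ≤ (b : ℝ) * d := by exact_mod_cast n2
  have r3 : (0 : ℝ) ≤ ((a : ℝ) + b) * (c + d) := by exact_mod_cast n3
  have e : (a : ℝ) * c * (x ^ 2 + y ^ 2) + ((a : ℝ) * d + b * c) * x + b * d
      = (a : ℝ) * c * (x ^ 2 + y ^ 2 - x) + (b : ℝ) * d * (1 - x) +
        (((a : ℝ) + b) * (c + d)) * x := by ring
  rw [e]
  have s1 : 0 ≤ x ^ 2 + y ^ 2 - x := by linarith
  have s2 : 0 ≤ 1 - x := by linarith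
  positivity

lemma core_ii' {a b c d : ℤ} (h : a * d - b * c = 1) {x y : ℝ} (hx0 : 0 ≤ x) (hx1 : x ≤ 1)
    (hxy : x ≤ x ^ 2 + y ^ 2) (hN : 2 * (a * c) + 2 * (b * d) + a * d + b * c < 0) :
    (a : ℝ) * c * (x ^ 2 + y ^ 2) + ((a : ℝ) * d + b * c) * x + b * d ≤ 0 := by
  have p1 := core_p1 h
  have p2 := core_p2 h
  have p3 := core_p3 h
  have hs : a * c + b * d + (a + b) * (c + d) < 0 := by linarith
  have n1 : a * c ≤ 0 := by
    by_contra hc
    push Not at hc
    have q1 : 0 ≤ b * d := by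
      by_contra h1; push Not at h1
      nlinarith
    have q2 : 0 ≤ (a + b) * (c + d) := by
      by_contra h1; push Not at h1
      nlinarith
    linarith
  have n2 : b * d ≤ 0 := by
    by_contra hc
    push Not at hc
    have q1 : 0 ≤ a * c := by
      by_contra h1; push Not at h1
      nlinarith
    have q2 : 0 ≤ (a + b) * (c + d) := by
      by_contra h1; push Not at h1
      nlinarith
    linarith
  have n3 : (a + b) * (c + d) ≤ 0 := by
    by_contra hc
    push Not at hc
    have q1 : 0 ≤ a * c := by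
      by_contra h1; push Not at h1
      nlinarith
    have q2 : 0 ≤ b * d := by
      by_contra h1; push Not at h1
      nlinarith
    linarith
  have r1 : (a : ℝ) * c ≤ 0 := by exact_mod_cast n1
  have r2 : (b : ℝ) * d ≤ 0 := by exact_mod_cast n2
  have r3 : ((a : ℝ) + b) * (c + d) ≤ 0 := by exact_mod_cast n3
  have e : (a : ℝ) * c * (x ^ 2 + y ^ 2) + ((a : ℝ) * d + b * c) * x + b * d
      = (a : ℝ) * c * (x ^ 2 + y ^ 2 - x) + (b : ℝ) * d * (1 - x) +
        (((a : ℝ) + b) * (c + d)) * x := by ring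
  rw [e]
  have s1 : 0 ≤ x ^ 2 + y ^ 2 - x := by linarith
  have s2 : 0 ≤ 1 - x := by linarith
  have t1 := mul_nonpos_of_nonpos_of_nonneg r1 s1
  have t2 := mul_nonpos_of_nonpos_of_nonneg r2 s2
  have t3 := mul_nonpos_of_nonpos_of_nonneg r3 hx0
  linarith

/-- a mismatched matrix is small. -/
lemma core_iii {a b c d : ℤ} (h : a * d - b * c = 1) {x y : ℝ} (hy : 0 < y)
    (hm : (0 < 2 * (a * c) + 2 * (b * d) + a * d + b * c ∧
        (a : ℝ) * c * (x ^ 2 + y ^ 2) + ((a : ℝ) * d + b * c) * x + b * d < 0) ∨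
      (2 * (a * c) + 2 * (b * d) + a * d + b * c < 0 ∧
        0 < (a : ℝ) * c * (x ^ 2 + y ^ 2) + ((a : ℝ) * d + b * c) * x + b * d)) :
    |(a : ℝ)| + |(b : ℝ)| + |(c : ℝ)| + |(d : ℝ)| ≤ 2 + 2 * ((1 + x ^ 2 + y ^ 2) / y) := by
  set mu := (1 + x ^ 2 + y ^ 2) / y with hmu
  have hmy : mu * y = 1 + x ^ 2 + y ^ 2 := by rw [hmu]; field_simp
  have hmu0 : 0 < mu := by rw [hmu]; positivity
  have hxm : |x| ≤ mu / 2 := by
    rw [abs_le]
    constructor
    · by_contra hc; push Not at hc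
      nlinarith [sq_nonneg (x + y), sq_nonneg (x - y)]
    · by_contra hc; push Not at hc
      nlinarith [sq_nonneg (x + y), sq_nonneg (x - y)]
  have hR : (a : ℝ) * d - b * c = 1 := by exact_mod_cast h
  have habs1 : ∀ m : ℤ, m ≠ 0 → (1 : ℝ) ≤ |(m : ℝ)| := by
    intro m hm
    have := Int.one_le_abs hm
    exact_mod_cast this
  by_cases hac : a * c = 0
  · rcases mul_eq_zero.1 hac with ha | hc
    · -- a = 0
      subst ha
      have hbc : b * c = -1 := by linarith
      have hb : |(b : ℝ)| = 1 ∧ |(c : ℝ)| = 1 := by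
        have : b * (-c) = 1 := by linarith
        rcases Int.eq_one_or_neg_one_of_mul_eq_one this with hb | hb
        · subst hb
          have : c = -1 := by linarith
          subst this; simp
        · subst hb
          have : c = 1 := by linarith
          subst this; simp
      have hd : |(d : ℝ)| = |((b * d : ℤ) : ℝ)| := by
        push_cast; rw [abs_mul, hb.1, one_mul]
      have hbcR : (b : ℝ) * c = -1 := by exact_mod_cast hbc
      have hbd : |((b * d : ℤ) : ℝ)| ≤ |x| := by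
        rcases hm with ⟨h1, h2⟩ | ⟨h1, h2⟩
        · have h3 : 1 ≤ b * d := by linarith
          have h3' : (1 : ℝ) ≤ ((b * d : ℤ) : ℝ) := by exact_mod_cast h3
          have h4 : ((b * d : ℤ) : ℝ) < x := by
            push_cast at h2 ⊢; rw [hbcR] at h2; linarith
          rw [abs_of_pos (by linarith), abs_of_pos (by linarith)]
          linarith
        · have h3 : b * d ≤ 0 := by
            have : 2 * (b * d) < 1 := by linarith
            omega
          have h3' : ((b * d : ℤ) : ℝ) ≤ 0 := by exact_mod_cast h3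
          have h4 : x < ((b * d : ℤ) : ℝ) := by
            push_cast at h2 ⊢; rw [hbcR] at h2; linarith
          rw [abs_of_nonpos h3', abs_of_neg (by linarith)]
          linarith
      rw [hb.1, hb.2, hd]
      simp only [Int.cast_zero, abs_zero]
      linarith
    · -- c = 0
      subst hc
      have had : a * d = 1 := by linarith
      have ha : |(a : ℝ)| = 1 ∧ |(d : ℝ)| = 1 := by
        rcases Int.eq_one_or_neg_one_of_mul_eq_one had with hb | hb
        · subst hb
          have : d = 1 := by linarith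
          subst this; simp
        · subst hb
          have : d = -1 := by linarith
          subst this; simp
      have hb' : |(b : ℝ)| = |((b * d : ℤ) : ℝ)| := by
        push_cast; rw [abs_mul, ha.2, mul_one]
      have hadR : (a : ℝ) * d = 1 := by exact_mod_cast had
      have hbd : |((b * d : ℤ) : ℝ)| ≤ |x| := by
        rcases hm with ⟨h1, h2⟩ | ⟨h1, h2⟩
        · have h3 : 0 ≤ b * d := by
            have : -1 < 2 * (b * d) := by linarith
            omega
          have h3' : (0 : ℝ) ≤ ((b * d : ℤ) : ℝ) := by exact_mod_cast h3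
          have h4 : ((b * d : ℤ) : ℝ) < -x := by
            push_cast at h2 ⊢; rw [hadR] at h2; linarith
          rw [abs_of_nonneg h3', abs_of_neg (by linarith)]
          linarith
        · have h3 : b * d ≤ -1 := by
            have : 2 * (b * d) < -1 := by linarith
            omega
          have h3' : ((b * d : ℤ) : ℝ) ≤ -1 := by exact_mod_cast h3
          have h4 : -x < ((b * d : ℤ) : ℝ) := by
            push_cast at h2 ⊢; rw [hadR] at h2; linarith
          rw [abs_of_nonpos (by linarith), abs_of_pos (by linarith)]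
          linarith
      rw [ha.1, ha.2, hb']
      simp only [Int.cast_zero, abs_zero]
      linarith
  · -- ac ≠ 0
    have p1 := core_p1 h
    have p2 := core_p2 h
    have hsq := core_sq h
    have hsqR : ((a : ℝ) * d + b * c) ^ 2 = 4 * ((a * c) * (b * d)) + 1 := by exact_mod_cast hsq
    have hneg : ((a : ℝ) * c) * ((a : ℝ) * c * (x ^ 2 + y ^ 2) + ((a : ℝ) * d + b * c) * x + b * d)
        < 0 := by
      rcases hm with ⟨h1, h2⟩ | ⟨h1, h2⟩
      · have h3 : 0 < a * c := by
          rcases lt_or_gt_of_ne hac with h4 | h4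
          · exfalso
            have q1 : b * d ≤ 0 := by
              by_contra h1; push Not at h1
              nlinarith
            have q2 : (a + b) * (c + d) ≤ 0 := by
              by_contra h1; push Not at h1
              nlinarith
            linarith
          · exact h4
        have h3' : (0 : ℝ) < (a : ℝ) * c := by exact_mod_cast h3
        exact mul_neg_of_pos_of_neg h3' h2
      · have h3 : a * c < 0 := by
          rcases lt_or_gt_of_ne hac with h4 | h4
          · exact h4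
          · exfalso
            have q1 : 0 ≤ b * d := by
              by_contra h1; push Not at h1
              nlinarith
            have q2 : 0 ≤ (a + b) * (c + d) := by
              by_contra h1; push Not at h1
              nlinarith
            linarith
        have h3' : (a : ℝ) * c < 0 := by exact_mod_cast h3
        exact mul_neg_of_neg_of_pos h3' h2
    have hdisc : (2 * ((a : ℝ) * c) * x + ((a : ℝ) * d + b * c)) ^ 2 +
        (2 * ((a : ℝ) * c) * y) ^ 2 < 1 := by
      nlinarith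
    have ha0 : a ≠ 0 := fun h => hac (by rw [h]; ring)
    have hc0 : c ≠ 0 := fun h => hac (by rw [h]; ring)
    have ha1 := habs1 a ha0
    have hc1 := habs1 c hc0
    have hy1 : 2 * |(a : ℝ) * c| * y < 1 := by
      have : (2 * |(a : ℝ) * c| * y) ^ 2 < 1 := by
        calc (2 * |(a : ℝ) * c| * y) ^ 2 = (2 * ((a : ℝ) * c) * y) ^ 2 := by
              rw [mul_pow, mul_pow, mul_pow, mul_pow, sq_abs]
          _ < 1 := by nlinarith [sq_nonneg (2 * ((a : ℝ) * c) * x + ((a : ℝ) * d + b * c))]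
      by_contra hcon
      push Not at hcon
      nlinarith
    have hx1 : |2 * ((a : ℝ) * c) * x + ((a : ℝ) * d + b * c)| < 1 := by
      rw [← sq_lt_one_iff_abs_lt_one]
      nlinarith [sq_nonneg (2 * ((a : ℝ) * c) * y)]
    -- |2ac| (1+x²+y²) ≤ mu
    have hM : 2 * |(a : ℝ) * c| * (1 + x ^ 2 + y ^ 2) ≤ mu := by
      rw [← hmy]
      nlinarith
    have hac2 : 2 * |(a : ℝ) * c| ≤ mu := by
      nlinarith [abs_nonneg ((a : ℝ) * c), sq_nonneg x, sq_nonneg y,
        mul_nonneg (abs_nonneg ((a : ℝ) * c)) (add_nonneg (sq_nonneg x) (sq_nonneg y))]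
    have hacx : 2 * |(a : ℝ) * c| * |x| ≤ mu / 2 := by
      have h1 : |x| ≤ (1 + x ^ 2 + y ^ 2) / 2 := by
        rw [abs_le]
        constructor <;> nlinarith [sq_nonneg (x - 1), sq_nonneg (x + 1), sq_nonneg y]
      have h2 : 2 * |(a : ℝ) * c| * |x| ≤ 2 * |(a : ℝ) * c| * ((1 + x ^ 2 + y ^ 2) / 2) :=
        mul_le_mul_of_nonneg_left h1 (by positivity)
      linarith
    have hQ : |(a : ℝ) * d + b * c| ≤ 1 + mu / 2 := by
      have h1 : |(a : ℝ) * d + b * c| ≤ |2 * ((a : ℝ) * c) * x + ((a : ℝ) * d + b * c)| +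
          |2 * ((a : ℝ) * c) * x| := by
        have := abs_sub (2 * ((a : ℝ) * c) * x + ((a : ℝ) * d + b * c)) (2 * ((a : ℝ) * c) * x)
        simpa using this
      have h2 : |2 * ((a : ℝ) * c) * x| = 2 * |(a : ℝ) * c| * |x| := by
        rw [abs_mul, abs_mul, abs_two]
      linarith
    rw [abs_le] at hQ
    have hbc : |(b : ℝ) * c| ≤ 1 + mu / 4 := by
      rw [abs_le]; constructor <;> linarith
    have had : |(a : ℝ) * d| ≤ 1 + mu / 4 := by
      rw [abs_le]; constructor <;> linarith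
    rw [abs_mul] at hbc had hac2
    have A1 : |(a : ℝ)| ≤ mu / 2 := by nlinarith [abs_nonneg (a : ℝ)]
    have A2 : |(c : ℝ)| ≤ mu / 2 := by nlinarith [abs_nonneg (c : ℝ)]
    have A3 : |(b : ℝ)| ≤ 1 + mu / 4 := by nlinarith [abs_nonneg (b : ℝ)]
    have A4 : |(d : ℝ)| ≤ 1 + mu / 4 := by nlinarith [abs_nonneg (d : ℝ)]
    linarith

end Pool.Agent.K2.SD

namespace Pool.Agent.K2

open Complex Matrix MeasureTheory
open scoped MatrixGroups Real

/-! The side function `NN`. -/

lemma SD.det_eq (g : SL(2, ℤ)) : g 0 0 * g 1 1 - g 0 1 * g 1 0 = 1 := by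
  have := g.det_coe
  rwa [Matrix.det_fin_two] at this

lemma SD.NN_eq (g : SL(2, ℤ)) :
    NN g = 2 * (g 0 0 * g 1 0) + 2 * (g 0 1 * g 1 1) + g 0 0 * g 1 1 + g 0 1 * g 1 0 := by
  unfold NN; ring

theorem NN_ne (g : SL(2, ℤ)) : NN g ≠ 0 := by
  rw [SD.NN_eq]
  exact SD.core_odd (SD.det_eq g)

theorem NN_one : NN 1 = 1 := by
  simp [NN]

theorem NN_S : NN ModularGroup.S = -1 := by
  simp [NN, ModularGroup.S]

theorem NN_neg (g : SL(2, ℤ)) : NN (-g) = NN g := by
  simp [NN]

lemma SD.NN_mul_T (g : SL(2, ℤ)) : NN (g * ModularGroup.T⁻¹) =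
    2 * (g 0 0 * g 1 0 + g 0 1 * g 1 1) - (g 0 0 * g 1 1 + g 0 1 * g 1 0) := by
  have h : ∀ i, (g * ModularGroup.T⁻¹) i 0 = g i 0 ∧ (g * ModularGroup.T⁻¹) i 1 = g i 1 - g i 0 := by
    intro i
    have h1 : ((g * ModularGroup.T⁻¹ : SL(2, ℤ)) : Matrix (Fin 2) (Fin 2) ℤ) =
        (g : Matrix (Fin 2) (Fin 2) ℤ) * !![1, -1; 0, 1] := by
      rw [Matrix.SpecialLinearGroup.coe_mul, ModularGroup.coe_T_inv]
    constructor
    · show ((g * ModularGroup.T⁻¹ : SL(2, ℤ)) : Matrix (Fin 2) (Fin 2) ℤ) i 0 = _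
      rw [h1]; simp [Matrix.mul_apply, Fin.sum_univ_two]
    · show ((g * ModularGroup.T⁻¹ : SL(2, ℤ)) : Matrix (Fin 2) (Fin 2) ℤ) i 1 = _
      rw [h1]; simp [Matrix.mul_apply, Fin.sum_univ_two]; ring
  unfold NN
  rw [(h 0).1, (h 0).2, (h 1).1, (h 1).2]
  ring

lemma SD.NN_mul_S (g : SL(2, ℤ)) : NN (g * ModularGroup.S⁻¹) =
    2 * (g 0 0 * g 1 0 + g 0 1 * g 1 1) - (g 0 0 * g 1 1 + g 0 1 * g 1 0) := by
  have h : ∀ i, (g * ModularGroup.S⁻¹) i 0 = -g i 1 ∧ (g * ModularGroup.S⁻¹) i 1 = g i 0 := by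
    intro i
    have h1 : ((g * ModularGroup.S⁻¹ : SL(2, ℤ)) : Matrix (Fin 2) (Fin 2) ℤ) =
        (g : Matrix (Fin 2) (Fin 2) ℤ) * !![0, 1; -1, 0] := by
      rw [Matrix.SpecialLinearGroup.coe_mul, Matrix.SpecialLinearGroup.coe_inv,
        Matrix.adjugate_fin_two]
      simp [ModularGroup.S]
    constructor
    · show ((g * ModularGroup.S⁻¹ : SL(2, ℤ)) : Matrix (Fin 2) (Fin 2) ℤ) i 0 = _
      rw [h1]; simp [Matrix.mul_apply, Fin.sum_univ_two]
    · show ((g * ModularGroup.S⁻¹ : SL(2, ℤ)) : Matrix (Fin 2) (Fin 2) ℤ) i 1 = _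
      rw [h1]; simp [Matrix.mul_apply, Fin.sum_univ_two]
  unfold NN
  rw [(h 0).1, (h 0).2, (h 1).1, (h 1).2]
  ring

theorem NN_T_inv (g : SL(2, ℤ)) : NN (g * ModularGroup.T⁻¹) = NN (g * ModularGroup.S⁻¹) := by
  rw [SD.NN_mul_T, SD.NN_mul_S]

/-- the side changes only for `±1`, `±S` -/
theorem NN_flip (g : SL(2, ℤ)) (h1 : g ≠ 1) (h2 : g ≠ -1) (h3 : g ≠ ModularGroup.S)
    (h4 : g ≠ -ModularGroup.S) : (0 < NN (g * ModularGroup.T⁻¹)) ↔ (0 < NN g) := by
  have hd := SD.det_eq g
  have hA : ¬ (g 0 1 = 0 ∧ g 1 0 = 0) := by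
    rintro ⟨e1, e2⟩
    rw [e1, e2] at hd
    have : g 0 0 * g 1 1 = 1 := by linarith
    rcases Int.eq_one_or_neg_one_of_mul_eq_one this with h | h
    · apply h1
      have h' : g 1 1 = 1 := by rw [h] at this; linarith
      ext i j
      fin_cases i <;> fin_cases j <;> simp_all
    · apply h2
      have h' : g 1 1 = -1 := by rw [h] at this; linarith
      ext i j
      fin_cases i <;> fin_cases j <;> simp_all
  have hB : ¬ (g 0 0 = 0 ∧ g 1 1 = 0) := by
    rintro ⟨e1, e2⟩
    rw [e1, e2] at hd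
    have : g 0 1 * (- g 1 0) = 1 := by linarith
    rcases Int.eq_one_or_neg_one_of_mul_eq_one this with h | h
    · apply h4
      have h' : g 1 0 = -1 := by rw [h] at this; linarith
      ext i j
      fin_cases i <;> fin_cases j <;> simp_all [ModularGroup.S]
    · apply h3
      have h' : g 1 0 = 1 := by rw [h] at this; linarith
      ext i j
      fin_cases i <;> fin_cases j <;> simp_all [ModularGroup.S]
  have := SD.core_sign (SD.core_i hd hA hB)
  rw [SD.NN_mul_T, SD.NN_eq, this]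
  constructor <;> intro h <;> linarith

theorem NN_one_T : NN (1 * ModularGroup.T⁻¹) = -1 := by
  rw [SD.NN_mul_T]; simp

theorem NN_S_T : NN (ModularGroup.S * ModularGroup.T⁻¹) = 1 := by
  rw [SD.NN_mul_T]; simp [ModularGroup.S]

lemma SD.re_mob (g : SL(2, ℤ)) {z : ℂ} (hz : z ∈ H) : (mob g z).re * ‖den g z‖ ^ 2 =
    (g 0 0 : ℝ) * g 1 0 * (z.re ^ 2 + z.im ^ 2) +
      ((g 0 0 : ℝ) * g 1 1 + g 0 1 * g 1 0) * z.re + g 0 1 * g 1 1 := by
  have hne : den g z ≠ 0 := den_ne g hz
  have h1 : ‖den g z‖ ^ 2 = Complex.normSq (den g z) := by rw [Complex.normSq_eq_norm_sq]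
  have h2 : Complex.normSq (den g z) ≠ 0 := by simpa using hne
  rw [h1, mob, Complex.div_re]
  field_simp
  simp [den, Complex.add_re, Complex.mul_re, Complex.add_im, Complex.mul_im]
  ring

lemma SD.den_pos (g : SL(2, ℤ)) {z : ℂ} (hz : z ∈ H) : 0 < ‖den g z‖ ^ 2 := by
  have hne : den g z ≠ 0 := den_ne g hz
  positivity

theorem side_pos (g : SL(2, ℤ)) {z : ℂ} (hz : z ∈ H) (h0 : 0 ≤ z.re) (h1 : z.re ≤ 1)
    (h2 : z.re ≤ ‖z‖ ^ 2) (hN : 0 < NN g) : 0 ≤ (mob g z).re := by
  have h3 : ‖z‖ ^ 2 = z.re ^ 2 + z.im ^ 2 := by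
    rw [← Complex.normSq_eq_norm_sq, Complex.normSq_apply]; ring
  rw [h3] at h2
  rw [SD.NN_eq] at hN
  have := SD.core_ii (SD.det_eq g) h0 h1 h2 hN
  rw [← SD.re_mob g hz] at this
  exact nonneg_of_mul_nonneg_left this (SD.den_pos g hz)

theorem side_neg (g : SL(2, ℤ)) {z : ℂ} (hz : z ∈ H) (h0 : 0 ≤ z.re) (h1 : z.re ≤ 1)
    (h2 : z.re ≤ ‖z‖ ^ 2) (hN : ¬ 0 < NN g) : (mob g z).re ≤ 0 := by
  have h3 : ‖z‖ ^ 2 = z.re ^ 2 + z.im ^ 2 := by
    rw [← Complex.normSq_eq_norm_sq, Complex.normSq_apply]; ring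
  rw [h3] at h2
  have hN' : NN g < 0 := lt_of_le_of_ne (not_lt.1 hN) (NN_ne g)
  rw [SD.NN_eq] at hN'
  have := SD.core_ii' (SD.det_eq g) h0 h1 h2 hN'
  rw [← SD.re_mob g hz] at this
  by_contra hc
  push Not at hc
  have := mul_pos hc (SD.den_pos g hz)
  linarith

/-- mismatch is possible only for small `g` -/
theorem mismatch (g : SL(2, ℤ)) {z : ℂ} (hz : z ∈ H)
    (h : (0 < NN g ∧ (mob g z).re < 0) ∨ (¬ 0 < NN g ∧ 0 < (mob g z).re)) :
    sz g ≤ 16 * mu z ^ 3 := by
  have hy : 0 < z.im := hz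
  have h3 : ‖z‖ ^ 2 = z.re ^ 2 + z.im ^ 2 := by
    rw [← Complex.normSq_eq_norm_sq, Complex.normSq_apply]; ring
  have hp := SD.den_pos g hz
  have key := SD.core_iii (SD.det_eq g) (x := z.re) (y := z.im) hy ?_
  · have hmu : (1 + z.re ^ 2 + z.im ^ 2) / z.im = mu z := by
      unfold mu; rw [h3]; ring_nf
    rw [hmu] at key
    have h2 := mu_ge_two hz
    have : sz g ≤ 2 + 2 * mu z := key
    have h4 : 4 ≤ mu z ^ 2 := by nlinarith
    have h5 : 4 * mu z ≤ mu z ^ 3 := by nlinarith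
    linarith
  · rcases h with ⟨h1, h2⟩ | ⟨h1, h2⟩
    · left
      rw [SD.NN_eq] at h1
      refine ⟨h1, ?_⟩
      rw [← SD.re_mob g hz]
      exact mul_neg_of_neg_of_pos h2 hp
    · right
      have hN' : NN g < 0 := lt_of_le_of_ne (not_lt.1 h1) (NN_ne g)
      rw [SD.NN_eq] at hN'
      refine ⟨hN', ?_⟩
      rw [← SD.re_mob g hz]
      exact mul_pos h2 hp

end Pool.Agent.K2
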