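import Pool.Agent.Lib_helper98.K2.Defs

set_option autoImplicit false

namespace Pool.Agent.K2

open Complex Matrix MeasureTheory
open scoped MatrixGroups Real

/-- the four entries -/
def SUMG_io (g : SL(2, ℤ)) : (ℤ × ℤ) × (ℤ × ℤ) := ((g 0 0, g 0 1), (g 1 0, g 1 1))

theorem SUMG_inj : Function.Injective SUMG_io := by
  intro g h hgh
  simp only [SUMG_io, Prod.mk.injEq] at hgh
  obtain ⟨⟨h1, h2⟩, h3, h4⟩ := hgh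
  ext i j
  fin_cases i <;> fin_cases j
  · exact h1
  · exact h2
  · exact h3
  · exact h4

theorem SUMG_one_le (g : SL(2, ℤ)) : 1 ≤ sz g := by
  have hdet := g.det_coe
  rw [Matrix.det_fin_two] at hdet
  have h : g 0 0 ≠ 0 ∨ g 0 1 ≠ 0 := by
    by_contra hcon
    push Not at hcon
    rw [hcon.1, hcon.2] at hdet
    simp at hdet
  unfold sz
  have ha := abs_nonneg ((g 0 0 : ℤ) : ℝ)
  have hb := abs_nonneg ((g 0 1 : ℤ) : ℝ)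
  have hc := abs_nonneg ((g 1 0 : ℤ) : ℝ)
  have hd := abs_nonneg ((g 1 1 : ℤ) : ℝ)
  rcases h with h | h
  · have : (1 : ℝ) ≤ |((g 0 0 : ℤ) : ℝ)| := by
      rw [← Int.cast_abs]
      exact_mod_cast Int.one_le_abs h
    linarith
  · have : (1 : ℝ) ≤ |((g 0 1 : ℤ) : ℝ)| := by
      rw [← Int.cast_abs]
      exact_mod_cast Int.one_le_abs h
    linarith

theorem SUMG_int : Summable fun n : ℤ => ((1 + |(n : ℝ)|) ^ 2)⁻¹ := by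
  have h1 : Summable fun n : ℤ => 2 * ((if n = 0 then (1 : ℝ) else 0) + 1 / (n : ℝ) ^ 2) := by
    refine Summable.mul_left 2 (Summable.add ?_ ?_)
    · exact summable_of_ne_finset_zero (s := {0}) (fun n hn => by
        rw [Finset.mem_singleton] at hn; simp [hn])
    · exact (Real.summable_one_div_int_pow (p := 2)).2 (by norm_num)
  refine Summable.of_nonneg_of_le (fun n => by positivity) (fun n => ?_) h1
  by_cases hn : n = 0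
  · subst hn; norm_num
  · rw [if_neg hn, zero_add]
    have h2 : (0 : ℝ) < |(n : ℝ)| := abs_pos.2 (by exact_mod_cast hn)
    have h3 : (0 : ℝ) < (n : ℝ) ^ 2 := by positivity
    rw [← sq_abs (n : ℝ), inv_eq_one_div]
    have h4 : 1 / (1 + |(n : ℝ)|) ^ 2 ≤ 1 / |(n : ℝ)| ^ 2 := by
      apply one_div_le_one_div_of_le (by positivity)
      gcongr
      linarith
    have h5 : 0 ≤ 1 / |(n : ℝ)| ^ 2 := by positivity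
    linarith

theorem SUMG_blk : Summable fun g : SL(2, ℤ) => (sz g ^ 8)⁻¹ := by
  have h1 : Summable fun p : ℤ × ℤ => ((1 + |(p.1 : ℝ)|) ^ 2)⁻¹ * ((1 + |(p.2 : ℝ)|) ^ 2)⁻¹ :=
    SUMG_int.mul_of_nonneg SUMG_int (fun n => by positivity) (fun n => by positivity)
  have h2 : Summable fun p : (ℤ × ℤ) × (ℤ × ℤ) =>
      (((1 + |(p.1.1 : ℝ)|) ^ 2)⁻¹ * ((1 + |(p.1.2 : ℝ)|) ^ 2)⁻¹) *
        (((1 + |(p.2.1 : ℝ)|) ^ 2)⁻¹ * ((1 + |(p.2.2 : ℝ)|) ^ 2)⁻¹) :=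
    h1.mul_of_nonneg h1 (fun n => by positivity) (fun n => by positivity)
  have h3 := (h2.comp_injective SUMG_inj).mul_left (2 ^ 8 : ℝ)
  refine Summable.of_nonneg_of_le (fun g => ?_) (fun g => ?_) h3
  · have := SUMG_one_le g
    positivity
  · have hs := SUMG_one_le g
    have hs0 : 0 < sz g := by linarith
    have ha := abs_nonneg ((g 0 0 : ℤ) : ℝ)
    have hb := abs_nonneg ((g 0 1 : ℤ) : ℝ)
    have hc := abs_nonneg ((g 1 0 : ℤ) : ℝ)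
    have hd := abs_nonneg ((g 1 1 : ℤ) : ℝ)
    have hsz : sz g = |((g 0 0 : ℤ) : ℝ)| + |((g 0 1 : ℤ) : ℝ)| + |((g 1 0 : ℤ) : ℝ)| +
      |((g 1 1 : ℤ) : ℝ)| := rfl
    have ea : 1 + |((g 0 0 : ℤ) : ℝ)| ≤ 2 * sz g := by linarith
    have eb : 1 + |((g 0 1 : ℤ) : ℝ)| ≤ 2 * sz g := by linarith
    have ec : 1 + |((g 1 0 : ℤ) : ℝ)| ≤ 2 * sz g := by linarith
    have ed : 1 + |((g 1 1 : ℤ) : ℝ)| ≤ 2 * sz g := by linarith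
    show (sz g ^ 8)⁻¹ ≤ 2 ^ 8 * ((((1 + |((g 0 0 : ℤ) : ℝ)|) ^ 2)⁻¹ *
      ((1 + |((g 0 1 : ℤ) : ℝ)|) ^ 2)⁻¹) *
      (((1 + |((g 1 0 : ℤ) : ℝ)|) ^ 2)⁻¹ * ((1 + |((g 1 1 : ℤ) : ℝ)|) ^ 2)⁻¹))
    have e1 : (1 + |((g 0 0 : ℤ) : ℝ)|) ^ 2 * (1 + |((g 0 1 : ℤ) : ℝ)|) ^ 2 *
        ((1 + |((g 1 0 : ℤ) : ℝ)|) ^ 2 * (1 + |((g 1 1 : ℤ) : ℝ)|) ^ 2) ≤ 2 ^ 8 * sz g ^ 8 := by
      calc _ ≤ (2 * sz g) ^ 2 * (2 * sz g) ^ 2 * ((2 * sz g) ^ 2 * (2 * sz g) ^ 2) := by gcongr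
        _ = _ := by ring
    have e2 : (((1 + |((g 0 0 : ℤ) : ℝ)|) ^ 2)⁻¹ *
      ((1 + |((g 0 1 : ℤ) : ℝ)|) ^ 2)⁻¹) *
      (((1 + |((g 1 0 : ℤ) : ℝ)|) ^ 2)⁻¹ * ((1 + |((g 1 1 : ℤ) : ℝ)|) ^ 2)⁻¹) =
      ((1 + |((g 0 0 : ℤ) : ℝ)|) ^ 2 * (1 + |((g 0 1 : ℤ) : ℝ)|) ^ 2 *
        ((1 + |((g 1 0 : ℤ) : ℝ)|) ^ 2 * (1 + |((g 1 1 : ℤ) : ℝ)|) ^ 2))⁻¹ := by
      simp only [mul_inv]
    rw [e2]
    have e3 : (2 ^ 8 * sz g ^ 8)⁻¹ ≤ ((1 + |((g 0 0 : ℤ) : ℝ)|) ^ 2 *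
      (1 + |((g 0 1 : ℤ) : ℝ)|) ^ 2 *
        ((1 + |((g 1 0 : ℤ) : ℝ)|) ^ 2 * (1 + |((g 1 1 : ℤ) : ℝ)|) ^ 2))⁻¹ :=
      inv_anti₀ (by positivity) e1
    calc (sz g ^ 8)⁻¹ = 2 ^ 8 * (2 ^ 8 * sz g ^ 8)⁻¹ := by field_simp
      _ ≤ _ := by gcongr

/-- only finitely many matrices have bounded size -/
theorem SZFIN_blk (R : ℝ) : {g : SL(2, ℤ) | sz g ≤ R}.Finite := by
  set N : ℤ := ⌈R⌉ with hN
  have hfin : (((Finset.Icc (-N) N ×ˢ Finset.Icc (-N) N) ×ˢ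
    (Finset.Icc (-N) N ×ˢ Finset.Icc (-N) N) : Finset ((ℤ × ℤ) × (ℤ × ℤ))) :
      Set ((ℤ × ℤ) × (ℤ × ℤ))).Finite := Finset.finite_toSet _
  refine (hfin.preimage SUMG_inj.injOn).subset ?_
  intro g hg
  have hg' : sz g ≤ R := hg
  have ha := abs_nonneg ((g 0 0 : ℤ) : ℝ)
  have hb := abs_nonneg ((g 0 1 : ℤ) : ℝ)
  have hc := abs_nonneg ((g 1 0 : ℤ) : ℝ)
  have hd := abs_nonneg ((g 1 1 : ℤ) : ℝ)
  have hsz : sz g = |((g 0 0 : ℤ) : ℝ)| + |((g 0 1 : ℤ) : ℝ)| + |((g 1 0 : ℤ) : ℝ)| +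
      |((g 1 1 : ℤ) : ℝ)| := rfl
  have key : ∀ x : ℤ, |(x : ℝ)| ≤ R → x ∈ Finset.Icc (-N) N := by
    intro x hx
    have h1 : |(x : ℝ)| ≤ (N : ℝ) := hx.trans (Int.le_ceil R)
    rw [← Int.cast_abs] at h1
    have h2 : |x| ≤ N := by exact_mod_cast h1
    rw [Finset.mem_Icc]
    exact abs_le.1 h2
  rw [Set.mem_preimage, Finset.mem_coe]
  simp only [SUMG_io, Finset.mem_product]
  exact ⟨⟨key _ (by linarith), key _ (by linarith)⟩, key _ (by linarith), key _ (by linarith)⟩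

end Pool.Agent.K2
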