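import Pool.Agent.Lib_helper98.K2.Defs
import Pool.Agent.Lib_helper98.K2.W.MOB1
import Pool.Agent.Lib_helper98.K2.W.MOB2
import Pool.Agent.Lib_helper98.K2.W.SIDE
import Pool.Agent.Lib_helper98.K2.W.SUMG
import Pool.Agent.Lib_helper98.K2.W.ETA1
import Pool.Agent.Lib_helper98.K2.W.ETA3

set_option autoImplicit false

namespace Pool.Agent.K2

open Complex Matrix MeasureTheory
open scoped MatrixGroups Real

variable {d : ℕ} {e : ℤ} {ρ : SL(2, ℤ) →* Matrix (Fin 3) (Fin 3) ℂ} {C0 : ℝ} {a0 : ℕ}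

theorem SER1_I_mem : (I : ℂ) ∈ H := by
  simp [H]

theorem SER1_K_nonneg (gp : ℂ → Fin 3 → ℂ) (K : ℝ)
    (hp : ∀ z ∈ H, 0 ≤ z.re → ∀ i, ‖gp z i‖ ≤ K) : 0 ≤ K :=
  (norm_nonneg _).trans (hp I SER1_I_mem (by simp) 0)

theorem SER1_C0_nonneg (hρ : IsRep d e ρ C0 a0) : 0 ≤ C0 := by
  have h := (norm_nonneg _).trans (hρ.gr 1 0 0)
  have h1 : 0 < sz 1 ^ a0 := pow_pos (by linarith [sz_ge 1]) _
  exact nonneg_of_mul_nonneg_left h h1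

theorem SER1_mulVec_le (hρ : IsRep d e ρ C0 a0) (g : SL(2, ℤ)) (v : Fin 3 → ℂ) (K : ℝ)
    (hv : ∀ j, ‖v j‖ ≤ K) (i : Fin 3) :
    ‖(ρ g⁻¹ *ᵥ v) i‖ ≤ 3 * C0 * K * sz g ^ a0 := by
  have hC0 := SER1_C0_nonneg hρ
  have hsz : 0 ≤ sz g ^ a0 := pow_nonneg (by linarith [sz_ge g]) _
  have h1 : (ρ g⁻¹ *ᵥ v) i = ∑ j, ρ g⁻¹ i j * v j := rfl
  rw [h1]
  calc ‖∑ j, ρ g⁻¹ i j * v j‖ ≤ ∑ j : Fin 3, ‖ρ g⁻¹ i j * v j‖ := norm_sum_le _ _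
    _ ≤ ∑ j : Fin 3, (C0 * sz g ^ a0) * K := by
        refine Finset.sum_le_sum fun j _ => ?_
        rw [norm_mul]
        have h2 := hρ.gr g⁻¹ i j
        rw [sz_inv] at h2
        exact mul_le_mul h2 (hv j) (norm_nonneg _) (mul_nonneg hC0 hsz)
    _ = 3 * C0 * K * sz g ^ a0 := by
        simp [Finset.sum_const]; ring

/-- bound of a term which is not mismatched -/
theorem tm_le (hρ : IsRep d e ρ C0 a0) (n : ℕ) (hn : a0 + 8 ≤ 12 * n) (gp gm : ℂ → Fin 3 → ℂ)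
    (K : ℝ) (hp : ∀ z ∈ H, 0 ≤ z.re → ∀ i, ‖gp z i‖ ≤ K)
    (hm : ∀ z ∈ H, z.re ≤ 0 → ∀ i, ‖gm z i‖ ≤ K) :
    ∃ C : ℝ, ∀ (g : SL(2, ℤ)), ∀ z ∈ H, (0 < NN g → 0 ≤ (mob g z).re) →
      (¬ 0 < NN g → (mob g z).re ≤ 0) → ∀ i,
      ‖tm ρ n gp gm g z i‖ ≤ C * (‖Del z‖ ^ n)⁻¹ * mu z ^ (12 * n) * (sz g ^ 8)⁻¹ := by
  have hC0 := SER1_C0_nonneg hρ
  have hK := SER1_K_nonneg gp K hp
  refine ⟨3 * C0 * K * 2 ^ (12 * n), ?_⟩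
  intro g z hz h1 h2 i
  have hgz := mob_mem g hz
  have hv : ∀ j, ‖(if 0 < NN g then gp (mob g z) else gm (mob g z)) j‖ ≤ K := by
    intro j
    by_cases h : 0 < NN g
    · rw [if_pos h]; exact hp _ hgz (h1 h) j
    · rw [if_neg h]; exact hm _ hgz (h2 h) j
  have h3 := SER1_mulVec_le hρ g _ K hv i
  have hmu : 0 < mu z := by linarith [mu_ge_two hz]
  have hs : 1 ≤ sz g := sz_ge g
  have hs0 : 0 < sz g := by linarith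
  have hD : 0 < ‖Del z‖ ^ n := pow_pos (norm_pos_iff.mpr (Del_ne hz)) _
  have hnum : (sz g / (2 * mu z)) ^ (12 * n) ≤ ‖num g z‖ ^ (12 * n) :=
    pow_le_pow_left₀ (by positivity) (num_ge g hz) _
  have hpos : 0 < (sz g / (2 * mu z)) ^ (12 * n) := by positivity
  have h4 : tm ρ n gp gm g z i = (Q n (mob g z))⁻¹ *
      (ρ g⁻¹ *ᵥ (if 0 < NN g then gp (mob g z) else gm (mob g z))) i := rfl
  rw [h4, norm_mul, norm_inv, Q_mob n g hz, norm_mul, norm_pow, norm_pow]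
  have h5 : (‖Del z‖ ^ n * ‖num g z‖ ^ (12 * n))⁻¹ ≤
      (‖Del z‖ ^ n * (sz g / (2 * mu z)) ^ (12 * n))⁻¹ := by
    apply inv_anti₀ (mul_pos hD hpos)
    exact mul_le_mul_of_nonneg_left hnum hD.le
  have h6 : sz g ^ a0 * (sz g ^ (12 * n))⁻¹ ≤ (sz g ^ 8)⁻¹ := by
    rw [← div_eq_mul_inv, div_le_iff₀ (pow_pos hs0 _), ← div_eq_inv_mul, le_div_iff₀ (pow_pos hs0 _),
      ← pow_add]
    exact pow_le_pow_right₀ hs hn
  calc (‖Del z‖ ^ n * ‖num g z‖ ^ (12 * n))⁻¹ *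
        ‖(ρ g⁻¹ *ᵥ (if 0 < NN g then gp (mob g z) else gm (mob g z))) i‖
      ≤ (‖Del z‖ ^ n * (sz g / (2 * mu z)) ^ (12 * n))⁻¹ * (3 * C0 * K * sz g ^ a0) :=
        mul_le_mul h5 h3 (norm_nonneg _) (by positivity)
    _ = 3 * C0 * K * 2 ^ (12 * n) * (‖Del z‖ ^ n)⁻¹ * mu z ^ (12 * n) *
        (sz g ^ a0 * (sz g ^ (12 * n))⁻¹) := by
        rw [div_pow, mul_pow]
        field_simp
    _ ≤ 3 * C0 * K * 2 ^ (12 * n) * (‖Del z‖ ^ n)⁻¹ * mu z ^ (12 * n) * (sz g ^ 8)⁻¹ :=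
        mul_le_mul_of_nonneg_left h6 (by positivity)

theorem SER1_nomis (g : SL(2, ℤ)) {z : ℂ} (hz : z ∈ H) {M : ℝ} (hM : 16 * mu z ^ 3 ≤ M)
    (hg : ¬ sz g ≤ M) : (0 < NN g → 0 ≤ (mob g z).re) ∧ (¬ 0 < NN g → (mob g z).re ≤ 0) := by
  constructor
  · intro h
    by_contra h'
    exact hg ((mismatch g hz (Or.inl ⟨h, not_le.mp h'⟩)).trans hM)
  · intro h
    by_contra h'
    exact hg ((mismatch g hz (Or.inr ⟨h, not_le.mp h'⟩)).trans hM)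

theorem SER_sum (hρ : IsRep d e ρ C0 a0) (n : ℕ) (hn : a0 + 8 ≤ 12 * n) (gp gm : ℂ → Fin 3 → ℂ)
    (K : ℝ) (hp : ∀ z ∈ H, 0 ≤ z.re → ∀ i, ‖gp z i‖ ≤ K)
    (hm : ∀ z ∈ H, z.re ≤ 0 → ∀ i, ‖gm z i‖ ≤ K) {z : ℂ} (hz : z ∈ H) :
    Summable fun g : SL(2, ℤ) => tm ρ n gp gm g z := by
  obtain ⟨C, hC⟩ := tm_le hρ n hn gp gm K hp hm
  set B : ℝ := |C * (‖Del z‖ ^ n)⁻¹ * mu z ^ (12 * n)| with hB
  have hsum : Summable fun g : SL(2, ℤ) => B * (sz g ^ 8)⁻¹ := SUMG_blk.mul_left B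
  refine Summable.of_norm_bounded_eventually hsum ?_
  have hfin := SZFIN_blk (16 * mu z ^ 3)
  rw [Filter.eventually_cofinite]
  refine hfin.subset ?_
  intro g hg
  by_contra hbig
  apply hg
  have hbig' : ¬ sz g ≤ 16 * mu z ^ 3 := hbig
  obtain ⟨h1, h2⟩ := SER1_nomis g hz le_rfl hbig'
  have hs0 : 0 < sz g := by linarith [sz_ge g]
  rw [pi_norm_le_iff_of_nonneg (mul_nonneg (abs_nonneg _) (by positivity))]
  intro i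
  refine (hC g z hz h1 h2 i).trans ?_
  exact mul_le_mul_of_nonneg_right (le_abs_self _) (by positivity)

end Pool.Agent.K2
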