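import Pool.Agent.Lib_helper98.K2.Defs
import Pool.Agent.Lib_helper98.K2.W.MOB1
import Pool.Agent.Lib_helper98.K2.W.MOB2
import Pool.Agent.Lib_helper98.K2.W.SIDE
import Pool.Agent.Lib_helper98.K2.W.SUMG
import Pool.Agent.Lib_helper98.K2.W.ETA1
import Pool.Agent.Lib_helper98.K2.W.ETA3
import Pool.Agent.Lib_helper98.K2.W.SER1

set_option autoImplicit false

namespace Pool.Agent.K2

open Complex Matrix MeasureTheory
open scoped MatrixGroups Real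

variable {d : ℕ} {e : ℤ} {ρ : SL(2, ℤ) →* Matrix (Fin 3) (Fin 3) ℂ} {C0 : ℝ} {a0 : ℕ}

theorem SER2_tm_diffOn (n : ℕ) (gp gm : ℂ → Fin 3 → ℂ)
    (hgp : ∀ i, DifferentiableOn ℂ (fun z => gp z i) H)
    (hgm : ∀ i, DifferentiableOn ℂ (fun z => gm z i) H) (g : SL(2, ℤ)) (i : Fin 3) :
    DifferentiableOn ℂ (fun z => tm ρ n gp gm g z i) H := by
  have h4 : (fun z => tm ρ n gp gm g z i) = fun z => (Q n (mob g z))⁻¹ *
      ∑ j, ρ g⁻¹ i j * (if 0 < NN g then gp (mob g z) else gm (mob g z)) j := rfl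
  rw [h4]
  have hmap : Set.MapsTo (mob g) H H := fun z hz => mob_mem g hz
  have hQ : DifferentiableOn ℂ (fun z => (Q n (mob g z))⁻¹) H := by
    refine DifferentiableOn.inv ?_ fun z hz => Q_ne n (mob_mem g hz)
    exact (Q_diffOn n).comp (mob_diffOn g) hmap
  refine hQ.mul ?_
  refine DifferentiableOn.fun_sum fun j _ => ?_
  refine DifferentiableOn.const_mul ?_ _
  by_cases h : 0 < NN g
  · simp only [if_pos h]
    exact (hgp j).comp (mob_diffOn g) hmap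
  · simp only [if_neg h]
    exact (hgm j).comp (mob_diffOn g) hmap

theorem SER2_mu_contOn : ContinuousOn mu H := by
  unfold mu
  refine ContinuousOn.div (by fun_prop) (by fun_prop) ?_
  intro z hz
  exact ne_of_gt hz

/-- local bounds -/
theorem SER2_local {z : ℂ} (hz : z ∈ H) (n : ℕ) : ∃ (U : Set ℂ) (M D : ℝ), IsOpen U ∧ z ∈ U ∧
    U ⊆ H ∧ (∀ w ∈ U, mu w ≤ M) ∧ (∀ w ∈ U, (‖Del w‖ ^ n)⁻¹ ≤ D) := by
  have hc1 : ContinuousAt mu z := SER2_mu_contOn.continuousAt (isOpen_H.mem_nhds hz)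
  have hD : DifferentiableOn ℂ Del H := Del_diffOn
  have hc2 : ContinuousAt (fun w => (‖Del w‖ ^ n)⁻¹) z := by
    have h := hD.continuousOn.continuousAt (isOpen_H.mem_nhds hz)
    exact (h.norm.pow n).inv₀ (pow_ne_zero _ (norm_ne_zero_iff.mpr (Del_ne hz)))
  have h1 : ∀ᶠ w in nhds z, mu w < mu z + 1 := hc1.eventually_lt continuousAt_const (by linarith)
  have h2 : ∀ᶠ w in nhds z, (‖Del w‖ ^ n)⁻¹ < (‖Del z‖ ^ n)⁻¹ + 1 :=
    hc2.eventually_lt continuousAt_const (by linarith)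
  have h3 : ∀ᶠ w in nhds z, w ∈ H := isOpen_H.mem_nhds hz
  obtain ⟨U, hU, hUo, hzU⟩ := mem_nhds_iff.mp (h1.and (h2.and h3))
  exact ⟨U, mu z + 1, (‖Del z‖ ^ n)⁻¹ + 1, hUo, hzU, fun w hw => (hU hw).2.2,
    fun w hw => (hU hw).1.le, fun w hw => (hU hw).2.1.le⟩

theorem SER2_FF_apply (hρ : IsRep d e ρ C0 a0) (n : ℕ) (hn : a0 + 8 ≤ 12 * n)
    (gp gm : ℂ → Fin 3 → ℂ)
    (K : ℝ) (hp : ∀ z ∈ H, 0 ≤ z.re → ∀ i, ‖gp z i‖ ≤ K)
    (hm : ∀ z ∈ H, z.re ≤ 0 → ∀ i, ‖gm z i‖ ≤ K) {z : ℂ} (hz : z ∈ H) (i : Fin 3) :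
    (Summable fun g : SL(2, ℤ) => tm ρ n gp gm g z i) ∧
      FF ρ n gp gm z i = ∑' g : SL(2, ℤ), tm ρ n gp gm g z i := by
  have hs := SER_sum hρ n hn gp gm K hp hm hz
  exact ⟨Pi.summable.mp hs i, tsum_apply hs⟩

theorem SER_hol (hρ : IsRep d e ρ C0 a0) (n : ℕ) (hn : a0 + 8 ≤ 12 * n) (gp gm : ℂ → Fin 3 → ℂ)
    (hgp : ∀ i, DifferentiableOn ℂ (fun z => gp z i) H)
    (hgm : ∀ i, DifferentiableOn ℂ (fun z => gm z i) H)
    (K : ℝ) (hp : ∀ z ∈ H, 0 ≤ z.re → ∀ i, ‖gp z i‖ ≤ K)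
    (hm : ∀ z ∈ H, z.re ≤ 0 → ∀ i, ‖gm z i‖ ≤ K) (i : Fin 3) :
    DifferentiableOn ℂ (fun z => FF ρ n gp gm z i) H := by
  obtain ⟨C, hC⟩ := tm_le hρ n hn gp gm K hp hm
  intro z hz
  obtain ⟨U, M, D, hUo, hzU, hUH, hM, hD⟩ := SER2_local hz n
  have hfin := SZFIN_blk (16 * M ^ 3)
  set s : Finset SL(2, ℤ) := hfin.toFinset with hs
  have hD0 : 0 ≤ D := le_trans (by positivity) (hD z hzU)
  have hM0 : 0 ≤ M := by linarith [mu_ge_two hz, hM z hzU]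
  have hsum : Summable fun g : {g : SL(2, ℤ) // g ∉ s} =>
      (|C| * D * M ^ (12 * n)) * (sz g.1 ^ 8)⁻¹ :=
    (SUMG_blk.mul_left _).subtype _
  have hdiff2 : DifferentiableOn ℂ
      (fun w => ∑' g : {g : SL(2, ℤ) // g ∉ s}, tm ρ n gp gm g.1 w i) U := by
    refine differentiableOn_tsum_of_summable_norm hsum ?_ hUo ?_
    · intro g
      exact (SER2_tm_diffOn n gp gm hgp hgm g.1 i).mono hUH
    · intro g w hw
      have hbig : ¬ sz g.1 ≤ 16 * M ^ 3 := by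
        intro h
        exact g.2 (hfin.mem_toFinset.mpr h)
      have hwH := hUH hw
      have hmu0 : 0 ≤ mu w := by linarith [mu_ge_two hwH]
      have hle : 16 * mu w ^ 3 ≤ 16 * M ^ 3 := by
        have := pow_le_pow_left₀ hmu0 (hM w hw) 3
        linarith
      obtain ⟨h1, h2⟩ := SER1_nomis g.1 hwH hle hbig
      have hs0 : 0 < sz g.1 := by linarith [sz_ge g.1]
      refine (hC g.1 w hwH h1 h2 i).trans ?_
      refine mul_le_mul_of_nonneg_right ?_ (by positivity)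
      have e1 : C * (‖Del w‖ ^ n)⁻¹ ≤ |C| * D :=
        mul_le_mul (le_abs_self _) (hD w hw) (by positivity) (abs_nonneg _)
      exact mul_le_mul e1 (pow_le_pow_left₀ hmu0 (hM w hw) _) (by positivity) (by positivity)
  have hdiff1 : DifferentiableOn ℂ (fun w => ∑ g ∈ s, tm ρ n gp gm g w i) U := by
    refine DifferentiableOn.fun_sum fun g _ => ?_
    exact (SER2_tm_diffOn n gp gm hgp hgm g i).mono hUH
  have hEq : ∀ w ∈ U, FF ρ n gp gm w i = ∑ g ∈ s, tm ρ n gp gm g w i +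
      ∑' g : {g : SL(2, ℤ) // g ∉ s}, tm ρ n gp gm g.1 w i := by
    intro w hw
    obtain ⟨h1, h2⟩ := SER2_FF_apply hρ n hn gp gm K hp hm (hUH hw) i
    rw [h2]
    exact (h1.sum_add_tsum_subtype_compl s).symm
  have h3 : DifferentiableOn ℂ (fun w => FF ρ n gp gm w i) U :=
    (hdiff1.add hdiff2).congr hEq
  exact (h3.differentiableAt (hUo.mem_nhds hzU)).differentiableWithinAt

theorem SER_bd (hρ : IsRep d e ρ C0 a0) (n : ℕ) (hn : a0 + 8 ≤ 12 * n) (gp gm : ℂ → Fin 3 → ℂ)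
    (K : ℝ) (hp : ∀ z ∈ H, 0 ≤ z.re → ∀ i, ‖gp z i‖ ≤ K)
    (hm : ∀ z ∈ H, z.re ≤ 0 → ∀ i, ‖gm z i‖ ≤ K) :
    ∃ C : ℝ, ∀ z ∈ H, 0 ≤ z.re → z.re ≤ 1 → z.re ≤ ‖z‖ ^ 2 → ∀ i,
      ‖FF ρ n gp gm z i‖ ≤ C * (‖Del z‖ ^ n)⁻¹ * mu z ^ (12 * n) := by
  obtain ⟨C, hC⟩ := tm_le hρ n hn gp gm K hp hm
  refine ⟨C * ∑' g : SL(2, ℤ), (sz g ^ 8)⁻¹, ?_⟩
  intro z hz h0 h1 h2 i
  obtain ⟨_, h4⟩ := SER2_FF_apply hρ n hn gp gm K hp hm hz i
  rw [h4]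
  have hb : ∀ g : SL(2, ℤ), ‖tm ρ n gp gm g z i‖ ≤
      (C * (‖Del z‖ ^ n)⁻¹ * mu z ^ (12 * n)) * (sz g ^ 8)⁻¹ := fun g =>
    hC g z hz (fun hN => side_pos g hz h0 h1 h2 hN) (fun hN => side_neg g hz h0 h1 h2 hN) i
  have hsum : Summable fun g : SL(2, ℤ) =>
      (C * (‖Del z‖ ^ n)⁻¹ * mu z ^ (12 * n)) * (sz g ^ 8)⁻¹ := SUMG_blk.mul_left _
  refine (tsum_of_norm_bounded hsum.hasSum hb).trans (le_of_eq ?_)
  rw [tsum_mul_left]
  ring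

end Pool.Agent.K2
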