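import Pool.Agent.Lib_helper98.K2.Defs
import Pool.Agent.Lib_helper98.K2.W.MOB1
import Pool.Agent.Lib_helper98.K2.W.MOB2
import Pool.Agent.Lib_helper98.K2.W.SIDE
import Pool.Agent.Lib_helper98.K2.W.SUMG
import Pool.Agent.Lib_helper98.K2.W.ETA1
import Pool.Agent.Lib_helper98.K2.W.ETA3
import Pool.Agent.Lib_helper98.K2.W.SER1

set_option autoImplicit false

namespace Pool.Agent.K2

open Complex Matrix MeasureTheory
open scoped MatrixGroups Real

variable {d : ℕ} {e : ℤ} {ρ : SL(2, ℤ) →* Matrix (Fin 3) (Fin 3) ℂ} {C0 : ℝ} {a0 : ℕ}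

private theorem SER3_SS : ModularGroup.S * ModularGroup.S = (-1 : SL(2, ℤ)) := by
  ext i j
  fin_cases i <;> fin_cases j <;>
    simp [ModularGroup.S, Matrix.mul_apply, Fin.sum_univ_two]

private theorem SER3_AS2 (e : ℤ) : AS e * AS e = !![(e : ℂ) ^ 2, 0, 0; 0, 1, 0; 0, 0, 1] := by
  unfold AS
  ext i j
  fin_cases i <;> fin_cases j <;>
    simp [Matrix.mul_apply, Fin.sum_univ_three, pow_two]

private theorem SER3_e2 (hρ : IsRep d e ρ C0 a0) : (e : ℂ) ^ 2 = 1 := by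
  have h1 : ρ (-1 : SL(2, ℤ)) = !![(e : ℂ) ^ 2, 0, 0; 0, 1, 0; 0, 0, 1] := by
    rw [← SER3_SS, map_mul, hρ.S, SER3_AS2]
  have h2 : ρ (-1 : SL(2, ℤ)) * ρ (-1 : SL(2, ℤ)) = 1 := by
    rw [← map_mul]
    simp
  rw [h1] at h2
  have h3 := congrFun (congrFun h2 0) 0
  simp [Matrix.mul_apply, Fin.sum_univ_three] at h3
  have h4 : ((e ^ 2 * e ^ 2 : ℤ) : ℂ) = ((1 : ℤ) : ℂ) := by push_cast; exact h3
  have h5 : e ^ 2 * e ^ 2 = 1 := by exact_mod_cast h4
  have h6 : e ^ 2 = 1 := by nlinarith [sq_nonneg e, sq_nonneg (e ^ 2 - 1)]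
  exact_mod_cast h6

private theorem SER3_neg_one (hρ : IsRep d e ρ C0 a0) : ρ (-1 : SL(2, ℤ)) = 1 := by
  rw [← SER3_SS, map_mul, hρ.S, SER3_AS2, SER3_e2 hρ]
  ext i j
  fin_cases i <;> fin_cases j <;> simp

private theorem SER3_AS_inv (hρ : IsRep d e ρ C0 a0) :
    ρ (ModularGroup.S : SL(2, ℤ))⁻¹ = AS e ∧ ρ (-(ModularGroup.S : SL(2, ℤ)))⁻¹ = AS e := by
  have h1 : (ModularGroup.S : SL(2, ℤ))⁻¹ = -1 * ModularGroup.S := by
    rw [← SER3_SS]
    have h2 : (ModularGroup.S * ModularGroup.S) * (ModularGroup.S * ModularGroup.S) =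
        (1 : SL(2, ℤ)) := by
      rw [SER3_SS]; simp
    rw [inv_eq_iff_mul_eq_one]
    rw [← h2]
    simp only [mul_assoc]
  have h3 : (-(ModularGroup.S : SL(2, ℤ)))⁻¹ = ModularGroup.S := by
    rw [inv_eq_iff_mul_eq_one, neg_mul, SER3_SS, neg_neg]
  constructor
  · rw [h1, map_mul, SER3_neg_one hρ, one_mul, hρ.S]
  · rw [h3, hρ.S]

/-- the functional equations; `s = (gp - gm) / Q n`; `γ = S` or `T` -/
theorem SER_rel (hρ : IsRep d e ρ C0 a0) (n : ℕ) (hn : a0 + 8 ≤ 12 * n) (gp gm : ℂ → Fin 3 → ℂ)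
    (K : ℝ) (hp : ∀ z ∈ H, 0 ≤ z.re → ∀ i, ‖gp z i‖ ≤ K)
    (hm : ∀ z ∈ H, z.re ≤ 0 → ∀ i, ‖gm z i‖ ≤ K) {z : ℂ} (hz : z ∈ H)
    (γ : SL(2, ℤ)) (hγ : γ = ModularGroup.S ∨ γ = ModularGroup.T) :
    FF ρ n gp gm (mob γ z) = ρ γ *ᵥ (FF ρ n gp gm z -
      (2 : ℂ) • ((Q n z)⁻¹ • (gp z - gm z) -
        AS e *ᵥ ((Q n (-1 / z))⁻¹ • (gp (-1 / z) - gm (-1 / z))))) := by
  have hside : ∀ g : SL(2, ℤ), NN (g * γ⁻¹) = NN (g * ModularGroup.T⁻¹) := by
    intro g
    rcases hγ with h | h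
    · rw [h, NN_T_inv]
    · rw [h]
  set tm' : SL(2, ℤ) → Fin 3 → ℂ := fun g =>
    (Q n (mob g z))⁻¹ • (ρ g⁻¹ *ᵥ (if 0 < NN (g * ModularGroup.T⁻¹) then gp (mob g z)
      else gm (mob g z))) with htm'
  have hsum : Summable (fun g : SL(2, ℤ) => tm ρ n gp gm g z) := SER_sum hρ n hn gp gm K hp hm hz
  -- the transformed terms
  have hterm : ∀ g : SL(2, ℤ), tm ρ n gp gm g (mob γ z) = ρ γ *ᵥ tm' (g * γ) := by
    intro g
    have h1 : mob g (mob γ z) = mob (g * γ) z := (mob_mul g γ hz).symm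
    have h2 : NN (g * γ * ModularGroup.T⁻¹) = NN g := by
      rw [← hside, mul_inv_cancel_right]
    have h3 : ρ g⁻¹ = ρ γ * ρ (g * γ)⁻¹ := by
      rw [← map_mul]
      congr 1
      group
    unfold tm
    rw [htm']
    simp only
    rw [h1, h2, h3, Matrix.mulVec_smul, Matrix.mulVec_mulVec]
  -- differences
  set s : SL(2, ℤ) → Fin 3 → ℂ := fun g => tm ρ n gp gm g z - tm' g with hs
  have hs0 : ∀ g : SL(2, ℤ), g ∉ ({1, -1, ModularGroup.S, -ModularGroup.S} : Finset SL(2, ℤ)) →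
      s g = 0 := by
    intro g hg
    simp only [Finset.mem_insert, Finset.mem_singleton, not_or] at hg
    have hflip := NN_flip g hg.1 hg.2.1 hg.2.2.1 hg.2.2.2
    rw [hs]
    simp only
    rw [htm']
    simp only
    unfold tm
    by_cases h : 0 < NN g
    · rw [if_pos h, if_pos (hflip.mpr h), sub_self]
    · rw [if_neg h, if_neg (fun hh => h (hflip.mp hh)), sub_self]
  have hsfin : Summable s := summable_of_ne_finset_zero hs0
  have htsum : ∑' g, s g = (2 : ℂ) • ((Q n z)⁻¹ • (gp z - gm z) -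
        AS e *ᵥ ((Q n (-1 / z))⁻¹ • (gp (-1 / z) - gm (-1 / z)))) := by
    rw [tsum_eq_sum hs0]
    have hN1 : NN (1 : SL(2, ℤ)) = 1 := NN_one
    have hN2 : NN (-1 : SL(2, ℤ)) = 1 := by rw [NN_neg, NN_one]
    have hN3 : NN (ModularGroup.S) = -1 := NN_S
    have hN4 : NN (-ModularGroup.S) = -1 := by rw [NN_neg, NN_S]
    have hN5 : NN (1 * ModularGroup.T⁻¹) = -1 := NN_one_T
    have hN6 : NN (-1 * ModularGroup.T⁻¹) = -1 := by
      rw [neg_mul, NN_neg, NN_one_T]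
    have hN7 : NN (ModularGroup.S * ModularGroup.T⁻¹) = 1 := NN_S_T
    have hN8 : NN (-ModularGroup.S * ModularGroup.T⁻¹) = 1 := by
      rw [neg_mul, NN_neg, NN_S_T]
    have hs1 : s 1 = (Q n z)⁻¹ • (gp z - gm z) := by
      rw [hs]
      simp only
      rw [htm']
      simp only
      unfold tm
      rw [hN1, hN5, mob_one, if_pos one_pos, if_neg (by norm_num), inv_one, map_one,
        Matrix.one_mulVec, Matrix.one_mulVec, smul_sub]
    have hs2 : s (-1) = (Q n z)⁻¹ • (gp z - gm z) := by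
      rw [hs]
      simp only
      rw [htm']
      simp only
      unfold tm
      have hinv : (-1 : SL(2, ℤ))⁻¹ = -1 := by
        rw [inv_eq_iff_mul_eq_one]; simp
      rw [hN2, hN6, mob_neg, mob_one, if_pos one_pos, if_neg (by norm_num), hinv,
        SER3_neg_one hρ, Matrix.one_mulVec, Matrix.one_mulVec, smul_sub]
    have hs3 : s ModularGroup.S = -(AS e *ᵥ ((Q n (-1 / z))⁻¹ • (gp (-1 / z) - gm (-1 / z)))) := by
      rw [hs]
      simp only
      rw [htm']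
      simp only
      unfold tm
      rw [hN3, hN7, mob_S, if_neg (by norm_num), if_pos one_pos, (SER3_AS_inv hρ).1,
        ← smul_sub, ← Matrix.mulVec_sub, Matrix.mulVec_smul, ← smul_neg, ← Matrix.mulVec_neg,
        neg_sub]
    have hs4 : s (-ModularGroup.S) =
        -(AS e *ᵥ ((Q n (-1 / z))⁻¹ • (gp (-1 / z) - gm (-1 / z)))) := by
      rw [hs]
      simp only
      rw [htm']
      simp only
      unfold tm
      rw [hN4, hN8, mob_neg, mob_S, if_neg (by norm_num), if_pos one_pos, (SER3_AS_inv hρ).2,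
        ← smul_sub, ← Matrix.mulVec_sub, Matrix.mulVec_smul, ← smul_neg, ← Matrix.mulVec_neg,
        neg_sub]
    have n1 : (1 : SL(2, ℤ)) ∉ ({-1, ModularGroup.S, -ModularGroup.S} : Finset SL(2, ℤ)) := by
      decide
    have n2 : (-1 : SL(2, ℤ)) ∉ ({ModularGroup.S, -ModularGroup.S} : Finset SL(2, ℤ)) := by
      decide
    have n3 : (ModularGroup.S : SL(2, ℤ)) ∉ ({-ModularGroup.S} : Finset SL(2, ℤ)) := by
      decide
    rw [Finset.sum_insert n1, Finset.sum_insert n2, Finset.sum_insert n3, Finset.sum_singleton,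
      hs1, hs2, hs3, hs4]
    module
  have htm's : Summable tm' := by
    have := hsum.sub hsfin
    refine this.congr ?_
    intro g
    rw [hs]
    simp
  have htm'sum : ∑' g, tm' g = FF ρ n gp gm z - ∑' g, s g := by
    have h1 : ∀ g, tm' g = tm ρ n gp gm g z - s g := by
      intro g
      rw [hs]
      simp
    rw [tsum_congr h1, hsum.tsum_sub hsfin]
    rfl
  calc FF ρ n gp gm (mob γ z) = ∑' g, ρ γ *ᵥ tm' (g * γ) := tsum_congr hterm
    _ = ∑' g, ρ γ *ᵥ tm' g := (Equiv.mulRight γ).tsum_eq (fun g => ρ γ *ᵥ tm' g)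
    _ = ρ γ *ᵥ ∑' g, tm' g :=
        ((LinearMap.toContinuousLinearMap (Matrix.mulVecLin (ρ γ))).map_tsum htm's).symm
    _ = _ := by rw [htm'sum, htsum]

end Pool.Agent.K2
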