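import Pool.Agent.Lib_helper98.K2.Defs
import Pool.Agent.Lib_helper98.K2.W.MOB1
import Pool.Agent.Lib_helper98.K2.W.MOB2
import Pool.Agent.Lib_helper98.K2.W.SIDE
import Pool.Agent.Lib_helper98.K2.W.ETA1
import Pool.Agent.Lib_helper98.K2.W.ETA2
import Pool.Agent.Lib_helper98.K2.W.ETA3
import Pool.Agent.Lib_helper98.K2.W.DATA
import Pool.Agent.Lib_helper98.K2.W.SEC
import Pool.Agent.Lib_helper98.K2.W.REP
import Pool.Agent.Lib_helper98.K2.W.CUT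
import Pool.Agent.Lib_helper98.K2.W.SER1
import Pool.Agent.Lib_helper98.K2.W.SER2
import Pool.Agent.Lib_helper98.K2.W.SER3

set_option autoImplicit false

namespace Pool.Agent.K2

open Complex Matrix MeasureTheory
open scoped MatrixGroups Real

private theorem INH0_AS (e : ℤ) (he : e = 1 ∨ e = -1) (v : Fin 3 → ℂ) :
    AS e *ᵥ (AS e *ᵥ v) = v := by
  have h2 : (e : ℂ) * (e : ℂ) = 1 := by
    rcases he with h | h <;> rw [h] <;> norm_num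
  ext i
  fin_cases i
  · simp only [AS, Matrix.mulVec, dotProduct, Fin.sum_univ_three]
    simp [← mul_assoc, h2]
  · simp [AS, Matrix.mulVec, dotProduct, Fin.sum_univ_three]
  · simp [AS, Matrix.mulVec, dotProduct, Fin.sum_univ_three]

/-- weight 0 solution of the inhomogeneous equations -/
theorem INH0_blk (d : ℕ) (e : ℤ) (he : e = 1 ∨ e = -1) (r : ℝ) :
    ∃ (n : ℕ) (F : ℂ → Fin 3 → ℂ), (∀ i, DifferentiableOn ℂ (fun z => F z i) H) ∧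
      (∀ z ∈ H, F (z + 1) = AT d e *ᵥ (F z - dv d e r z)) ∧
      (∀ z ∈ H, F (-1 / z) = AS e *ᵥ (F z - dv d e r z)) ∧
      ∃ C : ℝ, ∀ z ∈ H, 0 ≤ z.re → z.re ≤ 1 → z.re ≤ ‖z‖ ^ 2 → ∀ i,
        ‖F z i‖ ≤ C * (‖Del z‖ ^ n)⁻¹ * mu z ^ (12 * n) := by
  obtain ⟨ρ, C0, a0, hρ⟩ := REP_blk d e he
  set n : ℕ := a0 + d + 8 with hn
  have hn1 : a0 + 8 ≤ 12 * n := by omega
  have hn2 : d < 24 * n := by omega
  obtain ⟨C, hC⟩ := SEC_blk d e he r n hn2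
  have hcut : ∀ i : Fin 3, ∃ (gp gm : ℂ → ℂ) (K : ℝ), DifferentiableOn ℂ gp H ∧
      DifferentiableOn ℂ gm H ∧ (∀ z ∈ H, Q n z * dv d e r z i / 4 = gp z - gm z) ∧
      (∀ z ∈ H, 0 ≤ z.re → ‖gp z‖ ≤ K) ∧ (∀ z ∈ H, z.re ≤ 0 → ‖gm z‖ ≤ K) := by
    intro i
    refine CUT_blk (fun z => Q n z * dv d e r z i / 4)
      (((Q_diffOn n).mul (dv_diffOn d e r i)).div_const 4) (C / 4) fun z hz hs => ?_
    have h := hC z hz hs i
    rw [norm_div]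
    have h4 : ‖(4 : ℂ)‖ = 4 := by norm_num
    rw [h4]
    calc ‖Q n z * dv d e r z i‖ / 4 ≤ C * (‖z‖ ^ 2 / (1 + ‖z‖ ^ 4)) / 4 := by
          exact div_le_div_of_nonneg_right h (by norm_num)
      _ = C / 4 * (‖z‖ ^ 2 / (1 + ‖z‖ ^ 4)) := by ring
  choose gp gm K hgp hgm hs hp hm using hcut
  set Gp : ℂ → Fin 3 → ℂ := fun z i => gp i z with hGp
  set Gm : ℂ → Fin 3 → ℂ := fun z i => gm i z with hGm
  set K' : ℝ := ∑ i, |K i| with hK'
  have hKle : ∀ i, K i ≤ K' := fun i => (le_abs_self _).trans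
    (Finset.single_le_sum (f := fun i => |K i|) (fun _ _ => abs_nonneg _) (Finset.mem_univ i))
  have hp' : ∀ z ∈ H, 0 ≤ z.re → ∀ i, ‖Gp z i‖ ≤ K' :=
    fun z hz h i => (hp i z hz h).trans (hKle i)
  have hm' : ∀ z ∈ H, z.re ≤ 0 → ∀ i, ‖Gm z i‖ ≤ K' :=
    fun z hz h i => (hm i z hz h).trans (hKle i)
  have hq : ∀ z ∈ H, (Q n z)⁻¹ • (Gp z - Gm z) = (1 / 4 : ℂ) • dv d e r z := by
    intro z hz
    ext i
    have h := hs i z hz
    have hQ := Q_ne n hz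
    simp only [Pi.smul_apply, Pi.sub_apply, smul_eq_mul, hGp, hGm]
    rw [← h]
    field_simp
  have hinh : ∀ z ∈ H, (2 : ℂ) • ((Q n z)⁻¹ • (Gp z - Gm z) -
        AS e *ᵥ ((Q n (-1 / z))⁻¹ • (Gp (-1 / z) - Gm (-1 / z)))) = dv d e r z := by
    intro z hz
    rw [hq z hz, hq _ (S_mem hz), dv_S d e he r hz, Matrix.mulVec_smul, Matrix.mulVec_neg,
      INH0_AS e he]
    ext i
    simp only [Pi.smul_apply, Pi.sub_apply, Pi.neg_apply, smul_eq_mul]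
    ring
  refine ⟨n, FF ρ n Gp Gm, ?_, ?_, ?_, ?_⟩
  · exact SER_hol hρ n hn1 Gp Gm (fun i => hgp i) (fun i => hgm i) K' hp' hm'
  · intro z hz
    have h := SER_rel hρ n hn1 Gp Gm K' hp' hm' hz ModularGroup.T (Or.inr rfl)
    rw [mob_T, hρ.T, hinh z hz] at h
    exact h
  · intro z hz
    have h := SER_rel hρ n hn1 Gp Gm K' hp' hm' hz ModularGroup.S (Or.inl rfl)
    rw [mob_S, hρ.S, hinh z hz] at h
    exact h
  · exact SER_bd hρ n hn1 Gp Gm K' hp' hm'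

end Pool.Agent.K2
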