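import Pool.Agent.Lib_helper98.K2.Defs
import Pool.Agent.Lib_helper98.K2.W.MOB1
import Pool.Agent.Lib_helper98.K2.W.MOB2

set_option autoImplicit false

namespace Pool.Agent.K2

open Complex Matrix MeasureTheory
open scoped MatrixGroups Real

private theorem DIFF_low {z : ℂ} (hz : z ∈ H) (m : ℕ) : (1 + m : ℝ) ≤ 2 * mu z * ‖z + m‖ := by
  have hy : 0 < z.im := hz
  have h1 : z.im ≤ ‖z + m‖ := by
    have := abs_im_le_norm (z + m)
    simp only [add_im, natCast_im, add_zero] at this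
    exact (le_abs_self _).trans this
  have h2 : (m : ℝ) ≤ ‖z + m‖ + ‖z‖ := by
    have e : ((m : ℕ) : ℂ) = (z + m) - z := by ring
    calc (m : ℝ) = ‖((m : ℕ) : ℂ)‖ := by simp
      _ = ‖(z + m) - z‖ := by rw [← e]
      _ ≤ _ := norm_sub_le _ _
  have h3 : 0 ≤ ‖z‖ := norm_nonneg z
  unfold mu
  rw [mul_div_assoc', div_mul_eq_mul_div, le_div_iff₀ hy]
  have h4 : z.im ≤ ‖z‖ := (le_abs_self _).trans (abs_im_le_norm z)
  have h5 : 0 ≤ (‖z‖ - 1) ^ 2 := sq_nonneg _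
  calc (1 + m : ℝ) * z.im ≤ (1 + (‖z + m‖ + ‖z‖)) * z.im := by
        apply mul_le_mul_of_nonneg_right _ hy.le; linarith
    _ = (1 + ‖z‖) * z.im + ‖z + m‖ * z.im := by ring
    _ ≤ (1 + ‖z‖) * ‖z + m‖ + ‖z + m‖ * ‖z‖ := by
        apply add_le_add
        · exact mul_le_mul_of_nonneg_left h1 (by linarith)
        · exact mul_le_mul_of_nonneg_left h4 (norm_nonneg _)
    _ = (1 + 2 * ‖z‖) * ‖z + m‖ := by ring
    _ ≤ 2 * (1 + ‖z‖ ^ 2) * ‖z + m‖ := by
        apply mul_le_mul_of_nonneg_right _ (norm_nonneg _)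
        nlinarith

private theorem DIFF_mu {z : ℂ} (hz : z ∈ H) : 2 ≤ mu z := by
  have hy : 0 < z.im := hz
  unfold mu
  rw [le_div_iff₀ hy]
  have h4 : z.im ≤ ‖z‖ := (le_abs_self _).trans (abs_im_le_norm z)
  have h5 : 0 ≤ (‖z‖ - 1) ^ 2 := sq_nonneg _
  nlinarith

private theorem DIFF_pw {κ : ℝ} (hκ : 1 < κ) {x y : ℝ} {n : ℕ} (hx : 1 ≤ x)
    (h : (1 + n : ℝ) ≤ x * y) : y ^ (-κ) ≤ x ^ κ * (1 + n : ℝ) ^ (-κ) := by
  have hn : (0 : ℝ) < 1 + n := by positivity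
  have hx0 : 0 < x := by linarith
  have hy : 0 < y := by
    by_contra hh
    have : x * y ≤ 0 := mul_nonpos_of_nonneg_of_nonpos hx0.le (not_lt.1 hh)
    linarith
  have h1 : (1 + n : ℝ) ^ κ ≤ (x * y) ^ κ := Real.rpow_le_rpow hn.le h (by linarith)
  rw [Real.mul_rpow hx0.le hy.le] at h1
  rw [Real.rpow_neg hy.le, Real.rpow_neg hn.le, ← div_eq_mul_inv, le_div_iff₀ (Real.rpow_pos_of_pos hn _),
    inv_mul_le_iff₀ (Real.rpow_pos_of_pos hy _)]
  linarith

private theorem DIFF_bd {κ : ℝ} (hκ : 1 < κ) {f : ℂ → ℂ} {C : ℝ}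
    (hb : ∀ z ∈ H, ‖f z‖ ≤ C * (‖z‖ ^ (-κ) + ‖z + 1‖ ^ (-κ))) {z : ℂ} (hz : z ∈ H) (m : ℕ) :
    ‖f (z + m)‖ ≤ 2 * |C| * (2 * mu z) ^ κ * (1 + m : ℝ) ^ (-κ) := by
  have hzm : z + m ∈ H := by
    have hz' : 0 < z.im := hz
    show 0 < (z + m).im
    simpa using hz'
  have h1 := hb _ hzm
  have hx : 1 ≤ 2 * mu z := by
    have := DIFF_mu hz
    linarith
  have h2 := DIFF_pw hκ hx (DIFF_low hz m)
  have h3 : ‖z + m + 1‖ ^ (-κ) ≤ (2 * mu z) ^ κ * (1 + m : ℝ) ^ (-κ) := by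
    apply DIFF_pw hκ hx
    have h4 := DIFF_low hz (m + 1)
    have e : z + ((m + 1 : ℕ) : ℂ) = z + m + 1 := by push_cast; ring
    rw [e] at h4
    push_cast at h4
    linarith
  calc ‖f (z + m)‖ ≤ C * (‖z + m‖ ^ (-κ) + ‖z + m + 1‖ ^ (-κ)) := h1
    _ ≤ |C| * (‖z + m‖ ^ (-κ) + ‖z + m + 1‖ ^ (-κ)) := by
        apply mul_le_mul_of_nonneg_right (le_abs_self _)
        positivity
    _ ≤ |C| * ((2 * mu z) ^ κ * (1 + m : ℝ) ^ (-κ) + (2 * mu z) ^ κ * (1 + m : ℝ) ^ (-κ)) := by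
        apply mul_le_mul_of_nonneg_left _ (abs_nonneg _)
        exact add_le_add h2 h3
    _ = _ := by ring

private theorem DIFF_sum {κ : ℝ} (hκ : 1 < κ) : Summable (fun m : ℕ => (1 + m : ℝ) ^ (-κ)) := by
  have h := (summable_nat_add_iff (f := fun n : ℕ => (n : ℝ) ^ (-κ)) 1).2
    (Real.summable_nat_rpow.2 (by linarith))
  refine h.congr fun m => ?_
  push_cast
  rw [add_comm]

/-- first order difference equation with decaying right hand side -/
theorem DIFF_blk (lm : ℂ) (hl : ‖lm‖ = 1) (κ : ℝ) (hκ : 1 < κ) (f : ℂ → ℂ)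
    (hf : DifferentiableOn ℂ f H) (C : ℝ)
    (hb : ∀ z ∈ H, ‖f z‖ ≤ C * (‖z‖ ^ (-κ) + ‖z + 1‖ ^ (-κ))) :
    ∃ p : ℂ → ℂ, DifferentiableOn ℂ p H ∧ Mod p ∧ ∀ z ∈ H, p (z + 1) - lm * p z = f z := by
  have hl0 : lm ≠ 0 := by
    intro h
    rw [h, norm_zero] at hl
    exact zero_ne_one hl
  have hs := DIFF_sum hκ
  set F : ℕ → ℂ → ℂ := fun m z => -((lm ^ (m + 1))⁻¹ * f (z + m)) with hF
  have hFn : ∀ z ∈ H, ∀ m, ‖F m z‖ ≤ 2 * |C| * (2 * mu z) ^ κ * (1 + m : ℝ) ^ (-κ) := by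
    intro z hz m
    simp only [hF]
    rw [norm_neg, norm_mul, norm_inv, norm_pow, hl, one_pow, inv_one, one_mul]
    exact DIFF_bd hκ hb hz m
  have hFs : ∀ z ∈ H, Summable (fun m => F m z) := by
    intro z hz
    exact Summable.of_norm_bounded (hs.mul_left _) (hFn z hz)
  refine ⟨fun z => ∑' m, F m z, ?_, ?_, ?_⟩
  · intro z0 hz0
    set M : ℝ := mu z0 + 1 with hM
    set V : Set ℂ := {z | 0 < z.im ∧ 1 + ‖z‖ ^ 2 < M * z.im} with hV
    have hVo : IsOpen V := by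
      apply IsOpen.and
      · exact isOpen_lt continuous_const continuous_im
      · exact isOpen_lt (by fun_prop) (continuous_const.mul continuous_im)
    have hVH : ∀ z ∈ V, z ∈ H := fun z hz => hz.1
    have hVm : ∀ z ∈ V, mu z ≤ M := by
      intro z hz
      unfold mu
      rw [div_le_iff₀ hz.1]
      exact hz.2.le
    have hz0V : z0 ∈ V := by
      refine ⟨hz0, ?_⟩
      have hy : 0 < z0.im := hz0
      have h1 : mu z0 * z0.im = 1 + ‖z0‖ ^ 2 := by
        unfold mu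
        field_simp
      rw [hM, add_mul, h1, one_mul]
      linarith
    have hM0 : 0 ≤ 2 * M := by
      have := DIFF_mu hz0
      rw [hM]; linarith
    have h1 : DifferentiableOn ℂ (fun z => ∑' m, F m z) V := by
      refine differentiableOn_tsum_of_summable_norm
        (u := fun m : ℕ => 2 * |C| * (2 * M) ^ κ * (1 + m : ℝ) ^ (-κ)) (hs.mul_left _) ?_ hVo ?_
      · intro m
        have hc : DifferentiableOn ℂ (fun z => f (z + m)) V := by
          refine hf.comp (by fun_prop) ?_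
          intro z hz
          show 0 < (z + m).im
          simpa using hz.1
        exact (hc.const_mul _).neg
      · intro m w hw
        refine (hFn w (hVH w hw) m).trans ?_
        apply mul_le_mul_of_nonneg_right _ (by positivity)
        apply mul_le_mul_of_nonneg_left _ (by positivity)
        apply Real.rpow_le_rpow
        · have := DIFF_mu (hVH w hw)
          linarith
        · have := hVm w hw
          linarith
        · linarith
    exact ((h1 z0 hz0V).differentiableAt (hVo.mem_nhds hz0V)).differentiableWithinAt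
  · refine ⟨2 * |C| * 2 ^ ⌈κ⌉₊ * ∑' m : ℕ, (1 + m : ℝ) ^ (-κ), ⌈κ⌉₊, ?_⟩
    intro z hz
    have h1 : 1 ≤ 2 * mu z := by
      have := DIFF_mu hz
      linarith
    have h2 : (2 * mu z) ^ κ ≤ (2 * mu z) ^ ⌈κ⌉₊ := by
      rw [← Real.rpow_natCast]
      exact Real.rpow_le_rpow_of_exponent_le h1 (Nat.le_ceil κ)
    have hts : 0 ≤ ∑' m : ℕ, (1 + m : ℝ) ^ (-κ) := tsum_nonneg fun m => by positivity
    calc ‖∑' m, F m z‖ ≤ ∑' m : ℕ, 2 * |C| * (2 * mu z) ^ κ * (1 + m : ℝ) ^ (-κ) :=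
          tsum_of_norm_bounded (hs.mul_left _).hasSum (hFn z hz)
      _ = 2 * |C| * (2 * mu z) ^ κ * ∑' m : ℕ, (1 + m : ℝ) ^ (-κ) := tsum_mul_left
      _ ≤ 2 * |C| * (2 * mu z) ^ ⌈κ⌉₊ * ∑' m : ℕ, (1 + m : ℝ) ^ (-κ) := by
          apply mul_le_mul_of_nonneg_right _ hts
          exact mul_le_mul_of_nonneg_left h2 (by positivity)
      _ = _ := by rw [mul_pow]; ring
  · intro z hz
    have e1 := (hFs z hz).tsum_eq_zero_add
    show ∑' m, F m (z + 1) - lm * ∑' m, F m z = f z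
    rw [e1, mul_add, ← tsum_mul_left]
    have e2 : ∀ m : ℕ, lm * F (m + 1) z = F m (z + 1) := by
      intro m
      simp only [hF]
      have e3 : z + ((m + 1 : ℕ) : ℂ) = z + 1 + m := by push_cast; ring
      rw [e3]
      field_simp
      ring
    have e4 : ∑' m, lm * F (m + 1) z = ∑' m, F m (z + 1) := tsum_congr e2
    rw [e4]
    have e5 : lm * F 0 z = -f z := by
      simp only [hF]
      rw [Nat.cast_zero, add_zero]
      field_simp
      ring
    rw [e5]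
    ring

end Pool.Agent.K2
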