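import Pool.Agent.Lib_helper98.K2.Defs
import Pool.Agent.Lib_helper98.K2.W.MOB1
import Pool.Agent.Lib_helper98.K2.W.MOB2
import Pool.Agent.Lib_helper98.K2.W.ETA1
import Pool.Agent.Lib_helper98.K2.W.DATA
import Pool.Agent.Lib_helper98.K2.W.DIFF

set_option autoImplicit false

namespace Pool.Agent.K2

open Complex Matrix MeasureTheory
open scoped MatrixGroups Real

private theorem PU_ne {z : ℂ} (hz : z ∈ H) : z ≠ 0 := by
  intro h
  have h1 : (0 : ℝ) < z.im := hz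
  rw [h] at h1
  simp at h1

private theorem PU_e {e : ℤ} (he : e = 1 ∨ e = -1) : (e : ℂ) * e = 1 := by
  rcases he with h | h <;> subst h <;> norm_num

private theorem PU_enorm {e : ℤ} (he : e = 1 ∨ e = -1) : ‖(e : ℂ)‖ = 1 := by
  rcases he with h | h <;> subst h <;> norm_num

private theorem PU_ccne (d : ℕ) : cc d ≠ 0 := by
  unfold cc
  exact Complex.exp_ne_zero _

private theorem PU_ccnorm (d : ℕ) : ‖cc d‖ = 1 := by
  unfold cc
  have h : (π * I * d / 4 : ℂ) = ((π * d / 4 : ℝ) : ℂ) * I := by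
    push_cast
    ring
  rw [h]
  exact Complex.norm_exp_ofReal_mul_I _

private theorem PU_lamnorm (d : ℕ) {e : ℤ} (he : e = 1 ∨ e = -1) : ‖lam d e‖ = 1 := by
  unfold lam
  rw [norm_mul, PU_enorm he, PU_ccnorm, one_mul]

/-- `D|T⁻¹S` -/
theorem DTS_eq (d : ℕ) (e : ℤ) (he : e = 1 ∨ e = -1) (r : ℝ) {z : ℂ} (hz : z ∈ H) :
    (Jd d z)⁻¹ * DD d e r (-1 / z - 1) =
      (cexp (π * I * r ^ 2))⁻¹ * ((Jd d z)⁻¹ * ee r (-1 / z)) +
      e * (cc d)⁻¹ * cexp (π * I * r ^ 2) * ((Jd d (z + 1))⁻¹ * ee r (-1 / (z + 1))) := by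
  have hz0 : z ≠ 0 := PU_ne hz
  have hz1 : z + 1 ∈ H := T_mem hz
  have hz10 : z + 1 ≠ 0 := PU_ne hz1
  have hX : cexp (π * I * r ^ 2) ≠ 0 := Complex.exp_ne_zero _
  have h1 : ee r (-1 / z) = cexp (π * I * r ^ 2) * ee r (-1 / z - 1) := by
    have := ee_T r (-1 / z - 1)
    rwa [sub_add_cancel] at this
  have hne : -1 / z - 1 ≠ 0 := by
    intro h
    apply hz10
    field_simp at h
    linear_combination -h
  have h2 : (-1 : ℂ) / (-1 / z - 1) = -1 / (z + 1) + 1 := by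
    have hq : -1 / z - 1 = -(z + 1) / z := by
      field_simp
      ring
    rw [hq]
    have hq2 : -(z + 1) ≠ 0 := neg_ne_zero.mpr hz10
    field_simp
    ring
  have h3 : ee r (-1 / (-1 / z - 1)) = cexp (π * I * r ^ 2) * ee r (-1 / (z + 1)) := by
    rw [h2, ee_T]
  have h4 := Jd_T d hz
  have h5 := Jd_ne d hz
  have h6 := Jd_ne d hz1
  have h7 : Jd d (-1 / z - 1) ≠ 0 := by
    intro h
    rw [h, mul_zero] at h4
    exact mul_ne_zero (PU_ccne d) h6 h4.symm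
  have h8 : (Jd d z)⁻¹ * (Jd d (-1 / z - 1))⁻¹ = (cc d)⁻¹ * (Jd d (z + 1))⁻¹ := by
    rw [← mul_inv, ← mul_inv, h4]
  have h9 : ee r (-1 / z - 1) = (cexp (π * I * r ^ 2))⁻¹ * ee r (-1 / z) := by
    rw [h1, inv_mul_cancel_left₀ hX]
  unfold DD
  rw [h3, h9]
  linear_combination (e * cexp (π * I * r ^ 2) * ee r (-1 / (z + 1))) * h8

private theorem PU_mod_add {f g : ℂ → ℂ} (hf : Mod f) (hg : Mod g) :
    Mod (fun z => f z + g z) := by
  obtain ⟨C1, a1, h1⟩ := hf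
  obtain ⟨C2, a2, h2⟩ := hg
  refine ⟨|C1| + |C2|, a1 + a2, fun z hz => ?_⟩
  have hmu : 1 ≤ mu z := by linarith [mu_ge_two hz]
  have e1 := h1 z hz
  have e2 := h2 z hz
  have p1 : mu z ^ a1 ≤ mu z ^ (a1 + a2) := pow_le_pow_right₀ hmu (by omega)
  have p2 : mu z ^ a2 ≤ mu z ^ (a1 + a2) := pow_le_pow_right₀ hmu (by omega)
  have q1 : C1 * mu z ^ a1 ≤ |C1| * mu z ^ (a1 + a2) :=
    mul_le_mul (le_abs_self _) p1 (by positivity) (abs_nonneg _)
  have q2 : C2 * mu z ^ a2 ≤ |C2| * mu z ^ (a1 + a2) :=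
    mul_le_mul (le_abs_self _) p2 (by positivity) (abs_nonneg _)
  calc ‖f z + g z‖ ≤ ‖f z‖ + ‖g z‖ := norm_add_le _ _
    _ ≤ (|C1| + |C2|) * mu z ^ (a1 + a2) := by
      rw [add_mul]
      linarith

private theorem PU_first (d : ℕ) (lm c : ℂ) (hlm : ‖lm‖ = 1) (r : ℝ) :
    ∃ p : ℂ → ℂ, DifferentiableOn ℂ p H ∧ Mod p ∧ ∀ z ∈ H,
      p (z + 1) - lm * p z = c * ee r z := by
  have hl0 : lm ≠ 0 := by
    intro h
    rw [h, norm_zero] at hlm
    exact zero_ne_one hlm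
  by_cases h : cexp (π * I * r ^ 2) = lm
  · refine ⟨fun z => c / lm * (z * ee r z), ?_, ?_, ?_⟩
    · exact ((differentiable_id.mul (ee_diff r)).const_mul _).differentiableOn
    · refine ⟨‖c / lm‖ * 2, 1, fun z hz => ?_⟩
      rw [norm_mul, norm_mul, pow_one]
      have h1 := norm_le_mu hz
      have h2 := ee_le r hz
      have h3 : ‖z‖ * ‖ee r z‖ ≤ mu z * 2 :=
        mul_le_mul h1 h2 (norm_nonneg _) ((norm_nonneg _).trans h1)
      calc ‖c / lm‖ * (‖z‖ * ‖ee r z‖) ≤ ‖c / lm‖ * (mu z * 2) :=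
            mul_le_mul_of_nonneg_left h3 (norm_nonneg _)
        _ = ‖c / lm‖ * 2 * mu z := by ring
    · intro z hz
      simp only []
      rw [ee_T, h]
      field_simp
      ring
  · have h' : cexp (π * I * r ^ 2) - lm ≠ 0 := sub_ne_zero.mpr h
    refine ⟨fun z => c / (cexp (π * I * r ^ 2) - lm) * ee r z, ?_, ?_, ?_⟩
    · exact ((ee_diff r).const_mul _).differentiableOn
    · refine ⟨‖c / (cexp (π * I * r ^ 2) - lm)‖ * 2, 0, fun z hz => ?_⟩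
      rw [norm_mul, pow_zero, mul_one]
      exact mul_le_mul_of_nonneg_left (ee_le r hz) (norm_nonneg _)
    · intro z hz
      simp only []
      rw [ee_T]
      field_simp

/-- the third component of the correction -/
theorem PU_blk (d : ℕ) (hd : 1 ≤ d) (e : ℤ) (he : e = 1 ∨ e = -1) (r : ℝ) :
    ∃ p : ℂ → ℂ, DifferentiableOn ℂ p H ∧ Mod p ∧ ∀ z ∈ H,
      p (z + 1) - lam d e * p z =
        -2 * cc d * DD d e r z + lam d e * ((Jd d z)⁻¹ * DD d e r (-1 / z - 1)) := by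
  have hlam := PU_lamnorm d he
  obtain ⟨p1, h1a, h1b, h1c⟩ := PU_first d (lam d e) (-2 * cc d) hlam r
  have hgd : DifferentiableOn ℂ (fun z => (Jd d z)⁻¹ * ee r (-1 / z)) H := by
    refine DifferentiableOn.mul ((Jd_diffOn d).inv fun z hz => Jd_ne d hz) ?_
    refine (ee_diff r).comp_differentiableOn ?_
    exact (differentiableOn_const _).div differentiableOn_id fun z hz => PU_ne hz
  have hgd' : DifferentiableOn ℂ (fun z => (Jd d (z + 1))⁻¹ * ee r (-1 / (z + 1))) H := by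
    have : DifferentiableOn ℂ (fun z : ℂ => z + 1) H :=
      (differentiable_id.add_const 1).differentiableOn
    exact hgd.comp this fun z hz => T_mem hz
  set A : ℂ := -2 * cc d * e + lam d e * (cexp (π * I * r ^ 2))⁻¹ with hA
  set B : ℂ := lam d e * (e * (cc d)⁻¹ * cexp (π * I * r ^ 2)) with hB
  have hκ : (1 : ℝ) < (d : ℝ) / 2 + 1 := by
    have : (1 : ℝ) ≤ d := by exact_mod_cast hd
    linarith
  obtain ⟨p2, h2a, h2b, h2c⟩ := DIFF_blk (lam d e) hlam ((d : ℝ) / 2 + 1) hκ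
    (fun z => A * ((Jd d z)⁻¹ * ee r (-1 / z)) +
      B * ((Jd d (z + 1))⁻¹ * ee r (-1 / (z + 1))))
    ((hgd.const_mul A).add (hgd'.const_mul B)) ((‖A‖ + ‖B‖) * (2 * π)) (by
      intro z hz
      have hz1 : z + 1 ∈ H := T_mem hz
      have b1 := ee_S_le d r hz
      have b2 := ee_S_le d r hz1
      have hexp : -((d : ℝ) / 2) - 1 = -((d : ℝ) / 2 + 1) := by ring
      rw [hexp] at b1 b2
      have n1 : 0 ≤ ‖z‖ ^ (-((d : ℝ) / 2 + 1)) := Real.rpow_nonneg (norm_nonneg _) _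
      have n2 : 0 ≤ ‖z + 1‖ ^ (-((d : ℝ) / 2 + 1)) := Real.rpow_nonneg (norm_nonneg _) _
      have c1 : ‖A‖ * ‖(Jd d z)⁻¹ * ee r (-1 / z)‖ ≤
          ‖A‖ * (2 * π * ‖z‖ ^ (-((d : ℝ) / 2 + 1))) :=
        mul_le_mul_of_nonneg_left b1 (norm_nonneg _)
      have c2 : ‖B‖ * ‖(Jd d (z + 1))⁻¹ * ee r (-1 / (z + 1))‖ ≤
          ‖B‖ * (2 * π * ‖z + 1‖ ^ (-((d : ℝ) / 2 + 1))) :=
        mul_le_mul_of_nonneg_left b2 (norm_nonneg _)
      have c3 : 0 ≤ ‖B‖ * (2 * π * ‖z‖ ^ (-((d : ℝ) / 2 + 1))) := by positivity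
      have c4 : 0 ≤ ‖A‖ * (2 * π * ‖z + 1‖ ^ (-((d : ℝ) / 2 + 1))) := by positivity
      calc ‖A * ((Jd d z)⁻¹ * ee r (-1 / z)) +
            B * ((Jd d (z + 1))⁻¹ * ee r (-1 / (z + 1)))‖
          ≤ ‖A * ((Jd d z)⁻¹ * ee r (-1 / z))‖ +
            ‖B * ((Jd d (z + 1))⁻¹ * ee r (-1 / (z + 1)))‖ := norm_add_le _ _
        _ = ‖A‖ * ‖(Jd d z)⁻¹ * ee r (-1 / z)‖ +
            ‖B‖ * ‖(Jd d (z + 1))⁻¹ * ee r (-1 / (z + 1))‖ := by
            rw [norm_mul A, norm_mul B]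
        _ ≤ (‖A‖ + ‖B‖) * (2 * π) *
            (‖z‖ ^ (-((d : ℝ) / 2 + 1)) + ‖z + 1‖ ^ (-((d : ℝ) / 2 + 1))) := by
            nlinarith [c1, c2, c3, c4])
  refine ⟨fun z => p1 z + p2 z, h1a.add h2a, PU_mod_add h1b h2b, fun z hz => ?_⟩
  have e1 := h1c z hz
  have e2 := h2c z hz
  rw [DTS_eq d e he r hz]
  have hDD : DD d e r z = ee r z + e * ((Jd d z)⁻¹ * ee r (-1 / z)) := rfl
  rw [hDD]
  rw [hA, hB] at e2
  linear_combination e1 + e2

end Pool.Agent.K2
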