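import Pool.Agent.Lib_helper98.K2.Defs
import Pool.Agent.Lib_helper98.K2.W.MOB1
import Pool.Agent.Lib_helper98.K2.W.MOB2
import Pool.Agent.Lib_helper98.K2.W.REP

set_option autoImplicit false

namespace Pool.Agent.K2

open Complex Matrix MeasureTheory
open scoped MatrixGroups Real

private theorem STRIP_mem {z : ℂ} (hz : z ∈ H) (m : ℕ) : z + (m : ℂ) ∈ H := by
  simp only [H, Set.mem_setOf_eq] at hz ⊢
  simpa using hz

private theorem STRIP_pow (d : ℕ) (e : ℤ) (G : ℂ → Fin 3 → ℂ)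
    (hT : ∀ z ∈ H, G (z + 1) = BT d e *ᵥ G z) {z : ℂ} (hz : z ∈ H) (m : ℕ) :
    G (z + (m : ℂ)) = (BT d e ^ m) *ᵥ G z := by
  induction m with
  | zero => simp
  | succ m ih =>
    have h1 := hT (z + (m : ℂ)) (STRIP_mem hz m)
    rw [ih, Matrix.mulVec_mulVec, ← pow_succ'] at h1
    rw [← h1]
    congr 1
    push_cast
    ring

private theorem STRIP_vec (M : Matrix (Fin 3) (Fin 3) ℂ) (v : Fin 3 → ℂ) (a b : ℝ)
    (ha : ∀ i j, ‖M i j‖ ≤ a) (hb : ∀ j, ‖v j‖ ≤ b) (i : Fin 3) :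
    ‖(M *ᵥ v) i‖ ≤ 3 * (a * b) := by
  have ha0 : 0 ≤ a := (norm_nonneg _).trans (ha 0 0)
  have h : (M *ᵥ v) i = ∑ j, M i j * v j := rfl
  rw [h]
  calc ‖∑ j, M i j * v j‖ ≤ ∑ j, ‖M i j * v j‖ := norm_sum_le _ _
    _ ≤ ∑ _j : Fin 3, a * b := by
        refine Finset.sum_le_sum fun j _ => ?_
        rw [norm_mul]
        exact mul_le_mul (ha i j) (hb j) (norm_nonneg _) ha0
    _ = 3 * (a * b) := by simp

/-- growth in the strip and `G(z + 1) = BT G(z)` give growth for `Im z ≥ 1` -/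
theorem STRIP_blk (d : ℕ) (e : ℤ) (he : e = 1 ∨ e = -1) (n : ℕ) (G : ℂ → Fin 3 → ℂ)
    (hT : ∀ z ∈ H, G (z + 1) = BT d e *ᵥ G z) (C : ℝ) (a : ℕ)
    (hG : ∀ z ∈ H, 1 ≤ z.im → 0 ≤ z.re → z.re ≤ 1 → ∀ i,
      ‖G z i‖ ≤ C * mu z ^ a * Real.exp (2 * π * n * z.im)) :
    ∃ (C' : ℝ) (a' : ℕ), ∀ z ∈ H, 1 ≤ z.im → ∀ i,
      ‖G z i‖ ≤ C' * mu z ^ a' * Real.exp (2 * π * n * z.im) := by
  obtain ⟨B, hB⟩ := BT_pow_blk d e he
  have hdet := (BT_det_blk d e he).1
  have hinv : IsUnit (BT d e).det := isUnit_iff_ne_zero.mpr hdet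
  have hB0 : 0 ≤ B := by
    have h := (norm_nonneg _).trans (hB 0 0 0).1
    simpa using h
  refine ⟨3 * (B * 4) * (|C| * 12 ^ a), 2 + 3 * a, fun z hz hz1 i => ?_⟩
  have hmu : 2 ≤ mu z := mu_ge_two hz
  -- the representative in the strip
  set k : ℤ := ⌊z.re⌋ with hk
  set z0 : ℂ := z + ((-k : ℤ) : ℂ) with hz0
  have hz0im : z0.im = z.im := by simp [hz0]
  have hz0re : z0.re = z.re - k := by
    simp [hz0, sub_eq_add_neg]
  have hz0H : z0 ∈ H := by
    simp only [H, Set.mem_setOf_eq] at hz ⊢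
    rw [hz0im]
    exact hz
  have hre0 : 0 ≤ z0.re := by
    rw [hz0re]
    have := Int.floor_le z.re
    linarith
  have hre1 : z0.re ≤ 1 := by
    rw [hz0re]
    have := Int.lt_floor_add_one z.re
    linarith
  have hkabs : |(k : ℝ)| ≤ mu z + 1 := by
    have h1 := Int.floor_le z.re
    have h2 := Int.lt_floor_add_one z.re
    have h3 : |z.re| ≤ ‖z‖ := Complex.abs_re_le_norm z
    have h4 := norm_le_mu hz
    have h5 := abs_le.mp h3
    rw [abs_le]
    constructor <;> linarith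
  have h2mu : 1 + |(k : ℝ)| ≤ 2 * mu z := by linarith
  have hmu0 : mu z0 ≤ 12 * mu z ^ 3 := by
    have h := mu_add_int hz (-k)
    have hk2 : |((-k : ℤ) : ℝ)| = |(k : ℝ)| := by simp
    rw [hk2] at h
    calc mu z0 ≤ 3 * mu z * (1 + |(k : ℝ)|) ^ 2 := h
      _ ≤ 3 * mu z * (2 * mu z) ^ 2 := by
          have h0 : 0 ≤ 3 * mu z := by linarith
          have h1 : 0 ≤ 1 + |(k : ℝ)| := by positivity
          exact mul_le_mul_of_nonneg_left (pow_le_pow_left₀ h1 h2mu 2) h0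
      _ = 12 * mu z ^ 3 := by ring
  have hmu00 : 0 ≤ mu z0 := by linarith [mu_ge_two hz0H]
  have hG0 : ∀ j, ‖G z0 j‖ ≤ |C| * (12 * mu z ^ 3) ^ a * Real.exp (2 * π * n * z.im) := by
    intro j
    have h := hG z0 hz0H (by rw [hz0im]; exact hz1) hre0 hre1 j
    rw [hz0im] at h
    refine h.trans ?_
    refine mul_le_mul_of_nonneg_right ?_ (Real.exp_pos _).le
    exact mul_le_mul (le_abs_self C) (pow_le_pow_left₀ hmu00 hmu0 a) (pow_nonneg hmu00 a)
      (abs_nonneg C)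
  -- the matrix
  have hmat : ∃ M : Matrix (Fin 3) (Fin 3) ℂ, (∀ i j, ‖M i j‖ ≤ B * (1 + |(k : ℝ)|) ^ 2) ∧
      G z = M *ᵥ G z0 := by
    rcases Int.eq_nat_or_neg k with ⟨m, hm | hm⟩
    · refine ⟨BT d e ^ m, fun i j => ?_, ?_⟩
      · have h := (hB m i j).1
        have h2 : |(k : ℝ)| = (m : ℝ) := by rw [hm]; simp
        rw [h2]
        exact h
      · have h := STRIP_pow d e G hT hz0H m
        rw [← h]
        congr 1
        rw [hz0, hm]
        push_cast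
        ring
    · refine ⟨(BT d e)⁻¹ ^ m, fun i j => ?_, ?_⟩
      · have h := (hB m i j).2
        have h2 : |(k : ℝ)| = (m : ℝ) := by rw [hm]; simp
        rw [h2]
        exact h
      · have h := STRIP_pow d e G hT hz m
        have h3 : z0 = z + (m : ℂ) := by
          rw [hz0, hm]
          push_cast
          ring
        rw [h3, h, Matrix.mulVec_mulVec]
        have h4 : (BT d e)⁻¹ ^ m * BT d e ^ m = 1 := by
          rw [Matrix.inv_pow', Matrix.nonsing_inv_mul]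
          rw [Matrix.det_pow]
          exact hinv.pow m
        rw [h4, Matrix.one_mulVec]
  obtain ⟨M, hM, hGM⟩ := hmat
  rw [hGM]
  have hfin := STRIP_vec M (G z0) _ _ hM hG0 i
  refine hfin.trans ?_
  have hexp : 0 < Real.exp (2 * π * n * z.im) := Real.exp_pos _
  have hmupos : 0 ≤ mu z := by linarith
  have hsq : (1 + |(k : ℝ)|) ^ 2 ≤ 4 * mu z ^ 2 := by
    have h1 : 0 ≤ 1 + |(k : ℝ)| := by positivity
    calc (1 + |(k : ℝ)|) ^ 2 ≤ (2 * mu z) ^ 2 := pow_le_pow_left₀ h1 h2mu 2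
      _ = 4 * mu z ^ 2 := by ring
  calc 3 * (B * (1 + |(k : ℝ)|) ^ 2 *
        (|C| * (12 * mu z ^ 3) ^ a * Real.exp (2 * π * n * z.im)))
      ≤ 3 * (B * (4 * mu z ^ 2) *
        (|C| * (12 * mu z ^ 3) ^ a * Real.exp (2 * π * n * z.im))) := by
        have h0 : 0 ≤ |C| * (12 * mu z ^ 3) ^ a * Real.exp (2 * π * n * z.im) := by positivity
        have h1 := mul_le_mul_of_nonneg_left hsq hB0
        have h2 := mul_le_mul_of_nonneg_right h1 h0
        linarith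
    _ = 3 * (B * 4) * (|C| * 12 ^ a) * mu z ^ (2 + 3 * a) *
        Real.exp (2 * π * n * z.im) := by
        rw [mul_pow, pow_add, pow_mul]
        ring

end Pool.Agent.K2
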