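import Pool.Agent.Lib_helper98.K2.Defs
import Pool.Agent.Lib_helper98.K2.W.MOB1
import Pool.Agent.Lib_helper98.K2.W.MOB2
import Pool.Agent.Lib_helper98.K2.W.ETA1
import Pool.Agent.Lib_helper98.K2.W.ETA2
import Pool.Agent.Lib_helper98.K2.W.ETA3
import Pool.Agent.Lib_helper98.K2.W.DATA
import Pool.Agent.Lib_helper98.K2.W.REP
import Pool.Agent.Lib_helper98.K2.W.PU
import Pool.Agent.Lib_helper98.K2.W.INH0
import Pool.Agent.Lib_helper98.K2.W.STRIP

set_option autoImplicit false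

namespace Pool.Agent.K2

open Complex Matrix MeasureTheory
open scoped MatrixGroups Real

/-- the correction -/
noncomputable def INH_pv (d : ℕ) (e : ℤ) (r : ℝ) (p : ℂ → ℂ) (z : ℂ) : Fin 3 → ℂ :=
  ![0, DD d e r (z - 1), p z]

theorem INH_sub_one_mem {z : ℂ} (hz : z ∈ H) : z - 1 ∈ H := by
  have h : 0 < z.im := hz
  show 0 < (z - 1).im
  simpa using h

theorem INH_th_thi (d : ℕ) : thi d * th d = 1 := by
  unfold thi th
  rw [← Complex.exp_add]
  simp

theorem INH_AT (d : ℕ) (e : ℤ) : AT d e = th d • BT d e := by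
  have h1 : thi d ^ 2 = th d * cc d := by
    unfold thi th cc
    rw [← Complex.exp_nat_mul, ← Complex.exp_add]
    congr 1
    push_cast
    ring
  ext i j
  fin_cases i <;> fin_cases j <;> simp [AT, BT, lam, h1] <;> ring

theorem INH_T (d : ℕ) (e : ℤ) (he : e = 1 ∨ e = -1) (r : ℝ) (F : ℂ → Fin 3 → ℂ) (p : ℂ → ℂ)
    (hp : ∀ z ∈ H, p (z + 1) - lam d e * p z =
        -2 * cc d * DD d e r z + lam d e * ((Jd d z)⁻¹ * DD d e r (-1 / z - 1)))
    (hF : ∀ z ∈ H, F (z + 1) = AT d e *ᵥ (F z - dv d e r z)) {z : ℂ} (hz : z ∈ H) :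
    et (z + 1) ^ d • F (z + 1) - INH_pv d e r p (z + 1) =
      BT d e *ᵥ (et z ^ d • F z - INH_pv d e r p z) := by
  have hee : (e : ℂ) * e = 1 := by rcases he with h | h <;> simp [h]
  have h1 := hp z hz
  have h2 := dv_eq d e he r hz
  have h3 : et (z + 1) ^ d • F (z + 1) =
      BT d e *ᵥ (et z ^ d • F z - et z ^ d • dv d e r z) := by
    rw [hF z hz, et_T_pow d hz, INH_AT, smul_mulVec, smul_smul, ← smul_sub, mulVec_smul]
    congr 1
    rw [mul_right_comm, INH_th_thi, one_mul]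
  have h4 : BT d e *ᵥ (INH_pv d e r p z - et z ^ d • dv d e r z) = INH_pv d e r p (z + 1) := by
    rw [h2]
    have h5 : p (z + 1) = lam d e * p z +
        (-2 * cc d * DD d e r z + lam d e * ((Jd d z)⁻¹ * DD d e r (-1 / z - 1))) := by
      rw [← h1]; ring
    ext i
    fin_cases i
    · simp [INH_pv, BT, Matrix.mulVec, dotProduct, Fin.sum_univ_three]
    · simp [INH_pv, BT, Matrix.mulVec, dotProduct, Fin.sum_univ_three]
    · simp only [INH_pv, BT, Matrix.mulVec, dotProduct, Fin.sum_univ_three]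
      simp
      rw [h5]
      unfold lam
      linear_combination (-(cc d * DD d e r z)) * hee
  rw [h3, ← h4, ← mulVec_sub]
  congr 1
  abel

theorem INH_S (d : ℕ) (e : ℤ) (he : e = 1 ∨ e = -1) (r : ℝ) (F : ℂ → Fin 3 → ℂ) (p : ℂ → ℂ)
    (hF : ∀ z ∈ H, F (-1 / z) = AS e *ᵥ (F z - dv d e r z)) {z : ℂ} (hz : z ∈ H) :
    et (-1 / z) ^ d • F (-1 / z) - INH_pv d e r p (-1 / z) =
      Jd d z • (AS e *ᵥ (et z ^ d • F z - INH_pv d e r p z) +
        ![e * DD d e r z, p z - e * DD d e r z, DD d e r z - (Jd d z)⁻¹ * p (-1 / z)]) := by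
  have h2 := dv_eq d e he r hz
  have hJ := Jd_ne d hz
  have h3 : et (-1 / z) ^ d • F (-1 / z) =
      Jd d z • (AS e *ᵥ (et z ^ d • F z - et z ^ d • dv d e r z)) := by
    have h4 : et (-1 / z) ^ d = Jd d z * et z ^ d := by
      unfold Jd
      rw [div_pow, div_mul_cancel₀]
      exact pow_ne_zero _ (et_ne hz)
    rw [hF z hz, h4, ← smul_sub, mulVec_smul, smul_smul]
  have h5 : AS e *ᵥ (INH_pv d e r p z - et z ^ d • dv d e r z) =
      ![e * DD d e r z, p z - e * DD d e r z, DD d e r z - (Jd d z)⁻¹ * p (-1 / z)] +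
        (Jd d z)⁻¹ • INH_pv d e r p (-1 / z) := by
    rw [h2]
    ext i
    fin_cases i
    · simp [INH_pv, AS, Matrix.mulVec, dotProduct, Fin.sum_univ_three]
    · simp [INH_pv, AS, Matrix.mulVec, dotProduct, Fin.sum_univ_three]
      ring
    · simp [INH_pv, AS, Matrix.mulVec, dotProduct, Fin.sum_univ_three]
  have h6 : INH_pv d e r p (-1 / z) = Jd d z • ((Jd d z)⁻¹ • INH_pv d e r p (-1 / z)) := by
    rw [smul_smul, mul_inv_cancel₀ hJ, one_smul]
  rw [h3]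
  conv_lhs => rw [h6]
  rw [← smul_sub]
  congr 1
  have h7 : (et z ^ d • F z - et z ^ d • dv d e r z) =
      (et z ^ d • F z - INH_pv d e r p z) + (INH_pv d e r p z - et z ^ d • dv d e r z) := by
    abel
  rw [h7, mulVec_add, h5]
  abel

theorem INH_mu_pos {z : ℂ} (hz : z ∈ H) : 0 < mu z := by
  linarith [mu_ge_two hz]

/-- sums of moderate functions -/
theorem INH_Mod_add {f g : ℂ → ℂ} (hf : Mod f) (hg : Mod g) : Mod (fun z => f z + g z) := by
  obtain ⟨C, a, h1⟩ := hf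
  obtain ⟨C', a', h2⟩ := hg
  refine ⟨|C| + |C'|, a + a', fun z hz => ?_⟩
  have hm : 1 ≤ mu z := by linarith [mu_ge_two hz]
  have e1 : mu z ^ a ≤ mu z ^ (a + a') := pow_le_pow_right₀ hm (by omega)
  have e2 : mu z ^ a' ≤ mu z ^ (a + a') := pow_le_pow_right₀ hm (by omega)
  have p0 : 0 ≤ mu z ^ (a + a') := by positivity
  have p1 : 0 ≤ mu z ^ a := by positivity
  have p2 : 0 ≤ mu z ^ a' := by positivity
  calc ‖f z + g z‖ ≤ ‖f z‖ + ‖g z‖ := norm_add_le _ _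
    _ ≤ C * mu z ^ a + C' * mu z ^ a' := add_le_add (h1 z hz) (h2 z hz)
    _ ≤ |C| * mu z ^ a + |C'| * mu z ^ a' := by
        gcongr
        · exact le_abs_self C
        · exact le_abs_self C'
    _ ≤ |C| * mu z ^ (a + a') + |C'| * mu z ^ (a + a') := by gcongr
    _ = (|C| + |C'|) * mu z ^ (a + a') := by ring

theorem INH_Mod_neg {f : ℂ → ℂ} (hf : Mod f) : Mod (fun z => -f z) := by
  obtain ⟨C, a, h1⟩ := hf
  exact ⟨C, a, fun z hz => by rw [norm_neg]; exact h1 z hz⟩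

theorem INH_Mod_e (e : ℤ) (he : e = 1 ∨ e = -1) {f : ℂ → ℂ} (hf : Mod f) :
    Mod (fun z => e * f z) := by
  obtain ⟨C, a, h1⟩ := hf
  refine ⟨C, a, fun z hz => ?_⟩
  have : ‖(e : ℂ)‖ = 1 := by rcases he with h | h <;> simp [h]
  rw [norm_mul, this, one_mul]
  exact h1 z hz

theorem INH_Mod_S (d : ℕ) {p : ℂ → ℂ} (hp : Mod p) :
    Mod (fun z => (Jd d z)⁻¹ * p (-1 / z)) := by
  obtain ⟨C, a, h1⟩ := hp
  refine ⟨|C|, d + a, fun z hz => ?_⟩
  have hm : 1 ≤ mu z := by linarith [mu_ge_two hz]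
  have h2 := h1 _ (S_mem hz)
  rw [mu_S hz] at h2
  have h3 : ‖(Jd d z)⁻¹‖ ≤ mu z ^ d := by
    rw [norm_inv, Jd_norm d hz]
    have hz0 : 0 < ‖z‖ := by
      apply norm_pos_iff.mpr
      rintro rfl
      exact absurd hz (by simp [H])
    rw [← Real.inv_rpow hz0.le]
    calc (‖z‖⁻¹) ^ ((d : ℝ) / 2) ≤ (mu z) ^ ((d : ℝ) / 2) :=
          Real.rpow_le_rpow (by positivity) (inv_norm_le_mu hz) (by positivity)
      _ ≤ mu z ^ (d : ℝ) := Real.rpow_le_rpow_of_exponent_le hm (by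
          have : (0 : ℝ) ≤ d := by positivity
          linarith)
      _ = mu z ^ d := Real.rpow_natCast _ _
  rw [norm_mul]
  calc ‖(Jd d z)⁻¹‖ * ‖p (-1 / z)‖ ≤ mu z ^ d * (|C| * mu z ^ a) := by
        apply mul_le_mul h3 _ (norm_nonneg _) (by positivity)
        refine h2.trans ?_
        gcongr
        exact le_abs_self C
    _ = |C| * mu z ^ (d + a) := by ring

theorem INH_Mod_shift {f : ℂ → ℂ} (hf : Mod f) : Mod (fun z => f (z - 1)) := by
  obtain ⟨C, a, h1⟩ := hf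
  refine ⟨|C| * 12 ^ a, a, fun z hz => ?_⟩
  have h2 := h1 _ (INH_sub_one_mem hz)
  have h3 := mu_add_int hz (-1)
  have h4 : z + ((-1 : ℤ) : ℂ) = z - 1 := by push_cast; ring
  rw [h4] at h3
  have h5 : mu (z - 1) ≤ 12 * mu z := by
    refine h3.trans (le_of_eq ?_)
    norm_num
    ring
  have h6 : 0 < mu (z - 1) := INH_mu_pos (INH_sub_one_mem hz)
  calc ‖f (z - 1)‖ ≤ C * mu (z - 1) ^ a := h2
    _ ≤ |C| * mu (z - 1) ^ a := by gcongr; exact le_abs_self C
    _ ≤ |C| * (12 * mu z) ^ a := by gcongr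
    _ = |C| * 12 ^ a * mu z ^ a := by rw [mul_pow]; ring

/-- growth in the strip -/
theorem INH_gr (d n : ℕ) (F : ℂ → Fin 3 → ℂ) (pv : ℂ → Fin 3 → ℂ) (C : ℝ)
    (hF : ∀ z ∈ H, 0 ≤ z.re → z.re ≤ 1 → z.re ≤ ‖z‖ ^ 2 → ∀ i,
        ‖F z i‖ ≤ C * (‖Del z‖ ^ n)⁻¹ * mu z ^ (12 * n))
    (C1 : ℝ) (a1 : ℕ) (hpv : ∀ z ∈ H, ∀ i, ‖pv z i‖ ≤ C1 * mu z ^ a1) :
    ∃ (C' : ℝ) (a : ℕ), ∀ z ∈ H, 1 ≤ z.im → 0 ≤ z.re → z.re ≤ 1 → ∀ i,
      ‖(et z ^ d • F z - pv z) i‖ ≤ C' * mu z ^ a * Real.exp (2 * π * n * z.im) := by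
  obtain ⟨K, hK, het⟩ := et_cusp
  refine ⟨K ^ d * (|C| * K ^ (24 * n)) + |C1|, 12 * n + a1, fun z hz hy hx0 hx1 i => ?_⟩
  have hm : 1 ≤ mu z := by linarith [mu_ge_two hz]
  have hz2 : z.re ≤ ‖z‖ ^ 2 := by
    have h1 : ‖z‖ ^ 2 = z.re ^ 2 + z.im ^ 2 := by
      rw [← Complex.normSq_eq_norm_sq, Complex.normSq_apply]; ring
    nlinarith [sq_nonneg z.re]
  have hF1 := hF z hz hx0 hx1 hz2 i
  obtain ⟨e1, e2⟩ := het z hz (by linarith)
  have hetpos : 0 < ‖et z‖ := norm_pos_iff.mpr (et_ne hz)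
  have e3 : ‖et z‖ ≤ K := by
    refine e1.trans ?_
    have : Real.exp (-(2 * π * (z.im / 24))) ≤ 1 := by
      rw [Real.exp_le_one_iff]
      have := Real.pi_pos
      have : 0 ≤ 2 * π * (z.im / 24) := by positivity
      linarith
    nlinarith
  have e4 : (‖et z‖)⁻¹ ≤ K * Real.exp (2 * π * (z.im / 24)) := by
    rw [inv_le_iff_one_le_mul₀ hetpos]
    have h5 : Real.exp (2 * π * (z.im / 24)) * Real.exp (-(2 * π * (z.im / 24))) = 1 := by
      rw [← Real.exp_add]; simp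
    calc (1 : ℝ) = Real.exp (2 * π * (z.im / 24)) * Real.exp (-(2 * π * (z.im / 24))) := h5.symm
      _ ≤ Real.exp (2 * π * (z.im / 24)) * (K * ‖et z‖) := by gcongr
      _ = K * Real.exp (2 * π * (z.im / 24)) * ‖et z‖ := by ring
  have e5 : (‖Del z‖ ^ n)⁻¹ ≤ K ^ (24 * n) * Real.exp (2 * π * n * z.im) := by
    have h6 : (‖Del z‖ ^ n)⁻¹ = ((‖et z‖)⁻¹) ^ (24 * n) := by
      unfold Del
      rw [norm_pow, ← pow_mul, inv_pow]
    rw [h6]
    calc ((‖et z‖)⁻¹) ^ (24 * n) ≤ (K * Real.exp (2 * π * (z.im / 24))) ^ (24 * n) := by gcongr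
      _ = K ^ (24 * n) * Real.exp (2 * π * n * z.im) := by
        rw [mul_pow, ← Real.exp_nat_mul]
        congr 2
        push_cast
        ring
  have hE : 1 ≤ Real.exp (2 * π * n * z.im) := by
    apply Real.one_le_exp
    have := Real.pi_pos
    positivity
  have hp1 := hpv z hz i
  have q1 : mu z ^ (12 * n) ≤ mu z ^ (12 * n + a1) := pow_le_pow_right₀ hm (by omega)
  have q2 : mu z ^ a1 ≤ mu z ^ (12 * n + a1) := pow_le_pow_right₀ hm (by omega)
  have hmu0 : 0 ≤ mu z := by linarith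
  have t1 : ‖et z ^ d * F z i‖ ≤
      K ^ d * (|C| * K ^ (24 * n)) * mu z ^ (12 * n + a1) * Real.exp (2 * π * n * z.im) := by
    rw [norm_mul, norm_pow]
    calc ‖et z‖ ^ d * ‖F z i‖ ≤ K ^ d * (|C| * (K ^ (24 * n) * Real.exp (2 * π * n * z.im)) *
          mu z ^ (12 * n + a1)) := by
          apply mul_le_mul
          · gcongr
          · refine hF1.trans ?_
            have s1 : C * (‖Del z‖ ^ n)⁻¹ ≤ |C| * (K ^ (24 * n) * Real.exp (2 * π * n * z.im)) := by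
              calc C * (‖Del z‖ ^ n)⁻¹ ≤ |C| * (‖Del z‖ ^ n)⁻¹ := by
                    gcongr; exact le_abs_self C
                _ ≤ _ := by gcongr
            have s2 : 0 ≤ |C| * (K ^ (24 * n) * Real.exp (2 * π * n * z.im)) := by positivity
            exact mul_le_mul s1 q1 (by positivity) s2
          · exact norm_nonneg _
          · positivity
      _ = _ := by ring
  have t2 : ‖pv z i‖ ≤ |C1| * mu z ^ (12 * n + a1) * Real.exp (2 * π * n * z.im) := by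
    calc ‖pv z i‖ ≤ C1 * mu z ^ a1 := hp1
      _ ≤ |C1| * mu z ^ a1 := by gcongr; exact le_abs_self C1
      _ ≤ |C1| * mu z ^ (12 * n + a1) := by gcongr
      _ = |C1| * mu z ^ (12 * n + a1) * 1 := by ring
      _ ≤ _ := by gcongr
  have t3 : (et z ^ d • F z - pv z) i = et z ^ d * F z i - pv z i := by
    simp [Pi.sub_apply, Pi.smul_apply, smul_eq_mul]
  rw [t3]
  calc ‖et z ^ d * F z i - pv z i‖ ≤ ‖et z ^ d * F z i‖ + ‖pv z i‖ := norm_sub_le _ _
    _ ≤ _ := add_le_add t1 t2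
    _ = _ := by ring

/-- weight `d/2`, exactly `T`-equivariant solution of the inhomogeneous equations -/
theorem INH_blk (d : ℕ) (hd : 1 ≤ d) (e : ℤ) (he : e = 1 ∨ e = -1) (r : ℝ) :
    ∃ (n : ℕ) (G nn : ℂ → Fin 3 → ℂ), (∀ i, DifferentiableOn ℂ (fun z => G z i) H) ∧
      (∀ z ∈ H, G (z + 1) = BT d e *ᵥ G z) ∧
      (∀ z ∈ H, G (-1 / z) = Jd d z • (AS e *ᵥ G z + nn z)) ∧
      (∀ i, Mod (fun z => nn z i)) ∧ (∀ z ∈ H, nn z 0 = e * DD d e r z) ∧
      ∃ (C : ℝ) (a : ℕ), ∀ z ∈ H, 1 ≤ z.im → ∀ i,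
        ‖G z i‖ ≤ C * mu z ^ a * Real.exp (2 * π * n * z.im) := by
  obtain ⟨n, F, hFd, hFT, hFS, C, hFg⟩ := INH0_blk d e he r
  obtain ⟨p, hpd, hpM, hpe⟩ := PU_blk d hd e he r
  have hT : ∀ z ∈ H, (fun z => et z ^ d • F z - INH_pv d e r p z) (z + 1) =
      BT d e *ᵥ (fun z => et z ^ d • F z - INH_pv d e r p z) z :=
    fun z hz => INH_T d e he r F p hpe hFT hz
  have hD := DD_Mod d e he r
  have hpvM : ∀ i, Mod (fun z => INH_pv d e r p z i) := by
    intro i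
    fin_cases i
    · exact ⟨0, 0, fun z _ => by simp [INH_pv]⟩
    · exact INH_Mod_shift hD
    · exact hpM
  have hpvM' : ∃ (C1 : ℝ) (a1 : ℕ), ∀ z ∈ H, ∀ i, ‖INH_pv d e r p z i‖ ≤ C1 * mu z ^ a1 := by
    choose c a h using hpvM
    refine ⟨|c 0| + |c 1| + |c 2|, a 0 + a 1 + a 2, fun z hz i => ?_⟩
    have hm : 1 ≤ mu z := by linarith [mu_ge_two hz]
    have hm0 : 0 ≤ mu z := by linarith
    have h1 := h i z hz
    refine h1.trans ?_
    have h2 : mu z ^ (a i) ≤ mu z ^ (a 0 + a 1 + a 2) :=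
      pow_le_pow_right₀ hm (by fin_cases i <;> simp <;> omega)
    have h3 : c i ≤ |c 0| + |c 1| + |c 2| := by
      have := le_abs_self (c i)
      have a0 := abs_nonneg (c 0)
      have a1 := abs_nonneg (c 1)
      have a2 := abs_nonneg (c 2)
      fin_cases i <;> simp at this ⊢ <;> linarith
    have h4 : 0 ≤ |c 0| + |c 1| + |c 2| := by positivity
    exact mul_le_mul h3 h2 (by positivity) h4
  obtain ⟨C1, a1, hpv⟩ := hpvM'
  obtain ⟨C2, a2, hs⟩ := INH_gr d n F (INH_pv d e r p) C hFg C1 a1 hpv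
  obtain ⟨C3, a3, hg⟩ := STRIP_blk d e he n (fun z => et z ^ d • F z - INH_pv d e r p z) hT C2 a2 hs
  refine ⟨n, fun z => et z ^ d • F z - INH_pv d e r p z,
    fun z => ![e * DD d e r z, p z - e * DD d e r z, DD d e r z - (Jd d z)⁻¹ * p (-1 / z)],
    ?_, hT, ?_, ?_, ?_, C3, a3, hg⟩
  · intro i
    have h1 : DifferentiableOn ℂ (fun z => INH_pv d e r p z i) H := by
      fin_cases i
      · simp only [INH_pv]
        exact differentiableOn_const _
      · have h2 : DifferentiableOn ℂ (fun z : ℂ => z - 1) H := by fun_prop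
        exact (DD_diffOn d e r).comp h2 (fun z hz => INH_sub_one_mem hz)
      · exact hpd
    have h3 : DifferentiableOn ℂ (fun z => et z ^ d * F z i) H :=
      (et_diffOn.pow d).mul (hFd i)
    have h4 := h3.sub h1
    refine h4.congr (fun z _ => ?_)
    simp [Pi.sub_apply, Pi.smul_apply, smul_eq_mul]
  · intro z hz
    exact INH_S d e he r F p hFS hz
  · intro i
    fin_cases i
    · exact INH_Mod_e e he hD
    · have := INH_Mod_add hpM (INH_Mod_neg (INH_Mod_e e he hD))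
      refine (by simpa [sub_eq_add_neg] using this)
    · have := INH_Mod_add hD (INH_Mod_neg (INH_Mod_S d hpM))
      refine (by simpa [sub_eq_add_neg] using this)
  · intro z hz
    rfl

end Pool.Agent.K2
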