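import Pool.Agent.Lib_helper98.K2.Defs
import Pool.Agent.Lib_helper98.K2.W.MOB1
import Pool.Agent.Lib_helper98.K2.W.MOB2

set_option autoImplicit false

namespace Pool.Agent.K2

open Complex Matrix MeasureTheory
open scoped MatrixGroups Real

theorem RED_shift (x : ℝ) : ∃ m : ℤ, |x - m| ≤ 1 / 2 ∧ |(m : ℝ)| ≤ |x| + 1 / 2 := by
  refine ⟨round x, abs_sub_round x, ?_⟩
  have h := abs_sub_round x
  have h2 : ((round x : ℤ) : ℝ) = x - (x - round x) := by ring
  rw [h2]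
  exact (abs_sub _ _).trans (by linarith)

theorem RED_norm_sq (z : ℂ) : ‖z‖ ^ 2 = z.re ^ 2 + z.im ^ 2 := by
  rw [← Complex.normSq_eq_norm_sq, Complex.normSq_apply]; ring

/-- one step of the reduction -/
theorem RED_step (f : ℂ → ℝ) (κ c : ℝ) (a : ℕ) (hκ : 0 ≤ κ) (hc1 : 1 ≤ c) (h0 : ∀ z, 0 ≤ f z)
    (hT : ∀ z ∈ H, ∀ m : ℤ, f (z + m) ≤ c * (1 + |(m : ℝ)|) ^ 2 * f z)
    (hS : ∀ z ∈ H, f (-1 / z) ≤ c * ‖z‖ ^ κ * (f z + mu z ^ a))
    {z : ℂ} (hz : z ∈ H) (hre : |z.re| ≤ 1 / 2) (him : z.im < 1 / 2) :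
    ∃ (w : ℂ) (s : ℝ), w ∈ H ∧ |w.re| ≤ 1 / 2 ∧ 2 ≤ s ∧ w.im = s * z.im ∧ w.im ≤ 1 / z.im ∧
      f z ≤ c * s ^ ⌈κ⌉₊ * (9 * c * s * f w + (2 / z.im) ^ a) := by
  have hy : 0 < z.im := hz
  have hz0 : z ≠ 0 := by
    intro h; rw [h] at hy; simp at hy
  have hn : 0 < ‖z‖ := norm_pos_iff.2 hz0
  have hn2 : ‖z‖ ^ 2 < 1 / 2 := by
    rw [RED_norm_sq]
    have h1 : z.re ^ 2 ≤ 1 / 4 := by
      rw [← sq_abs]
      nlinarith [abs_nonneg z.re]
    have h2 : z.im ^ 2 < 1 / 4 := by nlinarith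
    linarith
  have hv : -1 / z ∈ H := S_mem hz
  obtain ⟨m, hm1, hm2⟩ := RED_shift (-1 / z).re
  have hnv : ‖(-1 / z : ℂ)‖ = ‖z‖⁻¹ := by
    rw [norm_div, norm_neg, norm_one, one_div]
  have hvim : (-1 / z).im = (‖z‖⁻¹) ^ 2 * z.im := by
    rw [neg_div, one_div, Complex.neg_im, Complex.inv_im, Complex.normSq_eq_norm_sq]
    field_simp
  have hr1 : 1 ≤ ‖z‖⁻¹ := by
    rw [one_le_inv₀ hn]
    nlinarith
  have hs2 : 2 ≤ (‖z‖⁻¹) ^ 2 := by
    rw [inv_pow, le_inv_comm₀ (by norm_num) (pow_pos hn 2)]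
    linarith
  refine ⟨-1 / z - m, (‖z‖⁻¹) ^ 2, ?_, ?_, hs2, ?_, ?_, ?_⟩
  · show 0 < (-1 / z - (m : ℂ)).im
    rw [Complex.sub_im, Complex.intCast_im, sub_zero]
    exact hv
  · rw [Complex.sub_re, Complex.intCast_re]
    exact hm1
  · rw [Complex.sub_im, Complex.intCast_im, sub_zero, hvim]
  · rw [Complex.sub_im, Complex.intCast_im, sub_zero, hvim, inv_pow, le_div_iff₀ hy]
    have h1 : z.im ^ 2 ≤ ‖z‖ ^ 2 := by
      rw [RED_norm_sq]; nlinarith [sq_nonneg z.re]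
    have h2 : 0 < ‖z‖ ^ 2 := pow_pos hn 2
    calc (‖z‖ ^ 2)⁻¹ * z.im * z.im = z.im ^ 2 / ‖z‖ ^ 2 := by
          rw [div_eq_inv_mul]; ring
      _ ≤ 1 := (div_le_one h2).2 h1
  · have h1 : f z ≤ c * ‖(-1 / z : ℂ)‖ ^ κ * (f (-1 / z) + mu (-1 / z) ^ a) := by
      have := hS _ hv
      have e : (-1 / (-1 / z) : ℂ) = z := by field_simp
      rw [e] at this
      exact this
    rw [hnv, mu_S hz] at h1
    have h2 : f (-1 / z) ≤ 9 * c * (‖z‖⁻¹) ^ 2 * f (-1 / z - m) := by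
      have h3 := hT (-1 / z - m) (by
        show 0 < (-1 / z - (m : ℂ)).im
        rw [Complex.sub_im, Complex.intCast_im, sub_zero]
        exact hv) m
      rw [sub_add_cancel] at h3
      refine h3.trans ?_
      have h4 : |(m : ℝ)| ≤ ‖z‖⁻¹ + 1 / 2 := by
        have := Complex.abs_re_le_norm (-1 / z)
        rw [hnv] at this
        linarith
      have h5 : (1 + |(m : ℝ)|) ^ 2 ≤ 9 * (‖z‖⁻¹) ^ 2 := by
        have h6 : 1 + |(m : ℝ)| ≤ 3 * ‖z‖⁻¹ := by linarith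
        have h7 : 0 ≤ 1 + |(m : ℝ)| := by positivity
        calc (1 + |(m : ℝ)|) ^ 2 ≤ (3 * ‖z‖⁻¹) ^ 2 := pow_le_pow_left₀ h7 h6 2
          _ = _ := by ring
      calc c * (1 + |(m : ℝ)|) ^ 2 * f (-1 / z - m)
          ≤ c * (9 * (‖z‖⁻¹) ^ 2) * f (-1 / z - m) :=
            mul_le_mul_of_nonneg_right (mul_le_mul_of_nonneg_left h5 (by linarith)) (h0 _)
        _ = _ := by ring
    have h3 : mu z ≤ 2 / z.im := by
      unfold mu
      exact div_le_div_of_nonneg_right (by linarith) hy.le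
    have h4 : mu z ^ a ≤ (2 / z.im) ^ a :=
      pow_le_pow_left₀ (by linarith [mu_ge_two hz]) h3 a
    have h5 : (‖z‖⁻¹) ^ κ ≤ ((‖z‖⁻¹) ^ 2) ^ ⌈κ⌉₊ := by
      rw [← pow_mul, ← Real.rpow_natCast]
      refine Real.rpow_le_rpow_of_exponent_le hr1 ?_
      push_cast
      have := Nat.le_ceil κ
      nlinarith
    have h6 : 0 ≤ f (-1 / z) + mu z ^ a := by
      have := h0 (-1 / z)
      have h7 : 0 ≤ mu z := by linarith [mu_ge_two hz]
      positivity
    calc f z ≤ c * (‖z‖⁻¹) ^ κ * (f (-1 / z) + mu z ^ a) := h1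
      _ ≤ c * ((‖z‖⁻¹) ^ 2) ^ ⌈κ⌉₊ * (f (-1 / z) + mu z ^ a) :=
          mul_le_mul_of_nonneg_right (mul_le_mul_of_nonneg_left h5 (by linarith)) h6
      _ ≤ _ := by
          refine mul_le_mul_of_nonneg_left (add_le_add h2 h4) ?_
          have : 0 ≤ ‖z‖⁻¹ := by positivity
          positivity

/-- moderate growth for `Im z ≥ 1/2` and the transformation laws give moderate growth on `H` -/
theorem RED_blk (f : ℂ → ℝ) (κ C : ℝ) (a : ℕ) (hκ : 0 ≤ κ) (h0 : ∀ z, 0 ≤ f z)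
    (hT : ∀ z ∈ H, ∀ m : ℤ, f (z + m) ≤ C * (1 + |(m : ℝ)|) ^ 2 * f z)
    (hS : ∀ z ∈ H, f (-1 / z) ≤ C * ‖z‖ ^ κ * (f z + mu z ^ a))
    (hc : ∀ z : ℂ, 1 / 2 ≤ z.im → f z ≤ C * mu z ^ a) :
    ∃ (C' : ℝ) (a' : ℕ), ∀ z ∈ H, f z ≤ C' * mu z ^ a' := by
  obtain ⟨c, hcdef⟩ : ∃ c : ℝ, c = |C| + 1 := ⟨_, rfl⟩
  have hc1 : 1 ≤ c := by rw [hcdef]; linarith [abs_nonneg C]
  have hCc : C ≤ c := by rw [hcdef]; linarith [le_abs_self C]
  have hmu0 : ∀ z ∈ H, 0 ≤ mu z := fun z hz => by linarith [mu_ge_two hz]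
  have hT' : ∀ z ∈ H, ∀ m : ℤ, f (z + m) ≤ c * (1 + |(m : ℝ)|) ^ 2 * f z := by
    intro z hz m
    refine (hT z hz m).trans ?_
    have h1 : 0 ≤ (1 + |(m : ℝ)|) ^ 2 * f z := mul_nonneg (by positivity) (h0 z)
    calc C * (1 + |(m : ℝ)|) ^ 2 * f z = C * ((1 + |(m : ℝ)|) ^ 2 * f z) := by ring
      _ ≤ c * ((1 + |(m : ℝ)|) ^ 2 * f z) := mul_le_mul_of_nonneg_right hCc h1
      _ = _ := by ring
  have hS' : ∀ z ∈ H, f (-1 / z) ≤ c * ‖z‖ ^ κ * (f z + mu z ^ a) := by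
    intro z hz
    refine (hS z hz).trans ?_
    have h1 : 0 ≤ ‖z‖ ^ κ * (f z + mu z ^ a) :=
      mul_nonneg (Real.rpow_nonneg (norm_nonneg _) _) (add_nonneg (h0 z) (pow_nonneg (hmu0 z hz) _))
    calc C * ‖z‖ ^ κ * (f z + mu z ^ a) = C * (‖z‖ ^ κ * (f z + mu z ^ a)) := by ring
      _ ≤ c * (‖z‖ ^ κ * (f z + mu z ^ a)) := mul_le_mul_of_nonneg_right hCc h1
      _ = _ := by ring
  have hc' : ∀ z : ℂ, 1 / 2 ≤ z.im → f z ≤ c * mu z ^ a := by
    intro z hz
    have hzH : z ∈ H := by show 0 < z.im; linarith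
    exact (hc z hz).trans (mul_le_mul_of_nonneg_right hCc (pow_nonneg (hmu0 z hzH) _))
  obtain ⟨M, hM⟩ : ∃ M : ℕ, M = ⌈κ⌉₊ := ⟨_, rfl⟩
  obtain ⟨L, hL⟩ : ∃ L : ℕ, 18 * c ^ 2 < 2 ^ L := pow_unbounded_of_one_lt _ one_lt_two
  obtain ⟨N, hN⟩ : ∃ N : ℕ, N = 2 * M + 2 + a + L := ⟨_, rfl⟩
  obtain ⟨K, hK⟩ : ∃ K : ℝ, K = 9 * c ^ 3 * 3 ^ a + 2 * (c * 2 ^ a) := ⟨_, rfl⟩
  have hK0 : 0 ≤ K := by rw [hK]; positivity
  -- the bound in the strip
  have key : ∀ k : ℕ, ∀ z : ℂ, z ∈ H → |z.re| ≤ 1 / 2 → z.im < 1 / 2 → (1 / 2 : ℝ) ^ k ≤ z.im →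
      f z ≤ K * (1 / z.im) ^ N := by
    intro k
    induction k with
    | zero =>
      intro z _ _ h1 h2
      rw [pow_zero] at h2
      linarith
    | succ k ih =>
      intro z hz hre him hk
      have hy : 0 < z.im := hz
      obtain ⟨w, s, hw, hwre, hs, hws, hwu, hst⟩ := RED_step f κ c a hκ hc1 h0 hT' hS' hz hre him
      rw [← hM] at hst
      obtain ⟨u, hu⟩ : ∃ u : ℝ, u = 1 / z.im := ⟨_, rfl⟩
      rw [← hu] at hwu
      have hu2 : 2 ≤ u := by
        rw [hu, le_div_iff₀ hy]; linarith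
      have huy : u * z.im = 1 := by rw [hu]; field_simp
      have hsu : s ≤ u ^ 2 := by
        have h1 : s = w.im * u := by rw [hws]; linear_combination (-s) * huy
        rw [h1, sq]
        exact mul_le_mul_of_nonneg_right hwu (by linarith)
      have h2a : (2 / z.im) ^ a = 2 ^ a * u ^ a := by
        rw [hu, ← mul_pow]; congr 1; ring
      rw [h2a] at hst
      rw [← hu]
      have hu1 : (1 : ℝ) ≤ u := by linarith
      have hs0 : 0 ≤ s := by linarith
      have e2 : c * s ^ M * (2 ^ a * u ^ a) ≤ (c * 2 ^ a) * u ^ N := by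
        have h1 : s ^ M ≤ (u ^ 2) ^ M := pow_le_pow_left₀ hs0 hsu M
        have h2 : (u ^ 2) ^ M * u ^ a ≤ u ^ N := by
          rw [← pow_mul, ← pow_add]
          exact pow_le_pow_right₀ hu1 (by omega)
        calc c * s ^ M * (2 ^ a * u ^ a) = (c * 2 ^ a) * (s ^ M * u ^ a) := by ring
          _ ≤ (c * 2 ^ a) * ((u ^ 2) ^ M * u ^ a) :=
              mul_le_mul_of_nonneg_left (mul_le_mul_of_nonneg_right h1 (by positivity))
                (by positivity)
          _ ≤ _ := mul_le_mul_of_nonneg_left h2 (by positivity)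
      by_cases hw2 : w.im < 1 / 2
      · have h1 := ih w hw hwre hw2 (by
          rw [hws]
          rw [pow_succ] at hk
          nlinarith)
        have h3 : (1 / w.im) ^ N = u ^ N / s ^ N := by
          rw [hws, hu, ← div_pow]; congr 1; field_simp
        rw [h3] at h1
        have h4 : 9 * c ^ 2 * s ^ (M + 1) * (K * (u ^ N / s ^ N)) ≤ K * u ^ N / 2 := by
          have hsN : s ^ N = s ^ (M + 1) * s ^ (N - (M + 1)) := by
            rw [← pow_add]; congr 1; omega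
          have h5 : 18 * c ^ 2 ≤ s ^ (N - (M + 1)) := by
            calc 18 * c ^ 2 ≤ 2 ^ L := hL.le
              _ ≤ s ^ L := pow_le_pow_left₀ (by norm_num) hs L
              _ ≤ s ^ (N - (M + 1)) := pow_le_pow_right₀ (by linarith) (by omega)
          have hsp : 0 < s ^ (M + 1) := pow_pos (by linarith) _
          have hsq : 0 < s ^ (N - (M + 1)) := pow_pos (by linarith) _
          have h6 : 9 * c ^ 2 * s ^ (M + 1) * (K * (u ^ N / s ^ N)) =
              K * u ^ N * (9 * c ^ 2 / s ^ (N - (M + 1))) := by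
            rw [hsN]; field_simp
          rw [h6]
          have h7 : 9 * c ^ 2 / s ^ (N - (M + 1)) ≤ 1 / 2 := by
            rw [div_le_iff₀ hsq]; linarith
          have h8 : 0 ≤ K * u ^ N := by positivity
          calc K * u ^ N * (9 * c ^ 2 / s ^ (N - (M + 1))) ≤ K * u ^ N * (1 / 2) :=
                mul_le_mul_of_nonneg_left h7 h8
            _ = _ := by ring
        have h9 : f z ≤ 9 * c ^ 2 * s ^ (M + 1) * f w + c * s ^ M * (2 ^ a * u ^ a) := by
          refine hst.trans (le_of_eq ?_)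
          rw [pow_succ]; ring
        have h10 : 9 * c ^ 2 * s ^ (M + 1) * f w ≤
            9 * c ^ 2 * s ^ (M + 1) * (K * (u ^ N / s ^ N)) :=
          mul_le_mul_of_nonneg_left h1 (by positivity)
        have h11 : (c * 2 ^ a) * u ^ N ≤ K * u ^ N / 2 := by
          have : c * 2 ^ a ≤ K / 2 := by
            rw [hK]
            have : 0 ≤ 9 * c ^ 3 * 3 ^ a := by positivity
            linarith
          calc (c * 2 ^ a) * u ^ N ≤ K / 2 * u ^ N := mul_le_mul_of_nonneg_right this (by positivity)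
            _ = _ := by ring
        linarith
      · have h1 := hc' w (not_lt.1 hw2)
        have hwy : 0 < w.im := hw
        have h2 : mu w ≤ 3 * u := by
          unfold mu
          rw [div_le_iff₀ hwy, RED_norm_sq]
          have h3 : w.re ^ 2 ≤ 1 / 4 := by
            rw [← sq_abs]
            nlinarith [abs_nonneg w.re]
          have h4 : (1 / 2 : ℝ) ≤ w.im := not_lt.1 hw2
          nlinarith
        have h3 : f w ≤ c * (3 ^ a * u ^ a) := by
          refine h1.trans (mul_le_mul_of_nonneg_left ?_ (by linarith))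
          rw [← mul_pow]
          exact pow_le_pow_left₀ (hmu0 w hw) h2 a
        have h9 : f z ≤ 9 * c ^ 2 * s ^ (M + 1) * f w + c * s ^ M * (2 ^ a * u ^ a) := by
          refine hst.trans (le_of_eq ?_)
          rw [pow_succ]; ring
        have h10 : 9 * c ^ 2 * s ^ (M + 1) * f w ≤ (9 * c ^ 3 * 3 ^ a) * u ^ N := by
          have h4 : s ^ (M + 1) ≤ (u ^ 2) ^ (M + 1) := pow_le_pow_left₀ hs0 hsu _
          have h5 : (u ^ 2) ^ (M + 1) * u ^ a ≤ u ^ N := by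
            rw [← pow_mul, ← pow_add]
            exact pow_le_pow_right₀ hu1 (by omega)
          calc 9 * c ^ 2 * s ^ (M + 1) * f w ≤ 9 * c ^ 2 * (u ^ 2) ^ (M + 1) * (c * (3 ^ a * u ^ a)) :=
                mul_le_mul (mul_le_mul_of_nonneg_left h4 (by positivity)) h3 (h0 w) (by positivity)
            _ = (9 * c ^ 3 * 3 ^ a) * ((u ^ 2) ^ (M + 1) * u ^ a) := by ring
            _ ≤ _ := mul_le_mul_of_nonneg_left h5 (by positivity)
        have h11 : (9 * c ^ 3 * 3 ^ a) * u ^ N + (c * 2 ^ a) * u ^ N ≤ K * u ^ N := by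
          rw [← add_mul]
          refine mul_le_mul_of_nonneg_right ?_ (by positivity)
          rw [hK]
          have : 0 ≤ c * 2 ^ a := by positivity
          linarith
        linarith
  refine ⟨5 * c * K + c, N + 1, ?_⟩
  intro z hz
  have hy : 0 < z.im := hz
  have hmu2 := mu_ge_two hz
  have hmu1 : 1 ≤ mu z := by linarith
  by_cases hz2 : z.im < 1 / 2
  · obtain ⟨m, hm1, hm2⟩ := RED_shift z.re
    have hz' : z - m ∈ H := by
      show 0 < (z - (m : ℂ)).im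
      rw [Complex.sub_im, Complex.intCast_im, sub_zero]
      exact hy
    have him : (z - (m : ℂ)).im = z.im := by
      rw [Complex.sub_im, Complex.intCast_im, sub_zero]
    obtain ⟨k, hk⟩ := exists_pow_lt_of_lt_one hy (by norm_num : (1 / 2 : ℝ) < 1)
    have h1 := key k (z - m) hz' (by rw [Complex.sub_re, Complex.intCast_re]; exact hm1)
      (by rw [him]; exact hz2) (by rw [him]; exact hk.le)
    rw [him] at h1
    have h2 := hT' (z - m) hz' m
    rw [sub_add_cancel] at h2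
    have h3 : (1 + |(m : ℝ)|) ^ 2 ≤ 5 * mu z := by
      have h4 : |(m : ℝ)| ≤ ‖z‖ + 1 / 2 := by
        have := Complex.abs_re_le_norm z
        linarith
      have h5 : mu z * z.im = 1 + ‖z‖ ^ 2 := by unfold mu; field_simp
      have h6 : 1 + ‖z‖ ^ 2 ≤ mu z := by
        rw [← h5]
        nlinarith
      have h7 : 0 ≤ |(m : ℝ)| := abs_nonneg _
      nlinarith [norm_nonneg z, sq_nonneg (‖z‖ - 1 / 2)]
    have h4 : (1 / z.im) ^ N ≤ mu z ^ N := by
      refine pow_le_pow_left₀ (by positivity) ?_ N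
      rw [one_div]
      have := inv_mu_le_im hz
      exact (inv_le_comm₀ (by linarith) hy).1 this
    calc f z ≤ c * (1 + |(m : ℝ)|) ^ 2 * f (z - m) := h2
      _ ≤ c * (5 * mu z) * (K * mu z ^ N) := by
          refine mul_le_mul (mul_le_mul_of_nonneg_left h3 (by linarith))
            (h1.trans (mul_le_mul_of_nonneg_left h4 hK0)) (h0 _) (by positivity)
      _ = (5 * c * K) * mu z ^ (N + 1) := by rw [pow_succ]; ring
      _ ≤ (5 * c * K + c) * mu z ^ (N + 1) :=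
          mul_le_mul_of_nonneg_right (by linarith) (by positivity)
  · have h1 := hc' z (not_lt.1 hz2)
    calc f z ≤ c * mu z ^ a := h1
      _ ≤ c * mu z ^ (N + 1) :=
          mul_le_mul_of_nonneg_left (pow_le_pow_right₀ hmu1 (by omega)) (by linarith)
      _ ≤ (5 * c * K + c) * mu z ^ (N + 1) :=
          mul_le_mul_of_nonneg_right (by nlinarith) (by positivity)

end Pool.Agent.K2
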