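import Pool.Agent.Lib_helper98.K2.Defs
import Pool.Agent.Lib_helper98.K2.W.MOB1
import Pool.Agent.Lib_helper98.K2.W.MOB2
import Pool.Agent.Lib_helper98.K2.W.CFI1
import Pool.Agent.Lib_helper98.K2.W.CFI3
import Pool.Agent.Lib_helper98.K2.W.EMAT1
import Pool.Agent.Lib_helper98.K2.W.EMAT2

set_option autoImplicit false

namespace Pool.Agent.K2

open Complex Matrix MeasureTheory
open scoped MatrixGroups Real

variable {d : ℕ} {e : ℤ} {ρ : SL(2, ℤ) →* Matrix (Fin 3) (Fin 3) ℂ} {C0 : ℝ} {a0 : ℕ}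

theorem HOMV_Pc_eq (G : ℂ → Fin 3 → ℂ) (i : Fin 3) (z : ℂ) :
    Pc d e G i z = ∑ j, Einv d e z i j * G z j := rfl

theorem HOMV_Pc_diff {n : ℕ} {G : ℂ → Fin 3 → ℂ} (h : Hom d e n G) (i : Fin 3) :
    DifferentiableOn ℂ (Pc d e G i) H := by
  have h1 : Pc d e G i = fun z => ∑ j, Einv d e z i j * G z j := rfl
  rw [h1]
  refine DifferentiableOn.fun_sum fun j _ => ?_
  exact (Einv_diff d e i j).differentiableOn.mul (h.hol j)

theorem HOMV_mem {x : ℝ} {y : ℝ} (hy : 0 < y) : ((x : ℂ) + y * I) ∈ H := by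
  simp [H, hy]

theorem HOMV_int {n : ℕ} {G : ℂ → Fin 3 → ℂ} (h : Hom d e n G) (i : Fin 3) (m : ℤ) :
    IntervalIntegrable (fun X : ℝ => Pc d e G i ((X : ℂ) + (2 : ℝ) * I) *
      cexp (-(2 * π * I * m * ((X : ℂ) + (2 : ℝ) * I)))) MeasureTheory.volume 0 1 := by
  refine Continuous.intervalIntegrable ?_ _ _
  have h1 : Continuous fun X : ℝ => ((X : ℂ) + (2 : ℝ) * I) := by fun_prop
  have h2 : Continuous fun X : ℝ => Pc d e G i ((X : ℂ) + (2 : ℝ) * I) :=
    (HOMV_Pc_diff h i).continuousOn.comp_continuous h1 fun X => HOMV_mem two_pos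
  refine h2.mul ?_
  fun_prop

/-- `Hom` is a vector space and `Pc`, `cf` are linear on it -/
theorem Hom_add (n : ℕ) (G1 G2 : ℂ → Fin 3 → ℂ) (h1 : Hom d e n G1) (h2 : Hom d e n G2)
    (c : ℂ) : Hom d e n (fun z => G1 z + c • G2 z) ∧
      ∀ i m, cf (Pc d e (fun z => G1 z + c • G2 z) i) m 2 =
        cf (Pc d e G1 i) m 2 + c * cf (Pc d e G2 i) m 2 := by
  constructor
  · refine ⟨fun i => ?_, fun z hz => ?_, fun z hz => ?_, ?_⟩
    · exact (h1.hol i).add ((h2.hol i).const_mul c)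
    · show G1 (z + 1) + c • G2 (z + 1) = _
      rw [h1.T z hz, h2.T z hz, Matrix.mulVec_add, Matrix.mulVec_smul]
    · show G1 (-1 / z) + c • G2 (-1 / z) = _
      rw [h1.S z hz, h2.S z hz, Matrix.mulVec_add, Matrix.mulVec_smul, smul_add,
        smul_comm c (Jd d z)]
    · obtain ⟨C1, a1, g1⟩ := h1.gr
      obtain ⟨C2, a2, g2⟩ := h2.gr
      refine ⟨|C1| + ‖c‖ * |C2|, max a1 a2, fun z hz hz1 i => ?_⟩
      have hmu : 1 ≤ mu z := by
        have := mu_ge_two hz
        linarith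
      have e0 : 0 ≤ Real.exp (2 * π * n * z.im) := (Real.exp_pos _).le
      have b1 : ‖G1 z i‖ ≤ |C1| * mu z ^ (max a1 a2) * Real.exp (2 * π * n * z.im) := by
        refine (g1 z hz hz1 i).trans ?_
        gcongr
        · exact le_abs_self _
        · exact le_max_left _ _
      have b2 : ‖G2 z i‖ ≤ |C2| * mu z ^ (max a1 a2) * Real.exp (2 * π * n * z.im) := by
        refine (g2 z hz hz1 i).trans ?_
        gcongr
        · exact le_abs_self _
        · exact le_max_right _ _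
      have b3 : ‖(G1 z + c • G2 z) i‖ ≤ ‖G1 z i‖ + ‖c‖ * ‖G2 z i‖ := by
        rw [Pi.add_apply, Pi.smul_apply, smul_eq_mul, ← norm_mul]
        exact norm_add_le _ _
      calc ‖(G1 z + c • G2 z) i‖ ≤ ‖G1 z i‖ + ‖c‖ * ‖G2 z i‖ := b3
        _ ≤ |C1| * mu z ^ (max a1 a2) * Real.exp (2 * π * n * z.im) +
            ‖c‖ * (|C2| * mu z ^ (max a1 a2) * Real.exp (2 * π * n * z.im)) := by
          gcongr
        _ = _ := by ring
  · intro i m
    have e1 : ∀ z, Pc d e (fun z => G1 z + c • G2 z) i z =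
        Pc d e G1 i z + c * Pc d e G2 i z := by
      intro z
      simp only [Pc, Matrix.mulVec_add, Matrix.mulVec_smul, Pi.add_apply, Pi.smul_apply,
        smul_eq_mul]
    unfold cf
    rw [← intervalIntegral.integral_const_mul,
      ← intervalIntegral.integral_add (HOMV_int h1 i m) ((HOMV_int h2 i m).const_mul c)]
    refine intervalIntegral.integral_congr fun X _ => ?_
    simp only [e1]
    ring

theorem Hom_zero (n : ℕ) : Hom d e n (fun _ => 0) := by
  refine ⟨fun i => ?_, fun z _ => ?_, fun z _ => ?_, 0, 0, fun z _ _ i => ?_⟩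
  · exact differentiableOn_const _
  · simp
  · simp
  · simp

theorem HOMV_im {z : ℂ} (hz : 1 < z.im) : z ∈ H := lt_trans one_pos hz

/-- coefficients below `-n` vanish -/
theorem Hom_low (he : e = 1 ∨ e = -1) (n : ℕ) (G : ℂ → Fin 3 → ℂ) (h : Hom d e n G) (m : ℕ)
    (hm : n < m) (i : Fin 3) (hi : i ≠ 2) : cf (Pc d e G i) (-(m : ℤ)) 2 = 0 := by
  obtain ⟨C, hC⟩ := Pc_le01 d e
  obtain ⟨C1, a1, g1⟩ := h.gr
  refine cf_growth (Pc d e G i) ((HOMV_Pc_diff h i).mono fun z hz => HOMV_im hz)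
    (fun z hz => Pc_T d e he G z (h.T z (HOMV_im hz)) i) n (C * C1) (a1 + 1) ?_ _ ?_ 2
    (by norm_num)
  · intro z hz
    have h3 := hC G z (HOMV_im hz) _ (fun j => g1 z (HOMV_im hz) hz.le j) i hi
    refine h3.trans (le_of_eq ?_)
    rw [pow_succ, mul_assoc (2 * π) (n : ℝ) z.im]
    ring
  · push_cast
    have : (n : ℝ) < m := by exact_mod_cast hm
    linarith

/-- prescribed principal parts; for the third component the growth `e^(2πny)` of `G` allows
`Pc` the growth `e^(2π(n+ν)y)`, which still excludes `q^(-m)`, `m > n` -/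
theorem Hom_low2 (he : e = 1 ∨ e = -1) (n : ℕ) (G : ℂ → Fin 3 → ℂ) (h : Hom d e n G) (m : ℕ)
    (hm : n < m) : cf (Pc d e G 2) (-(m : ℤ)) 2 = 0 := by
  obtain ⟨C, hC⟩ := Pc_le d e
  obtain ⟨C1, a1, g1⟩ := h.gr
  refine cf_growth (Pc d e G 2) ((HOMV_Pc_diff h 2).mono fun z hz => HOMV_im hz)
    (fun z hz => Pc_T d e he G z (h.T z (HOMV_im hz)) 2) (n + nu d e) (C * C1) (a1 + 2) ?_ _ ?_ 2
    (by norm_num)
  · intro z hz
    have h3 := hC G z (HOMV_im hz) (by linarith) _ (fun j => g1 z (HOMV_im hz) hz.le j) 2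
    refine h3.trans (le_of_eq ?_)
    have h4 : Real.exp (2 * π * ((n + nu d e) * z.im)) =
        Real.exp (2 * π * nu d e * z.im) * Real.exp (2 * π * n * z.im) := by
      rw [← Real.exp_add]
      congr 1
      ring
    rw [h4, pow_add]
    ring
  · push_cast
    have h5 : (n : ℝ) + 1 ≤ m := by exact_mod_cast hm
    have h6 : nu d e < 1 := Int.fract_lt_one _
    linarith

end Pool.Agent.K2
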