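import Pool.Agent.Lib_helper98.K2.Defs
import Pool.Agent.Lib_helper98.K2.W.MOB1
import Pool.Agent.Lib_helper98.K2.W.MOB2
import Pool.Agent.Lib_helper98.K2.W.ETA2
import Pool.Agent.Lib_helper98.K2.W.EMAT1

set_option autoImplicit false

namespace Pool.Agent.K2

open Complex Matrix MeasureTheory
open scoped MatrixGroups Real

variable {d : ℕ} {e : ℤ} {ρ : SL(2, ℤ) →* Matrix (Fin 3) (Fin 3) ℂ} {C0 : ℝ} {a0 : ℕ}

theorem GRB_core (n : ℕ) (ξ : ℕ → Fin 3 → ℂ) (Ce : ℝ) (hCe : 0 < Ce)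
    (het : ∀ z : ℂ, 3 ≤ z.im → ‖et z‖ ≤ Ce * Real.exp (-(2 * π * (z.im / 24))))
    (κ K : ℝ) (hK : 0 ≤ K) (X : ℕ → Fin 3 → ℂ → ℂ)
    (hX : ∀ z : ℂ, 3 ≤ z.im → ∀ m i,
      ‖ξ m i * X m i z‖ ≤ ‖ξ m i‖ * (K * mu z ^ 2 * Real.exp (-(2 * π * (κ * z.im)))))
    (φ : ℂ → ℂ) (C : ℝ) (a : ℕ)
    (hφ : ∀ z : ℂ, 3 ≤ z.im → ‖φ z - 4 * π * I * et z ^ d *
      ∑ m ∈ Finset.range (n + 1), ∑ i, ξ m i * X m i z‖ ≤
        C * mu z ^ a * Real.exp (-(2 * π * n * z.im)))
    (hn : (d : ℝ) / 24 + κ ≤ n) :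
    ∃ C' : ℝ, ∀ z : ℂ, 3 ≤ z.im →
      ‖φ z‖ ≤ C' * mu z ^ (a + 2) * Real.exp (-(2 * π * (((d : ℝ) / 24 + κ) * z.im))) := by
  set B : ℝ := ∑ m ∈ Finset.range (n + 1), ∑ i, ‖ξ m i‖ with hB
  have hB0 : 0 ≤ B := Finset.sum_nonneg fun m _ => Finset.sum_nonneg fun i _ => norm_nonneg _
  refine ⟨4 * π * Ce ^ d * (B * K) + |C|, fun z hz => ?_⟩
  have hzH : z ∈ H := by show 0 < z.im; linarith
  have hmu : (1 : ℝ) ≤ mu z := le_trans (by norm_num) (mu_ge_two hzH)
  have hmu0 : (0 : ℝ) ≤ mu z := le_trans zero_le_one hmu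
  set E1 : ℝ := Real.exp (-(2 * π * (κ * z.im))) with hE1
  set E2 : ℝ := Real.exp (-(2 * π * (z.im / 24))) with hE2
  set E3 : ℝ := Real.exp (-(2 * π * (((d : ℝ) / 24 + κ) * z.im))) with hE3
  have hE12 : E2 ^ d * E1 = E3 := by
    rw [hE1, hE2, hE3, ← Real.exp_nat_mul, ← Real.exp_add]
    congr 1; ring
  have hE1p : 0 < E1 := Real.exp_pos _
  have hE3p : 0 < E3 := Real.exp_pos _
  -- the sum
  have hsum : ‖∑ m ∈ Finset.range (n + 1), ∑ i, ξ m i * X m i z‖ ≤ B * (K * mu z ^ 2 * E1) := by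
    calc ‖∑ m ∈ Finset.range (n + 1), ∑ i, ξ m i * X m i z‖
        ≤ ∑ m ∈ Finset.range (n + 1), ∑ i, ‖ξ m i * X m i z‖ := by
          refine (norm_sum_le _ _).trans (Finset.sum_le_sum fun m _ => norm_sum_le _ _)
      _ ≤ ∑ m ∈ Finset.range (n + 1), ∑ i, ‖ξ m i‖ * (K * mu z ^ 2 * E1) :=
          Finset.sum_le_sum fun m _ => Finset.sum_le_sum fun i _ => hX z hz m i
      _ = B * (K * mu z ^ 2 * E1) := by
          rw [hB, Finset.sum_mul]
          refine Finset.sum_congr rfl fun m _ => ?_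
          rw [Finset.sum_mul]
  have het' : ‖et z ^ d‖ ≤ Ce ^ d * E2 ^ d := by
    rw [norm_pow, ← mul_pow]
    exact pow_le_pow_left₀ (norm_nonneg _) (het z hz) d
  have hmain : ‖4 * π * I * et z ^ d * ∑ m ∈ Finset.range (n + 1), ∑ i, ξ m i * X m i z‖ ≤
      4 * π * Ce ^ d * (B * K) * mu z ^ 2 * E3 := by
    have h4 : ‖(4 * π * I : ℂ)‖ = 4 * π := by
      rw [norm_mul, norm_mul, Complex.norm_I, Complex.norm_real]
      simp [abs_of_pos Real.pi_pos]
    rw [norm_mul, norm_mul, h4]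
    calc 4 * π * ‖et z ^ d‖ * ‖∑ m ∈ Finset.range (n + 1), ∑ i, ξ m i * X m i z‖
        ≤ 4 * π * (Ce ^ d * E2 ^ d) * (B * (K * mu z ^ 2 * E1)) := by
          refine mul_le_mul (mul_le_mul_of_nonneg_left het' (by positivity)) hsum
            (norm_nonneg _) (by positivity)
      _ = 4 * π * Ce ^ d * (B * K) * mu z ^ 2 * (E2 ^ d * E1) := by ring
      _ = _ := by rw [hE12]
  have herr : C * mu z ^ a * Real.exp (-(2 * π * n * z.im)) ≤ |C| * mu z ^ a * E3 := by
    have h1 : Real.exp (-(2 * π * n * z.im)) ≤ E3 := by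
      rw [hE3]
      apply Real.exp_le_exp.2
      have : ((d : ℝ) / 24 + κ) * z.im ≤ n * z.im :=
        mul_le_mul_of_nonneg_right hn (by linarith)
      nlinarith [Real.pi_pos]
    have h2 : C * mu z ^ a ≤ |C| * mu z ^ a :=
      mul_le_mul_of_nonneg_right (le_abs_self C) (by positivity)
    exact mul_le_mul h2 h1 (Real.exp_pos _).le (by positivity)
  have htri : ‖φ z‖ ≤ ‖φ z - 4 * π * I * et z ^ d *
      ∑ m ∈ Finset.range (n + 1), ∑ i, ξ m i * X m i z‖ +
      ‖4 * π * I * et z ^ d * ∑ m ∈ Finset.range (n + 1), ∑ i, ξ m i * X m i z‖ := by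
    have := norm_add_le (φ z - 4 * π * I * et z ^ d *
      ∑ m ∈ Finset.range (n + 1), ∑ i, ξ m i * X m i z)
      (4 * π * I * et z ^ d * ∑ m ∈ Finset.range (n + 1), ∑ i, ξ m i * X m i z)
    simpa using this
  have hp1 : mu z ^ 2 ≤ mu z ^ (a + 2) := pow_le_pow_right₀ hmu (by omega)
  have hp2 : mu z ^ a ≤ mu z ^ (a + 2) := pow_le_pow_right₀ hmu (by omega)
  calc ‖φ z‖ ≤ |C| * mu z ^ a * E3 + 4 * π * Ce ^ d * (B * K) * mu z ^ 2 * E3 := by
        linarith [hφ z hz]
    _ ≤ |C| * mu z ^ (a + 2) * E3 + 4 * π * Ce ^ d * (B * K) * mu z ^ (a + 2) * E3 := by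
        have hc : 0 ≤ 4 * π * Ce ^ d * (B * K) := by positivity
        have := mul_le_mul_of_nonneg_left hp1 hc
        have h3 := mul_le_mul_of_nonneg_left hp2 (abs_nonneg C)
        have h5 := mul_le_mul_of_nonneg_right this hE3p.le
        have h6 := mul_le_mul_of_nonneg_right h3 hE3p.le
        linarith
    _ = _ := by ring

/-- the norm of an exponential -/
theorem GRB_exp (t : ℝ) (z : ℂ) : ‖cexp (2 * π * I * t * z)‖ = Real.exp (-(2 * π * (t * z.im))) := by
  rw [Complex.norm_exp]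
  congr 1
  simp [Complex.mul_re, Complex.mul_im]
  ring

theorem GRB_expn (t : ℝ) (z : ℂ) :
    ‖cexp (-(2 * π * I * t * z))‖ = Real.exp (2 * π * (t * z.im)) := by
  rw [Complex.norm_exp]
  congr 1
  simp [Complex.mul_re, Complex.mul_im]
  ring

theorem GRB_nu (d : ℕ) (e : ℤ) : 0 ≤ nu d e ∧ nu d e < 1 :=
  ⟨Int.fract_nonneg _, Int.fract_lt_one _⟩

theorem GRB_nu0 (d : ℕ) (e : ℤ) (he : e = 1 ∨ e = -1) (h : lam d e = 1) : nu d e = 0 := by
  have h1 := nu_exp d e he
  rw [h, Complex.exp_eq_one_iff] at h1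
  obtain ⟨k, hk⟩ := h1
  have h2 : (nu d e : ℂ) = k := by
    have h3 : (2 * π * I : ℂ) ≠ 0 := Complex.two_pi_I_ne_zero
    have h4 : (2 * π * I : ℂ) * (nu d e : ℂ) = (2 * π * I : ℂ) * k := by rw [hk]; ring
    exact mul_left_cancel₀ h3 h4
  have h5 : nu d e = (k : ℝ) := by exact_mod_cast h2
  obtain ⟨h6, h7⟩ := GRB_nu d e
  rw [h5] at h6 h7 ⊢
  have h8 : (0 : ℤ) ≤ k := by exact_mod_cast h6
  have h9 : k < (1 : ℤ) := by exact_mod_cast h7
  have : k = 0 := by omega
  rw [this]; norm_num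

/-- growth of `ψ` from the expansion -/
theorem GRB_blk (he : e = 1 ∨ e = -1) (n : ℕ) (hn : (d : ℝ) / 24 + 1 ≤ n)
    (ξ : ℕ → Fin 3 → ℂ) (h0 : ξ 0 0 = 0) (h2 : ξ 0 2 = 0) (ψ : ℂ → Fin 3 → ℂ) (C : ℝ) (a : ℕ)
    (hψ : ∀ z : ℂ, 3 ≤ z.im → ∀ j,
        ‖ψ z j - 4 * π * I * et z ^ d * ∑ m ∈ Finset.range (n + 1), ∑ i,
          ξ m i * Einv d e z i j * cexp (2 * π * I * m * z)‖ ≤
        C * mu z ^ a * Real.exp (-(2 * π * n * z.im))) :
    ∃ (C' : ℝ) (a' : ℕ), ∀ z : ℂ, 3 ≤ z.im →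
      ‖ψ z 1‖ ≤ C' * mu z ^ a' * Real.exp (-(2 * π * (((d : ℝ) / 24) * z.im))) ∧
      ‖ψ z 2‖ ≤ C' * mu z ^ a' *
        Real.exp (-(2 * π * (((d : ℝ) / 24 + 1 - nu d e) * z.im))) ∧
      ‖ψ z 0 - y0 d e * ψ z 2‖ ≤ C' * mu z ^ a' *
        Real.exp (-(2 * π * (((d : ℝ) / 24 + 1) * z.im))) := by
  obtain ⟨Ce, hCe, het0⟩ := et_cusp
  have het : ∀ z : ℂ, 3 ≤ z.im → ‖et z‖ ≤ Ce * Real.exp (-(2 * π * (z.im / 24))) := fun z hz =>
    (het0 z (by show 0 < z.im; linarith) (by linarith)).1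
  obtain ⟨hν0, hν1⟩ := GRB_nu d e
  -- elementary bounds
  have hmu1 : ∀ z : ℂ, 3 ≤ z.im → (1 : ℝ) ≤ mu z := fun z hz =>
    le_trans (by norm_num) (mu_ge_two (show z ∈ H by show 0 < z.im; linarith))
  have hzmu : ∀ z : ℂ, 3 ≤ z.im → ‖z‖ ≤ mu z := fun z hz =>
    norm_le_mu (show z ∈ H by show 0 < z.im; linarith)
  have hexp1 : ∀ (m : ℕ) (z : ℂ), ‖cexp (2 * π * I * m * z)‖ =
      Real.exp (-(2 * π * ((m : ℝ) * z.im))) := fun m z => by
    have := GRB_exp (m : ℝ) z
    simpa using this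
  have hexpm : ∀ (m : ℕ) (t : ℝ) (z : ℂ), 3 ≤ z.im → t ≤ m →
      Real.exp (-(2 * π * ((m : ℝ) * z.im))) ≤ Real.exp (-(2 * π * (t * z.im))) := by
    intro m t z hz ht
    apply Real.exp_le_exp.2
    have : t * z.im ≤ m * z.im := mul_le_mul_of_nonneg_right ht (by linarith)
    nlinarith [Real.pi_pos]
  -- constants of the third row
  set c1 : ℝ := ‖(e : ℂ)‖ + ‖(e + y0 d e) / (lam d e - 1)‖ + ‖y0 d e‖ + 2 * ‖(e : ℂ)‖ with hc1
  have hc1n : 0 ≤ c1 := by positivity
  have hEe : ∀ z : ℂ, 3 ≤ z.im → ‖e21 d e z - z * e20 d e z‖ ≤ 2 * c1 * mu z ^ 2 := by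
    intro z hz
    have h1 := hmu1 z hz
    have h3 := hzmu z hz
    have hz0 : 0 ≤ ‖z‖ := norm_nonneg z
    have hm2 : mu z ≤ mu z ^ 2 := by nlinarith
    have hm3 : (1 : ℝ) ≤ mu z ^ 2 := by nlinarith
    have hz2 : ‖z‖ ^ 2 ≤ mu z ^ 2 := pow_le_pow_left₀ hz0 h3 2
    unfold e21 e20
    split_ifs with hl
    · have : ((e : ℂ) * z ^ 2 - z * (2 * e * z)) = -(e * z ^ 2) := by ring
      rw [this, norm_neg, norm_mul, norm_pow]
      calc ‖(e : ℂ)‖ * ‖z‖ ^ 2 ≤ ‖(e : ℂ)‖ * mu z ^ 2 :=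
            mul_le_mul_of_nonneg_left hz2 (norm_nonneg _)
        _ ≤ 2 * c1 * mu z ^ 2 := by
            apply mul_le_mul_of_nonneg_right _ (by positivity)
            rw [hc1]
            have := norm_nonneg ((e + y0 d e) / (lam d e - 1) : ℂ)
            have := norm_nonneg (y0 d e)
            have := norm_nonneg (e : ℂ)
            linarith
    · have : (-((e + y0 d e) / (lam d e - 1)) - y0 d e * z - z * -y0 d e : ℂ) =
          -((e + y0 d e) / (lam d e - 1)) := by ring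
      rw [this, norm_neg]
      calc ‖((e + y0 d e) / (lam d e - 1) : ℂ)‖ ≤ 2 * c1 * 1 := by
            rw [hc1]
            have := norm_nonneg ((e + y0 d e) / (lam d e - 1) : ℂ)
            have := norm_nonneg (y0 d e)
            have := norm_nonneg (e : ℂ)
            linarith
        _ ≤ 2 * c1 * mu z ^ 2 := mul_le_mul_of_nonneg_left hm3 (by positivity)
  -- component 1
  obtain ⟨C1, hC1⟩ := GRB_core (d := d) n ξ Ce hCe het 0 (2 * c1 + 1) (by positivity)
    (fun m i z => Einv d e z i 1 * cexp (2 * π * I * m * z))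
    (by
      intro z hz m i
      have h1 := hmu1 z hz
      have h3 := hzmu z hz
      have hm2 : mu z ≤ mu z ^ 2 := by nlinarith
      have hm3 : (1 : ℝ) ≤ mu z ^ 2 := by nlinarith
      rw [norm_mul]
      by_cases hξ : ξ m i = 0
      · rw [hξ]; simp
      refine mul_le_mul_of_nonneg_left ?_ (norm_nonneg _)
      rw [norm_mul, hexp1]
      have hEm : Real.exp (-(2 * π * ((m : ℝ) * z.im))) ≤ 1 := by
        have := hexpm m 0 z hz (Nat.cast_nonneg m)
        simpa using this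
      have hgoal : ∀ x : ℝ, x ≤ (2 * c1 + 1) * mu z ^ 2 →
          x ≤ (2 * c1 + 1) * mu z ^ 2 * Real.exp (-(2 * π * (0 * z.im))) := by
        intro x hx; simpa using hx
      apply hgoal
      fin_cases i
      · show ‖Einv d e z 0 1‖ * _ ≤ _
        have : Einv d e z 0 1 = -z := by simp [Einv]
        rw [this, norm_neg]
        calc ‖z‖ * Real.exp (-(2 * π * ((m : ℝ) * z.im))) ≤ mu z ^ 2 * 1 :=
              mul_le_mul (h3.trans hm2) hEm (Real.exp_pos _).le (by positivity)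
          _ ≤ _ := by nlinarith [mul_nonneg hc1n (by positivity : (0:ℝ) ≤ mu z ^ 2)]
      · show ‖Einv d e z 1 1‖ * _ ≤ _
        have : Einv d e z 1 1 = 1 := by simp [Einv]
        rw [this, norm_one]
        calc (1 : ℝ) * Real.exp (-(2 * π * ((m : ℝ) * z.im))) ≤ mu z ^ 2 * 1 :=
              mul_le_mul hm3 hEm (Real.exp_pos _).le (by positivity)
          _ ≤ _ := by nlinarith [mul_nonneg hc1n (by positivity : (0:ℝ) ≤ mu z ^ 2)]
      · have hm : 1 ≤ m := by
          rcases Nat.eq_zero_or_pos m with h | h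
          · exact absurd (by rw [h]; exact h2) hξ
          · exact h
        have hm' : (1 : ℝ) ≤ m := by exact_mod_cast hm
        show ‖Einv d e z 2 1‖ * _ ≤ _
        have : Einv d e z 2 1 =
            -(cexp (-(2 * π * I * nu d e * z)) * (e21 d e z - z * e20 d e z)) := by simp [Einv]
        rw [this, norm_neg, norm_mul, GRB_expn]
        have hE : Real.exp (2 * π * (nu d e * z.im)) * Real.exp (-(2 * π * ((m : ℝ) * z.im))) ≤
            1 := by
          rw [← Real.exp_add]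
          apply Real.exp_le_one_iff.2
          have : nu d e * z.im ≤ m * z.im := mul_le_mul_of_nonneg_right (by linarith) (by linarith)
          nlinarith [Real.pi_pos]
        calc Real.exp (2 * π * (nu d e * z.im)) * ‖e21 d e z - z * e20 d e z‖ *
              Real.exp (-(2 * π * ((m : ℝ) * z.im)))
            = ‖e21 d e z - z * e20 d e z‖ * (Real.exp (2 * π * (nu d e * z.im)) *
              Real.exp (-(2 * π * ((m : ℝ) * z.im)))) := by ring
          _ ≤ (2 * c1 * mu z ^ 2) * 1 :=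
              mul_le_mul (hEe z hz) hE (by positivity) (by positivity)
          _ ≤ _ := by nlinarith [(by positivity : (0:ℝ) ≤ mu z ^ 2)])
    (fun z => ψ z 1) C a
    (by
      intro z hz
      have := hψ z hz 1
      simp only [mul_assoc] at this ⊢
      exact this)
    (by linarith)
  -- component 2
  obtain ⟨C2, hC2⟩ := GRB_core (d := d) n ξ Ce hCe het (1 - nu d e) 1 (by norm_num)
    (fun m i z => Einv d e z i 2 * cexp (2 * π * I * m * z))
    (by
      intro z hz m i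
      have h1 := hmu1 z hz
      have hm3 : (1 : ℝ) ≤ mu z ^ 2 := by nlinarith
      rw [norm_mul]
      by_cases hξ : ξ m i = 0
      · rw [hξ]; simp
      refine mul_le_mul_of_nonneg_left ?_ (norm_nonneg _)
      rw [norm_mul, hexp1]
      fin_cases i
      · show ‖Einv d e z 0 2‖ * _ ≤ _
        have : Einv d e z 0 2 = 0 := by simp [Einv]
        rw [this, norm_zero, zero_mul]; positivity
      · show ‖Einv d e z 1 2‖ * _ ≤ _
        have : Einv d e z 1 2 = 0 := by simp [Einv]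
        rw [this, norm_zero, zero_mul]; positivity
      · have hm : 1 ≤ m := by
          rcases Nat.eq_zero_or_pos m with h | h
          · exact absurd (by rw [h]; exact h2) hξ
          · exact h
        have hm' : (1 : ℝ) ≤ m := by exact_mod_cast hm
        show ‖Einv d e z 2 2‖ * _ ≤ _
        have : Einv d e z 2 2 = cexp (-(2 * π * I * nu d e * z)) := by simp [Einv]
        rw [this, GRB_expn, ← Real.exp_add]
        have hE : Real.exp (2 * π * (nu d e * z.im) + -(2 * π * ((m : ℝ) * z.im))) ≤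
            Real.exp (-(2 * π * ((1 - nu d e) * z.im))) := by
          apply Real.exp_le_exp.2
          have : (1 : ℝ) * z.im ≤ m * z.im := mul_le_mul_of_nonneg_right hm' (by linarith)
          nlinarith [Real.pi_pos]
        refine hE.trans ?_
        have := Real.exp_pos (-(2 * π * ((1 - nu d e) * z.im)))
        nlinarith)
    (fun z => ψ z 2) C a
    (by
      intro z hz
      have := hψ z hz 2
      simp only [mul_assoc] at this ⊢
      exact this)
    (by linarith)
  -- combination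
  set cy : ℝ := ‖y0 d e‖ with hcy
  obtain ⟨C3, hC3⟩ := GRB_core (d := d) n ξ Ce hCe het 1 (2 * ‖(e : ℂ)‖ + 1) (by positivity)
    (fun m i z => (Einv d e z i 0 - y0 d e * Einv d e z i 2) * cexp (2 * π * I * m * z))
    (by
      intro z hz m i
      have h1 := hmu1 z hz
      have h3 := hzmu z hz
      have hm2 : mu z ≤ mu z ^ 2 := by nlinarith
      have hm3 : (1 : ℝ) ≤ mu z ^ 2 := by nlinarith
      rw [norm_mul]
      by_cases hξ : ξ m i = 0
      · rw [hξ]; simp
      refine mul_le_mul_of_nonneg_left ?_ (norm_nonneg _)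
      rw [norm_mul, hexp1]
      have hEp := Real.exp_pos (-(2 * π * ((1 : ℝ) * z.im)))
      have hen := norm_nonneg (e : ℂ)
      fin_cases i
      · have hm : 1 ≤ m := by
          rcases Nat.eq_zero_or_pos m with h | h
          · exact absurd (by rw [h]; exact h0) hξ
          · exact h
        have hm' : (1 : ℝ) ≤ m := by exact_mod_cast hm
        show ‖Einv d e z 0 0 - y0 d e * Einv d e z 0 2‖ * _ ≤ _
        have : Einv d e z 0 0 - y0 d e * Einv d e z 0 2 = 1 := by simp [Einv]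
        rw [this, norm_one, one_mul]
        refine (hexpm m 1 z hz hm').trans ?_
        have h4 : (1 : ℝ) ≤ (2 * ‖(e : ℂ)‖ + 1) * mu z ^ 2 := by nlinarith
        nlinarith
      · show ‖Einv d e z 1 0 - y0 d e * Einv d e z 1 2‖ * _ ≤ _
        have : Einv d e z 1 0 - y0 d e * Einv d e z 1 2 = 0 := by simp [Einv]
        rw [this, norm_zero, zero_mul]; positivity
      · have hm : 1 ≤ m := by
          rcases Nat.eq_zero_or_pos m with h | h
          · exact absurd (by rw [h]; exact h2) hξ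
          · exact h
        have hm' : (1 : ℝ) ≤ m := by exact_mod_cast hm
        show ‖Einv d e z 2 0 - y0 d e * Einv d e z 2 2‖ * _ ≤ _
        have hE0 : Einv d e z 2 0 - y0 d e * Einv d e z 2 2 =
            -(cexp (-(2 * π * I * nu d e * z)) * (e20 d e z + y0 d e)) := by
          simp [Einv]; ring
        rw [hE0]
        by_cases hl : lam d e = 1
        · have hν := GRB_nu0 d e he hl
          have h5 : e20 d e z + y0 d e = 2 * e * z := by
            unfold e20 y0; rw [if_pos hl, if_pos hl]; ring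
          rw [h5, norm_neg, norm_mul, GRB_expn, hν, norm_mul, norm_mul]
          have h6 : Real.exp (2 * π * (0 * z.im)) = 1 := by simp
          rw [h6, one_mul]
          have h7 : ‖(2 : ℂ)‖ = 2 := by simp
          rw [h7]
          calc 2 * ‖(e : ℂ)‖ * ‖z‖ * Real.exp (-(2 * π * ((m : ℝ) * z.im)))
              ≤ (2 * ‖(e : ℂ)‖ * mu z ^ 2) * Real.exp (-(2 * π * ((1 : ℝ) * z.im))) :=
                mul_le_mul (mul_le_mul_of_nonneg_left (h3.trans hm2) (by positivity))
                  (hexpm m 1 z hz hm') (Real.exp_pos _).le (by positivity)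
            _ ≤ _ := by
                apply mul_le_mul_of_nonneg_right _ hEp.le
                nlinarith
        · have h5 : e20 d e z + y0 d e = 0 := by
            unfold e20; rw [if_neg hl]; ring
          rw [h5, mul_zero, neg_zero, norm_zero, zero_mul]; positivity)
    (fun z => ψ z 0 - y0 d e * ψ z 2) (C * (1 + cy)) a
    (by
      intro z hz
      have e0 := hψ z hz 0
      have e2 := hψ z hz 2
      have hEp := Real.exp_pos (-(2 * π * (n : ℝ) * z.im))
      have hid : ψ z 0 - y0 d e * ψ z 2 - 4 * π * I * et z ^ d *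
          ∑ m ∈ Finset.range (n + 1), ∑ i, ξ m i *
            ((Einv d e z i 0 - y0 d e * Einv d e z i 2) * cexp (2 * π * I * m * z)) =
          (ψ z 0 - 4 * π * I * et z ^ d * ∑ m ∈ Finset.range (n + 1), ∑ i,
            ξ m i * Einv d e z i 0 * cexp (2 * π * I * m * z)) -
          y0 d e * (ψ z 2 - 4 * π * I * et z ^ d * ∑ m ∈ Finset.range (n + 1), ∑ i,
            ξ m i * Einv d e z i 2 * cexp (2 * π * I * m * z)) := by
        have hs : ∑ m ∈ Finset.range (n + 1), ∑ i, ξ m i *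
            ((Einv d e z i 0 - y0 d e * Einv d e z i 2) * cexp (2 * π * I * m * z)) =
            (∑ m ∈ Finset.range (n + 1), ∑ i,
              ξ m i * Einv d e z i 0 * cexp (2 * π * I * m * z)) -
            y0 d e * ∑ m ∈ Finset.range (n + 1), ∑ i,
              ξ m i * Einv d e z i 2 * cexp (2 * π * I * m * z) := by
          rw [Finset.mul_sum, ← Finset.sum_sub_distrib]
          refine Finset.sum_congr rfl fun m _ => ?_
          rw [Finset.mul_sum, ← Finset.sum_sub_distrib]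
          refine Finset.sum_congr rfl fun i _ => ?_
          ring
        rw [hs]; ring
      rw [hid]
      refine (norm_sub_le _ _).trans ?_
      rw [norm_mul]
      calc _ ≤ C * mu z ^ a * Real.exp (-(2 * π * n * z.im)) +
            cy * (C * mu z ^ a * Real.exp (-(2 * π * n * z.im))) :=
            add_le_add e0 (mul_le_mul_of_nonneg_left e2 (norm_nonneg _))
        _ = _ := by ring)
    (by linarith)
  refine ⟨|C1| + |C2| + |C3|, a + 2, fun z hz => ?_⟩
  have hmm : 0 ≤ mu z ^ (a + 2) := by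
    have := hmu1 z hz; positivity
  have hgen : ∀ (c x : ℝ), |c| ≤ |C1| + |C2| + |C3| → 0 ≤ x →
      c * mu z ^ (a + 2) * x ≤ (|C1| + |C2| + |C3|) * mu z ^ (a + 2) * x := by
    intro c x hc hx
    apply mul_le_mul_of_nonneg_right _ hx
    apply mul_le_mul_of_nonneg_right _ hmm
    exact (le_abs_self c).trans hc
  have a1 := abs_nonneg C1
  have a2 := abs_nonneg C2
  have a3 := abs_nonneg C3
  refine ⟨?_, ?_, ?_⟩
  · have h := hC1 z hz
    rw [add_zero] at h
    exact h.trans (hgen C1 _ (by linarith) (Real.exp_pos _).le)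
  · have h := hC2 z hz
    rw [show (d : ℝ) / 24 + (1 - nu d e) = (d : ℝ) / 24 + 1 - nu d e by ring] at h
    exact h.trans (hgen C2 _ (by linarith) (Real.exp_pos _).le)
  · exact (hC3 z hz).trans (hgen C3 _ (by linarith) (Real.exp_pos _).le)

end Pool.Agent.K2
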