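import Pool.Agent.Lib_helper98.K2.Defs
import Pool.Agent.Lib_helper98.K2.W.MOB1
import Pool.Agent.Lib_helper98.K2.W.MOB2
import Pool.Agent.Lib_helper98.K2.W.ETA1
import Pool.Agent.Lib_helper98.K2.W.ETA3

set_option autoImplicit false

namespace Pool.Agent.K2

open Complex Matrix MeasureTheory
open scoped MatrixGroups Real

variable {d : ℕ} {e : ℤ} {ρ : SL(2, ℤ) →* Matrix (Fin 3) (Fin 3) ℂ} {C0 : ℝ} {a0 : ℕ}

theorem EG0_den_norm (γ : SL(2, ℤ)) (w : ℂ) : ‖den γ w‖ ≤ sz γ * (1 + ‖w‖) := by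
  unfold den
  have h1 : ‖((γ 1 0 : ℤ) : ℂ)‖ = |((γ 1 0 : ℤ) : ℝ)| := by
    rw [← Complex.ofReal_intCast, Complex.norm_real, Real.norm_eq_abs]
  have h2 : ‖((γ 1 1 : ℤ) : ℂ)‖ = |((γ 1 1 : ℤ) : ℝ)| := by
    rw [← Complex.ofReal_intCast, Complex.norm_real, Real.norm_eq_abs]
  have h3 := norm_add_le (((γ 1 0 : ℤ) : ℂ) * w) ((γ 1 1 : ℤ) : ℂ)
  rw [norm_mul, h1, h2] at h3
  refine h3.trans ?_
  have hw := norm_nonneg w
  have a1 := abs_nonneg ((γ 0 0 : ℤ) : ℝ)
  have a2 := abs_nonneg ((γ 0 1 : ℤ) : ℝ)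
  have a3 := abs_nonneg ((γ 1 0 : ℤ) : ℝ)
  have a4 := abs_nonneg ((γ 1 1 : ℤ) : ℝ)
  unfold sz
  nlinarith [mul_nonneg a1 hw, mul_nonneg a2 hw, mul_nonneg a3 hw, mul_nonneg a4 hw]

/-- `E_γ(w, z)`: the difference of seeds, continued over `w = z` -/
theorem EG0_blk (n : ℕ) (γ : SL(2, ℤ)) {z : ℂ} (hz : z ∈ H) :
    ∃ E : ℂ → ℂ, DifferentiableOn ℂ E H ∧
      (∀ w ∈ H, w ≠ z → E w = ((den γ z) ^ 2)⁻¹ * psi n (mob γ w) (mob γ z) - psi n w z) ∧
      ∃ (C : ℝ), ∀ w ∈ H, ‖E w‖ ≤ C * (‖Q n w‖⁻¹ * (1 + ‖w‖) + ‖Q n (mob γ w)‖⁻¹ * (1 + ‖w‖)) := by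
  set N : ℂ → ℂ := fun w => den γ w / den γ z * (Q n (mob γ z) / Q n (mob γ w)) - Q n z / Q n w
    with hN
  have hQm : DifferentiableOn ℂ (fun w => Q n (mob γ w)) H :=
    (Q_diffOn n).comp (mob_diffOn γ) (fun w hw => mob_mem γ hw)
  have hNd : DifferentiableOn ℂ N H :=
    ((((den_diff γ).differentiableOn).div_const _).mul ((differentiableOn_const _).div hQm
      (fun w hw => Q_ne n (mob_mem γ hw)))).sub ((differentiableOn_const _).div (Q_diffOn n)
      (fun w hw => Q_ne n hw))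
  have hNz : N z = 0 := by
    simp only [hN]
    rw [div_self (den_ne γ hz), div_self (Q_ne n (mob_mem γ hz)), div_self (Q_ne n hz)]
    ring
  have hEd : DifferentiableOn ℂ (fun w => -dslope N z w) H :=
    ((Complex.differentiableOn_dslope (isOpen_H.mem_nhds hz)).mpr hNd).neg
  have hEq : ∀ w, w ≠ z → -dslope N z w = N w / (z - w) := by
    intro w hwz
    rw [dslope_of_ne _ hwz, slope_def_field, hNz, sub_zero, ← neg_sub z w, div_neg, neg_neg]
  refine ⟨fun w => -dslope N z w, hEd, ?_, ?_⟩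
  · intro w hw hwz
    show -dslope N z w = _
    rw [hEq w hwz]
    unfold psi
    rw [mob_sub γ hz hw]
    have h1 := den_ne γ hz
    have h2 := den_ne γ hw
    have h3 := Q_ne n (mob_mem γ hw)
    have h4 := Q_ne n hw
    have h5 : z - w ≠ 0 := sub_ne_zero.mpr (Ne.symm hwz)
    simp only [hN]
    generalize Q n (mob γ w) = A at *
    generalize Q n (mob γ z) = B at *
    generalize Q n w = D at *
    generalize Q n z = F at *
    generalize den γ z = p at *
    generalize den γ w = r at *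
    field_simp
  · have hz' : 0 < z.im := hz
    have hball : Metric.closedBall z (z.im / 2) ⊆ H := by
      intro w hw
      rw [mem_closedBall_iff_norm] at hw
      have h1 := Complex.abs_im_le_norm (w - z)
      rw [Complex.sub_im] at h1
      have h2 := (abs_le.mp (h1.trans hw)).1
      show 0 < w.im
      linarith
    have hcomp : IsCompact (Metric.closedBall z (z.im / 2)) := isCompact_closedBall z _
    obtain ⟨M, hM⟩ := hcomp.exists_bound_of_continuousOn (hEd.continuousOn.mono hball)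
    obtain ⟨M', hM'⟩ := hcomp.exists_bound_of_continuousOn
      ((Q_diffOn n).continuousOn.mono hball)
    obtain ⟨r, hr⟩ : ∃ r : ℝ, r = z.im / 2 := ⟨_, rfl⟩
    rw [← hr] at hM hM' hball
    have hr0 : 0 < r := by rw [hr]; positivity
    have hzb : z ∈ Metric.closedBall z r := Metric.mem_closedBall_self hr0.le
    have hM0 : 0 ≤ M := by
      have := hM z hzb
      have h2 := norm_nonneg (-dslope N z z)
      exact le_trans h2 this
    have hM'0 : 0 ≤ M' := by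
      have := hM' z hzb
      have h2 := norm_nonneg (Q n z)
      exact le_trans h2 this
    have hsz := sz_ge γ
    obtain ⟨A, hA⟩ : ∃ A : ℝ, A = sz γ * ‖den γ z‖⁻¹ * ‖Q n (mob γ z)‖ := ⟨_, rfl⟩
    have hA0 : 0 ≤ A := by
      rw [hA]
      exact mul_nonneg (mul_nonneg (zero_le_one.trans hsz) (inv_nonneg.mpr (norm_nonneg _)))
        (norm_nonneg _)
    obtain ⟨B, hB⟩ : ∃ B : ℝ, B = ‖Q n z‖ := ⟨_, rfl⟩
    have hB0 : 0 ≤ B := by
      rw [hB]
      exact norm_nonneg _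
    refine ⟨M * M' + r⁻¹ * (A + B), ?_⟩
    intro w hw
    have hQ1 : 0 < ‖Q n w‖⁻¹ := inv_pos.mpr (norm_pos_iff.mpr (Q_ne n hw))
    have hQ2 : 0 < ‖Q n (mob γ w)‖⁻¹ := inv_pos.mpr (norm_pos_iff.mpr (Q_ne n (mob_mem γ hw)))
    have hw0 := norm_nonneg w
    obtain ⟨a, ha⟩ : ∃ a : ℝ, a = ‖Q n w‖⁻¹ * (1 + ‖w‖) := ⟨_, rfl⟩
    obtain ⟨b, hb⟩ : ∃ b : ℝ, b = ‖Q n (mob γ w)‖⁻¹ * (1 + ‖w‖) := ⟨_, rfl⟩
    have ha0 : 0 ≤ a := by
      rw [ha]
      exact mul_nonneg hQ1.le (by linarith)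
    have hb0 : 0 ≤ b := by
      rw [hb]
      exact mul_nonneg hQ2.le (by linarith)
    have hrinv : 0 ≤ r⁻¹ := inv_nonneg.mpr hr0.le
    rw [← ha, ← hb]
    show ‖-dslope N z w‖ ≤ _
    by_cases hwb : w ∈ Metric.closedBall z r
    · have h1 := hM w hwb
      have h2 := hM' w hwb
      have h3 : 1 ≤ M' * a := by
        have h4 : (1 : ℝ) = ‖Q n w‖ * ‖Q n w‖⁻¹ :=
          (mul_inv_cancel₀ (norm_ne_zero_iff.mpr (Q_ne n hw))).symm
        have h5 : ‖Q n w‖⁻¹ ≤ a := by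
          rw [ha]
          nlinarith
        calc (1 : ℝ) = ‖Q n w‖ * ‖Q n w‖⁻¹ := h4
          _ ≤ M' * a := mul_le_mul h2 h5 hQ1.le hM'0
      have h5 : M ≤ M * (M' * a) := le_mul_of_one_le_right hM0 h3
      have h6 : 0 ≤ r⁻¹ * (A + B) := mul_nonneg hrinv (add_nonneg hA0 hB0)
      have h7 : 0 ≤ M * M' := mul_nonneg hM0 hM'0
      have h8 := mul_nonneg h6 (add_nonneg ha0 hb0)
      have h9 := mul_nonneg h7 hb0
      have h10 : (M * M' + r⁻¹ * (A + B)) * (a + b) =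
        M * (M' * a) + M * M' * b + r⁻¹ * (A + B) * (a + b) := by ring
      rw [h10]
      exact h1.trans (by linarith)
    · have hwz : w ≠ z := by
        rintro rfl
        exact hwb (Metric.mem_closedBall_self hr0.le)
      rw [mem_closedBall_iff_norm, not_le] at hwb
      rw [hEq w hwz, norm_div, ← norm_neg (z - w), neg_sub]
      have h1 : ‖N w‖ ≤ (A + B) * (a + b) := by
        have h2 : ‖N w‖ ≤ ‖den γ w / den γ z * (Q n (mob γ z) / Q n (mob γ w))‖ +
          ‖Q n z / Q n w‖ := norm_sub_le _ _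
        have h3 : ‖den γ w / den γ z * (Q n (mob γ z) / Q n (mob γ w))‖ ≤ A * b := by
          rw [norm_mul, norm_div, norm_div]
          have h4 := EG0_den_norm γ w
          calc ‖den γ w‖ / ‖den γ z‖ * (‖Q n (mob γ z)‖ / ‖Q n (mob γ w)‖)
              = ‖den γ w‖ * (‖den γ z‖⁻¹ * ‖Q n (mob γ z)‖ * ‖Q n (mob γ w)‖⁻¹) := by
                rw [div_eq_mul_inv, div_eq_mul_inv]
                ring
            _ ≤ (sz γ * (1 + ‖w‖)) * (‖den γ z‖⁻¹ * ‖Q n (mob γ z)‖ * ‖Q n (mob γ w)‖⁻¹) :=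
                mul_le_mul_of_nonneg_right h4 (mul_nonneg (mul_nonneg
                  (inv_nonneg.mpr (norm_nonneg _)) (norm_nonneg _)) hQ2.le)
            _ = A * b := by
                rw [hA, hb]
                ring
        have h5 : ‖Q n z / Q n w‖ ≤ B * a := by
          rw [norm_div, div_eq_mul_inv, ha, hB]
          have : ‖Q n w‖⁻¹ ≤ ‖Q n w‖⁻¹ * (1 + ‖w‖) := by nlinarith
          exact mul_le_mul_of_nonneg_left this (norm_nonneg _)
        have h6 : (A + B) * (a + b) = A * b + B * a + (A * a + B * b) := by ring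
        rw [h6]
        have h7 := mul_nonneg hA0 ha0
        have h8 := mul_nonneg hB0 hb0
        linarith
      have h7 : ‖N w‖ / ‖w - z‖ ≤ r⁻¹ * ((A + B) * (a + b)) := by
        rw [div_eq_mul_inv, mul_comm]
        exact mul_le_mul (inv_anti₀ hr0 hwb.le) h1 (norm_nonneg _) hrinv
      have h8 : 0 ≤ M * M' * (a + b) := mul_nonneg (mul_nonneg hM0 hM'0) (add_nonneg ha0 hb0)
      have h9 : (M * M' + r⁻¹ * (A + B)) * (a + b) =
        M * M' * (a + b) + r⁻¹ * ((A + B) * (a + b)) := by ring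
      rw [h9]
      linarith

end Pool.Agent.K2
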