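import Pool.Agent.Lib_helper98.K2.Defs
import Pool.Agent.Lib_helper98.K2.W.MOB1
import Pool.Agent.Lib_helper98.K2.W.MOB2
import Pool.Agent.Lib_helper98.K2.W.SUMG
import Pool.Agent.Lib_helper98.K2.W.ETA1
import Pool.Agent.Lib_helper98.K2.W.ETA3
import Pool.Agent.Lib_helper98.K2.W.REP

set_option autoImplicit false

namespace Pool.Agent.K2

open Complex Matrix MeasureTheory
open scoped MatrixGroups Real

variable {d : ℕ} {e : ℤ} {ρ : SL(2, ℤ) →* Matrix (Fin 3) (Fin 3) ℂ} {C0 : ℝ} {a0 : ℕ}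

private lemma KER1_C0 (hρ : IsRep d e ρ C0 a0) : 0 ≤ C0 := by
  have h := (norm_nonneg _).trans (hρ.gr 1 0 0)
  have h1 : 0 < sz (1 : SL(2, ℤ)) ^ a0 := pow_pos (lt_of_lt_of_le one_pos (sz_ge 1)) _
  exact nonneg_of_mul_nonneg_left h h1

theorem KK_term_le (hρ : IsRep d e ρ C0 a0) (n : ℕ) (hn : a0 + 8 ≤ 12 * n) :
    ∃ C : ℝ, ∀ (g : SL(2, ℤ)), ∀ t ∈ H, ∀ z ∈ H, ∀ i j,
      ‖(psi n (mob g t) z • ρ g⁻¹) i j‖ ≤
        C * ‖Q n z‖ * (‖Del t‖ ^ n)⁻¹ * mu t ^ (12 * n) * (sz g ^ 8)⁻¹ * ‖z - mob g t‖⁻¹ := by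
  refine ⟨C0 * 2 ^ (12 * n), ?_⟩
  intro g t ht z hz i j
  have hC0 := KER1_C0 hρ
  have hsz : 1 ≤ sz g := sz_ge g
  have hszp : 0 < sz g := lt_of_lt_of_le one_pos hsz
  have hmu : 0 < mu t := lt_of_lt_of_le two_pos (mu_ge_two ht)
  have hD : 0 < ‖Del t‖ := norm_pos_iff.mpr (Del_ne ht)
  have hnum : sz g / (2 * mu t) ≤ ‖num g t‖ := num_ge g ht
  have hq0 : 0 < sz g / (2 * mu t) := by positivity
  have hnum0 : 0 < ‖num g t‖ := lt_of_lt_of_le hq0 hnum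
  rw [Matrix.smul_apply, smul_eq_mul, norm_mul, psi, norm_div, norm_mul, Q_mob n g ht, norm_mul,
    norm_pow, norm_pow]
  have hr : ‖ρ g⁻¹ i j‖ ≤ C0 * sz g ^ a0 := by
    have := hρ.gr g⁻¹ i j
    rwa [sz_inv] at this
  have h1 : (‖num g t‖ ^ (12 * n))⁻¹ ≤ (2 * mu t) ^ (12 * n) * (sz g ^ (12 * n))⁻¹ := by
    have h2 : (sz g / (2 * mu t)) ^ (12 * n) ≤ ‖num g t‖ ^ (12 * n) :=
      pow_le_pow_left₀ hq0.le hnum _
    calc (‖num g t‖ ^ (12 * n))⁻¹ ≤ ((sz g / (2 * mu t)) ^ (12 * n))⁻¹ :=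
          inv_anti₀ (by positivity) h2
      _ = (2 * mu t) ^ (12 * n) * (sz g ^ (12 * n))⁻¹ := by
          rw [div_pow, inv_div, div_eq_mul_inv]
  have h3 : (sz g ^ (12 * n))⁻¹ * sz g ^ a0 ≤ (sz g ^ 8)⁻¹ := by
    rw [inv_mul_le_iff₀ (by positivity), ← div_eq_mul_inv, le_div_iff₀ (by positivity), ← pow_add]
    exact pow_le_pow_right₀ hsz hn
  calc ‖Q n z‖ / (‖Del t‖ ^ n * ‖num g t‖ ^ (12 * n) * ‖z - mob g t‖) * ‖ρ g⁻¹ i j‖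
      = ‖Q n z‖ * (‖Del t‖ ^ n)⁻¹ * (‖num g t‖ ^ (12 * n))⁻¹ * ‖z - mob g t‖⁻¹ *
          ‖ρ g⁻¹ i j‖ := by
        rw [div_eq_mul_inv, mul_inv, mul_inv]; ring
    _ ≤ ‖Q n z‖ * (‖Del t‖ ^ n)⁻¹ * ((2 * mu t) ^ (12 * n) * (sz g ^ (12 * n))⁻¹) *
          ‖z - mob g t‖⁻¹ * (C0 * sz g ^ a0) := by
        gcongr
    _ = (‖Q n z‖ * (‖Del t‖ ^ n)⁻¹ * (2 * mu t) ^ (12 * n) * ‖z - mob g t‖⁻¹ * C0) *
          ((sz g ^ (12 * n))⁻¹ * sz g ^ a0) := by ring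
    _ ≤ (‖Q n z‖ * (‖Del t‖ ^ n)⁻¹ * (2 * mu t) ^ (12 * n) * ‖z - mob g t‖⁻¹ * C0) *
          (sz g ^ 8)⁻¹ := by
        gcongr
    _ = _ := by rw [mul_pow]; ring

/-- only finitely many points of the orbit are close to `z` -/
private lemma KER1_fin {t z : ℂ} (ht : t ∈ H) (hz : z ∈ H) :
    {g : SL(2, ℤ) | ‖z - mob g t‖ < z.im / 2}.Finite := by
  have hzi : 0 < z.im := hz
  have hti : 0 < t.im := ht
  have hmu : 0 < mu t := lt_of_lt_of_le two_pos (mu_ge_two ht)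
  refine (SZFIN_blk (2 * mu t * ((‖z‖ + z.im / 2 + 1) * (1 + 2 * t.im / z.im)))).subset ?_
  intro g hg
  replace hg : ‖z - mob g t‖ < z.im / 2 := hg
  show sz g ≤ _
  have hw : mob g t ∈ H := mob_mem g ht
  have him : z.im / 2 < (mob g t).im := by
    have h1 : |(z - mob g t).im| ≤ ‖z - mob g t‖ := Complex.abs_im_le_norm _
    have h2 := (abs_lt.mp (lt_of_le_of_lt h1 hg)).2
    rw [Complex.sub_im] at h2
    linarith
  have hden : ‖den g t‖ ^ 2 ≤ 2 * t.im / z.im := by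
    have h1 := mob_im g ht
    have hd : 0 < ‖den g t‖ ^ 2 := by
      have := norm_pos_iff.mpr (den_ne g ht)
      positivity
    rw [h1, lt_div_iff₀ hd] at him
    rw [le_div_iff₀ hzi]
    nlinarith
  have hden1 : ‖den g t‖ ≤ 1 + 2 * t.im / z.im := by
    nlinarith [sq_nonneg (‖den g t‖ - 1), norm_nonneg (den g t)]
  have hwI : ‖mob g t + I‖ ≤ ‖z‖ + z.im / 2 + 1 := by
    have e : mob g t + I = z - (z - mob g t) + I := by ring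
    rw [e]
    calc ‖z - (z - mob g t) + I‖ ≤ ‖z - (z - mob g t)‖ + ‖(I : ℂ)‖ := norm_add_le _ _
      _ ≤ (‖z‖ + ‖z - mob g t‖) + ‖(I : ℂ)‖ := by gcongr; exact norm_sub_le _ _
      _ ≤ ‖z‖ + z.im / 2 + 1 := by rw [Complex.norm_I]; linarith
  have hnum : sz g / (2 * mu t) ≤ ‖num g t‖ := num_ge g ht
  rw [num_eq g ht, norm_mul, div_le_iff₀ (by positivity)] at hnum
  have h0 : 0 ≤ 1 + 2 * t.im / z.im := by positivity
  calc sz g ≤ ‖mob g t + I‖ * ‖den g t‖ * (2 * mu t) := hnum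
    _ ≤ ((‖z‖ + z.im / 2 + 1) * (1 + 2 * t.im / z.im)) * (2 * mu t) := by
        gcongr
    _ = _ := by ring

theorem KK_sum (hρ : IsRep d e ρ C0 a0) (n : ℕ) (hn : a0 + 8 ≤ 12 * n) {t z : ℂ} (ht : t ∈ H)
    (hz : z ∈ H) : Summable fun g : SL(2, ℤ) => psi n (mob g t) z • ρ g⁻¹ := by
  obtain ⟨C, hC⟩ := KK_term_le hρ n hn
  have hzi : 0 < z.im := hz
  have hmu : 0 < mu t := lt_of_lt_of_le two_pos (mu_ge_two ht)
  refine Pi.summable.mpr fun i => Pi.summable.mpr fun j => ?_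
  have hs : Summable fun g : SL(2, ℤ) =>
      (|C| * ‖Q n z‖ * (‖Del t‖ ^ n)⁻¹ * mu t ^ (12 * n) * (z.im / 2)⁻¹) * (sz g ^ 8)⁻¹ :=
    SUMG_blk.mul_left _
  refine hs.of_norm_bounded_eventually ?_
  refine (KER1_fin ht hz).subset ?_
  intro g hg
  show ‖z - mob g t‖ < z.im / 2
  by_contra hcon
  push Not at hcon
  apply hg
  show ‖(psi n (mob g t) z • ρ g⁻¹) i j‖ ≤ _
  have hsz : 0 < sz g := lt_of_lt_of_le one_pos (sz_ge g)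
  refine (hC g t ht z hz i j).trans ?_
  have h2 : ‖z - mob g t‖⁻¹ ≤ (z.im / 2)⁻¹ := inv_anti₀ (by positivity) hcon
  calc C * ‖Q n z‖ * (‖Del t‖ ^ n)⁻¹ * mu t ^ (12 * n) * (sz g ^ 8)⁻¹ * ‖z - mob g t‖⁻¹
      ≤ |C| * ‖Q n z‖ * (‖Del t‖ ^ n)⁻¹ * mu t ^ (12 * n) * (sz g ^ 8)⁻¹ * (z.im / 2)⁻¹ := by
        gcongr
        exact le_abs_self C
    _ = _ := by ring

theorem KK_equiv (hρ : IsRep d e ρ C0 a0) (n : ℕ) (hn : a0 + 8 ≤ 12 * n) {t z : ℂ} (ht : t ∈ H)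
    (hz : z ∈ H) (γ : SL(2, ℤ)) : KK ρ n (mob γ t) z = ρ γ * KK ρ n t z := by
  unfold KK
  rw [← (KK_sum hρ n hn ht hz).tsum_mul_left (ρ γ), ← (Equiv.mulRight γ).tsum_eq
    (fun g : SL(2, ℤ) => ρ γ * psi n (mob g t) z • ρ g⁻¹)]
  refine tsum_congr fun g => ?_
  show _ = ρ γ * psi n (mob (g * γ) t) z • ρ (g * γ)⁻¹
  rw [_root_.mul_inv_rev, map_mul, mob_mul g γ ht, Matrix.mul_smul, ← mul_assoc, ← map_mul,
    mul_inv_cancel, map_one, one_mul]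

end Pool.Agent.K2
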