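import Pool.Agent.Lib_helper98.K2.Defs
import Pool.Agent.Lib_helper98.K2.W.MOB1
import Pool.Agent.Lib_helper98.K2.W.MOB2
import Pool.Agent.Lib_helper98.K2.W.SUMG
import Pool.Agent.Lib_helper98.K2.W.ETA1
import Pool.Agent.Lib_helper98.K2.W.ETA2
import Pool.Agent.Lib_helper98.K2.W.ETA3
import Pool.Agent.Lib_helper98.K2.W.REP
import Pool.Agent.Lib_helper98.K2.W.KER1
import Pool.Agent.Lib_helper98.K2.W.EG0

set_option autoImplicit false

namespace Pool.Agent.K2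

open Complex Matrix MeasureTheory
open scoped MatrixGroups Real

variable {d : ℕ} {e : ℤ} {ρ : SL(2, ℤ) →* Matrix (Fin 3) (Fin 3) ℂ} {C0 : ℝ} {a0 : ℕ}

theorem EG_mulVec_le (hρ : IsRep d e ρ C0 a0) (x : Fin 3 → ℂ) (g : SL(2, ℤ)) (i : Fin 3) :
    ‖(ρ g⁻¹ *ᵥ x) i‖ ≤ C0 * sz g ^ a0 * ∑ j, ‖x j‖ := by
  unfold Matrix.mulVec dotProduct
  refine (norm_sum_le _ _).trans ?_
  rw [Finset.mul_sum]
  apply Finset.sum_le_sum
  intro j _
  rw [norm_mul]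
  apply mul_le_mul_of_nonneg_right _ (norm_nonneg _)
  have := hρ.gr g⁻¹ i j
  rwa [sz_inv] at this

theorem EG_C0_nonneg (hρ : IsRep d e ρ C0 a0) : 0 ≤ C0 := by
  have h1 := (norm_nonneg _).trans (hρ.gr 1 0 0)
  have h2 : 0 < sz 1 ^ a0 := pow_pos (lt_of_lt_of_le one_pos (sz_ge 1)) _
  exact nonneg_of_mul_nonneg_left h1 h2

/-- bound of `1 / Q` along an orbit -/
theorem EG_Qinv (n : ℕ) (g : SL(2, ℤ)) {t : ℂ} (ht : t ∈ H) :
    ‖Q n (mob g t)‖⁻¹ ≤ (‖Del t‖ ^ n)⁻¹ * (2 * mu t) ^ (12 * n) * (sz g ^ (12 * n))⁻¹ := by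
  rw [Q_mob n g ht, norm_mul, norm_pow, norm_pow, mul_inv, mul_assoc]
  have hD : 0 < ‖Del t‖ ^ n := pow_pos (norm_pos_iff.mpr (Del_ne ht)) _
  apply mul_le_mul_of_nonneg_left _ (inv_nonneg.mpr hD.le)
  have hmu := mu_ge_two ht
  have hsz := sz_ge g
  have h1 := num_ge g ht
  have h2 : 0 < sz g / (2 * mu t) := by positivity
  calc (‖num g t‖ ^ (12 * n))⁻¹ ≤ ((sz g / (2 * mu t)) ^ (12 * n))⁻¹ :=
        inv_anti₀ (pow_pos h2 _) (pow_le_pow_left₀ h2.le h1 _)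
    _ = (2 * mu t) ^ (12 * n) * (sz g ^ (12 * n))⁻¹ := by
        rw [div_pow, inv_div, div_eq_mul_inv]

theorem EG_szinv (γ g : SL(2, ℤ)) (k : ℕ) :
    (sz (γ * g) ^ k)⁻¹ ≤ sz γ ^ k * (sz g ^ k)⁻¹ := by
  have h1 : sz g ≤ sz γ * sz (γ * g) := by
    have := sz_mul γ⁻¹ (γ * g)
    rwa [inv_mul_cancel_left, sz_inv] at this
  have hγ := sz_ge γ
  have hg := sz_ge g
  have hγg := sz_ge (γ * g)
  have h2 : sz g ^ k ≤ sz γ ^ k * sz (γ * g) ^ k := by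
    rw [← mul_pow]
    exact pow_le_pow_left₀ (by linarith) h1 k
  have p1 : 0 < sz g ^ k := by positivity
  have p2 : 0 < sz (γ * g) ^ k := by positivity
  rw [← div_eq_mul_inv, inv_eq_one_div, div_le_div_iff₀ p2 p1, one_mul]
  exact h2

/-- bound of the terms of the series -/
theorem EG_term (hρ : IsRep d e ρ C0 a0) (n : ℕ) (hn : a0 + 20 ≤ 12 * n)
    (γ : SL(2, ℤ)) (x : Fin 3 → ℂ) (E : ℂ → ℂ) (C : ℝ)
    (hE : ∀ w ∈ H, ‖E w‖ ≤ C * (‖Q n w‖⁻¹ * (1 + ‖w‖) + ‖Q n (mob γ w)‖⁻¹ * (1 + ‖w‖))) :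
    ∃ C1 : ℝ, 0 ≤ C1 ∧ ∀ (g : SL(2, ℤ)), ∀ t ∈ H, ∀ i, ‖E (mob g t) * (ρ g⁻¹ *ᵥ x) i‖ ≤
      C1 * ((‖Del t‖ ^ n)⁻¹ * mu t ^ (12 * n + 1)) * (sz g ^ 8)⁻¹ := by
  have hC0 := EG_C0_nonneg hρ
  have hC : 0 ≤ C := by
    have hI : I ∈ H := by show 0 < I.im; simp
    have h1 := (norm_nonneg _).trans (hE I hI)
    have h2 : 0 < ‖Q n I‖⁻¹ * (1 + ‖I‖) + ‖Q n (mob γ I)‖⁻¹ * (1 + ‖I‖) := by
      have q1 : 0 < ‖Q n I‖⁻¹ := inv_pos.mpr (norm_pos_iff.mpr (Q_ne n hI))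
      have q2 : 0 < ‖Q n (mob γ I)‖⁻¹ := inv_pos.mpr (norm_pos_iff.mpr (Q_ne n (mob_mem γ hI)))
      have q3 : (0 : ℝ) < 1 + ‖I‖ := by
        have := norm_nonneg I
        linarith
      exact add_pos (mul_pos q1 q3) (mul_pos q2 q3)
    exact nonneg_of_mul_nonneg_left h1 h2
  obtain ⟨X, hX⟩ : ∃ X : ℝ, X = ∑ j, ‖x j‖ := ⟨_, rfl⟩
  have hX0 : 0 ≤ X := by
    rw [hX]
    exact Finset.sum_nonneg fun _ _ => norm_nonneg _
  have hγ := sz_ge γ
  refine ⟨C * ((1 + sz γ ^ (12 * n)) * 2 ^ (12 * n) * 2) * (C0 * X), by positivity, ?_⟩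
  intro g t ht i
  have hg := sz_ge g
  have hmu := mu_ge_two ht
  have hgt := mob_mem g ht
  have hD : 0 < ‖Del t‖ ^ n := pow_pos (norm_pos_iff.mpr (Del_ne ht)) _
  obtain ⟨D, hDd⟩ : ∃ D : ℝ, D = (‖Del t‖ ^ n)⁻¹ := ⟨_, rfl⟩
  have hD0 : 0 < D := by rw [hDd]; exact inv_pos.mpr hD
  have b1 : 1 + ‖mob g t‖ ≤ 2 * (sz g ^ 2 * mu t) := by
    have h1 := norm_le_mu hgt
    have h2 := mu_mob_le g ht
    have h3 : 1 ≤ sz g ^ 2 * mu t := by nlinarith [sq_nonneg (sz g - 1)]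
    linarith
  have b2 : ‖Q n (mob g t)‖⁻¹ ≤ D * (2 * mu t) ^ (12 * n) * (sz g ^ (12 * n))⁻¹ := by
    rw [hDd]
    exact EG_Qinv n g ht
  have b3 : ‖Q n (mob γ (mob g t))‖⁻¹ ≤
      D * (2 * mu t) ^ (12 * n) * (sz γ ^ (12 * n) * (sz g ^ (12 * n))⁻¹) := by
    rw [← mob_mul γ g ht, hDd]
    exact (EG_Qinv n (γ * g) ht).trans (mul_le_mul_of_nonneg_left (EG_szinv γ g _)
      (by positivity))
  have b4 : ‖E (mob g t)‖ ≤ C * (D * (2 * mu t) ^ (12 * n) * (sz g ^ (12 * n))⁻¹ *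
      (1 + sz γ ^ (12 * n)) * (2 * (sz g ^ 2 * mu t))) := by
    refine (hE _ hgt).trans (mul_le_mul_of_nonneg_left ?_ hC)
    rw [← add_mul]
    apply mul_le_mul _ b1 (add_nonneg zero_le_one (norm_nonneg _)) (by positivity)
    calc ‖Q n (mob g t)‖⁻¹ + ‖Q n (mob γ (mob g t))‖⁻¹ ≤
        D * (2 * mu t) ^ (12 * n) * (sz g ^ (12 * n))⁻¹ +
        D * (2 * mu t) ^ (12 * n) * (sz γ ^ (12 * n) * (sz g ^ (12 * n))⁻¹) := add_le_add b2 b3
      _ = _ := by ring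
  have b5 := EG_mulVec_le hρ x g i
  rw [← hX] at b5
  rw [norm_mul, ← hDd]
  have b6 : (sz g ^ (12 * n))⁻¹ * (sz g ^ 2 * sz g ^ a0) ≤ (sz g ^ 8)⁻¹ := by
    have p1 : 0 < sz g ^ (12 * n) := by positivity
    have p2 : 0 < sz g ^ 8 := by positivity
    rw [inv_mul_le_iff₀ p1, ← div_eq_mul_inv, le_div_iff₀ p2, ← pow_add, ← pow_add]
    exact pow_le_pow_right₀ hg (by omega)
  calc ‖E (mob g t)‖ * ‖(ρ g⁻¹ *ᵥ x) i‖ ≤ (C * (D * (2 * mu t) ^ (12 * n) *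
        (sz g ^ (12 * n))⁻¹ * (1 + sz γ ^ (12 * n)) * (2 * (sz g ^ 2 * mu t)))) *
        (C0 * sz g ^ a0 * X) := mul_le_mul b4 b5 (norm_nonneg _) (by positivity)
    _ = C * ((1 + sz γ ^ (12 * n)) * 2 ^ (12 * n) * 2) * (C0 * X) *
        (D * mu t ^ (12 * n + 1)) * ((sz g ^ (12 * n))⁻¹ * (sz g ^ 2 * sz g ^ a0)) := by
        rw [mul_pow]
        ring
    _ ≤ C * ((1 + sz γ ^ (12 * n)) * 2 ^ (12 * n) * 2) * (C0 * X) *
        (D * mu t ^ (12 * n + 1)) * (sz g ^ 8)⁻¹ :=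
        mul_le_mul_of_nonneg_left b6 (by positivity)

theorem EG_mu_cont : ContinuousOn mu H := by
  unfold mu
  apply ContinuousOn.div
  · fun_prop
  · exact Complex.continuous_im.continuousOn
  · intro z hz
    exact ne_of_gt hz

theorem EG_thi3 (d : ℕ) : thi d * thi d ^ 2 = cc d := by
  unfold thi cc
  rw [← Complex.exp_nat_mul, ← Complex.exp_add]
  congr 1
  push_cast
  ring

theorem EG_thi_th (d : ℕ) : thi d * th d = 1 := by
  unfold thi th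
  rw [← Complex.exp_add]
  simp

theorem EG_AT_BT (d : ℕ) (e : ℤ) : thi d • AT d e = BT d e := by
  have h1 := EG_thi3 d
  have h2 := EG_thi_th d
  unfold AT BT lam
  ext i j
  fin_cases i <;> fin_cases j <;> simp [Matrix.smul_apply]
  · exact h2
  · exact h2
  · exact h2
  · rw [mul_add, h1, mul_left_comm, h2, mul_one]
  · rw [mul_left_comm, h2, mul_one]
  · rw [mul_left_comm, h1]

/-- the homogeneous forms -/
theorem EG_blk (he : e = 1 ∨ e = -1) (hρ : IsRep d e ρ C0 a0) (n : ℕ) (hn : a0 + 20 ≤ 12 * n)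
    (γ : SL(2, ℤ)) {z : ℂ} (hz : z ∈ H) (x : Fin 3 → ℂ) :
    ∃ G : ℂ → Fin 3 → ℂ, Hom d e n G ∧ ∀ t ∈ H, (∀ g : SL(2, ℤ), mob g t ≠ z) →
      G t = KG d ρ n (mob γ z) (((den γ z) ^ 2)⁻¹ • (ρ γ *ᵥ x)) t - KG d ρ n z x t := by
  obtain ⟨E, hEd, hEeq, C, hE⟩ := EG0_blk n γ hz
  obtain ⟨C1, hC1, hterm⟩ := EG_term hρ n hn γ x E C hE
  obtain ⟨P, hP⟩ : ∃ P : ℂ → Fin 3 → ℂ, P = fun t i => ∑' g : SL(2, ℤ),
    E (mob g t) * (ρ g⁻¹ *ᵥ x) i := ⟨_, rfl⟩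
  have hsum8 := SUMG_blk
  have hsum : ∀ t ∈ H, ∀ i, Summable fun g : SL(2, ℤ) => E (mob g t) * (ρ g⁻¹ *ᵥ x) i := by
    intro t ht i
    exact Summable.of_norm_bounded (hsum8.mul_left _) (fun g => hterm g t ht i)
  have hPbd : ∀ t ∈ H, ∀ i, ‖P t i‖ ≤
      C1 * (∑' g : SL(2, ℤ), (sz g ^ 8)⁻¹) * ((‖Del t‖ ^ n)⁻¹ * mu t ^ (12 * n + 1)) := by
    intro t ht i
    rw [hP]
    have h1 := tsum_of_norm_bounded (hsum8.hasSum.mul_left
      (C1 * ((‖Del t‖ ^ n)⁻¹ * mu t ^ (12 * n + 1)))) (fun g => hterm g t ht i)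
    refine h1.trans (le_of_eq ?_)
    ring
  have hPeq : ∀ (σ : SL(2, ℤ)), ∀ t ∈ H, P (mob σ t) = ρ σ *ᵥ P t := by
    intro σ t ht
    ext i
    have h1 : P (mob σ t) i = ∑' g : SL(2, ℤ), E (mob g t) * (ρ (σ * g⁻¹) *ᵥ x) i := by
      rw [hP]
      show ∑' g : SL(2, ℤ), E (mob g (mob σ t)) * (ρ g⁻¹ *ᵥ x) i = _
      rw [← (Equiv.mulRight σ).tsum_eq (fun g => E (mob g t) * (ρ (σ * g⁻¹) *ᵥ x) i)]
      apply tsum_congr
      intro g
      simp only [Equiv.coe_mulRight]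
      rw [mob_mul g σ ht, _root_.mul_inv_rev, mul_inv_cancel_left]
    rw [h1]
    have h2 : ∀ g : SL(2, ℤ), E (mob g t) * (ρ (σ * g⁻¹) *ᵥ x) i =
        ∑ j, ρ σ i j * (E (mob g t) * (ρ g⁻¹ *ᵥ x) j) := by
      intro g
      rw [map_mul, ← Matrix.mulVec_mulVec]
      conv_lhs => rw [Matrix.mulVec, dotProduct]
      rw [Finset.mul_sum]
      apply Finset.sum_congr rfl
      intro j _
      ring
    rw [tsum_congr h2, Summable.tsum_finsetSum (fun j _ => (hsum t ht j).mul_left _)]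
    conv_rhs => rw [Matrix.mulVec, dotProduct]
    apply Finset.sum_congr rfl
    intro j _
    rw [tsum_mul_left, hP]
  have hPd : ∀ i, DifferentiableOn ℂ (fun t => P t i) H := by
    intro i t0 ht0
    have hcont : ContinuousOn (fun t => (‖Del t‖ ^ n)⁻¹ * mu t ^ (12 * n + 1)) H := by
      apply ContinuousOn.mul
      · apply ContinuousOn.inv₀
        · exact (Del_diffOn.continuousOn.norm).pow n
        · intro t ht
          exact (pow_pos (norm_pos_iff.mpr (Del_ne ht)) _).ne'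
      · exact EG_mu_cont.pow _
    obtain ⟨R, hR⟩ : ∃ R : ℝ, R = (‖Del t0‖ ^ n)⁻¹ * mu t0 ^ (12 * n + 1) + 1 := ⟨_, rfl⟩
    have hU : IsOpen (H ∩ (fun t => (‖Del t‖ ^ n)⁻¹ * mu t ^ (12 * n + 1)) ⁻¹' Set.Iio R) :=
      hcont.isOpen_inter_preimage isOpen_H isOpen_Iio
    have hmem : t0 ∈ H ∩ (fun t => (‖Del t‖ ^ n)⁻¹ * mu t ^ (12 * n + 1)) ⁻¹' Set.Iio R := by
      refine ⟨ht0, ?_⟩
      show (‖Del t0‖ ^ n)⁻¹ * mu t0 ^ (12 * n + 1) < R
      rw [hR]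
      linarith
    have hd : DifferentiableOn ℂ (fun t => P t i)
        (H ∩ (fun t => (‖Del t‖ ^ n)⁻¹ * mu t ^ (12 * n + 1)) ⁻¹' Set.Iio R) := by
      rw [hP]
      apply Complex.differentiableOn_tsum_of_summable_norm (u := fun g => C1 * R * (sz g ^ 8)⁻¹)
        (hsum8.mul_left _) _ hU
      · intro g t ht
        refine (hterm g t ht.1 i).trans ?_
        have hg := sz_ge g
        exact mul_le_mul_of_nonneg_right (mul_le_mul_of_nonneg_left (le_of_lt ht.2) hC1)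
          (by positivity)
      · intro g
        apply DifferentiableOn.mul_const
        exact (hEd.comp (mob_diffOn g) (fun t ht => mob_mem g ht)).mono Set.inter_subset_left
    exact (hd.differentiableAt (hU.mem_nhds hmem)).differentiableWithinAt
  refine ⟨fun t => et t ^ d • P t, ⟨?_, ?_, ?_, ?_⟩, ?_⟩
  · intro i
    exact (et_diffOn.pow d).mul (hPd i)
  · intro t ht
    show et (t + 1) ^ d • P (t + 1) = BT d e *ᵥ (et t ^ d • P t)
    have h1 := hPeq ModularGroup.T t ht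
    rw [mob_T, hρ.T] at h1
    rw [h1, et_T_pow d ht, Matrix.mulVec_smul, ← EG_AT_BT, Matrix.smul_mulVec, smul_smul,
      mul_comm]
  · intro t ht
    show et (-1 / t) ^ d • P (-1 / t) = Jd d t • (AS e *ᵥ (et t ^ d • P t))
    have h1 := hPeq ModularGroup.S t ht
    rw [mob_S, hρ.S] at h1
    rw [h1, Matrix.mulVec_smul, smul_smul]
    congr 1
    unfold Jd
    rw [div_pow, div_mul_cancel₀]
    exact pow_ne_zero _ (et_ne ht)
  · obtain ⟨Ce, hCe, hcusp⟩ := et_cusp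
    obtain ⟨S8, hS8⟩ : ∃ S : ℝ, S = ∑' g : SL(2, ℤ), (sz g ^ 8)⁻¹ := ⟨_, rfl⟩
    rw [← hS8] at hPbd
    have hS80 : 0 ≤ S8 := by
      rw [hS8]
      exact tsum_nonneg fun g => by
        have := sz_ge g
        positivity
    refine ⟨Ce ^ d * (C1 * S8) * Ce ^ (24 * n), 12 * n + 1, ?_⟩
    intro t ht hy i
    show ‖et t ^ d * P t i‖ ≤ _
    obtain ⟨c1, c2⟩ := hcusp t ht (by linarith)
    have hmu := mu_ge_two ht
    have het : 0 < ‖et t‖ := norm_pos_iff.mpr (et_ne ht)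
    have e1 : ‖et t‖ ≤ Ce := by
      refine c1.trans ?_
      have : Real.exp (-(2 * π * (t.im / 24))) ≤ 1 := by
        rw [Real.exp_le_one_iff]
        have := Real.pi_pos
        have : 0 ≤ 2 * π * (t.im / 24) := by positivity
        linarith
      nlinarith
    have e2 : ‖et t‖⁻¹ ≤ Ce * Real.exp (2 * π * (t.im / 24)) := by
      rw [Real.exp_neg] at c2
      have hE := Real.exp_pos (2 * π * (t.im / 24))
      rw [inv_le_iff_one_le_mul₀ het]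
      rw [inv_le_iff_one_le_mul₀ hE] at c2
      calc (1 : ℝ) ≤ _ := c2
        _ = _ := by ring
    have e3 : (‖Del t‖ ^ n)⁻¹ ≤ Ce ^ (24 * n) * Real.exp (2 * π * n * t.im) := by
      unfold Del
      rw [norm_pow, ← pow_mul, ← inv_pow]
      calc (‖et t‖⁻¹) ^ (24 * n) ≤ (Ce * Real.exp (2 * π * (t.im / 24))) ^ (24 * n) :=
            pow_le_pow_left₀ (inv_nonneg.mpr het.le) e2 _
        _ = _ := by
            rw [mul_pow, ← Real.exp_nat_mul]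
            congr 2
            push_cast
            ring
    rw [norm_mul, norm_pow]
    calc ‖et t‖ ^ d * ‖P t i‖ ≤ Ce ^ d * (C1 * S8 * ((‖Del t‖ ^ n)⁻¹ * mu t ^ (12 * n + 1))) :=
          mul_le_mul (pow_le_pow_left₀ het.le e1 _) (hPbd t ht i) (norm_nonneg _) (by positivity)
      _ ≤ Ce ^ d * (C1 * S8 * ((Ce ^ (24 * n) * Real.exp (2 * π * n * t.im)) *
            mu t ^ (12 * n + 1))) := by
          apply mul_le_mul_of_nonneg_left _ (by positivity)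
          apply mul_le_mul_of_nonneg_left _ (by positivity)
          exact mul_le_mul_of_nonneg_right e3 (by positivity)
      _ = _ := by ring
  · intro t ht hgt
    have hmap : ∀ (y : Fin 3 → ℂ) (i : Fin 3) (z' : ℂ) (hz' : z' ∈ H),
        HasSum (fun g : SL(2, ℤ) => psi n (mob g t) z' * (ρ g⁻¹ *ᵥ y) i)
          ((KK ρ n t z' *ᵥ y) i) := by
      intro y i z' hz'
      have h1 : HasSum (fun g : SL(2, ℤ) => psi n (mob g t) z' • ρ g⁻¹) (KK ρ n t z') :=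
        (KK_sum hρ n (by omega) ht hz').hasSum
      let L : Matrix (Fin 3) (Fin 3) ℂ →+ ℂ :=
        { toFun := fun M => (M *ᵥ y) i
          map_zero' := by simp
          map_add' := by
            intro A B
            simp [Matrix.add_mulVec] }
      have hL : Continuous L := by
        show Continuous fun M : Matrix (Fin 3) (Fin 3) ℂ => (M *ᵥ y) i
        unfold Matrix.mulVec dotProduct
        fun_prop
      have h2 := h1.map L hL
      refine h2.congr_fun ?_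
      intro g
      show psi n (mob g t) z' * (ρ g⁻¹ *ᵥ y) i = ((psi n (mob g t) z' • ρ g⁻¹) *ᵥ y) i
      rw [Matrix.smul_mulVec]
      rfl
    ext i
    show et t ^ d * P t i = KG d ρ n (mob γ z) (((den γ z) ^ 2)⁻¹ • (ρ γ *ᵥ x)) t i -
      KG d ρ n z x t i
    unfold KG
    show et t ^ d * P t i = et t ^ d * (KK ρ n t (mob γ z) *ᵥ (((den γ z) ^ 2)⁻¹ •
      (ρ γ *ᵥ x))) i - et t ^ d * (KK ρ n t z *ᵥ x) i
    rw [← mul_sub]
    congr 1
    have s1 := hmap x i z hz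
    have s2 := hmap (((den γ z) ^ 2)⁻¹ • (ρ γ *ᵥ x)) i (mob γ z) (mob_mem γ hz)
    have s3 := (Equiv.mulLeft γ).hasSum_iff.mpr s2
    have s4 := s3.sub s1
    rw [← s4.tsum_eq, hP]
    apply tsum_congr
    intro g
    rw [hEeq _ (mob_mem g ht) (hgt g)]
    simp only [Function.comp, Equiv.coe_mulLeft]
    rw [mob_mul γ g ht, Matrix.mulVec_smul, Matrix.mulVec_mulVec, ← map_mul, _root_.mul_inv_rev,
      inv_mul_cancel_right]
    show _ = psi n (mob γ (mob g t)) (mob γ z) * (((den γ z) ^ 2)⁻¹ * (ρ g⁻¹ *ᵥ x) i) - _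
    ring

end Pool.Agent.K2
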