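import Pool.Agent.Lib_helper98.K2.Defs
import Pool.Agent.Lib_helper98.K2.W.MOB1
import Pool.Agent.Lib_helper98.K2.W.MOB2
import Pool.Agent.Lib_helper98.K2.W.SUMG
import Pool.Agent.Lib_helper98.K2.W.ETA1
import Pool.Agent.Lib_helper98.K2.W.ETA3
import Pool.Agent.Lib_helper98.K2.W.REP
import Pool.Agent.Lib_helper98.K2.W.KER1

set_option autoImplicit false

namespace Pool.Agent.K2

open Complex Matrix MeasureTheory
open scoped MatrixGroups Real

variable {d : ℕ} {e : ℤ} {ρ : SL(2, ℤ) →* Matrix (Fin 3) (Fin 3) ℂ} {C0 : ℝ} {a0 : ℕ}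

open Filter Topology in
private theorem KER2_loc {t0 z0 : ℂ} (ht : t0 ∈ H) (hz : z0 ∈ H) :
    ∃ R δ : ℝ, 0 < δ ∧ ∀ᶠ p : ℂ × ℂ in 𝓝 (t0, z0), ∀ g : SL(2, ℤ), R < sz g →
      δ ≤ ‖p.2 - mob g p.1‖ := by
  have ht' : 0 < t0.im := ht
  have hz' : 0 < z0.im := hz
  refine ⟨2 * (mu t0 + 1) * ((‖z0‖ + 3) * Real.sqrt ((t0.im + 1) / (z0.im / 4))),
    min (z0.im / 4) 1, lt_min (by linarith) one_pos, ?_⟩
  have hmu : ContinuousAt mu t0 := by
    unfold mu
    refine ContinuousAt.div ?_ Complex.continuous_im.continuousAt ht'.ne'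
    exact (continuousAt_const.add ((continuous_norm.pow 2).continuousAt))
  have e1 : ∀ᶠ p : ℂ × ℂ in 𝓝 (t0, z0), 0 < p.1.im := by
    have : ContinuousAt (fun p : ℂ × ℂ => p.1.im) (t0, z0) :=
      (Complex.continuous_im.comp continuous_fst).continuousAt
    exact this.eventually (lt_mem_nhds ht')
  have e2 : ∀ᶠ p : ℂ × ℂ in 𝓝 (t0, z0), p.1.im < t0.im + 1 := by
    have : ContinuousAt (fun p : ℂ × ℂ => p.1.im) (t0, z0) :=
      (Complex.continuous_im.comp continuous_fst).continuousAt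
    exact this.eventually (gt_mem_nhds (by simp))
  have e3 : ∀ᶠ p : ℂ × ℂ in 𝓝 (t0, z0), mu p.1 < mu t0 + 1 := by
    have : ContinuousAt (fun p : ℂ × ℂ => mu p.1) (t0, z0) := by
      refine ContinuousAt.comp (f := fun p : ℂ × ℂ => p.1) (g := mu) ?_ continuous_fst.continuousAt
      exact hmu
    exact this.eventually (gt_mem_nhds (by simp))
  have e4 : ∀ᶠ p : ℂ × ℂ in 𝓝 (t0, z0), z0.im / 2 < p.2.im := by
    have : ContinuousAt (fun p : ℂ × ℂ => p.2.im) (t0, z0) :=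
      (Complex.continuous_im.comp continuous_snd).continuousAt
    exact this.eventually (lt_mem_nhds (by simp; linarith))
  have e5 : ∀ᶠ p : ℂ × ℂ in 𝓝 (t0, z0), ‖p.2‖ < ‖z0‖ + 1 := by
    have : ContinuousAt (fun p : ℂ × ℂ => ‖p.2‖) (t0, z0) :=
      (continuous_norm.comp continuous_snd).continuousAt
    exact this.eventually (gt_mem_nhds (by simp))
  filter_upwards [e1, e2, e3, e4, e5] with p h1 h2 h3 h4 h5 g hR
  by_contra hlt
  push Not at hlt
  have hl1 : ‖p.2 - mob g p.1‖ < z0.im / 4 := lt_of_lt_of_le hlt (min_le_left _ _)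
  have hl2 : ‖p.2 - mob g p.1‖ < 1 := lt_of_lt_of_le hlt (min_le_right _ _)
  have hpH : p.1 ∈ H := h1
  have him : z0.im / 4 < (mob g p.1).im := by
    have := Complex.abs_im_le_norm (p.2 - mob g p.1)
    rw [Complex.sub_im] at this
    have h6 := (abs_le.mp this).2
    linarith
  have hden0 : 0 < ‖den g p.1‖ := norm_pos_iff.mpr (den_ne g hpH)
  have hden : ‖den g p.1‖ ≤ Real.sqrt ((t0.im + 1) / (z0.im / 4)) := by
    apply Real.le_sqrt_of_sq_le
    have h6 := mob_im g hpH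
    rw [h6] at him
    rw [lt_div_iff₀ (by positivity)] at him
    rw [le_div_iff₀ (by linarith)]
    linarith
  have hnum : ‖num g p.1‖ ≤ (‖z0‖ + 3) * Real.sqrt ((t0.im + 1) / (z0.im / 4)) := by
    rw [num_eq g hpH, norm_mul]
    refine mul_le_mul ?_ hden hden0.le (by positivity)
    calc ‖mob g p.1 + I‖ = ‖p.2 - (p.2 - mob g p.1) + I‖ := by congr 1; ring
      _ ≤ ‖p.2 - (p.2 - mob g p.1)‖ + ‖I‖ := norm_add_le _ _
      _ ≤ ‖p.2‖ + ‖p.2 - mob g p.1‖ + ‖I‖ := by gcongr; exact norm_sub_le _ _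
      _ ≤ ‖z0‖ + 3 := by rw [Complex.norm_I]; linarith
  have hmu2 := mu_ge_two hpH
  have hmu3 := mu_ge_two ht
  have hge := num_ge g hpH
  rw [div_le_iff₀ (by linarith)] at hge
  have hfin : sz g ≤ 2 * (mu t0 + 1) * ((‖z0‖ + 3) * Real.sqrt ((t0.im + 1) / (z0.im / 4))) := by
    calc sz g ≤ ‖num g p.1‖ * (2 * mu p.1) := hge
      _ ≤ ((‖z0‖ + 3) * Real.sqrt ((t0.im + 1) / (z0.im / 4))) * (2 * (mu t0 + 1)) := by
        refine mul_le_mul hnum (by linarith) (by linarith) (by positivity)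
      _ = _ := by ring
  linarith

private theorem KER2_term_cont (n : ℕ) (g : SL(2, ℤ)) :
    ContinuousOn (fun p : ℂ × ℂ => psi n (mob g p.1) p.2)
      {p | p.1 ∈ H ∧ p.2 ∈ H ∧ mob g p.1 ≠ p.2} := by
  have hQ : ContinuousOn (Q n) H := (Q_diffOn n).continuousOn
  have hm : ContinuousOn (mob g) H := (mob_diffOn g).continuousOn
  have hm1 : ContinuousOn (fun p : ℂ × ℂ => mob g p.1)
      {p | p.1 ∈ H ∧ p.2 ∈ H ∧ mob g p.1 ≠ p.2} :=
    hm.comp continuous_fst.continuousOn (fun p hp => hp.1)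
  unfold psi
  refine ContinuousOn.div ?_ ?_ ?_
  · exact hQ.comp continuous_snd.continuousOn (fun p hp => hp.2.1)
  · refine ContinuousOn.mul ?_ (continuous_snd.continuousOn.sub hm1)
    exact hQ.comp hm1 (fun p hp => mob_mem g hp.1)
  · rintro p ⟨h1, h2, h3⟩
    exact mul_ne_zero (Q_ne n (mob_mem g h1)) (sub_ne_zero.mpr h3.symm)

private theorem KER2_open (g : SL(2, ℤ)) :
    IsOpen {p : ℂ × ℂ | p.1 ∈ H ∧ p.2 ∈ H ∧ mob g p.1 ≠ p.2} := by
  have hO : IsOpen {p : ℂ × ℂ | p.1 ∈ H ∧ p.2 ∈ H} :=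
    (isOpen_H.preimage continuous_fst).inter (isOpen_H.preimage continuous_snd)
  have hm1 : ContinuousOn (fun p : ℂ × ℂ => mob g p.1 - p.2) {p : ℂ × ℂ | p.1 ∈ H ∧ p.2 ∈ H} :=
    ((mob_diffOn g).continuousOn.comp continuous_fst.continuousOn (fun p hp => hp.1)).sub
      continuous_snd.continuousOn
  have h := hm1.isOpen_inter_preimage hO (isOpen_compl_singleton (x := (0 : ℂ)))
  have heq : {p : ℂ × ℂ | p.1 ∈ H ∧ p.2 ∈ H ∧ mob g p.1 ≠ p.2} =
      {p : ℂ × ℂ | p.1 ∈ H ∧ p.2 ∈ H} ∩ (fun p : ℂ × ℂ => mob g p.1 - p.2) ⁻¹' {(0 : ℂ)}ᶜ := by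
    ext p
    simp only [Set.mem_setOf_eq, Set.mem_inter_iff, Set.mem_preimage, Set.mem_compl_iff,
      Set.mem_singleton_iff, sub_eq_zero]
    tauto
  rw [heq]
  exact h

open Filter Topology in
private theorem KER2_bd (hρ : IsRep d e ρ C0 a0) (n : ℕ) (hn : a0 + 8 ≤ 12 * n) (i j : Fin 3)
    {p0 : ℂ × ℂ} (h1 : p0.1 ∈ H) (h2 : p0.2 ∈ H) (h3 : ∀ g : SL(2, ℤ), mob g p0.1 ≠ p0.2) :
    ∃ u : SL(2, ℤ) → ℝ, Summable u ∧ ∀ᶠ p : ℂ × ℂ in 𝓝 p0, (p.1 ∈ H ∧ p.2 ∈ H ∧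
      ∀ g : SL(2, ℤ), mob g p.1 ≠ p.2) ∧
      ∀ g : SL(2, ℤ), ‖(psi n (mob g p.1) p.2 • ρ g⁻¹) i j‖ ≤ u g := by
  obtain ⟨t0, z0⟩ := p0
  simp only at h1 h2 h3
  obtain ⟨R, δ, hδ, hloc⟩ := KER2_loc h1 h2
  obtain ⟨C, hC⟩ := KK_term_le hρ n hn
  have hfin := SZFIN_blk R
  set M : ℝ := |C| * (‖Q n z0‖ + 1) * ((‖Del t0‖ ^ n)⁻¹ + 1) * (mu t0 + 1) ^ (12 * n) * δ⁻¹ with hM
  have hmu0 := mu_ge_two h1
  have hM0 : 0 ≤ M := by positivity
  classical
  refine ⟨fun g => (if sz g ≤ R then ‖(psi n (mob g t0) z0 • ρ g⁻¹) i j‖ + 1 else 0) +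
    M * (sz g ^ 8)⁻¹, ?_, ?_⟩
  · refine Summable.add ?_ (SUMG_blk.mul_left M)
    refine summable_of_finite_support (hfin.subset ?_)
    intro g hg
    simp only [Function.mem_support, ne_eq, ite_eq_right_iff, Classical.not_imp] at hg
    exact hg.1
  · -- the small terms
    have hsmall : ∀ᶠ p : ℂ × ℂ in 𝓝 (t0, z0), ∀ g ∈ hfin.toFinset, (mob g p.1 ≠ p.2) ∧
        ‖(psi n (mob g p.1) p.2 • ρ g⁻¹) i j‖ < ‖(psi n (mob g t0) z0 • ρ g⁻¹) i j‖ + 1 := by
      rw [Filter.eventually_all_finset]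
      intro g _
      have hop := (KER2_open g).mem_nhds (x := (t0, z0)) ⟨h1, h2, h3 g⟩
      have hc : ContinuousAt (fun p : ℂ × ℂ => psi n (mob g p.1) p.2) (t0, z0) :=
        (KER2_term_cont n g).continuousAt hop
      have hc2 : ContinuousAt (fun p : ℂ × ℂ => ‖(psi n (mob g p.1) p.2 • ρ g⁻¹) i j‖)
          (t0, z0) := by
        have : (fun p : ℂ × ℂ => ‖(psi n (mob g p.1) p.2 • ρ g⁻¹) i j‖) =
            fun p : ℂ × ℂ => ‖psi n (mob g p.1) p.2 * ρ g⁻¹ i j‖ := by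
          funext p
          rw [Matrix.smul_apply, smul_eq_mul]
        rw [this]
        exact (hc.mul continuousAt_const).norm
      have hev := hc2.eventually (gt_mem_nhds (lt_add_one _))
      filter_upwards [hop, hev] with p hp hp2
      exact ⟨hp.2.2, hp2⟩
    have ht' : 0 < t0.im := h1
    have hmu : ContinuousAt mu t0 := by
      unfold mu
      refine ContinuousAt.div ?_ Complex.continuous_im.continuousAt ht'.ne'
      exact (continuousAt_const.add ((continuous_norm.pow 2).continuousAt))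
    have e0 : ∀ᶠ p : ℂ × ℂ in 𝓝 (t0, z0), p.1 ∈ H ∧ p.2 ∈ H :=
      ((isOpen_H.preimage continuous_fst).inter (isOpen_H.preimage continuous_snd)).mem_nhds
        ⟨h1, h2⟩
    have e1 : ∀ᶠ p : ℂ × ℂ in 𝓝 (t0, z0), mu p.1 < mu t0 + 1 := by
      have : ContinuousAt (fun p : ℂ × ℂ => mu p.1) (t0, z0) := by
        refine ContinuousAt.comp (f := fun p : ℂ × ℂ => p.1) (g := mu) ?_
          continuous_fst.continuousAt
        exact hmu
      exact this.eventually (gt_mem_nhds (lt_add_one _))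
    have e2 : ∀ᶠ p : ℂ × ℂ in 𝓝 (t0, z0), ‖Q n p.2‖ < ‖Q n z0‖ + 1 := by
      have : ContinuousAt (fun p : ℂ × ℂ => ‖Q n p.2‖) (t0, z0) := by
        refine ContinuousAt.norm ?_
        refine ContinuousAt.comp (f := fun p : ℂ × ℂ => p.2) (g := Q n) ?_
          continuous_snd.continuousAt
        exact (Q_diffOn n).continuousOn.continuousAt (isOpen_H.mem_nhds h2)
      exact this.eventually (gt_mem_nhds (lt_add_one _))
    have e3 : ∀ᶠ p : ℂ × ℂ in 𝓝 (t0, z0), (‖Del p.1‖ ^ n)⁻¹ < (‖Del t0‖ ^ n)⁻¹ + 1 := by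
      have : ContinuousAt (fun p : ℂ × ℂ => (‖Del p.1‖ ^ n)⁻¹) (t0, z0) := by
        refine ContinuousAt.inv₀ (ContinuousAt.pow (ContinuousAt.norm ?_) n) ?_
        · refine ContinuousAt.comp (f := fun p : ℂ × ℂ => p.1) (g := Del) ?_
            continuous_fst.continuousAt
          exact Del_diffOn.continuousOn.continuousAt (isOpen_H.mem_nhds h1)
        · exact pow_ne_zero _ (norm_ne_zero_iff.mpr (Del_ne h1))
      exact this.eventually (gt_mem_nhds (lt_add_one _))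
    filter_upwards [hloc, hsmall, e0, e1, e2, e3] with p hp hp2 hp3 hp4 hp5 hp6
    refine ⟨⟨hp3.1, hp3.2, ?_⟩, ?_⟩
    · intro g
      by_cases hg : sz g ≤ R
      · exact (hp2 g (hfin.mem_toFinset.mpr hg)).1
      · intro heq
        have := hp g (not_le.mp hg)
        rw [heq, sub_self, norm_zero] at this
        linarith
    · intro g
      have hsz := sz_ge g
      have hpos : 0 ≤ M * (sz g ^ 8)⁻¹ := by positivity
      by_cases hg : sz g ≤ R
      · simp only [if_pos hg]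
        have := (hp2 g (hfin.mem_toFinset.mpr hg)).2
        linarith
      · simp only [if_neg hg, zero_add]
        have hd := hp g (not_le.mp hg)
        have hmup := mu_ge_two hp3.1
        refine (hC g p.1 hp3.1 p.2 hp3.2 i j).trans ?_
        have hinv : ‖p.2 - mob g p.1‖⁻¹ ≤ δ⁻¹ := inv_anti₀ hδ hd
        calc C * ‖Q n p.2‖ * (‖Del p.1‖ ^ n)⁻¹ * mu p.1 ^ (12 * n) * (sz g ^ 8)⁻¹ *
              ‖p.2 - mob g p.1‖⁻¹
            ≤ |C| * ‖Q n p.2‖ * (‖Del p.1‖ ^ n)⁻¹ * mu p.1 ^ (12 * n) * (sz g ^ 8)⁻¹ *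
              ‖p.2 - mob g p.1‖⁻¹ := by
              gcongr
              exact le_abs_self C
          _ ≤ |C| * (‖Q n z0‖ + 1) * ((‖Del t0‖ ^ n)⁻¹ + 1) * (mu t0 + 1) ^ (12 * n) *
              (sz g ^ 8)⁻¹ * δ⁻¹ := by
              gcongr
          _ = M * (sz g ^ 8)⁻¹ := by rw [hM]; ring

private theorem KER2_apply (hρ : IsRep d e ρ C0 a0) (n : ℕ) (hn : a0 + 8 ≤ 12 * n) (i j : Fin 3)
    {t z : ℂ} (ht : t ∈ H) (hz : z ∈ H) :
    KK ρ n t z i j = ∑' g : SL(2, ℤ), (psi n (mob g t) z • ρ g⁻¹) i j := by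
  have h := ((KK_sum hρ n hn ht hz).hasSum.map (Matrix.entryAddMonoidHom ℂ i j)
    (continuous_id.matrix_elem i j)).tsum_eq
  exact h.symm

/-- the kernel off the poles is continuous and separately holomorphic -/
theorem KK_cont (hρ : IsRep d e ρ C0 a0) (n : ℕ) (hn : a0 + 8 ≤ 12 * n) (i j : Fin 3) :
    ContinuousOn (fun p : ℂ × ℂ => KK ρ n p.1 p.2 i j)
      {p | p.1 ∈ H ∧ p.2 ∈ H ∧ ∀ g : SL(2, ℤ), mob g p.1 ≠ p.2} := by
  rintro p0 ⟨h1, h2, h3⟩
  obtain ⟨u, hu, hev⟩ := KER2_bd hρ n hn i j h1 h2 h3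
  obtain ⟨U, hU, hUo, hp0⟩ := eventually_nhds_iff.mp hev
  have hc : ContinuousOn (fun p : ℂ × ℂ => ∑' g : SL(2, ℤ),
      (psi n (mob g p.1) p.2 • ρ g⁻¹) i j) {p | p ∈ U} := by
    refine continuousOn_tsum ?_ hu (fun g p hp => (hU p hp).2 g)
    intro g
    have hh : ContinuousOn (fun p : ℂ × ℂ => psi n (mob g p.1) p.2 * ρ g⁻¹ i j) {p | p ∈ U} :=
      ((KER2_term_cont n g).mono (fun p hp => ⟨(hU p hp).1.1, (hU p hp).1.2.1,
        (hU p hp).1.2.2 g⟩)).mul continuousOn_const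
    exact hh
  have hc2 : ContinuousOn (fun p : ℂ × ℂ => KK ρ n p.1 p.2 i j) {p | p ∈ U} := by
    refine hc.congr ?_
    intro p hp
    exact KER2_apply hρ n hn i j (hU p hp).1.1 (hU p hp).1.2.1
  exact (hc2.continuousAt (hUo.mem_nhds hp0)).continuousWithinAt

theorem KK_hol_t (hρ : IsRep d e ρ C0 a0) (n : ℕ) (hn : a0 + 8 ≤ 12 * n) (i j : Fin 3) {z : ℂ}
    (hz : z ∈ H) : DifferentiableOn ℂ (fun t => KK ρ n t z i j)
      {t | t ∈ H ∧ ∀ g : SL(2, ℤ), mob g t ≠ z} := by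
  rintro t0 ⟨h1, h3⟩
  obtain ⟨u, hu, hev⟩ := KER2_bd hρ n hn i j (p0 := (t0, z)) h1 hz h3
  obtain ⟨U, hU, hUo, hp0⟩ := eventually_nhds_iff.mp hev
  have hVo : IsOpen {t : ℂ | (t, z) ∈ U} := hUo.preimage (by fun_prop : Continuous fun t : ℂ => (t, z))
  have hd : DifferentiableOn ℂ (fun t : ℂ => ∑' g : SL(2, ℤ),
      (psi n (mob g t) z • ρ g⁻¹) i j) {t : ℂ | (t, z) ∈ U} := by
    refine differentiableOn_tsum_of_summable_norm hu ?_ hVo (fun g t ht => (hU (t, z) ht).2 g)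
    intro g
    have hm : DifferentiableOn ℂ (mob g) {t : ℂ | (t, z) ∈ U} :=
      (mob_diffOn g).mono (fun t ht => (hU (t, z) ht).1.1)
    have hQ : DifferentiableOn ℂ (fun t => Q n (mob g t)) {t : ℂ | (t, z) ∈ U} :=
      (Q_diffOn n).comp hm (fun t ht => mob_mem g (hU (t, z) ht).1.1)
    have hh : DifferentiableOn ℂ (fun t => Q n z / (Q n (mob g t) * (z - mob g t)) * ρ g⁻¹ i j)
        {t : ℂ | (t, z) ∈ U} := by
      refine DifferentiableOn.mul_const (DifferentiableOn.div (differentiableOn_const _)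
        (hQ.mul ((differentiableOn_const _).sub hm)) ?_) _
      intro t ht
      exact mul_ne_zero (Q_ne n (mob_mem g (hU (t, z) ht).1.1))
        (sub_ne_zero.mpr ((hU (t, z) ht).1.2.2 g).symm)
    exact hh
  have hd2 : DifferentiableOn ℂ (fun t => KK ρ n t z i j) {t : ℂ | (t, z) ∈ U} := by
    refine hd.congr ?_
    intro t ht
    exact KER2_apply hρ n hn i j (hU (t, z) ht).1.1 hz
  exact (hd2.differentiableAt (hVo.mem_nhds hp0)).differentiableWithinAt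

theorem KK_hol_z (hρ : IsRep d e ρ C0 a0) (n : ℕ) (hn : a0 + 8 ≤ 12 * n) (i j : Fin 3) {t : ℂ}
    (ht : t ∈ H) : DifferentiableOn ℂ (fun z => KK ρ n t z i j)
      {z | z ∈ H ∧ ∀ g : SL(2, ℤ), mob g t ≠ z} := by
  rintro z0 ⟨h1, h3⟩
  obtain ⟨u, hu, hev⟩ := KER2_bd hρ n hn i j (p0 := (t, z0)) ht h1 h3
  obtain ⟨U, hU, hUo, hp0⟩ := eventually_nhds_iff.mp hev
  have hVo : IsOpen {z : ℂ | (t, z) ∈ U} := hUo.preimage (by fun_prop : Continuous fun z : ℂ => (t, z))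
  have hd : DifferentiableOn ℂ (fun z : ℂ => ∑' g : SL(2, ℤ),
      (psi n (mob g t) z • ρ g⁻¹) i j) {z : ℂ | (t, z) ∈ U} := by
    refine differentiableOn_tsum_of_summable_norm hu ?_ hVo (fun g z hz => (hU (t, z) hz).2 g)
    intro g
    have hQ : DifferentiableOn ℂ (Q n) {z : ℂ | (t, z) ∈ U} :=
      (Q_diffOn n).mono (fun z hz => (hU (t, z) hz).1.2.1)
    have hh : DifferentiableOn ℂ (fun z => Q n z / (Q n (mob g t) * (z - mob g t)) * ρ g⁻¹ i j)
        {z : ℂ | (t, z) ∈ U} := by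
      refine DifferentiableOn.mul_const (DifferentiableOn.div hQ
        ((differentiableOn_const _).mul (differentiableOn_id.sub (differentiableOn_const _))) ?_) _
      intro z hz
      exact mul_ne_zero (Q_ne n (mob_mem g ht))
        (sub_ne_zero.mpr ((hU (t, z) hz).1.2.2 g).symm)
    exact hh
  have hd2 : DifferentiableOn ℂ (fun z => KK ρ n t z i j) {z : ℂ | (t, z) ∈ U} := by
    refine hd.congr ?_
    intro z hz
    exact KER2_apply hρ n hn i j ht (hU (t, z) hz).1.2.1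
  exact (hd2.differentiableAt (hVo.mem_nhds hp0)).differentiableWithinAt

end Pool.Agent.K2
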