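import Pool.Agent.Lib_helper98.K2.Defs
import Pool.Agent.Lib_helper98.K2.W.MOB1
import Pool.Agent.Lib_helper98.K2.W.MOB2
import Pool.Agent.Lib_helper98.K2.W.SUMG
import Pool.Agent.Lib_helper98.K2.W.ETA1
import Pool.Agent.Lib_helper98.K2.W.ETA3
import Pool.Agent.Lib_helper98.K2.W.REP
import Pool.Agent.Lib_helper98.K2.W.KER1

set_option autoImplicit false

namespace Pool.Agent.K2

open Complex Matrix MeasureTheory
open scoped MatrixGroups Real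

variable {d : ℕ} {e : ℤ} {ρ : SL(2, ℤ) →* Matrix (Fin 3) (Fin 3) ℂ} {C0 : ℝ} {a0 : ℕ}

theorem KER3_det (g : SL(2, ℤ)) : g 0 0 * g 1 1 - g 0 1 * g 1 0 = 1 := by
  have h := g.det_coe
  rwa [Matrix.det_fin_two] at h

theorem KER3_zero (g : SL(2, ℤ)) (h : g 1 0 = 0) :
    (g 0 0 = 1 ∧ g 1 1 = 1) ∨ (g 0 0 = -1 ∧ g 1 1 = -1) := by
  have h1 := KER3_det g
  rw [h, mul_zero, sub_zero] at h1
  exact Int.mul_eq_one_iff_eq_one_or_neg_one.1 h1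

/-- `|c t + d| ≥ Im t` if `c ≠ 0` -/
theorem KER3_den (g : SL(2, ℤ)) (t : ℂ) (h : g 1 0 ≠ 0) : t.im ^ 2 ≤ ‖den g t‖ ^ 2 := by
  rw [← Complex.normSq_eq_norm_sq, Complex.normSq_apply]
  have h1 : (den g t).im = (g 1 0 : ℝ) * t.im := by simp [den]
  have h2 : (1 : ℝ) ≤ (g 1 0 : ℝ) ^ 2 := by
    have h3 : 1 ≤ (g 1 0) ^ 2 := by
      have := sq_pos_of_ne_zero h
      omega
    exact_mod_cast h3
  rw [h1]
  nlinarith [mul_self_nonneg (den g t).re, sq_nonneg t.im, mul_le_mul_of_nonneg_right h2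
    (sq_nonneg t.im)]

theorem KER3_im (g : SL(2, ℤ)) {t : ℂ} (ht : t ∈ H) (h : g 1 0 ≠ 0) :
    (mob g t).im * t.im ≤ 1 := by
  have ht' : 0 < t.im := ht
  rw [mob_im g ht]
  have h1 := KER3_den g t h
  have h2 : 0 < ‖den g t‖ ^ 2 := lt_of_lt_of_le (by positivity) h1
  rw [div_mul_eq_mul_div, div_le_one h2]
  nlinarith

theorem KER3_zero_mob (g : SL(2, ℤ)) (t : ℂ) (h : g 1 0 = 0) :
    ∃ k : ℤ, mob g t = t + k := by
  rcases KER3_zero g h with ⟨h1, h2⟩ | ⟨h1, h2⟩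
  · refine ⟨g 0 1, ?_⟩
    simp [mob, den, h, h1, h2]
  · refine ⟨-g 0 1, ?_⟩
    simp [mob, den, h, h1, h2]
    ring

/-- above the orbit: no poles -/
theorem orbit_high {t z : ℂ} (ht : t ∈ H) (hz : z ∈ H) (h1 : z.im < t.im) (h2 : 1 / z.im < t.im)
    (g : SL(2, ℤ)) : mob g t ≠ z := by
  have hz' : 0 < z.im := hz
  rintro rfl
  by_cases hc : g 1 0 = 0
  · obtain ⟨k, hk⟩ := KER3_zero_mob g t hc
    rw [hk] at h1
    simp at h1
  · have h3 := KER3_im g ht hc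
    rw [div_lt_iff₀ hz'] at h2
    linarith

/-- between `1` and `z.im`: the only poles are `z + ℤ` -/
theorem orbit_mid {t z : ℂ} (ht : 1 < t.im) (hz : 1 < z.im) (h : ∀ k : ℤ, t ≠ z + k)
    (g : SL(2, ℤ)) : mob g t ≠ z := by
  have ht' : t ∈ H := lt_trans one_pos ht
  rintro rfl
  by_cases hc : g 1 0 = 0
  · obtain ⟨k, hk⟩ := KER3_zero_mob g t hc
    apply h (-k)
    rw [hk]
    push_cast
    ring
  · have h3 := KER3_im g ht' hc
    nlinarith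

/-- bound on the line `Im t = 2` for `Im z ≥ 3` -/
theorem KK_line (hρ : IsRep d e ρ C0 a0) (n : ℕ) (hn : a0 + 8 ≤ 12 * n) :
    ∃ C : ℝ, ∀ (x : ℝ) (z : ℂ), 0 ≤ x → x ≤ 1 → 3 ≤ z.im → ∀ i j,
      ‖KK ρ n (x + 2 * I) z i j‖ ≤ C * ‖Q n z‖ := by
  obtain ⟨C, hC⟩ := KK_term_le hρ n hn
  have hmem : ∀ x : ℝ, (x + 2 * I : ℂ) ∈ H := by
    intro x
    simp [H]
  -- `Del` is bounded below on the segment
  obtain ⟨m, hm, hm'⟩ : ∃ m : ℝ, 0 < m ∧ ∀ x : ℝ, 0 ≤ x → x ≤ 1 → m ≤ ‖Del (x + 2 * I)‖ := by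
    have hcont : ContinuousOn (fun x : ℝ => ‖Del (x + 2 * I)‖) (Set.Icc 0 1) := by
      apply ContinuousOn.norm
      apply Del_diffOn.continuousOn.comp (t := H)
      · fun_prop
      · intro x _
        exact hmem x
    obtain ⟨x0, hx0, hx0'⟩ := isCompact_Icc.exists_isMinOn (Set.nonempty_Icc.2 zero_le_one) hcont
    refine ⟨‖Del (x0 + 2 * I)‖, norm_pos_iff.2 (Del_ne (hmem x0)), ?_⟩
    intro x hx hx1
    exact hx0' ⟨hx, hx1⟩
  refine ⟨|C| * (m ^ n)⁻¹ * 3 ^ (12 * n) * ∑' g : SL(2, ℤ), (sz g ^ 8)⁻¹, ?_⟩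
  intro x z hx0 hx1 hz i j
  have hzH : z ∈ H := by
    show 0 < z.im
    linarith
  have ht := hmem x
  set t : ℂ := x + 2 * I with htdef
  have htim : t.im = 2 := by simp [htdef]
  have hmu : mu t ≤ 3 := by
    have h1 : ‖t‖ ^ 2 = x ^ 2 + 4 := by
      rw [← Complex.normSq_eq_norm_sq, Complex.normSq_apply]
      simp [htdef]
      ring
    rw [mu, htim, h1]
    nlinarith
  have hmu0 : 0 ≤ mu t := by
    rw [mu, htim]
    positivity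
  have hdist : ∀ g : SL(2, ℤ), ‖z - mob g t‖⁻¹ ≤ 1 := by
    intro g
    have h1 : (mob g t).im ≤ 2 := by
      by_cases hc : g 1 0 = 0
      · obtain ⟨k, hk⟩ := KER3_zero_mob g t hc
        rw [hk]
        simp [htim]
      · have h3 := KER3_im g ht hc
        rw [htim] at h3
        linarith
    have h2 : 1 ≤ ‖z - mob g t‖ := by
      have h3 := Complex.abs_im_le_norm (z - mob g t)
      rw [Complex.sub_im] at h3
      have h4 := le_abs_self (z.im - (mob g t).im)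
      linarith
    exact inv_le_one_of_one_le₀ h2
  have hterm : ∀ g : SL(2, ℤ), ‖(psi n (mob g t) z • ρ g⁻¹) i j‖ ≤
      (|C| * (m ^ n)⁻¹ * 3 ^ (12 * n) * ‖Q n z‖) * (sz g ^ 8)⁻¹ := by
    intro g
    have h1 := hC g t ht z hzH i j
    have hsz : 0 ≤ sz g := by
      rw [sz]
      positivity
    have h2 : (‖Del t‖ ^ n)⁻¹ ≤ (m ^ n)⁻¹ := by
      apply inv_anti₀ (by positivity)
      exact pow_le_pow_left₀ hm.le (hm' x hx0 hx1) n
    have h3 : mu t ^ (12 * n) ≤ 3 ^ (12 * n) := pow_le_pow_left₀ hmu0 hmu _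
    have h4 : 0 ≤ (‖Del t‖ ^ n)⁻¹ := by positivity
    have h5 : 0 ≤ (sz g ^ 8)⁻¹ := by positivity
    have h6 : 0 ≤ mu t ^ (12 * n) := by positivity
    calc ‖(psi n (mob g t) z • ρ g⁻¹) i j‖
        ≤ C * ‖Q n z‖ * (‖Del t‖ ^ n)⁻¹ * mu t ^ (12 * n) * (sz g ^ 8)⁻¹ *
          ‖z - mob g t‖⁻¹ := h1
      _ ≤ |C| * ‖Q n z‖ * (m ^ n)⁻¹ * 3 ^ (12 * n) * (sz g ^ 8)⁻¹ * 1 := by
          gcongr
          · exact le_abs_self C
          · exact hdist g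
      _ = (|C| * (m ^ n)⁻¹ * 3 ^ (12 * n) * ‖Q n z‖) * (sz g ^ 8)⁻¹ := by ring
  have hsum := KK_sum hρ n hn ht hzH
  have hKK : KK ρ n t z i j = ∑' g : SL(2, ℤ), (psi n (mob g t) z • ρ g⁻¹) i j := by
    have h1 := tsum_apply (x := i) hsum
    have h2 := tsum_apply (x := j) (Pi.summable.1 hsum i)
    show (∑' g : SL(2, ℤ), psi n (mob g t) z • ρ g⁻¹) i j = _
    exact (congrFun h1 j).trans h2
  rw [hKK]
  have hs := (SUMG_blk.mul_left (|C| * (m ^ n)⁻¹ * 3 ^ (12 * n) * ‖Q n z‖)).hasSum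
  have h1 := tsum_of_norm_bounded hs hterm
  rw [tsum_mul_left] at h1
  calc ‖∑' g : SL(2, ℤ), (psi n (mob g t) z • ρ g⁻¹) i j‖
      ≤ |C| * (m ^ n)⁻¹ * 3 ^ (12 * n) * ‖Q n z‖ * ∑' g : SL(2, ℤ), (sz g ^ 8)⁻¹ := h1
    _ = |C| * (m ^ n)⁻¹ * 3 ^ (12 * n) * (∑' g : SL(2, ℤ), (sz g ^ 8)⁻¹) * ‖Q n z‖ := by ring

end Pool.Agent.K2
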