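import Pool.Agent.Lib_helper98.K2.Defs
import Pool.Agent.Lib_helper98.K2.W.MOB1
import Pool.Agent.Lib_helper98.K2.W.MOB2
import Pool.Agent.Lib_helper98.K2.W.ETA1
import Pool.Agent.Lib_helper98.K2.W.CFI1
import Pool.Agent.Lib_helper98.K2.W.EMAT1
import Pool.Agent.Lib_helper98.K2.W.KER1
import Pool.Agent.Lib_helper98.K2.W.KER2
import Pool.Agent.Lib_helper98.K2.W.KER3

set_option autoImplicit false

namespace Pool.Agent.K2

open Complex Matrix MeasureTheory
open scoped MatrixGroups Real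

variable {d : ℕ} {e : ℤ} {ρ : SL(2, ℤ) →* Matrix (Fin 3) (Fin 3) ℂ} {C0 : ℝ} {a0 : ℕ}

theorem PS1_Pc_eq (d : ℕ) (e : ℤ) (G : ℂ → Fin 3 → ℂ) (i : Fin 3) (z : ℂ) :
    Pc d e G i z = ∑ j, Einv d e z i j * G z j := by
  simp [Pc, Matrix.mulVec, dotProduct]

theorem PS1_Pc_diff (d : ℕ) (e : ℤ) (G : ℂ → Fin 3 → ℂ) (s : Set ℂ)
    (h : ∀ j, DifferentiableOn ℂ (fun z => G z j) s) (i : Fin 3) :
    DifferentiableOn ℂ (Pc d e G i) s := by
  have h1 : DifferentiableOn ℂ (fun z => ∑ j, Einv d e z i j * G z j) s := by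
    refine DifferentiableOn.fun_sum ?_
    intro j _
    exact ((Einv_diff d e i j).differentiableOn).mul (h j)
  refine h1.congr ?_
  intro z _
  exact PS1_Pc_eq d e G i z

theorem PS1_thi_th (d : ℕ) : thi d * th d = 1 := by
  rw [thi, th, ← Complex.exp_add]
  simp

theorem PS1_thi_cube (d : ℕ) : thi d ^ 3 = cc d := by
  rw [thi, cc, ← Complex.exp_nat_mul]
  congr 1
  push_cast
  ring

theorem PS1_BT (d : ℕ) (e : ℤ) : thi d • AT d e = BT d e := by
  have h1 := PS1_thi_th d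
  have h3 := PS1_thi_cube d
  ext i j
  fin_cases i <;> fin_cases j <;>
    simp [AT, BT, lam, h1, ← h3] <;>
    first
    | ring1
    | linear_combination ((e : ℂ)) * h1

theorem PS1_KG_T (hρ : IsRep d e ρ C0 a0) (n : ℕ) (hn : a0 + 8 ≤ 12 * n) {t z : ℂ}
    (ht : t ∈ H) (hz : z ∈ H) (x : Fin 3 → ℂ) :
    KG d ρ n z x (t + 1) = BT d e *ᵥ KG d ρ n z x t := by
  have h1 := KK_equiv hρ n hn ht hz ModularGroup.T
  rw [mob_T, hρ.T] at h1
  rw [KG, KG, h1, et_T_pow d ht, ← PS1_BT, ← Matrix.mulVec_mulVec, Matrix.smul_mulVec,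
    Matrix.mulVec_smul, smul_smul]

theorem PS1_KG_hol (hρ : IsRep d e ρ C0 a0) (n : ℕ) (hn : a0 + 8 ≤ 12 * n) {z : ℂ}
    (hz : z ∈ H) (x : Fin 3 → ℂ) (j : Fin 3) :
    DifferentiableOn ℂ (fun t => KG d ρ n z x t j) {t | max z.im (1 / z.im) < t.im} := by
  have hz' : 0 < z.im := hz
  have hsub : {t : ℂ | max z.im (1 / z.im) < t.im} ⊆
      {t | t ∈ H ∧ ∀ g : SL(2, ℤ), mob g t ≠ z} := by
    intro t ht
    have ht' : max z.im (1 / z.im) < t.im := ht
    have h1 : z.im < t.im := lt_of_le_of_lt (le_max_left _ _) ht'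
    have h2 : 1 / z.im < t.im := lt_of_le_of_lt (le_max_right _ _) ht'
    have h3 : t ∈ H := lt_trans hz' h1
    exact ⟨h3, fun g => orbit_high h3 hz h1 h2 g⟩
  have hsubH : {t : ℂ | max z.im (1 / z.im) < t.im} ⊆ H := fun t ht => (hsub ht).1
  have h1 : DifferentiableOn ℂ (fun t => et t ^ d * ∑ k, KK ρ n t z j k * x k)
      {t | max z.im (1 / z.im) < t.im} := by
    refine ((et_diffOn.mono hsubH).pow d).mul ?_
    refine DifferentiableOn.fun_sum ?_
    intro k _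
    exact ((KK_hol_t hρ n hn j k hz).mono hsub).mul_const (x k)
  refine h1.congr ?_
  intro t _
  simp [KG, Matrix.mulVec, dotProduct]

/-- the functional on `Hom` does not depend on the height -/
theorem Lxi_Hom (he : e = 1 ∨ e = -1) (n : ℕ) (ξ : ℕ → Fin 3 → ℂ) (G : ℂ → Fin 3 → ℂ)
    (hG : Hom d e n G) (Y : ℝ) (hY : 0 < Y) : Lxi d e n ξ G Y = Lxi d e n ξ G 2 := by
  rw [Lxi, Lxi]
  refine Finset.sum_congr rfl fun m _ => Finset.sum_congr rfl fun i _ => ?_
  congr 1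
  refine cf_indep (Pc d e G i) 0 ?_ ?_ _ Y 2 hY (by norm_num)
  · exact PS1_Pc_diff d e G _ hG.hol i
  · intro z hz
    exact Pc_T d e he G z (hG.T z hz) i

/-- the functional on a column of the kernel does not depend on the height above the poles -/
theorem Lxi_KG (he : e = 1 ∨ e = -1) (hρ : IsRep d e ρ C0 a0) (n : ℕ) (hn : a0 + 20 ≤ 12 * n)
    (ξ : ℕ → Fin 3 → ℂ) {z : ℂ} (hz : z ∈ H) (x : Fin 3 → ℂ) (Y : ℝ) (h1 : z.im < Y)
    (h2 : 1 / z.im < Y) :
    Lxi d e n ξ (KG d ρ n z x) Y = Lxi d e n ξ (KG d ρ n z x) (mu z + 1) := by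
  have hz' : 0 < z.im := hz
  have hn8 : a0 + 8 ≤ 12 * n := by omega
  have hmu : max z.im (1 / z.im) < mu z + 1 := by
    have h3 := im_le_mu hz
    have h4 := inv_mu_le_im hz
    have h5 := mu_ge_two hz
    have h6 : 1 / z.im ≤ mu z := by
      rw [one_div]
      exact inv_le_of_inv_le₀ (by linarith) h4
    have h7 : max z.im (1 / z.im) ≤ mu z := max_le h3 h6
    linarith
  rw [Lxi, Lxi]
  refine Finset.sum_congr rfl fun m _ => Finset.sum_congr rfl fun i _ => ?_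
  congr 1
  refine cf_indep (Pc d e (KG d ρ n z x) i) (max z.im (1 / z.im)) ?_ ?_ _ Y _
    (max_lt h1 h2) hmu
  · exact PS1_Pc_diff d e _ _ (fun j => PS1_KG_hol hρ n hn8 hz x j) i
  · intro t ht
    have ht' : t ∈ H := lt_trans hz' (lt_of_le_of_lt (le_max_left _ _) ht)
    exact Pc_T d e he _ t (PS1_KG_T hρ n hn8 ht' hz x) i

theorem PS1_KG_lin (ρ : SL(2, ℤ) →* Matrix (Fin 3) (Fin 3) ℂ) (d : ℕ) (e : ℤ) (n : ℕ) (z : ℂ)
    (x : Fin 3 → ℂ) (i : Fin 3) (t : ℂ) :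
    Pc d e (KG d ρ n z x) i t = ∑ j, x j * Pc d e (KG d ρ n z (Pi.single j 1)) i t := by
  simp only [PS1_Pc_eq, KG, Matrix.mulVec_single_one]
  simp only [Pi.smul_apply, smul_eq_mul, Matrix.mulVec, dotProduct, Matrix.col_apply,
    Finset.mul_sum]
  rw [Finset.sum_comm]
  refine Finset.sum_congr rfl fun j _ => Finset.sum_congr rfl fun k _ => ?_
  ring

theorem PS1_int (f : ℂ → ℂ) (Y0 Y : ℝ) (hf : DifferentiableOn ℂ f {z | Y0 < z.im})
    (hY : Y0 < Y) (m : ℤ) :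
    Continuous fun X : ℝ => f (X + Y * I) * cexp (-(2 * π * I * m * (X + Y * I))) := by
  have h1 : Continuous fun X : ℝ => ((X : ℂ) + Y * I) := by fun_prop
  have h2 : Continuous fun X : ℝ => f ((X : ℂ) + Y * I) := by
    refine hf.continuousOn.comp_continuous h1 ?_
    intro X
    simpa using hY
  refine h2.mul ?_
  fun_prop

theorem Lxi_lin (hρ : IsRep d e ρ C0 a0) (he : e = 1 ∨ e = -1) (n : ℕ) (hn : a0 + 20 ≤ 12 * n)
    (ξ : ℕ → Fin 3 → ℂ) {z : ℂ} (hz : z ∈ H) (x : Fin 3 → ℂ) (Y : ℝ) (h1 : z.im < Y)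
    (h2 : 1 / z.im < Y) :
    Lxi d e n ξ (KG d ρ n z x) Y = ∑ j, x j * Lxi d e n ξ (KG d ρ n z (Pi.single j 1)) Y := by
  have hn8 : a0 + 8 ≤ 12 * n := by omega
  have hcf : ∀ (i : Fin 3) (m : ℤ), cf (Pc d e (KG d ρ n z x) i) m Y =
      ∑ j, x j * cf (Pc d e (KG d ρ n z (Pi.single j 1)) i) m Y := by
    intro i m
    have h3 : ∀ j : Fin 3, Continuous fun X : ℝ =>
        x j * (Pc d e (KG d ρ n z (Pi.single j 1)) i (X + Y * I) *
          cexp (-(2 * π * I * m * (X + Y * I)))) := by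
      intro j
      refine continuous_const.mul ?_
      exact PS1_int _ (max z.im (1 / z.im)) Y
        (PS1_Pc_diff d e _ _ (fun k => PS1_KG_hol hρ n hn8 hz _ k) i) (max_lt h1 h2) m
    rw [cf]
    have h4 : (fun X : ℝ => Pc d e (KG d ρ n z x) i (X + Y * I) *
        cexp (-(2 * π * I * m * (X + Y * I)))) = fun X : ℝ =>
        ∑ j, x j * (Pc d e (KG d ρ n z (Pi.single j 1)) i (X + Y * I) *
          cexp (-(2 * π * I * m * (X + Y * I)))) := by
      funext X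
      rw [PS1_KG_lin ρ d e n z x i, Finset.sum_mul]
      refine Finset.sum_congr rfl fun j _ => ?_
      ring
    rw [h4, intervalIntegral.integral_finsetSum
      (fun j _ => (h3 j).intervalIntegrable _ _)]
    refine Finset.sum_congr rfl fun j _ => ?_
    rw [intervalIntegral.integral_const_mul, cf]
  simp only [Lxi, hcf, Finset.mul_sum]
  calc ∑ m ∈ Finset.range (n + 1), ∑ i, ∑ j, ξ m i *
        (x j * cf (Pc d e (KG d ρ n z (Pi.single j 1)) i) (-(m : ℤ)) Y)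
      = ∑ m ∈ Finset.range (n + 1), ∑ j, ∑ i, x j *
        (ξ m i * cf (Pc d e (KG d ρ n z (Pi.single j 1)) i) (-(m : ℤ)) Y) := by
        refine Finset.sum_congr rfl fun m _ => ?_
        rw [Finset.sum_comm]
        refine Finset.sum_congr rfl fun j _ => Finset.sum_congr rfl fun i _ => ?_
        ring
    _ = _ := by
        rw [Finset.sum_comm]

end Pool.Agent.K2
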