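import Pool.Agent.Lib_helper98.K2.Defs
import Pool.Agent.Lib_helper98.K2.W.MOB1
import Pool.Agent.Lib_helper98.K2.W.MOB2
import Pool.Agent.Lib_helper98.K2.W.ETA1
import Pool.Agent.Lib_helper98.K2.W.CFI1
import Pool.Agent.Lib_helper98.K2.W.EMAT1
import Pool.Agent.Lib_helper98.K2.W.KER1
import Pool.Agent.Lib_helper98.K2.W.KER2
import Pool.Agent.Lib_helper98.K2.W.KER3

set_option autoImplicit false

namespace Pool.Agent.K2

open Complex Matrix MeasureTheory
open scoped MatrixGroups Real

variable {d : ℕ} {e : ℤ} {ρ : SL(2, ℤ) →* Matrix (Fin 3) (Fin 3) ℂ} {C0 : ℝ} {a0 : ℕ}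

/-- the integral over a compact interval of a jointly continuous function which is holomorphic
in the parameter -/
private theorem PS2_int (U : Set ℂ) (hU : IsOpen U) (F : ℂ → ℝ → ℂ)
    (hc : ContinuousOn (fun p : ℂ × ℝ => F p.1 p.2) (U ×ˢ Set.Icc (0 : ℝ) 1))
    (hd : ∀ X ∈ Set.Icc (0 : ℝ) 1, DifferentiableOn ℂ (fun z => F z X) U) :
    DifferentiableOn ℂ (fun z => ∫ X in (0 : ℝ)..1, F z X) U := by
  intro z0 hz0
  obtain ⟨R, hR, hRU⟩ := Metric.nhds_basis_closedBall.mem_iff.1 (hU.mem_nhds hz0)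
  have hcz : ∀ z ∈ U, ContinuousOn (fun X : ℝ => F z X) (Set.Icc (0 : ℝ) 1) := by
    intro z hz
    have h1 : ContinuousOn (fun X : ℝ => ((z, X) : ℂ × ℝ)) (Set.Icc (0 : ℝ) 1) := by fun_prop
    exact hc.comp h1 fun X hX => Set.mk_mem_prod hz hX
  have hK : IsCompact (Metric.closedBall z0 R ×ˢ Set.Icc (0 : ℝ) 1) :=
    (isCompact_closedBall z0 R).prod isCompact_Icc
  obtain ⟨M, hM⟩ := hK.exists_bound_of_continuousOn
    (hc.mono (Set.prod_mono hRU (Set.Subset.refl _)))
  have hr : 0 < R / 2 := by positivity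
  have hballU : Metric.ball z0 (R / 2) ⊆ U := fun z hz =>
    hRU (Metric.ball_subset_closedBall (Metric.ball_subset_ball (by linarith) hz))
  have hIoc : Set.uIoc (0 : ℝ) 1 ⊆ Set.Icc (0 : ℝ) 1 := by
    rw [Set.uIoc_of_le zero_le_one]
    exact Set.Ioc_subset_Icc_self
  have hmeas : ∀ z ∈ U, AEStronglyMeasurable (fun X : ℝ => F z X)
      (volume.restrict (Set.uIoc (0 : ℝ) 1)) := fun z hz =>
    ((hcz z hz).mono hIoc).aestronglyMeasurable measurableSet_uIoc
  have hder : ∀ X ∈ Set.Icc (0 : ℝ) 1, ∀ z ∈ U,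
      HasDerivAt (fun w => F w X) (deriv (fun w => F w X) z) z := fun X hX z hz =>
    ((hd X hX).differentiableAt (hU.mem_nhds hz)).hasDerivAt
  have key := intervalIntegral.hasDerivAt_integral_of_dominated_loc_of_deriv_le
    (μ := volume) (a := (0 : ℝ)) (b := 1) (F := F)
    (F' := fun z X => deriv (fun w => F w X) z) (x₀ := z0) (s := Metric.ball z0 (R / 2))
    (bound := fun _ => M / (R / 2)) (Metric.ball_mem_nhds z0 hr)
    (by
      filter_upwards [hU.mem_nhds hz0] with z hz using hmeas z hz)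
    (by
      have := hcz z0 hz0
      rw [← Set.uIcc_of_le (zero_le_one (α := ℝ))] at this
      exact this.intervalIntegrable)
    (by
      -- measurability of the derivative: limit of difference quotients
      have hseq : Filter.Tendsto (fun n : ℕ => z0 + ((1 / ((n : ℝ) + 1) : ℝ) : ℂ))
          Filter.atTop (nhds z0) := by
        have h1 : Filter.Tendsto (fun n : ℕ => ((1 / ((n : ℝ) + 1) : ℝ) : ℂ))
            Filter.atTop (nhds ((0 : ℝ) : ℂ)) :=
          (Complex.continuous_ofReal.tendsto 0).comp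
            tendsto_one_div_add_atTop_nhds_zero_nat
        have h2 := h1.const_add z0
        simpa using h2
      have hev : ∀ᶠ n : ℕ in Filter.atTop, z0 + ((1 / ((n : ℝ) + 1) : ℝ) : ℂ) ∈ U :=
        hseq.eventually (hU.mem_nhds hz0)
      obtain ⟨N, hN⟩ := Filter.eventually_atTop.1 hev
      have hne : ∀ n : ℕ, z0 + ((1 / ((n : ℝ) + 1) : ℝ) : ℂ) ≠ z0 := by
        intro n h
        have h1 : ((1 / ((n : ℝ) + 1) : ℝ) : ℂ) = 0 := by
          linear_combination h
        rw [Complex.ofReal_eq_zero] at h1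
        have : (0 : ℝ) < 1 / ((n : ℝ) + 1) := by positivity
        exact this.ne' h1
      refine aestronglyMeasurable_of_tendsto_ae (u := Filter.atTop)
        (f := fun (n : ℕ) (X : ℝ) =>
          slope (fun w => F w X) z0 (z0 + ((1 / (((n + N : ℕ) : ℝ) + 1) : ℝ) : ℂ))) ?_ ?_
      · intro n
        have hz := hN (n + N) (Nat.le_add_left _ _)
        have h1 := ((hmeas _ hz).sub (hmeas z0 hz0)).const_smul
          ((z0 + ((1 / (((n + N : ℕ) : ℝ) + 1) : ℝ) : ℂ) - z0)⁻¹)
        refine h1.congr (Filter.Eventually.of_forall fun X => ?_)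
        simp only [slope, vsub_eq_sub, Pi.smul_apply, Pi.sub_apply]
      · refine (ae_restrict_iff' measurableSet_uIoc).2 (Filter.Eventually.of_forall fun X hX => ?_)
        have h1 := (hasDerivAt_iff_tendsto_slope.1 (hder X (hIoc hX) z0 hz0))
        refine h1.comp ?_
        refine tendsto_nhdsWithin_iff.2 ⟨?_, Filter.Eventually.of_forall fun n => hne (n + N)⟩
        exact (Filter.tendsto_add_atTop_iff_nat (f := fun n : ℕ =>
          z0 + ((1 / ((n : ℝ) + 1) : ℝ) : ℂ)) N).2 hseq)
    (by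
      refine Filter.Eventually.of_forall fun X hX z hz => ?_
      have hXI := hIoc hX
      refine Complex.norm_deriv_le_of_forall_mem_sphere_norm_le hr ?_ ?_
      · refine DifferentiableOn.diffContOnCl ?_
        rw [closure_ball z hr.ne']
        refine (hd X hXI).mono fun w hw => hRU ?_
        rw [Metric.mem_closedBall] at hw ⊢
        rw [Metric.mem_ball] at hz
        calc dist w z0 ≤ dist w z + dist z z0 := dist_triangle _ _ _
          _ ≤ R := by linarith
      · intro w hw
        have hwK : w ∈ Metric.closedBall z0 R := by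
          rw [Metric.mem_sphere] at hw
          rw [Metric.mem_ball] at hz
          rw [Metric.mem_closedBall]
          calc dist w z0 ≤ dist w z + dist z z0 := dist_triangle _ _ _
            _ ≤ R := by linarith
        exact hM (w, X) (Set.mk_mem_prod hwK hXI))
    intervalIntegrable_const
    (by
      refine Filter.Eventually.of_forall fun X hX z hz => ?_
      exact hder X (hIoc hX) z (hballU hz))
  exact key.2.differentiableAt.differentiableWithinAt

/-- holomorphy in `z` -/
theorem Lxi_hol (hρ : IsRep d e ρ C0 a0) (he : e = 1 ∨ e = -1) (n : ℕ) (hn : a0 + 20 ≤ 12 * n)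
    (ξ : ℕ → Fin 3 → ℂ) (j : Fin 3) (Y : ℝ) :
    DifferentiableOn ℂ (fun z => Lxi d e n ξ (KG d ρ n z (Pi.single j 1)) Y)
      {z | 0 < z.im ∧ z.im < Y ∧ 1 / z.im < Y} := by
  have hn8 : a0 + 8 ≤ 12 * n := by omega
  set U : Set ℂ := {z | 0 < z.im ∧ z.im < Y ∧ 1 / z.im < Y} with hUdef
  have hUo : IsOpen U := by
    have h1 : IsOpen {z : ℂ | 0 < z.im} := isOpen_lt continuous_const Complex.continuous_im
    have h2 : IsOpen {z : ℂ | z.im < Y} := isOpen_lt Complex.continuous_im continuous_const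
    have h3 : U = {z : ℂ | 0 < z.im} ∩ {z : ℂ | z.im < Y} ∩ {z : ℂ | 1 < Y * z.im} := by
      ext z
      simp only [hUdef, Set.mem_ofPred_eq, Set.mem_inter_iff]
      constructor
      · rintro ⟨a, b, c⟩
        exact ⟨⟨a, b⟩, (div_lt_iff₀ a).1 c⟩
      · rintro ⟨⟨a, b⟩, c⟩
        exact ⟨a, b, (div_lt_iff₀ a).2 c⟩
    rw [h3]
    exact (h1.inter h2).inter
      (isOpen_lt continuous_const (continuous_const.mul Complex.continuous_im))
  have him : ∀ X : ℝ, ((X : ℂ) + Y * I).im = Y := by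
    intro X
    simp
  have hgood : ∀ z ∈ U, ∀ X : ℝ, ((X : ℂ) + Y * I) ∈ H ∧ z ∈ H ∧
      ∀ g : SL(2, ℤ), mob g ((X : ℂ) + Y * I) ≠ z := by
    intro z hz X
    have hzH : z ∈ H := hz.1
    have hY : 0 < Y := hz.1.trans hz.2.1
    have htH : ((X : ℂ) + Y * I) ∈ H := by
      change 0 < ((X : ℂ) + Y * I).im
      rw [him X]
      exact hY
    refine ⟨htH, hzH, fun g => orbit_high htH hzH ?_ ?_ g⟩
    · rw [him X]
      exact hz.2.1
    · rw [him X]
      exact hz.2.2
  have hcf : ∀ (m : ℤ) (i : Fin 3), DifferentiableOn ℂ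
      (fun z => cf (Pc d e (KG d ρ n z (Pi.single j 1)) i) m Y) U := by
    intro m i
    have hexp : Continuous (fun t : ℂ => cexp (-(2 * π * I * m * t))) :=
      Complex.continuous_exp.comp ((continuous_const.mul continuous_id).neg)
    have hval : ∀ (z : ℂ) (X : ℝ),
        Pc d e (KG d ρ n z (Pi.single j 1)) i ((X : ℂ) + Y * I) =
        ∑ k, Einv d e ((X : ℂ) + Y * I) i k *
          (et ((X : ℂ) + Y * I) ^ d * KK ρ n ((X : ℂ) + Y * I) z k j) := by
      intro z X
      unfold Pc KG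
      simp only [Matrix.mulVec, dotProduct, Pi.smul_apply, smul_eq_mul]
      refine Finset.sum_congr rfl fun k _ => ?_
      congr 2
      rw [Finset.sum_eq_single j]
      · rw [Pi.single_eq_same, mul_one]
      · intro b _ hb
        rw [Pi.single_eq_of_ne hb, mul_zero]
      · intro h
        exact absurd (Finset.mem_univ j) h
    unfold cf
    simp only [hval]
    refine PS2_int U hUo (fun z X => (∑ k, Einv d e ((X : ℂ) + Y * I) i k *
          (et ((X : ℂ) + Y * I) ^ d * KK ρ n ((X : ℂ) + Y * I) z k j)) *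
          cexp (-(2 * π * I * m * ((X : ℂ) + Y * I)))) ?_ ?_
    · have ht : ContinuousOn (fun p : ℂ × ℝ => ((p.2 : ℂ) + Y * I)) (U ×ˢ Set.Icc (0 : ℝ) 1) := by
        fun_prop
      have htH : Set.MapsTo (fun p : ℂ × ℝ => ((p.2 : ℂ) + Y * I)) (U ×ˢ Set.Icc (0 : ℝ) 1) H :=
        fun p hp => (hgood p.1 hp.1 p.2).1
      have hKK : ∀ k : Fin 3, ContinuousOn (fun p : ℂ × ℝ => KK ρ n ((p.2 : ℂ) + Y * I) p.1 k j)
          (U ×ˢ Set.Icc (0 : ℝ) 1) := by
        intro k
        have hpair : ContinuousOn (fun p : ℂ × ℝ => (((p.2 : ℂ) + Y * I, p.1) : ℂ × ℂ))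
            (U ×ˢ Set.Icc (0 : ℝ) 1) := ht.prodMk continuousOn_fst
        have hm : Set.MapsTo (fun p : ℂ × ℝ => (((p.2 : ℂ) + Y * I, p.1) : ℂ × ℂ))
            (U ×ˢ Set.Icc (0 : ℝ) 1)
            {p | p.1 ∈ H ∧ p.2 ∈ H ∧ ∀ g : SL(2, ℤ), mob g p.1 ≠ p.2} :=
          fun p hp => hgood p.1 hp.1 p.2
        have h := (KK_cont hρ n hn8 k j).comp hpair hm
        exact h
      have hE : ∀ k : Fin 3, ContinuousOn (fun p : ℂ × ℝ => Einv d e ((p.2 : ℂ) + Y * I) i k)
          (U ×ˢ Set.Icc (0 : ℝ) 1) := by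
        intro k
        have h := (Einv_diff d e i k).continuous.comp_continuousOn ht
        exact h
      have hEt : ContinuousOn (fun p : ℂ × ℝ => et ((p.2 : ℂ) + Y * I) ^ d)
          (U ×ˢ Set.Icc (0 : ℝ) 1) := by
        have h := (et_diffOn.continuousOn.comp ht htH).pow d
        exact h
      have hX : ContinuousOn (fun p : ℂ × ℝ => cexp (-(2 * π * I * m * ((p.2 : ℂ) + Y * I))))
          (U ×ˢ Set.Icc (0 : ℝ) 1) := by
        have h := hexp.comp_continuousOn ht
        exact h
      have hS := continuousOn_finsetSum (Finset.univ : Finset (Fin 3))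
        (fun k _ => (hE k).mul (hEt.mul (hKK k)))
      exact hS.mul hX
    · intro X _
      refine DifferentiableOn.mul_const ?_ _
      refine DifferentiableOn.fun_sum fun k _ => ?_
      refine DifferentiableOn.const_mul ?_ _
      refine DifferentiableOn.const_mul ?_ _
      intro z hz
      have hg := hgood z hz X
      refine ((KK_hol_z hρ n hn8 k j hg.1) z ⟨hg.2.1, hg.2.2⟩).mono fun w hw => ?_
      have hg' := hgood w hw X
      exact ⟨hg'.2.1, hg'.2.2⟩
  unfold Lxi
  refine DifferentiableOn.fun_sum fun m _ => ?_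
  refine DifferentiableOn.fun_sum fun i _ => ?_
  exact (hcf _ i).const_mul _

end Pool.Agent.K2
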