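import Pool.Agent.Lib_helper98.K2.Defs
import Pool.Agent.Lib_helper98.K2.W.CFI1

set_option autoImplicit false

namespace Pool.Agent.K2

open Complex Matrix MeasureTheory
open scoped MatrixGroups Real

/-- the model function with a simple pole with residue 1 at `z0 + ℤ` -/
noncomputable def CFI2_h (z0 z : ℂ) : ℂ := 2 * π * I / (cexp (2 * π * I * (z - z0)) - 1)

theorem CFI2_h_per (z0 z : ℂ) : CFI2_h z0 (z + 1) = CFI2_h z0 z := by
  unfold CFI2_h
  have : (2 * π * I * (z + 1 - z0) : ℂ) = 2 * π * I * (z - z0) + 2 * π * I := by ring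
  rw [this, Complex.exp_periodic]

theorem CFI2_ne {z0 z : ℂ} (h : ∀ k : ℤ, z ≠ z0 + k) : cexp (2 * π * I * (z - z0)) - 1 ≠ 0 := by
  intro h1
  have h2 : cexp (2 * π * I * (z - z0)) = 1 := by linear_combination h1
  rw [Complex.exp_eq_one_iff] at h2
  obtain ⟨k, hk⟩ := h2
  apply h k
  have h3 : (2 * π * I : ℂ) ≠ 0 := Complex.two_pi_I_ne_zero
  have h4 : (2 * π * I : ℂ) * (z - z0) = 2 * π * I * k := by rw [hk]; ring
  have := mul_left_cancel₀ h3 h4
  linear_combination this

theorem CFI2_h_diff {z0 z : ℂ} (h : ∀ k : ℤ, z ≠ z0 + k) : DifferentiableAt ℂ (CFI2_h z0) z := by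
  unfold CFI2_h
  exact DifferentiableAt.div (by fun_prop) (by fun_prop) (CFI2_ne h)

theorem CFI2_h_res (z0 : ℂ) : Filter.Tendsto (fun z => (z - z0) * CFI2_h z0 z)
    (nhdsWithin z0 {z0}ᶜ) (nhds 1) := by
  have h1 : HasDerivAt (fun z => cexp (2 * π * I * (z - z0))) (2 * π * I) z0 := by
    have h2 : HasDerivAt (fun z : ℂ => 2 * π * I * (z - z0)) (2 * π * I * 1) z0 :=
      ((hasDerivAt_id z0).sub_const z0).const_mul _
    have h3 := h2.cexp
    simpa using h3
  rw [hasDerivAt_iff_tendsto_slope] at h1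
  have h4 : Filter.Tendsto (fun z => (2 * π * I) / slope (fun z => cexp (2 * π * I * (z - z0))) z0 z)
      (nhdsWithin z0 {z0}ᶜ) (nhds ((2 * π * I) / (2 * π * I))) :=
    tendsto_const_nhds.div h1 Complex.two_pi_I_ne_zero
  rw [div_self Complex.two_pi_I_ne_zero] at h4
  refine h4.congr' ?_
  filter_upwards [self_mem_nhdsWithin] with z hz
  have hz' : z - z0 ≠ 0 := sub_ne_zero.2 hz
  rw [slope_def_field, CFI2_h]
  simp only [sub_self, mul_zero, Complex.exp_zero]
  rw [div_div_eq_mul_div]
  ring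

/-- integral of the model function above the pole -/
theorem CFI2_above {z0 : ℂ} {Y : ℝ} (hY : z0.im < Y) :
    ∫ X in (0 : ℝ)..1, CFI2_h z0 (X + Y * I) = -(2 * π * I) := by
  set q : ℝ → ℂ := fun X => cexp (2 * π * I * (X + Y * I - z0)) with hq
  have hqn : ∀ X, ‖q X‖ < 1 := by
    intro X
    rw [hq]
    simp only [Complex.norm_exp]
    rw [Real.exp_lt_one_iff]
    simp
    nlinarith [Real.pi_pos]
  have hslit : ∀ X, 1 - q X ∈ Complex.slitPlane := by
    intro X
    left
    have h1 := hqn X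
    have h2 := Complex.re_le_norm (q X)
    simp only [sub_re, one_re]
    linarith
  have hder : ∀ X : ℝ, HasDerivAt (fun X : ℝ => Complex.log (1 - q X) - 2 * π * I * X)
      (CFI2_h z0 (X + Y * I)) X := by
    intro X
    have h1 : HasDerivAt (fun X : ℝ => (2 * π * I * (X + Y * I - z0) : ℂ)) (2 * π * I * 1) X := by
      have h0 : HasDerivAt (fun X : ℝ => (X : ℂ)) 1 X := Complex.ofRealCLM.hasDerivAt
      exact ((h0.add_const _).sub_const z0).const_mul _
    have h2 : HasDerivAt q (q X * (2 * π * I * 1)) X := h1.cexp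
    have h3 : HasDerivAt (fun X : ℝ => 1 - q X) (-(q X * (2 * π * I * 1))) X :=
      h2.const_sub 1
    have h4 := h3.clog_real (hslit X)
    have h5 : HasDerivAt (fun X : ℝ => (2 * π * I * X : ℂ)) (2 * π * I * 1) X := by
      have h0 : HasDerivAt (fun X : ℝ => (X : ℂ)) 1 X := Complex.ofRealCLM.hasDerivAt
      exact h0.const_mul _
    have h6 := h4.sub h5
    have hne : 1 - q X ≠ 0 := Complex.slitPlane_ne_zero (hslit X)
    have hne' : q X - 1 ≠ 0 := by
      intro h
      apply hne
      linear_combination -h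
    have heq : CFI2_h z0 (X + Y * I) =
        -(q X * (2 * π * I * 1)) / (1 - q X) - 2 * π * I * 1 := by
      show 2 * π * I / (q X - 1) = _
      have h7 : 1 - q X = -(q X - 1) := by ring
      rw [h7]
      field_simp
      ring
    rw [heq]
    exact h6
  rw [intervalIntegral.integral_eq_sub_of_hasDerivAt (fun X _ => hder X)]
  · have h1 : q 1 = q 0 := by
      simp only [hq]
      have : (2 * π * I * (((1 : ℝ) : ℂ) + Y * I - z0) : ℂ) =
          2 * π * I * (((0 : ℝ) : ℂ) + Y * I - z0) + 2 * π * I := by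
        push_cast
        ring
      rw [this, Complex.exp_periodic]
    rw [h1]
    push_cast
    ring
  · apply Continuous.intervalIntegrable
    have h7 : Continuous fun X : ℝ => (2 * π * I : ℂ) / (q X - 1) := by
      refine Continuous.div continuous_const (by fun_prop) fun X h => ?_
      have hne : 1 - q X ≠ 0 := Complex.slitPlane_ne_zero (hslit X)
      apply hne
      linear_combination -h
    exact h7

/-- integral of the model function below the pole -/
theorem CFI2_below {z0 : ℂ} {Y : ℝ} (hY : Y < z0.im) :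
    ∫ X in (0 : ℝ)..1, CFI2_h z0 (X + Y * I) = 0 := by
  set q : ℝ → ℂ := fun X => cexp (-(2 * π * I * (X + Y * I - z0))) with hq
  have hqn : ∀ X, ‖q X‖ < 1 := by
    intro X
    rw [hq]
    simp only [Complex.norm_exp]
    rw [Real.exp_lt_one_iff]
    simp
    nlinarith [Real.pi_pos]
  have hslit : ∀ X, 1 - q X ∈ Complex.slitPlane := by
    intro X
    left
    have h1 := hqn X
    have h2 := Complex.re_le_norm (q X)
    simp only [sub_re, one_re]
    linarith
  have hval : ∀ X : ℝ, CFI2_h z0 (X + Y * I) = 2 * π * I * q X / (1 - q X) := by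
    intro X
    have hne : 1 - q X ≠ 0 := Complex.slitPlane_ne_zero (hslit X)
    have hq0 : q X ≠ 0 := Complex.exp_ne_zero _
    have h1 : cexp (2 * π * I * (X + Y * I - z0)) = (q X)⁻¹ := by
      simp only [hq]
      rw [Complex.exp_neg, inv_inv]
    rw [CFI2_h, h1]
    have h2 : (q X)⁻¹ - 1 = (1 - q X) / q X := by
      field_simp
    rw [h2, div_div_eq_mul_div]
  have hder : ∀ X : ℝ, HasDerivAt (fun X : ℝ => Complex.log (1 - q X))
      (CFI2_h z0 (X + Y * I)) X := by
    intro X
    have h1 : HasDerivAt (fun X : ℝ => (-(2 * π * I * (X + Y * I - z0)) : ℂ))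
        (-(2 * π * I * 1)) X := by
      have h0 : HasDerivAt (fun X : ℝ => (X : ℂ)) 1 X := Complex.ofRealCLM.hasDerivAt
      exact (((h0.add_const _).sub_const z0).const_mul _).neg
    have h2 : HasDerivAt q (q X * (-(2 * π * I * 1))) X := h1.cexp
    have h3 : HasDerivAt (fun X : ℝ => 1 - q X) (-(q X * (-(2 * π * I * 1)))) X :=
      h2.const_sub 1
    have h4 := h3.clog_real (hslit X)
    have heq : CFI2_h z0 (X + Y * I) = -(q X * (-(2 * π * I * 1))) / (1 - q X) := by
      rw [hval]
      ring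
    rw [heq]
    exact h4
  rw [intervalIntegral.integral_eq_sub_of_hasDerivAt (fun X _ => hder X)]
  · have h1 : q 1 = q 0 := by
      simp only [hq]
      have : (-(2 * π * I * (((0 : ℝ) : ℂ) + Y * I - z0)) : ℂ) =
          -(2 * π * I * (((1 : ℝ) : ℂ) + Y * I - z0)) + 2 * π * I := by
        push_cast
        ring
      rw [this, Complex.exp_periodic]
    rw [h1]
    ring
  · apply Continuous.intervalIntegrable
    have h7 : Continuous fun X : ℝ => (2 * π * I * q X : ℂ) / (1 - q X) := by
      refine Continuous.div (by fun_prop) (by fun_prop) fun X h => ?_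
      exact Complex.slitPlane_ne_zero (hslit X) h
    exact h7.congr fun X => (hval X).symm

/-- crossing a simple pole at `z0 + ℤ` -/
theorem cf_residue (f : ℂ → ℂ) (Y0 : ℝ) (z0 R : ℂ)
    (hf : DifferentiableOn ℂ f {z | Y0 < z.im ∧ ∀ k : ℤ, z ≠ z0 + k})
    (hp : ∀ z : ℂ, Y0 < z.im → f (z + 1) = f z)
    (hR : Filter.Tendsto (fun z => (z - z0) * f z) (nhdsWithin z0 {z0}ᶜ) (nhds R))
    (m : ℤ) (Y1 Y2 : ℝ) (h1 : Y0 < Y1) (h2 : Y1 < z0.im) (h3 : z0.im < Y2) :
    cf f m Y1 - cf f m Y2 = 2 * π * I * R * cexp (-(2 * π * I * m * z0)) := by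
  set R' : ℂ := R * cexp (-(2 * π * I * m * z0)) with hR'
  set φ : ℂ → ℂ := fun z => f z * cexp (-(2 * π * I * m * z)) - R' * CFI2_h z0 z with hφ
  have hper : ∀ z : ℂ, Y0 < z.im → φ (z + 1) = φ z := by
    intro z hz
    simp only [hφ]
    rw [hp z hz, CFI2_h_per]
    have h4 : (-(2 * π * I * m * (z + 1)) : ℂ) =
        -(2 * π * I * m * z) + (-m : ℤ) * (2 * π * I) := by
      push_cast
      ring
    rw [h4, Complex.exp_add, Complex.exp_int_mul_two_pi_mul_I, mul_one]
  have hopen : IsOpen {z : ℂ | Y0 < z.im ∧ |z.re - z0.re| < 1} :=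
    (isOpen_lt continuous_const Complex.continuous_im).inter
      (isOpen_lt (Complex.continuous_re.sub continuous_const).abs continuous_const)
  set s : Set ℂ := {z : ℂ | Y0 < z.im ∧ |z.re - z0.re| < 1} with hs
  have hz0s : z0 ∈ s := ⟨by linarith, by simp⟩
  have hnek : ∀ z : ℂ, |z.re - z0.re| < 1 → z ≠ z0 → ∀ k : ℤ, z ≠ z0 + k := by
    intro z hz hne k hk
    have h4 : z.re - z0.re = k := by
      rw [hk]
      simp
    rw [h4] at hz
    have h5 : |k| < 1 := by exact_mod_cast hz
    have h6 : k = 0 := Int.abs_lt_one_iff.1 h5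
    apply hne
    rw [hk, h6]
    simp
  have hpole : IsOpen {z : ℂ | Y0 < z.im ∧ ∀ k : ℤ, z ≠ z0 + k} := by
    have hcl : IsClosed (Set.range fun k : ℤ => z0 + (k : ℂ)) := by
      have h7 : IsClosed (Set.range ((↑) : ℤ → ℂ)) := by
        have := (Complex.isometry_ofReal.isClosedEmbedding.isClosedMap _
          (Int.isClosedEmbedding_coe_real.isClosed_range))
        rw [← Set.range_comp] at this
        convert this using 2
        funext k
        simp
      have h8 := (Homeomorph.addLeft z0).isClosedMap _ h7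
      rw [← Set.range_comp] at h8
      exact h8
    have : {z : ℂ | Y0 < z.im ∧ ∀ k : ℤ, z ≠ z0 + k} =
        {z : ℂ | Y0 < z.im} ∩ (Set.range fun k : ℤ => z0 + (k : ℂ))ᶜ := by
      ext z
      simp only [Set.mem_ofPred_eq, Set.mem_inter_iff, Set.mem_compl_iff, Set.mem_range, not_exists,
        ne_eq]
      constructor
      · rintro ⟨h4, h5⟩
        exact ⟨h4, fun k hk => h5 k hk.symm⟩
      · rintro ⟨h4, h5⟩
        exact ⟨h4, fun k hk => h5 k hk.symm⟩
    rw [this]
    exact (isOpen_lt continuous_const Complex.continuous_im).inter hcl.isOpen_compl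
  have hfat : ∀ z : ℂ, Y0 < z.im → (∀ k : ℤ, z ≠ z0 + k) → DifferentiableAt ℂ f z :=
    fun z hz hk => hf.differentiableAt (hpole.mem_nhds ⟨hz, hk⟩)
  have hφat : ∀ z : ℂ, Y0 < z.im → (∀ k : ℤ, z ≠ z0 + k) → DifferentiableAt ℂ φ z := by
    intro z hz hk
    have h4 := hfat z hz hk
    have h5 := CFI2_h_diff hk
    simp only [hφ]
    exact (h4.mul (by fun_prop)).sub (h5.const_mul _)
  have hlim : Filter.Tendsto (fun z => (z - z0) * φ z) (nhdsWithin z0 {z0}ᶜ) (nhds 0) := by
    have h4 : Filter.Tendsto (fun z => cexp (-(2 * π * I * m * z))) (nhdsWithin z0 {z0}ᶜ)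
        (nhds (cexp (-(2 * π * I * m * z0)))) := by
      apply Filter.Tendsto.mono_left _ nhdsWithin_le_nhds
      exact Continuous.tendsto (by fun_prop) z0
    have h5 := (hR.mul h4).sub ((CFI2_h_res z0).const_mul R')
    rw [← hR', mul_one, sub_self] at h5
    refine h5.congr fun z => ?_
    simp only [hφ]
    ring
  have ho : (fun z => φ z - φ z0) =o[nhdsWithin z0 {z0}ᶜ] fun z => (z - z0)⁻¹ := by
    rw [Asymptotics.isLittleO_iff_tendsto']
    · have h4 : Filter.Tendsto (fun z : ℂ => (z - z0) * φ z0) (nhdsWithin z0 {z0}ᶜ) (nhds 0) := by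
        apply Filter.Tendsto.mono_left _ nhdsWithin_le_nhds
        have : Continuous fun z : ℂ => (z - z0) * φ z0 := by fun_prop
        have h5 := this.tendsto z0
        simpa using h5
      have h5 := hlim.sub h4
      rw [sub_zero] at h5
      refine h5.congr fun z => ?_
      rw [div_inv_eq_mul]
      ring
    · filter_upwards [self_mem_nhdsWithin] with z hz h4
      exact absurd (inv_eq_zero.1 h4) (sub_ne_zero.2 hz)
  have hup : DifferentiableOn ℂ (Function.update φ z0 (Filter.limUnder (nhdsWithin z0 {z0}ᶜ) φ)) s := by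
    refine Complex.differentiableOn_update_limUnder_of_isLittleO (hopen.mem_nhds hz0s) ?_ ho
    intro z hz
    exact (hφat z hz.1.1 (hnek z hz.1.2 hz.2)).differentiableWithinAt
  set ψ := Function.update φ z0 (Filter.limUnder (nhdsWithin z0 {z0}ᶜ) φ) with hψ
  have hψe : ∀ z, z ≠ z0 → ψ z = φ z := fun z hz => Function.update_of_ne hz _ _
  have hrect := Complex.integral_boundary_rect_eq_zero_of_differentiableOn ψ
    (⟨z0.re - 1 / 2, Y1⟩ : ℂ) (⟨z0.re + 1 / 2, Y2⟩ : ℂ) (hup.mono (by
      intro z hz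
      rw [Complex.mem_reProdIm] at hz
      simp only at hz
      rw [Set.uIcc_of_le (by linarith), Set.uIcc_of_le (by linarith)] at hz
      refine ⟨lt_of_lt_of_le h1 hz.2.1, ?_⟩
      rw [abs_lt]
      constructor
      · linarith [hz.1.1]
      · linarith [hz.1.2]))
  simp only at hrect
  have hside : ∀ y : ℝ, y ∈ Set.uIcc Y1 Y2 →
      ψ (((z0.re + 1 / 2 : ℝ) : ℂ) + y * I) = ψ (((z0.re - 1 / 2 : ℝ) : ℂ) + y * I) := by
    intro y hy
    rw [Set.uIcc_of_le (by linarith)] at hy
    have hy0 : Y0 < y := lt_of_lt_of_le h1 hy.1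
    rw [hψe, hψe]
    · have h4 : (((z0.re + 1 / 2 : ℝ) : ℂ) + y * I) = (((z0.re - 1 / 2 : ℝ) : ℂ) + y * I) + 1 := by
        push_cast
        ring
      rw [h4, hper]
      simpa using hy0
    · intro h4
      have := congrArg Complex.re h4
      simp at this
    · intro h4
      have := congrArg Complex.re h4
      simp at this
  rw [intervalIntegral.integral_congr (g := fun y : ℝ => ψ (((z0.re - 1 / 2 : ℝ) : ℂ) + y * I))
    hside] at hrect
  have hline : ∀ Y : ℝ, Y0 < Y → Y ≠ z0.im →
      ∫ x in (z0.re - 1 / 2)..(z0.re + 1 / 2), ψ (x + Y * I) =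
        cf f m Y - R' * ∫ X in (0 : ℝ)..1, CFI2_h z0 (X + Y * I) := by
    intro Y hY hYne
    have hnek' : ∀ x : ℝ, ∀ k : ℤ, (x + Y * I : ℂ) ≠ z0 + k := by
      intro x k h4
      apply hYne
      have := congrArg Complex.im h4
      simpa using this
    have h4 : ∀ x : ℝ, ψ (x + Y * I) = φ (x + Y * I) := by
      intro x
      apply hψe
      have := hnek' x 0
      simpa using this
    have h5 : Function.Periodic (fun x : ℝ => φ (x + Y * I)) 1 := by
      intro x
      have h6 : (((x + 1 : ℝ) : ℂ) + Y * I) = (x + Y * I) + 1 := by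
        push_cast
        ring
      simp only
      rw [h6, hper]
      simpa using hY
    have h6 := h5.intervalIntegral_add_eq (z0.re - 1 / 2) 0
    rw [zero_add, show z0.re - 1 / 2 + 1 = z0.re + 1 / 2 by ring] at h6
    simp only [h4]
    rw [h6]
    have hc1 : Continuous fun x : ℝ => f (x + Y * I) * cexp (-(2 * π * I * m * (x + Y * I))) := by
      rw [continuous_iff_continuousAt]
      intro x
      have h7 : ContinuousAt f (x + Y * I) :=
        (hfat _ (by simpa using hY) (hnek' x)).continuousAt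
      have h8 : ContinuousAt (fun x : ℝ => f (x + Y * I)) x :=
        ContinuousAt.comp (f := fun x : ℝ => (x + Y * I : ℂ)) h7 (by fun_prop)
      exact h8.mul (by fun_prop)
    have hc2 : Continuous fun x : ℝ => CFI2_h z0 (x + Y * I) := by
      rw [continuous_iff_continuousAt]
      intro x
      exact ContinuousAt.comp (f := fun x : ℝ => (x + Y * I : ℂ))
        (CFI2_h_diff (hnek' x)).continuousAt (by fun_prop)
    simp only [hφ]
    rw [intervalIntegral.integral_sub (hc1.intervalIntegrable _ _)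
      ((hc2.const_mul _).intervalIntegrable _ _), intervalIntegral.integral_const_mul]
    rfl
  have hY1 : Y0 < Y1 := h1
  have e1 := hline Y1 h1 h2.ne
  have e2 := hline Y2 (by linarith) h3.ne'
  rw [CFI2_below h2, mul_zero, sub_zero] at e1
  rw [CFI2_above h3] at e2
  have hrect' : (∫ x in (z0.re - 1 / 2)..(z0.re + 1 / 2), ψ (x + Y1 * I)) -
      (∫ x in (z0.re - 1 / 2)..(z0.re + 1 / 2), ψ (x + Y2 * I)) = 0 := by
    linear_combination hrect
  rw [e1, e2] at hrect'
  rw [hR'] at hrect'
  linear_combination hrect'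

end Pool.Agent.K2
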