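import Pool.Agent.Lib_helper98.K2.Defs
import Pool.Agent.Lib_helper98.K2.W.MOB1
import Pool.Agent.Lib_helper98.K2.W.MOB2
import Pool.Agent.Lib_helper98.K2.W.SUMG
import Pool.Agent.Lib_helper98.K2.W.ETA1
import Pool.Agent.Lib_helper98.K2.W.ETA3
import Pool.Agent.Lib_helper98.K2.W.REP
import Pool.Agent.Lib_helper98.K2.W.KER1

set_option autoImplicit false

namespace Pool.Agent.K2

open Complex Matrix MeasureTheory
open scoped MatrixGroups Real

variable {d : ℕ} {e : ℤ} {ρ : SL(2, ℤ) →* Matrix (Fin 3) (Fin 3) ℂ} {C0 : ℝ} {a0 : ℕ}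

/-- `ρ (-1) = 1` -/
theorem KER4_rho_neg (hρ : IsRep d e ρ C0 a0) (he : (e : ℂ) * e = 1) :
    ρ (-1) = 1 := by
  have h : (-1 : SL(2, ℤ)) = ModularGroup.S * ModularGroup.S := by
    ext i j
    fin_cases i <;> fin_cases j <;> simp [ModularGroup.S]
  rw [h, map_mul, hρ.S]
  unfold AS
  ext i j
  fin_cases i <;> fin_cases j <;> simp [Matrix.mul_apply, Fin.sum_univ_three, he]

/-- distance to the other points of the orbit -/
theorem KER4_dist {z t : ℂ} {r : ℝ} (hr : r ≤ 1 / 2) (hr2 : r ≤ (z.im - 1) / 2) (hr0 : 0 < r)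
    (ht : ‖t - z‖ < r) (g : SL(2, ℤ)) (h1 : g ≠ 1) (h2 : g ≠ -1) : r ≤ ‖z - mob g t‖ := by
  have him : |t.im - z.im| < r := by
    have := Complex.abs_im_le_norm (t - z)
    rw [Complex.sub_im] at this
    exact lt_of_le_of_lt this ht
  have him' := abs_lt.mp him
  have ht1 : 1 < t.im := by linarith
  have htH : t ∈ H := by
    show 0 < t.im
    linarith
  by_cases hc : g 1 0 = 0
  · -- `g = ± T^m`
    have hdet := g.det_coe
    rw [Matrix.det_fin_two] at hdet
    have hd : g 0 0 * g 1 1 = 1 := by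
      have : (g.1 0 1) * (g.1 1 0) = 0 := by
        have : g.1 1 0 = 0 := hc
        rw [this, mul_zero]
      linarith
    have hmob : ∃ m : ℤ, m ≠ 0 ∧ mob g t = t + m := by
      rcases Int.mul_eq_one_iff_eq_one_or_neg_one.mp hd with ⟨ha, hd'⟩ | ⟨ha, hd'⟩
      · refine ⟨g 0 1, ?_, ?_⟩
        · intro h0
          apply h1
          ext i j
          fin_cases i <;> fin_cases j
          · exact ha
          · exact h0
          · exact hc
          · exact hd'
        · unfold mob den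
          rw [ha, hd', hc]
          push_cast
          rw [zero_mul, zero_add, div_one, one_mul]
      · refine ⟨-g 0 1, ?_, ?_⟩
        · intro h0
          apply h2
          ext i j
          fin_cases i <;> fin_cases j
          · exact ha
          · have : g 0 1 = 0 := by linarith
            simpa using this
          · simpa using hc
          · exact hd'
        · unfold mob den
          rw [ha, hd', hc]
          push_cast
          rw [zero_mul, zero_add, div_neg, div_one]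
          ring
    obtain ⟨m, hm, hmt⟩ := hmob
    rw [hmt]
    have hm1 : (1 : ℝ) ≤ ‖(m : ℂ)‖ := by
      rw [Complex.norm_intCast]
      exact_mod_cast Int.one_le_abs hm
    have h3 : ‖(m : ℂ)‖ ≤ ‖z - (t + m)‖ + ‖t - z‖ := by
      have : (m : ℂ) = -((z - (t + m)) + (t - z)) := by ring
      calc ‖(m : ℂ)‖ = ‖(z - (t + m)) + (t - z)‖ := by rw [this, norm_neg]; ring_nf
        _ ≤ _ := norm_add_le _ _
    linarith
  · -- `Im (g t) < 1`
    have hden : t.im ≤ ‖den g t‖ := by
      have h3 := Complex.abs_im_le_norm (den g t)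
      have h4 : (den g t).im = (g 1 0 : ℝ) * t.im := by
        unfold den
        simp
      rw [h4, abs_mul, abs_of_pos (show (0 : ℝ) < t.im by linarith)] at h3
      have h5 : (1 : ℝ) ≤ |(g 1 0 : ℝ)| := by exact_mod_cast Int.one_le_abs hc
      nlinarith
    have him2 : (mob g t).im ≤ 1 := by
      rw [mob_im g htH, div_le_one (by nlinarith)]
      nlinarith
    have h3 := Complex.abs_im_le_norm (z - mob g t)
    rw [Complex.sub_im] at h3
    have h4 : z.im - (mob g t).im ≤ |z.im - (mob g t).im| := le_abs_self _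
    linarith

theorem KER4_e (hρ : IsRep d e ρ C0 a0) : (e : ℂ) * e = 1 := by
  have h : ModularGroup.S * ModularGroup.S * (ModularGroup.S * ModularGroup.S) =
      (1 : SL(2, ℤ)) := by
    ext i j
    fin_cases i <;> fin_cases j <;> simp [ModularGroup.S]
  have h2 := congrArg ρ h
  rw [map_mul, map_mul, map_one, hρ.S] at h2
  have h3 := congrFun (congrFun h2 0) 0
  unfold AS at h3
  simp [Matrix.mul_apply, Fin.sum_univ_three] at h3
  have h4 : (e * e) * (e * e) = 1 := by exact_mod_cast h3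
  have h5 : e * e = 1 := by
    rcases Int.mul_eq_one_iff_eq_one_or_neg_one.mp h4 with ⟨h, -⟩ | ⟨h, -⟩
    · exact h
    · have := mul_self_nonneg e
      omega
  exact_mod_cast h5

theorem KER4_ne : (1 : SL(2, ℤ)) ≠ -1 := by
  intro h
  have := congrArg (fun g : SL(2, ℤ) => g 0 0) h
  simp at this

/-- the residue at `t = z`, for `Im z > 1` -/
theorem KK_res (hρ : IsRep d e ρ C0 a0) (n : ℕ) (hn : a0 + 8 ≤ 12 * n) {z : ℂ} (hz : 1 < z.im)
    (i j : Fin 3) :
    Filter.Tendsto (fun t => (t - z) * KK ρ n t z i j) (nhdsWithin z {z}ᶜ)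
      (nhds (-2 * (1 : Matrix (Fin 3) (Fin 3) ℂ) i j)) := by
  classical
  obtain ⟨C, hC⟩ := KK_term_le hρ n hn
  have zH : z ∈ H := by
    show 0 < z.im
    linarith
  have hnh : H ∈ nhds z := isOpen_H.mem_nhds zH
  set r : ℝ := min (1 / 2) ((z.im - 1) / 2) with hr
  have hr0 : 0 < r := lt_min (by norm_num) (by linarith)
  have hr1 : r ≤ 1 / 2 := min_le_left _ _
  have hr2 : r ≤ (z.im - 1) / 2 := min_le_right _ _
  have hneg := KER4_rho_neg hρ (KER4_e hρ)
  set f : ℂ → SL(2, ℤ) → ℂ := fun t g => (psi n (mob g t) z • ρ g⁻¹) i j with hf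
  have hsum : ∀ t ∈ H, Summable (f t) := fun t ht =>
    (Pi.summable.mp (Pi.summable.mp (KK_sum hρ n hn ht zH) i) j)
  have hKK : ∀ t ∈ H, KK ρ n t z i j = ∑' g, f t g := by
    intro t ht
    have h1 := (KK_sum hρ n hn ht zH).hasSum
    exact (Pi.hasSum.mp (Pi.hasSum.mp h1 i) j).tsum_eq.symm
  set s : Finset SL(2, ℤ) := {1, -1} with hs
  set R : ℂ → ℂ := fun t => ∑' g : {g // g ∉ s}, f t g with hR
  have hsplit : ∀ t ∈ H, KK ρ n t z i j = ∑ g ∈ s, f t g + R t := by
    intro t ht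
    rw [hKK t ht, ← (hsum t ht).sum_add_tsum_subtype_compl s]
  have hfs : ∀ t, ∑ g ∈ s, f t g = 2 * (psi n t z * (1 : Matrix (Fin 3) (Fin 3) ℂ) i j) := by
    intro t
    rw [hs, Finset.sum_pair KER4_ne]
    have e1 : f t 1 = psi n t z * (1 : Matrix (Fin 3) (Fin 3) ℂ) i j := by
      rw [hf]
      simp only
      rw [mob_one, inv_one, map_one, Matrix.smul_apply, smul_eq_mul]
    have e2 : f t (-1) = psi n t z * (1 : Matrix (Fin 3) (Fin 3) ℂ) i j := by
      rw [hf]
      simp only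
      rw [mob_neg, mob_one]
      have : (-1 : SL(2, ℤ))⁻¹ = -1 := by
        rw [inv_eq_iff_mul_eq_one]
        simp
      rw [this, hneg, Matrix.smul_apply, smul_eq_mul]
    rw [e1, e2]
    ring
  -- bound of the rest
  have hcmu : ContinuousAt mu z := by
    unfold mu
    refine ContinuousAt.div ?_ Complex.continuous_im.continuousAt zH.ne'
    fun_prop
  have hcDel : ContinuousAt Del z := (Del_diffOn.differentiableAt hnh).continuousAt
  have hcB : ContinuousAt (fun t => (‖Del t‖ ^ n)⁻¹ * mu t ^ (12 * n)) z := by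
    refine ContinuousAt.mul (ContinuousAt.inv₀ (hcDel.norm.pow n) ?_) (hcmu.pow _)
    exact pow_ne_zero _ (norm_ne_zero_iff.mpr (Del_ne zH))
  set B0 : ℝ := (‖Del z‖ ^ n)⁻¹ * mu z ^ (12 * n) + 1 with hB0
  have hev : ∀ᶠ t in nhds z, (‖Del t‖ ^ n)⁻¹ * mu t ^ (12 * n) < B0 :=
    hcB.eventually_lt continuousAt_const (by rw [hB0]; linarith)
  have hCnn : 0 ≤ |C| * ‖Q n z‖ := by positivity
  set S8 : ℝ := ∑' g : SL(2, ℤ), (sz g ^ 8)⁻¹ with hS8
  have hbd : ∀ᶠ t in nhds z, ‖R t‖ ≤ |C| * ‖Q n z‖ * B0 * r⁻¹ * S8 := by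
    filter_upwards [hev, hnh, Metric.ball_mem_nhds z hr0] with t h1 h2 h3
    have h3' : ‖t - z‖ < r := by rwa [Metric.mem_ball, dist_eq_norm] at h3
    have hmu0 : 0 ≤ mu t := le_trans (by norm_num) (mu_ge_two h2)
    have hterm : ∀ g : {g // g ∉ s}, ‖f t g‖ ≤ |C| * ‖Q n z‖ * B0 * r⁻¹ * (sz g.1 ^ 8)⁻¹ := by
      rintro ⟨g, hg⟩
      have hg1 : g ≠ 1 := by
        rintro rfl
        exact hg (by simp [hs])
      have hg2 : g ≠ -1 := by
        rintro rfl
        exact hg (by simp [hs])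
      have hd := KER4_dist hr1 hr2 hr0 h3' g hg1 hg2
      refine (hC g t h2 z zH i j).trans ?_
      have hi : ‖z - mob g t‖⁻¹ ≤ r⁻¹ := inv_anti₀ hr0 hd
      have hsz : 0 ≤ (sz g ^ 8)⁻¹ := by
        have := sz_ge g
        positivity
      have hBnn : 0 ≤ (‖Del t‖ ^ n)⁻¹ * mu t ^ (12 * n) := by positivity
      calc C * ‖Q n z‖ * (‖Del t‖ ^ n)⁻¹ * mu t ^ (12 * n) * (sz g ^ 8)⁻¹ * ‖z - mob g t‖⁻¹
          = C * (‖Q n z‖ * ((‖Del t‖ ^ n)⁻¹ * mu t ^ (12 * n)) * ‖z - mob g t‖⁻¹ *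
              (sz g ^ 8)⁻¹) := by ring
        _ ≤ |C| * (‖Q n z‖ * ((‖Del t‖ ^ n)⁻¹ * mu t ^ (12 * n)) * ‖z - mob g t‖⁻¹ *
              (sz g ^ 8)⁻¹) := by
            refine mul_le_mul_of_nonneg_right (le_abs_self C) ?_
            positivity
        _ ≤ |C| * (‖Q n z‖ * B0 * r⁻¹ * (sz g ^ 8)⁻¹) := by
            refine mul_le_mul_of_nonneg_left ?_ (abs_nonneg C)
            refine mul_le_mul_of_nonneg_right ?_ hsz
            refine mul_le_mul (mul_le_mul_of_nonneg_left h1.le (norm_nonneg _)) hi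
              (by positivity) ?_
            exact mul_nonneg (norm_nonneg _) (hBnn.trans h1.le)
        _ = _ := by ring
    have hsumm : Summable fun g : {g // g ∉ s} =>
        |C| * ‖Q n z‖ * B0 * r⁻¹ * (sz g.1 ^ 8)⁻¹ :=
      (SUMG_blk.subtype _).mul_left _
    refine (tsum_of_norm_bounded hsumm.hasSum hterm).trans ?_
    rw [tsum_mul_left]
    refine mul_le_mul_of_nonneg_left ?_ ?_
    · rw [hS8]
      exact Summable.tsum_subtype_le (fun g : SL(2, ℤ) => (sz g ^ 8)⁻¹) {g | g ∉ s}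
        (fun g => inv_nonneg.mpr (pow_nonneg (zero_le_one.trans (sz_ge g)) 8)) SUMG_blk
    · have hBnn : 0 ≤ (‖Del t‖ ^ n)⁻¹ * mu t ^ (12 * n) := by positivity
      have hB0' : 0 ≤ B0 := hBnn.trans h1.le
      exact mul_nonneg (mul_nonneg (mul_nonneg (abs_nonneg C) (norm_nonneg _)) hB0')
        (inv_nonneg.mpr hr0.le)
  have hlim0 : Filter.Tendsto (fun t => (t - z) * R t) (nhdsWithin z {z}ᶜ) (nhds 0) := by
    have h1 : Filter.Tendsto (fun t => t - z) (nhdsWithin z {z}ᶜ) (nhds 0) := by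
      have : Filter.Tendsto (fun t => t - z) (nhds z) (nhds (z - z)) :=
        (continuous_id.sub continuous_const).tendsto z
      rw [sub_self] at this
      exact this.mono_left nhdsWithin_le_nhds
    refine h1.zero_mul_isBoundedUnder_le ?_
    refine ⟨|C| * ‖Q n z‖ * B0 * r⁻¹ * S8, ?_⟩
    rw [Filter.eventually_map]
    exact hbd.filter_mono nhdsWithin_le_nhds
  have hlim1 : Filter.Tendsto (fun t => -2 * (Q n z / Q n t) *
      (1 : Matrix (Fin 3) (Fin 3) ℂ) i j) (nhdsWithin z {z}ᶜ)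
      (nhds (-2 * (1 : Matrix (Fin 3) (Fin 3) ℂ) i j)) := by
    have hcQ : ContinuousAt (Q n) z := ((Q_diffOn n).differentiableAt hnh).continuousAt
    have h1 : ContinuousAt (fun t => -2 * (Q n z / Q n t) *
        (1 : Matrix (Fin 3) (Fin 3) ℂ) i j) z :=
      (continuousAt_const.mul (continuousAt_const.div hcQ (Q_ne n zH))).mul continuousAt_const
    have h2 := h1.tendsto.mono_left (nhdsWithin_le_nhds (s := {z}ᶜ))
    rw [div_self (Q_ne n zH), mul_one] at h2
    exact h2
  have hlim := hlim1.add hlim0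
  rw [add_zero] at hlim
  refine hlim.congr' ?_
  have hev1 : ∀ᶠ t in nhdsWithin z {z}ᶜ, t ∈ H := nhdsWithin_le_nhds hnh
  filter_upwards [hev1, self_mem_nhdsWithin] with t ht htz
  have htz' : t ≠ z := htz
  have hzt : z - t ≠ 0 := sub_ne_zero.mpr htz'.symm
  have hQt := Q_ne n ht
  rw [hsplit t ht, hfs t, mul_add]
  congr 1
  unfold psi
  field_simp
  ring

end Pool.Agent.K2
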