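import Pool.Agent.Lib_helper98.K2.Defs
import Pool.Agent.Lib_helper98.K2.W.MOB1
import Pool.Agent.Lib_helper98.K2.W.MOB2
import Pool.Agent.Lib_helper98.K2.W.ETA1
import Pool.Agent.Lib_helper98.K2.W.CFI1
import Pool.Agent.Lib_helper98.K2.W.CFI2
import Pool.Agent.Lib_helper98.K2.W.EMAT1
import Pool.Agent.Lib_helper98.K2.W.KER1
import Pool.Agent.Lib_helper98.K2.W.KER2
import Pool.Agent.Lib_helper98.K2.W.KER3
import Pool.Agent.Lib_helper98.K2.W.KER4

set_option autoImplicit false

namespace Pool.Agent.K2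

open Complex Matrix MeasureTheory
open scoped MatrixGroups Real

variable {d : ℕ} {e : ℤ} {ρ : SL(2, ℤ) →* Matrix (Fin 3) (Fin 3) ℂ} {C0 : ℝ} {a0 : ℕ}

namespace PS3

theorem thi_th (d : ℕ) : thi d * th d = 1 := by
  unfold thi th
  rw [← Complex.exp_add]
  have : (π * I * d / 12 : ℂ) + -(π * I * d / 12) = 0 := by ring
  rw [this, Complex.exp_zero]

theorem thi_cube (d : ℕ) : thi d * thi d ^ 2 = cc d := by
  unfold thi cc
  rw [← pow_succ', ← Complex.exp_nat_mul]
  congr 1
  push_cast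
  ring

theorem thi_AT (d : ℕ) (e : ℤ) : thi d • AT d e = BT d e := by
  have h1 := thi_th d
  have h2 := thi_cube d
  have h3 : thi d * (thi d ^ 2 + e * th d) = cc d + e := by
    rw [mul_add, h2]
    linear_combination (e : ℂ) * h1
  have h4 : thi d * ((e : ℂ) * th d) = e := by linear_combination (e : ℂ) * h1
  have h5 : thi d * ((e : ℂ) * thi d ^ 2) = lam d e := by
    unfold lam
    linear_combination (e : ℂ) * h2
  ext i j
  fin_cases i <;> fin_cases j <;> simp [AT, BT, h1, h3, h4, h5]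

theorem KG_T (hρ : IsRep d e ρ C0 a0) (n : ℕ) (hn : a0 + 8 ≤ 12 * n) {t z : ℂ} (ht : t ∈ H)
    (hz : z ∈ H) (x : Fin 3 → ℂ) : KG d ρ n z x (t + 1) = BT d e *ᵥ KG d ρ n z x t := by
  have h1 := KK_equiv hρ n hn ht hz ModularGroup.T
  rw [mob_T, hρ.T] at h1
  unfold KG
  rw [et_T_pow d ht, h1, ← thi_AT, Matrix.smul_mulVec, Matrix.mulVec_smul, Matrix.mulVec_mulVec,
    smul_smul]

theorem KG_single (n : ℕ) (z t : ℂ) (j l : Fin 3) :
    KG d ρ n z (Pi.single j 1) t l = et t ^ d * KK ρ n t z l j := by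
  unfold KG
  rw [Pi.smul_apply, Matrix.mulVec_single_one, smul_eq_mul]
  rfl

theorem Pc_eq (n : ℕ) (z t : ℂ) (i j : Fin 3) :
    Pc d e (KG d ρ n z (Pi.single j 1)) i t =
      ∑ l, Einv d e t i l * (et t ^ d * KK ρ n t z l j) := by
  unfold Pc
  simp only [Matrix.mulVec, dotProduct]
  refine Finset.sum_congr rfl fun l _ => ?_
  rw [KG_single]

theorem res (hρ : IsRep d e ρ C0 a0) (n : ℕ) (hn : a0 + 8 ≤ 12 * n) {z : ℂ} (hz : 1 < z.im)
    (i j : Fin 3) :
    Filter.Tendsto (fun t => (t - z) * Pc d e (KG d ρ n z (Pi.single j 1)) i t)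
      (nhdsWithin z {z}ᶜ) (nhds (-2 * et z ^ d * Einv d e z i j)) := by
  have hzH : z ∈ H := by
    show 0 < z.im
    linarith
  have hE : ∀ l, Filter.Tendsto (fun t => Einv d e t i l) (nhdsWithin z {z}ᶜ)
      (nhds (Einv d e z i l)) := fun l =>
    ((Einv_diff d e i l).continuous.tendsto z).mono_left nhdsWithin_le_nhds
  have het : Filter.Tendsto (fun t => et t ^ d) (nhdsWithin z {z}ᶜ) (nhds (et z ^ d)) := by
    have : ContinuousAt et z := (et_diffOn.differentiableAt (isOpen_H.mem_nhds hzH)).continuousAt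
    exact (this.pow d).tendsto.mono_left nhdsWithin_le_nhds
  have hK := fun l => KK_res hρ n hn hz l j
  have h1 : Filter.Tendsto (fun t => ∑ l, Einv d e t i l * (et t ^ d * ((t - z) * KK ρ n t z l j)))
      (nhdsWithin z {z}ᶜ)
      (nhds (∑ l, Einv d e z i l * (et z ^ d * (-2 * (1 : Matrix (Fin 3) (Fin 3) ℂ) l j)))) :=
    tendsto_finset_sum _ fun l _ => (hE l).mul (het.mul (hK l))
  have h2 : (∑ l, Einv d e z i l * (et z ^ d * (-2 * (1 : Matrix (Fin 3) (Fin 3) ℂ) l j))) =
      -2 * et z ^ d * Einv d e z i j := by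
    rw [Finset.sum_eq_single j]
    · rw [Matrix.one_apply_eq]; ring
    · intro l _ hl
      rw [Matrix.one_apply_ne hl]; ring
    · intro h; exact absurd (Finset.mem_univ j) h
  rw [h2] at h1
  refine h1.congr fun t => ?_
  rw [Pc_eq, Finset.mul_sum]
  refine Finset.sum_congr rfl fun l _ => ?_
  ring

theorem cfd (hρ : IsRep d e ρ C0 a0) (he : e = 1 ∨ e = -1) (n : ℕ) (hn : a0 + 20 ≤ 12 * n)
    {z : ℂ} (hz : 3 ≤ z.im) (i j : Fin 3) (m : ℕ) :
    cf (Pc d e (KG d ρ n z (Pi.single j 1)) i) (-(m : ℤ)) (mu z + 1) =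
      cf (Pc d e (KG d ρ n z (Pi.single j 1)) i) (-(m : ℤ)) 2 +
      4 * π * I * et z ^ d * (Einv d e z i j * cexp (2 * π * I * m * z)) := by
  have hzH : z ∈ H := by
    show 0 < z.im
    linarith
  have hn8 : a0 + 8 ≤ 12 * n := by omega
  have hmu := im_le_mu hzH
  have h := cf_residue (Pc d e (KG d ρ n z (Pi.single j 1)) i) 1 z (-2 * et z ^ d * Einv d e z i j)
    ?_ ?_ (res hρ n hn8 (by linarith) i j) (-(m : ℤ)) 2 (mu z + 1) (by norm_num) (by linarith)
    (by linarith)
  · have h3 : cexp (-(2 * π * I * ((-(m : ℤ) : ℤ) : ℂ) * z)) = cexp (2 * π * I * m * z) := by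
      congr 1
      push_cast
      ring
    rw [h3] at h
    linear_combination -h
  · intro t ht
    obtain ⟨ht1, ht2⟩ := ht
    have htH : t ∈ H := by
      show 0 < t.im
      linarith
    have hd : ∀ l, DifferentiableAt ℂ (fun t => KK ρ n t z l j) t := by
      intro l
      have hopen : IsOpen {t : ℂ | 1 < t.im ∧ ∀ k : ℤ, t ≠ z + k} := by
        have hcl : IsClosed (Set.range fun k : ℤ => z + (k : ℂ)) := by
          have h1 : Topology.IsClosedEmbedding (fun k : ℤ => (k : ℂ)) :=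
            Complex.isClosedEmbedding_intCast
          exact ((Homeomorph.addLeft z).isClosedEmbedding.comp h1).isClosed_range
        have : {t : ℂ | 1 < t.im ∧ ∀ k : ℤ, t ≠ z + k} =
            {t : ℂ | 1 < t.im} ∩ (Set.range fun k : ℤ => z + (k : ℂ))ᶜ := by
          ext t
          simp only [Set.mem_setOf_eq, Set.mem_inter_iff, Set.mem_compl_iff, Set.mem_range,
            not_exists]
          constructor
          · rintro ⟨h1, h2⟩
            exact ⟨h1, fun k hk => h2 k hk.symm⟩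
          · rintro ⟨h1, h2⟩
            exact ⟨h1, fun k hk => h2 k hk.symm⟩
        rw [this]
        exact (isOpen_lt continuous_const Complex.continuous_im).inter hcl.isOpen_compl
      have hsub : {t : ℂ | 1 < t.im ∧ ∀ k : ℤ, t ≠ z + k} ⊆
          {t | t ∈ H ∧ ∀ g : SL(2, ℤ), mob g t ≠ z} := by
        rintro s ⟨hs1, hs2⟩
        refine ⟨?_, fun g => orbit_mid hs1 (by linarith) hs2 g⟩
        show 0 < s.im
        linarith
      exact ((KK_hol_t hρ n hn8 l j hzH).mono hsub).differentiableAt (hopen.mem_nhds ⟨ht1, ht2⟩)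
    have het : DifferentiableAt ℂ (fun t => et t ^ d) t :=
      (et_diffOn.differentiableAt (isOpen_H.mem_nhds htH)).pow d
    refine DifferentiableAt.differentiableWithinAt ?_
    have heq : Pc d e (KG d ρ n z (Pi.single j 1)) i =
        fun t => ∑ l, Einv d e t i l * (et t ^ d * KK ρ n t z l j) := by
      funext t
      exact Pc_eq n z t i j
    rw [heq]
    refine DifferentiableAt.fun_sum fun l _ => ?_
    exact (Einv_diff d e i l t).mul (het.mul (hd l))
  · intro t ht
    have htH : t ∈ H := by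
      show 0 < t.im
      linarith
    exact Pc_T d e he _ t (KG_T hρ n hn8 htH hzH _) i

end PS3

/-- shifting the line below the pole: residue -/
theorem Lxi_shift (hρ : IsRep d e ρ C0 a0) (he : e = 1 ∨ e = -1) (n : ℕ) (hn : a0 + 20 ≤ 12 * n)
    (ξ : ℕ → Fin 3 → ℂ) {z : ℂ} (hz : 3 ≤ z.im) (j : Fin 3) :
    Lxi d e n ξ (KG d ρ n z (Pi.single j 1)) (mu z + 1) =
      Lxi d e n ξ (KG d ρ n z (Pi.single j 1)) 2 +
      4 * π * I * et z ^ d * ∑ m ∈ Finset.range (n + 1), ∑ i,
        ξ m i * Einv d e z i j * cexp (2 * π * I * m * z) := by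
  unfold Lxi
  rw [Finset.mul_sum, ← Finset.sum_add_distrib]
  refine Finset.sum_congr rfl fun m _ => ?_
  rw [Finset.mul_sum, ← Finset.sum_add_distrib]
  refine Finset.sum_congr rfl fun i _ => ?_
  rw [PS3.cfd hρ he n hn hz i j m]
  ring

end Pool.Agent.K2
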