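import Pool.Agent.Lib_helper98.K2.Defs
import Pool.Agent.Lib_helper98.K2.W.MOB1
import Pool.Agent.Lib_helper98.K2.W.MOB2
import Pool.Agent.Lib_helper98.K2.W.ETA1
import Pool.Agent.Lib_helper98.K2.W.ETA2
import Pool.Agent.Lib_helper98.K2.W.ETA3
import Pool.Agent.Lib_helper98.K2.W.CFI3
import Pool.Agent.Lib_helper98.K2.W.EMAT1
import Pool.Agent.Lib_helper98.K2.W.EMAT2
import Pool.Agent.Lib_helper98.K2.W.KER3

set_option autoImplicit false

namespace Pool.Agent.K2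

open Complex Matrix MeasureTheory
open scoped MatrixGroups Real

variable {d : ℕ} {e : ℤ} {ρ : SL(2, ℤ) →* Matrix (Fin 3) (Fin 3) ℂ} {C0 : ℝ} {a0 : ℕ}

theorem PS4_Q (n : ℕ) {CE : ℝ} (hCE0 : 0 < CE)
    (hCE : ∀ z ∈ H, 1 / 4 ≤ z.im → ‖et z‖ ≤ CE * Real.exp (-(2 * π * (z.im / 24)))) {z : ℂ}
    (hz : 3 ≤ z.im) :
    ‖Q n z‖ ≤ CE ^ (24 * n) * 2 ^ (12 * n) * mu z ^ (12 * n) *
      Real.exp (-(2 * π * n * z.im)) := by
  have hzH : z ∈ H := by
    show 0 < z.im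
    linarith
  have h1 : ‖et z‖ ≤ CE * Real.exp (-(2 * π * (z.im / 24))) := hCE z hzH (by linarith)
  have hmu : 2 ≤ mu z := mu_ge_two hzH
  have h2 : ‖z + I‖ ≤ 2 * mu z := by
    have h3 := norm_add_le z I
    have h4 := norm_le_mu hzH
    rw [Complex.norm_I] at h3
    linarith
  have h3 : ‖Q n z‖ = ‖et z‖ ^ (24 * n) * ‖z + I‖ ^ (12 * n) := by
    unfold Q Del
    rw [norm_mul, norm_pow, norm_pow, norm_pow, ← pow_mul]
  have h4 : ‖et z‖ ^ (24 * n) ≤ CE ^ (24 * n) * Real.exp (-(2 * π * n * z.im)) := by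
    calc ‖et z‖ ^ (24 * n) ≤ (CE * Real.exp (-(2 * π * (z.im / 24)))) ^ (24 * n) :=
          pow_le_pow_left₀ (norm_nonneg _) h1 _
      _ = CE ^ (24 * n) * Real.exp (-(2 * π * n * z.im)) := by
          rw [mul_pow, ← Real.exp_nat_mul]
          congr 2
          push_cast
          ring
  have h5 : ‖z + I‖ ^ (12 * n) ≤ 2 ^ (12 * n) * mu z ^ (12 * n) := by
    rw [← mul_pow]
    exact pow_le_pow_left₀ (norm_nonneg _) h2 _
  rw [h3]
  calc ‖et z‖ ^ (24 * n) * ‖z + I‖ ^ (12 * n)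
      ≤ (CE ^ (24 * n) * Real.exp (-(2 * π * n * z.im))) * (2 ^ (12 * n) * mu z ^ (12 * n)) :=
        mul_le_mul h4 h5 (by positivity) (by positivity)
    _ = _ := by ring

theorem Lxi_two (hρ : IsRep d e ρ C0 a0) (he : e = 1 ∨ e = -1) (n : ℕ) (hn : a0 + 20 ≤ 12 * n)
    (ξ : ℕ → Fin 3 → ℂ) : ∃ (C : ℝ) (a : ℕ), ∀ z : ℂ, 3 ≤ z.im → ∀ j,
      ‖Lxi d e n ξ (KG d ρ n z (Pi.single j 1)) 2‖ ≤
        C * mu z ^ a * Real.exp (-(2 * π * n * z.im)) := by
  obtain ⟨CK, hCK⟩ := KK_line hρ n (by omega)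
  obtain ⟨CE, hCE0, hCE⟩ := et_cusp
  obtain ⟨CP, hCP⟩ := Pc_le d e
  refine ⟨(∑ m ∈ Finset.range (n + 1), ∑ i, ‖ξ m i‖) *
    (|CP| * 3 ^ 2 * Real.exp (2 * π * |nu d e| * 2) * (CE ^ d * (|CK| *
      (CE ^ (24 * n) * 2 ^ (12 * n))))), 12 * n, fun z hz j => ?_⟩
  have hQ := PS4_Q n hCE0 (fun z hz h => (hCE z hz h).1) hz
  set G := KG d ρ n z (Pi.single j 1) with hG
  -- bound of the entries on the line
  have hline : ∀ x : ℝ, 0 ≤ x → x ≤ 1 → ∀ i, ‖G (x + 2 * I) i‖ ≤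
      CE ^ d * (|CK| * ‖Q n z‖) := by
    intro x hx0 hx1 i
    have him : ((x : ℂ) + 2 * I).im = 2 := by simp
    have hH : ((x : ℂ) + 2 * I) ∈ H := by
      show 0 < ((x : ℂ) + 2 * I).im
      rw [him]
      norm_num
    have h1 := (hCE _ hH (by rw [him]; norm_num)).1
    have h2 : ‖et ((x : ℂ) + 2 * I)‖ ≤ CE := by
      refine h1.trans ?_
      have h3 : Real.exp (-(2 * π * (((x : ℂ) + 2 * I).im / 24))) ≤ 1 := by
        rw [him]
        apply Real.exp_le_one_iff.2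
        have := Real.pi_pos
        linarith
      exact mul_le_of_le_one_right hCE0.le h3
    have h3 := hCK x z hx0 hx1 hz i j
    have h4 : G (x + 2 * I) i = et (x + 2 * I) ^ d * KK ρ n (x + 2 * I) z i j := by
      rw [hG]
      unfold KG
      rw [Pi.smul_apply, smul_eq_mul, Matrix.mulVec_single_one]
      rfl
    rw [h4, norm_mul, norm_pow]
    apply mul_le_mul (pow_le_pow_left₀ (norm_nonneg _) h2 _) _ (norm_nonneg _) (by positivity)
    exact h3.trans (mul_le_mul_of_nonneg_right (le_abs_self _) (norm_nonneg _))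
  have hPc : ∀ x : ℝ, 0 ≤ x → x ≤ 1 → ∀ i, ‖Pc d e G i (x + 2 * I)‖ ≤
      |CP| * 3 ^ 2 * Real.exp (2 * π * |nu d e| * 2) * (CE ^ d * (|CK| * ‖Q n z‖)) := by
    intro x hx0 hx1 i
    have him : ((x : ℂ) + 2 * I).im = 2 := by simp
    have hre : ((x : ℂ) + 2 * I).re = x := by simp
    have hH : ((x : ℂ) + 2 * I) ∈ H := by
      show 0 < ((x : ℂ) + 2 * I).im
      rw [him]
      norm_num
    have h1 := hCP G _ hH (by rw [him]; norm_num) _ (hline x hx0 hx1) i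
    refine h1.trans ?_
    have hB : 0 ≤ CE ^ d * (|CK| * ‖Q n z‖) := by positivity
    have hmu : mu ((x : ℂ) + 2 * I) ≤ 3 := by
      unfold mu
      rw [him, ← Complex.normSq_eq_norm_sq, Complex.normSq_apply, him, hre]
      rw [div_le_iff₀ (by norm_num)]
      nlinarith
    have hmu0 : 0 ≤ mu ((x : ℂ) + 2 * I) := by
      have := mu_ge_two hH
      linarith
    have hexp : Real.exp (2 * π * nu d e * ((x : ℂ) + 2 * I).im) ≤
        Real.exp (2 * π * |nu d e| * 2) := by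
      rw [him]
      apply Real.exp_le_exp.2
      have := le_abs_self (nu d e)
      have hp := Real.pi_pos
      have : 2 * π * nu d e ≤ 2 * π * |nu d e| :=
        mul_le_mul_of_nonneg_left this (by positivity)
      linarith
    apply mul_le_mul_of_nonneg_right _ hB
    calc CP * mu ((x : ℂ) + 2 * I) ^ 2 * Real.exp (2 * π * nu d e * ((x : ℂ) + 2 * I).im)
        ≤ |CP| * mu ((x : ℂ) + 2 * I) ^ 2 *
            Real.exp (2 * π * nu d e * ((x : ℂ) + 2 * I).im) := by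
          apply mul_le_mul_of_nonneg_right _ (Real.exp_pos _).le
          exact mul_le_mul_of_nonneg_right (le_abs_self _) (by positivity)
      _ ≤ |CP| * 3 ^ 2 * Real.exp (2 * π * |nu d e| * 2) := by
          apply mul_le_mul _ hexp (Real.exp_pos _).le (by positivity)
          apply mul_le_mul_of_nonneg_left _ (abs_nonneg _)
          exact pow_le_pow_left₀ hmu0 hmu 2
  set B := |CP| * 3 ^ 2 * Real.exp (2 * π * |nu d e| * 2) * (CE ^ d * (|CK| * ‖Q n z‖)) with hBdef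
  have hB0 : 0 ≤ B := by positivity
  have hcf : ∀ (m : ℕ) (i : Fin 3), ‖cf (Pc d e G i) (-(m : ℤ)) 2‖ ≤ B := by
    intro m i
    have h1 := cf_bound (Pc d e G i) (-(m : ℤ)) 2 B (by
      intro x hx0 hx1
      have h2 := hPc x hx0 hx1 i
      simpa using h2)
    refine h1.trans ?_
    apply mul_le_of_le_one_right hB0
    apply Real.exp_le_one_iff.2
    push_cast
    have hp := Real.pi_pos
    have hm : (0 : ℝ) ≤ m := Nat.cast_nonneg m
    nlinarith [mul_nonneg hp.le hm]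
  have hsum : ‖Lxi d e n ξ G 2‖ ≤ (∑ m ∈ Finset.range (n + 1), ∑ i, ‖ξ m i‖) * B := by
    unfold Lxi
    rw [Finset.sum_mul]
    refine (norm_sum_le _ _).trans (Finset.sum_le_sum fun m _ => ?_)
    rw [Finset.sum_mul]
    refine (norm_sum_le _ _).trans (Finset.sum_le_sum fun i _ => ?_)
    rw [norm_mul]
    exact mul_le_mul_of_nonneg_left (hcf m i) (norm_nonneg _)
  refine hsum.trans ?_
  have hS : 0 ≤ ∑ m ∈ Finset.range (n + 1), ∑ i, ‖ξ m i‖ :=
    Finset.sum_nonneg fun m _ => Finset.sum_nonneg fun i _ => norm_nonneg _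
  rw [mul_assoc, mul_assoc]
  apply mul_le_mul_of_nonneg_left _ hS
  rw [hBdef]
  have h1 : |CP| * 3 ^ 2 * Real.exp (2 * π * |nu d e| * 2) * (CE ^ d * (|CK| * ‖Q n z‖)) ≤
      |CP| * 3 ^ 2 * Real.exp (2 * π * |nu d e| * 2) * (CE ^ d * (|CK| *
        (CE ^ (24 * n) * 2 ^ (12 * n) * mu z ^ (12 * n) *
          Real.exp (-(2 * π * n * z.im))))) := by
    apply mul_le_mul_of_nonneg_left _ (by positivity)
    apply mul_le_mul_of_nonneg_left _ (by positivity)
    exact mul_le_mul_of_nonneg_left hQ (abs_nonneg _)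
  refine h1.trans (le_of_eq ?_)
  ring

end Pool.Agent.K2
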