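import Pool.Agent.Lib_helper98.K2.Defs
import Pool.Agent.Lib_helper98.K2.W.MOB1
import Pool.Agent.Lib_helper98.K2.W.MOB2
import Pool.Agent.Lib_helper98.K2.W.ETA1
import Pool.Agent.Lib_helper98.K2.W.EG
import Pool.Agent.Lib_helper98.K2.W.PS1
import Pool.Agent.Lib_helper98.K2.W.PS2
import Pool.Agent.Lib_helper98.K2.W.PS3
import Pool.Agent.Lib_helper98.K2.W.PS4

set_option autoImplicit false

namespace Pool.Agent.K2

open Complex Matrix MeasureTheory
open scoped MatrixGroups Real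

variable {d : ℕ} {e : ℤ} {ρ : SL(2, ℤ) →* Matrix (Fin 3) (Fin 3) ℂ} {C0 : ℝ} {a0 : ℕ}

/-- continuity of the integrand on a line -/
private theorem PSIH_cont (d : ℕ) (e : ℤ) (G : ℂ → Fin 3 → ℂ) (Y : ℝ)
    (hG : ∀ j, ContinuousOn (fun t => G t j) {t | t.im = Y}) (i : Fin 3) (m : ℤ) :
    Continuous fun X : ℝ => Pc d e G i (X + Y * I) *
      cexp (-(2 * π * I * m * (X + Y * I))) := by
  have hl : Continuous fun X : ℝ => (X : ℂ) + Y * I := by fun_prop
  have hG' : ∀ j, Continuous fun X : ℝ => G ((X : ℂ) + Y * I) j := by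
    intro j
    have := (hG j).comp_continuous hl (fun X => by simp)
    exact this
  have hE : ∀ j, Continuous fun X : ℝ => Einv d e ((X : ℂ) + Y * I) i j := by
    intro j
    exact (Einv_diff d e i j).continuous.comp hl
  have h1 : Continuous fun X : ℝ => Pc d e G i (X + Y * I) := by
    unfold Pc Matrix.mulVec dotProduct
    exact continuous_finsetSum _ (fun j _ => (hE j).mul (hG' j))
  exact h1.mul (by fun_prop)

/-- the functional of a difference -/
private theorem PSIH_sub (d : ℕ) (e : ℤ) (n : ℕ) (ξ : ℕ → Fin 3 → ℂ) (G A B : ℂ → Fin 3 → ℂ)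
    (Y : ℝ) (hA : ∀ j, ContinuousOn (fun t => A t j) {t | t.im = Y})
    (hB : ∀ j, ContinuousOn (fun t => B t j) {t | t.im = Y})
    (h : ∀ t : ℂ, t.im = Y → G t = A t - B t) :
    Lxi d e n ξ G Y = Lxi d e n ξ A Y - Lxi d e n ξ B Y := by
  have hcf : ∀ (i : Fin 3) (m : ℤ), cf (Pc d e G i) m Y =
      cf (Pc d e A i) m Y - cf (Pc d e B i) m Y := by
    intro i m
    unfold cf
    rw [← intervalIntegral.integral_sub ((PSIH_cont d e A Y hA i m).intervalIntegrable _ _)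
      ((PSIH_cont d e B Y hB i m).intervalIntegrable _ _)]
    apply intervalIntegral.integral_congr
    intro X _
    have h2 : G ((X : ℂ) + Y * I) = A (X + Y * I) - B (X + Y * I) := h _ (by simp)
    simp only [Pc]
    rw [h2, Matrix.mulVec_sub]
    simp only [Pi.sub_apply]
    ring
  unfold Lxi
  rw [← Finset.sum_sub_distrib]
  refine Finset.sum_congr rfl fun m _ => ?_
  rw [← Finset.sum_sub_distrib]
  refine Finset.sum_congr rfl fun i _ => ?_
  rw [hcf]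
  ring

/-- columns of the kernel are continuous on high lines -/
private theorem PSIH_KG (hρ : IsRep d e ρ C0 a0) (n : ℕ) (hn : a0 + 20 ≤ 12 * n) {z : ℂ}
    (hz : z ∈ H) (x : Fin 3 → ℂ) (Y : ℝ) (h1 : z.im < Y) (h2 : 1 / z.im < Y) (j : Fin 3) :
    ContinuousOn (fun t => KG d ρ n z x t j) {t | t.im = Y} := by
  have hY : 0 < Y := lt_trans hz h1
  have hsub : {t : ℂ | t.im = Y} ⊆ {t | t ∈ H ∧ ∀ g : SL(2, ℤ), mob g t ≠ z} := by
    intro t ht
    have ht' : t.im = Y := ht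
    have htH : t ∈ H := by
      show 0 < t.im
      rw [ht']; exact hY
    exact ⟨htH, orbit_high htH hz (by rw [ht']; exact h1) (by rw [ht']; exact h2)⟩
  have hK : ∀ k l, ContinuousOn (fun t => KK ρ n t z k l) {t | t.im = Y} := fun k l =>
    ((KK_hol_t hρ n (by omega) k l hz).continuousOn).mono hsub
  have he' : ContinuousOn et {t | t.im = Y} :=
    et_diffOn.continuousOn.mono (fun t ht => (hsub ht).1)
  have heq : (fun t => KG d ρ n z x t j) = fun t => et t ^ d * ∑ k, KK ρ n t z j k * x k := by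
    funext t
    simp only [KG, Matrix.mulVec, dotProduct, Pi.smul_apply, smul_eq_mul]
  rw [heq]
  exact (he'.pow d).mul (continuousOn_finsetSum _ fun k _ => (hK j k).mul continuousOn_const)

/-- the functional as a row vector -/
private theorem PSIH_lin (he : e = 1 ∨ e = -1) (hρ : IsRep d e ρ C0 a0) (n : ℕ)
    (hn : a0 + 20 ≤ 12 * n) (ξ : ℕ → Fin 3 → ℂ) {z : ℂ} (hz : z ∈ H) (x : Fin 3 → ℂ) (Y : ℝ)
    (h1 : z.im < Y) (h2 : 1 / z.im < Y) :
    Lxi d e n ξ (KG d ρ n z x) Y =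
      (fun j => Lxi d e n ξ (KG d ρ n z (Pi.single j 1)) (mu z + 1)) ⬝ᵥ x := by
  rw [Lxi_lin hρ he n hn ξ hz x Y h1 h2]
  unfold dotProduct
  refine Finset.sum_congr rfl fun j _ => ?_
  rw [Lxi_KG he hρ n hn ξ hz (Pi.single j 1) Y h1 h2]
  ring

private theorem PSIH_mu {z : ℂ} (hz : z ∈ H) : z.im < mu z + 1 ∧ 1 / z.im < mu z + 1 := by
  have h1 := im_le_mu hz
  have h2 := inv_mu_le_im hz
  have h3 := mu_ge_two hz
  refine ⟨by linarith, ?_⟩
  have hzi : 0 < z.im := hz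
  have h4 : 1 / z.im ≤ mu z := by
    rw [div_le_iff₀ hzi]
    have : (mu z)⁻¹ * mu z ≤ z.im * mu z := mul_le_mul_of_nonneg_right h2 (by linarith)
    rw [inv_mul_cancel₀ (by linarith)] at this
    linarith
  linarith

/-- transformation law -/
private theorem PSIH_tr (he : e = 1 ∨ e = -1) (hρ : IsRep d e ρ C0 a0) (n : ℕ)
    (hn : a0 + 20 ≤ 12 * n) (ξ : ℕ → Fin 3 → ℂ)
    (hξ : ∀ G : ℂ → Fin 3 → ℂ, Hom d e n G → Lxi d e n ξ G 2 = 0) (γ : SL(2, ℤ)) {z : ℂ}
    (hz : z ∈ H) :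
    (fun j => Lxi d e n ξ (KG d ρ n (mob γ z) (Pi.single j 1)) (mu (mob γ z) + 1)) ᵥ* ρ γ =
      (den γ z) ^ 2 • fun j => Lxi d e n ξ (KG d ρ n z (Pi.single j 1)) (mu z + 1) := by
  set A : Fin 3 → ℂ :=
    fun j => Lxi d e n ξ (KG d ρ n (mob γ z) (Pi.single j 1)) (mu (mob γ z) + 1) with hA
  set B : Fin 3 → ℂ := fun j => Lxi d e n ξ (KG d ρ n z (Pi.single j 1)) (mu z + 1) with hB
  have hγz : mob γ z ∈ H := mob_mem γ hz
  have hd0 : den γ z ≠ 0 := den_ne γ hz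
  obtain ⟨h1, h2⟩ := PSIH_mu hz
  obtain ⟨h3, h4⟩ := PSIH_mu hγz
  have hmu1 := mu_ge_two hz
  have hmu2 := mu_ge_two hγz
  set Y : ℝ := mu z + mu (mob γ z) + 1 with hY
  have hY1 : z.im < Y := by linarith
  have hY2 : 1 / z.im < Y := by linarith
  have hY3 : (mob γ z).im < Y := by linarith
  have hY4 : 1 / (mob γ z).im < Y := by linarith
  have hY0 : 0 < Y := by linarith
  -- for every vector
  have key : ∀ x : Fin 3 → ℂ, A ⬝ᵥ (((den γ z) ^ 2)⁻¹ • (ρ γ *ᵥ x)) = B ⬝ᵥ x := by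
    intro x
    obtain ⟨G, hG, hGt⟩ := EG_blk he hρ n hn γ hz x
    have e1 : Lxi d e n ξ G Y = 0 := by
      rw [Lxi_Hom he n ξ G hG Y hY0]; exact hξ G hG
    have e2 := PSIH_sub d e n ξ G (KG d ρ n (mob γ z) (((den γ z) ^ 2)⁻¹ • (ρ γ *ᵥ x)))
      (KG d ρ n z x) Y (PSIH_KG hρ n hn hγz _ Y hY3 hY4) (PSIH_KG hρ n hn hz _ Y hY1 hY2) (by
        intro t ht
        have htH : t ∈ H := by
          show 0 < t.im
          rw [ht]; exact hY0
        exact hGt t htH (orbit_high htH hz (by rw [ht]; exact hY1) (by rw [ht]; exact hY2)))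
    rw [e1, PSIH_lin he hρ n hn ξ hγz _ Y hY3 hY4, PSIH_lin he hρ n hn ξ hz _ Y hY1 hY2] at e2
    exact (sub_eq_zero.mp e2.symm)
  funext j
  have hk := key (Pi.single j 1)
  rw [dotProduct_smul, dotProduct_mulVec, dotProduct_single_one, dotProduct_single_one,
    smul_eq_mul] at hk
  rw [Pi.smul_apply, smul_eq_mul, ← hk, ← mul_assoc, mul_inv_cancel₀ (pow_ne_zero 2 hd0), one_mul]

theorem PSIH_blk (he : e = 1 ∨ e = -1) (hρ : IsRep d e ρ C0 a0) (n : ℕ) (hn : a0 + 20 ≤ 12 * n)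
    (ξ : ℕ → Fin 3 → ℂ) (hξ : ∀ G : ℂ → Fin 3 → ℂ, Hom d e n G → Lxi d e n ξ G 2 = 0) :
    ∃ ψ : ℂ → Fin 3 → ℂ, (∀ i, DifferentiableOn ℂ (fun z => ψ z i) H) ∧
      (∀ z ∈ H, ψ (z + 1) ᵥ* AT d e = ψ z) ∧ (∀ z ∈ H, ψ (-1 / z) ᵥ* AS e = z ^ 2 • ψ z) ∧
      ∃ (C : ℝ) (a : ℕ), ∀ z : ℂ, 3 ≤ z.im → ∀ j,
        ‖ψ z j - 4 * π * I * et z ^ d * ∑ m ∈ Finset.range (n + 1), ∑ i,
          ξ m i * Einv d e z i j * cexp (2 * π * I * m * z)‖ ≤
        C * mu z ^ a * Real.exp (-(2 * π * n * z.im)) := by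
  refine ⟨fun z j => Lxi d e n ξ (KG d ρ n z (Pi.single j 1)) (mu z + 1), ?_, ?_, ?_, ?_⟩
  · intro j z hz
    obtain ⟨h1, h2⟩ := PSIH_mu hz
    have hzi : 0 < z.im := hz
    set U : Set ℂ := {w | 0 < w.im ∧ w.im < mu z + 1 ∧ 1 / w.im < mu z + 1} with hU
    have hUo : U ∈ nhds z := by
      have hc : ContinuousAt Complex.im z := Complex.continuous_im.continuousAt
      have hci : ContinuousAt (fun w : ℂ => 1 / w.im) z :=
        continuousAt_const.div hc hzi.ne'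
      have a1 := hc.eventually (lt_mem_nhds hzi)
      have a2 := hc.eventually (gt_mem_nhds h1)
      have a3 := hci.eventually (gt_mem_nhds h2)
      filter_upwards [a1, a2, a3] with w b1 b2 b3
      exact ⟨b1, b2, b3⟩
    have hd := ((Lxi_hol hρ he n hn ξ j (mu z + 1)) z ⟨hzi, h1, h2⟩).differentiableAt hUo
    refine (hd.congr_of_eventuallyEq ?_).differentiableWithinAt
    filter_upwards [hUo] with w hw
    exact (Lxi_KG he hρ n hn ξ (show w ∈ H from hw.1) (Pi.single j 1) (mu z + 1) hw.2.1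
      hw.2.2).symm
  · intro z hz
    have h := PSIH_tr he hρ n hn ξ hξ ModularGroup.T hz
    rw [hρ.T] at h
    simp only [mob_T, den_T, one_pow, one_smul] at h
    exact h
  · intro z hz
    have h := PSIH_tr he hρ n hn ξ hξ ModularGroup.S hz
    rw [hρ.S] at h
    simp only [mob_S, den_S] at h
    exact h
  · obtain ⟨C, a, hCa⟩ := Lxi_two hρ he n hn ξ
    refine ⟨C, a, fun z hz j => ?_⟩
    have h1 := Lxi_shift hρ he n hn ξ hz j
    have h2 := hCa z hz j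
    have h3 : Lxi d e n ξ (KG d ρ n z (Pi.single j 1)) (mu z + 1) -
        4 * π * I * et z ^ d * ∑ m ∈ Finset.range (n + 1), ∑ i,
          ξ m i * Einv d e z i j * cexp (2 * π * I * m * z) =
        Lxi d e n ξ (KG d ρ n z (Pi.single j 1)) 2 := sub_eq_iff_eq_add.mpr h1
    rw [← h3] at h2
    exact h2

end Pool.Agent.K2
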