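import Pool.Agent.Lib_helper98.K2.Defs
import Pool.Agent.Lib_helper98.K2.W.MOB1
import Pool.Agent.Lib_helper98.K2.W.ETA1
import Pool.Agent.Lib_helper98.K2.W.ETA2
import Pool.Agent.Lib_helper98.K2.W.ETA3

set_option autoImplicit false

namespace Pool.Agent.K2.LVL

open Complex Set Filter Topology MatrixGroups ModularForm
open UpperHalfPlane hiding I

lemma c0_int {f : ℂ → ℂ} (hT : ∀ z : ℂ, 0 < z.im → f (z + 1) = f z) (m : ℤ) :
    ∀ z : ℂ, 0 < z.im → f (z + m) = f z := by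
  induction m using Int.induction_on with
  | zero => intro z _; simp
  | succ n ih =>
    intro z hz
    have := hT (z + n) (by simpa using hz)
    rw [show z + ((n + 1 : ℤ) : ℂ) = z + n + 1 by push_cast; ring, this]
    simpa using ih z hz
  | pred n ih =>
    intro z hz
    have h1 := hT (z + ((-(n:ℤ) - 1 : ℤ) : ℂ)) (by simpa using hz)
    rw [← h1, show z + ((-(n:ℤ) - 1 : ℤ) : ℂ) + 1 = z + ((-(n:ℤ) : ℤ) : ℂ) by push_cast; ring]
    exact ih z hz

/-- `‖f‖ ≤ c` for large imaginary part and `|re| ≤ 1/2` implies it for all real parts. -/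
lemma c0_strip {f : ℂ → ℂ} (hT : ∀ z : ℂ, 0 < z.im → f (z + 1) = f z) {Y c : ℝ}
    (h : ∀ z : ℂ, 0 < z.im → Y ≤ z.im → |z.re| ≤ 1 / 2 → ‖f z‖ ≤ c) :
    ∀ z : ℂ, 0 < z.im → Y ≤ z.im → ‖f z‖ ≤ c := by
  intro z hz hY
  have h1 := c0_int hT (-(round z.re)) z hz
  rw [← h1]
  apply h
  · simpa using hz
  · simpa using hY
  · have := abs_sub_round z.re
    simpa [sub_eq_add_neg] using this

/-- weight zero, level one, zero at the cusp: identically zero. -/
theorem const0 {f : ℂ → ℂ} (hf : DifferentiableOn ℂ f {z | 0 < z.im})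
    (hT : ∀ z : ℂ, 0 < z.im → f (z + 1) = f z)
    (hS : ∀ z : ℂ, 0 < z.im → f (-1 / z) = f z)
    (h0 : ∀ ε : ℝ, 0 < ε → ∃ Y : ℝ, ∀ z : ℂ, 0 < z.im → Y ≤ z.im → |z.re| ≤ 1 / 2 → ‖f z‖ ≤ ε) :
    ∀ z : ℂ, 0 < z.im → f z = 0 := by
  have slT : ((fun τ : ℍ => f τ) ∣[(0 : ℤ)] ModularGroup.T) = fun τ : ℍ => f τ := by
    ext τ
    rw [ModularForm.SL_slash_apply]
    simp only [neg_zero, zpow_zero, mul_one]
    rw [UpperHalfPlane.modular_T_smul]
    have := hT τ τ.2
    rw [← this]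
    congr 1
    rw [UpperHalfPlane.coe_vadd]
    push_cast
    ring
  have slS : ((fun τ : ℍ => f τ) ∣[(0 : ℤ)] ModularGroup.S) = fun τ : ℍ => f τ := by
    ext τ
    rw [ModularForm.SL_slash_apply]
    simp only [neg_zero, zpow_zero, mul_one]
    rw [UpperHalfPlane.modular_S_smul]
    have := hS τ τ.2
    rw [← this]
    congr 1
    simp [neg_div]
  have sl := SlashInvariantForm.slash_action_generators_SL2Z slS slT
  let F : ModularForm 𝒮ℒ 0 :=
    { toFun := fun τ : ℍ => f τ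
      slash_action_eq' := by
        intro A hA
        obtain ⟨A, rfl⟩ := hA
        exact sl A
      holo' := by
        rw [UpperHalfPlane.mdifferentiable_iff]
        refine hf.congr ?_
        intro z hz
        simp [ofComplex_apply_of_im_pos hz]
      bdd_at_cusps' := by
        intro c hc
        rw [Subgroup.IsArithmetic.isCusp_iff_isCusp_SL2Z] at hc
        rw [OnePoint.isBoundedAt_iff_forall_SL2Z hc]
        intro γ _
        rw [sl]
        obtain ⟨Y, hY⟩ := h0 1 one_pos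
        rw [UpperHalfPlane.isBoundedAtImInfty_iff]
        exact ⟨1, Y, fun z hz => c0_strip hT hY z z.2 hz⟩ }
  obtain ⟨c, hc⟩ := ModularFormClass.levelOne_weight_zero_const F
  have hc' : ∀ τ : ℍ, f τ = c := fun τ => congrFun hc τ
  have hc0 : c = 0 := by
    by_contra hne
    have hp : 0 < ‖c‖ := norm_pos_iff.2 hne
    obtain ⟨Y, hY⟩ := h0 (‖c‖ / 2) (by positivity)
    have h1 := hY (((|Y| + 1 : ℝ) : ℂ) * I) (by simp; positivity)
      (by simp; linarith [le_abs_self Y]) (by simp)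
    have h2 := hc' ⟨((|Y| + 1 : ℝ) : ℂ) * I, by simp; positivity⟩
    simp only at h2
    rw [h2] at h1
    linarith
  intro z hz
  have := hc' ⟨z, hz⟩
  rw [hc0] at this
  simpa using this

end Pool.Agent.K2.LVL

namespace Pool.Agent.K2

open Complex Matrix MeasureTheory
open scoped MatrixGroups Real

/-- weight 0, tends to zero at the cusp -/
theorem LVL_blk (F : ℂ → ℂ) (hF : DifferentiableOn ℂ F H) (hT : ∀ z ∈ H, F (z + 1) = F z)
    (hS : ∀ z ∈ H, F (-1 / z) = F z) (C δ : ℝ) (a : ℕ) (hδ : 0 < δ)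
    (hg : ∀ z : ℂ, 4 ≤ z.im → ‖F z‖ ≤ C * mu z ^ a * Real.exp (-(2 * π * (δ * z.im)))) :
    ∀ z ∈ H, F z = 0 := by
  refine LVL.const0 hF hT hS ?_
  intro ε hε
  have hc : 0 < 2 * π * δ := by positivity
  have h1 : Filter.Tendsto (fun y : ℝ => |C| * (2 / (2 * π * δ)) ^ a *
      ((2 * π * δ * y) ^ a * Real.exp (-(2 * π * δ * y)))) Filter.atTop (nhds 0) := by
    have h2 := (Real.tendsto_pow_mul_exp_neg_atTop_nhds_zero a).comp
      (Filter.tendsto_id.const_mul_atTop hc)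
    have h3 := h2.const_mul (|C| * (2 / (2 * π * δ)) ^ a)
    simpa [Function.comp_def] using h3
  have h2 := (h1.eventually (Iio_mem_nhds hε)).and (Filter.eventually_ge_atTop 4)
  obtain ⟨Y, hY⟩ := Filter.eventually_atTop.1 h2
  refine ⟨Y, fun z hz hYz hre => ?_⟩
  obtain ⟨h3, h4⟩ := hY z.im hYz
  have hmu : mu z ≤ 2 * z.im := by
    unfold mu
    have e : ‖z‖ ^ 2 = z.re ^ 2 + z.im ^ 2 := by
      rw [← Complex.normSq_eq_norm_sq, Complex.normSq_apply]; ring
    rw [e, div_le_iff₀ hz]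
    have := abs_le.1 hre
    nlinarith
  have hmu0 : 0 ≤ mu z := by unfold mu; positivity
  calc ‖F z‖ ≤ C * mu z ^ a * Real.exp (-(2 * π * (δ * z.im))) := hg z h4
    _ ≤ |C| * (2 * z.im) ^ a * Real.exp (-(2 * π * (δ * z.im))) := by
        have := le_abs_self C
        gcongr
    _ = |C| * (2 / (2 * π * δ)) ^ a *
      ((2 * π * δ * z.im) ^ a * Real.exp (-(2 * π * δ * z.im))) := by
        have e1 : (2 * z.im) ^ a = (2 / (2 * π * δ)) ^ a * (2 * π * δ * z.im) ^ a := by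
          rw [← mul_pow]; congr 1; field_simp
        have e2 : 2 * π * (δ * z.im) = 2 * π * δ * z.im := by ring
        rw [e1, e2]; ring
    _ ≤ ε := le_of_lt h3

/-- weight `12 k`, exponent `> k` at the cusp -/
theorem WGT_blk (k : ℕ) (F : ℂ → ℂ) (hF : DifferentiableOn ℂ F H)
    (hT : ∀ z ∈ H, F (z + 1) = F z) (hS : ∀ z ∈ H, F (-1 / z) = z ^ (12 * k) * F z) (C s : ℝ)
    (a : ℕ) (hs : (k : ℝ) < s)
    (hg : ∀ z : ℂ, 4 ≤ z.im → ‖F z‖ ≤ C * mu z ^ a * Real.exp (-(2 * π * (s * z.im)))) :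
    ∀ z ∈ H, F z = 0 := by
  obtain ⟨K, hK, hK'⟩ := et_cusp
  have key := LVL_blk (fun z => F z / Del z ^ k) ?_ ?_ ?_ (|C| * (K ^ 24) ^ k) (s - k) a
    (by linarith) ?_
  · intro z hz
    have h1 := key z hz
    have h2 : Del z ^ k ≠ 0 := pow_ne_zero _ (Del_ne hz)
    simpa [h2] using h1
  · exact hF.div (Del_diffOn.pow k) (fun z hz => pow_ne_zero _ (Del_ne hz))
  · intro z hz
    have h1 := Del_mob ModularGroup.T hz
    rw [mob_T, den_T, one_pow, one_mul] at h1
    simp only [h1, hT z hz]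
  · intro z hz
    have hne : z ≠ 0 := by rintro rfl; simp [H] at hz
    have h1 := Del_mob ModularGroup.S hz
    rw [mob_S, den_S] at h1
    simp only [h1, hS z hz]
    rw [mul_pow, ← pow_mul]
    rw [mul_div_mul_left _ _ (pow_ne_zero _ hne)]
  · intro z hz
    have hzH : z ∈ H := by show 0 < z.im; linarith
    have h1 := (hK' z hzH (by linarith)).2
    have hmu0 : 0 ≤ mu z := by
      have : 0 < z.im := hzH
      unfold mu; positivity
    have h2 : Real.exp (-(2 * π * (z.im))) ≤ K ^ 24 * ‖Del z‖ := by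
      have : Real.exp (-(2 * π * (z.im / 24))) ^ 24 ≤ (K * ‖et z‖) ^ 24 :=
        pow_le_pow_left₀ (Real.exp_pos _).le h1 24
      rw [← Real.exp_nat_mul, mul_pow] at this
      unfold Del
      rw [norm_pow]
      convert! this using 2
      push_cast; ring
    have h3 : Real.exp (-(2 * π * (z.im))) ^ k ≤ (K ^ 24) ^ k * ‖Del z‖ ^ k := by
      rw [← mul_pow]
      exact pow_le_pow_left₀ (Real.exp_pos _).le h2 k
    have hD : 0 < ‖Del z‖ ^ k := pow_pos (norm_pos_iff.2 (Del_ne hzH)) k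
    rw [norm_div, norm_pow, div_le_iff₀ hD]
    have h4 : Real.exp (-(2 * π * (s * z.im))) =
        Real.exp (-(2 * π * ((s - k) * z.im))) * Real.exp (-(2 * π * (z.im))) ^ k := by
      rw [← Real.exp_nat_mul, ← Real.exp_add]; congr 1; ring
    calc ‖F z‖ ≤ C * mu z ^ a * Real.exp (-(2 * π * (s * z.im))) := hg z hz
      _ ≤ |C| * mu z ^ a * Real.exp (-(2 * π * (s * z.im))) := by
          have := le_abs_self C
          gcongr
      _ = |C| * mu z ^ a * (Real.exp (-(2 * π * ((s - k) * z.im))) *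
          Real.exp (-(2 * π * (z.im))) ^ k) := by rw [h4]
      _ ≤ |C| * mu z ^ a * (Real.exp (-(2 * π * ((s - k) * z.im))) *
          ((K ^ 24) ^ k * ‖Del z‖ ^ k)) := by gcongr
      _ = _ := by ring

end Pool.Agent.K2
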