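import Pool.Agent.Lib_helper98.K2.Defs
import Pool.Agent.Lib_helper98.K2.W.MOB1
import Pool.Agent.Lib_helper98.K2.W.MOB2
import Pool.Agent.Lib_helper98.K2.W.ETA1
import Pool.Agent.Lib_helper98.K2.W.EMAT1
import Pool.Agent.Lib_helper98.K2.W.REP
import Pool.Agent.Lib_helper98.K2.W.LVL

set_option autoImplicit false

namespace Pool.Agent.K2

open Complex Matrix MeasureTheory
open scoped MatrixGroups Real

variable {d : ℕ} {e : ℤ} {ψ : ℂ → Fin 3 → ℂ} {C : ℝ} {a : ℕ}

theorem VAN1_vAS (e : ℤ) (x : Fin 3 → ℂ) : x ᵥ* AS e = ![-(e : ℂ) * x 0, x 2, x 1] := by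
  ext i
  fin_cases i <;> simp [AS, Matrix.vecMul, dotProduct, Fin.sum_univ_three] <;> ring

theorem VAN1_vAT (d : ℕ) (e : ℤ) (x : Fin 3 → ℂ) : x ᵥ* AT d e =
    ![x 0 * th d + x 2 * (thi d ^ 2 + e * th d), x 0 * th d + x 1 * th d + x 2 * (e * th d),
      x 2 * (e * thi d ^ 2)] := by
  ext i
  fin_cases i <;> simp [AT, Matrix.vecMul, dotProduct, Fin.sum_univ_three]

theorem VAN1_th (d : ℕ) : th d * thi d = 1 := by
  rw [th, thi, ← Complex.exp_add]
  simp

/-- common eigenvectors of `AS`, `AT` (rows) -/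
theorem EIGR_blk (he : e = 1 ∨ e = -1) (x : Fin 3 → ℂ) (hx : x ≠ 0) (s t : ℂ)
    (h1 : x ᵥ* AS e = s • x) (h2 : x ᵥ* AT d e = t • x) :
    x 2 ≠ 0 ∧ s ^ 2 = 1 ∧ t ^ 6 = 1 := by
  rw [VAN1_vAS] at h1
  rw [VAN1_vAT] at h2
  have a0 : -(e : ℂ) * x 0 = s * x 0 := by simpa using congrFun h1 0
  have a1 : x 2 = s * x 1 := by simpa using congrFun h1 1
  have a2 : x 1 = s * x 2 := by simpa using congrFun h1 2
  have b0 : x 0 * th d + x 2 * (thi d ^ 2 + e * th d) = t * x 0 := by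
    simpa using congrFun h2 0
  have b1 : x 0 * th d + x 1 * th d + x 2 * (e * th d) = t * x 1 := by
    simpa using congrFun h2 1
  have b2 : x 2 * (e * thi d ^ 2) = t * x 2 := by simpa using congrFun h2 2
  have hth := VAN1_th d
  have hth0 : th d ≠ 0 := fun h => by rw [h] at hth; simp at hth
  have hthi0 : thi d ≠ 0 := fun h => by rw [h] at hth; simp at hth
  have he2 : (e : ℂ) ^ 2 = 1 := by rcases he with rfl | rfl <;> norm_num
  have he0 : (e : ℂ) ≠ 0 := fun h => by rw [h] at he2; norm_num at he2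
  have hx2 : x 2 ≠ 0 := by
    intro h
    have h3 : x 1 = 0 := by rw [a2, h, mul_zero]
    rw [h, h3] at b1
    have h4 : x 0 = 0 := by
      rcases mul_eq_zero.1 (by simpa using b1 : x 0 * th d = 0) with h5 | h5
      · exact h5
      · exact absurd h5 hth0
    apply hx
    ext i
    fin_cases i
    · exact h4
    · exact h3
    · exact h
  have hs2 : s ^ 2 = 1 := by
    have h3 : (s ^ 2 - 1) * x 2 = 0 := by
      linear_combination -a1 - s * a2
    rcases mul_eq_zero.1 h3 with h4 | h4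
    · linear_combination h4
    · exact absurd h4 hx2
  have ht : t = e * thi d ^ 2 := by
    have h3 : (t - e * thi d ^ 2) * x 2 = 0 := by linear_combination -b2
    rcases mul_eq_zero.1 h3 with h4 | h4
    · linear_combination h4
    · exact absurd h4 hx2
  have h12 : thi d ^ 12 = 1 := by
    by_cases hx0 : x 0 = 0
    · rw [hx0] at b0
      have h3 : thi d ^ 2 + e * th d = 0 := by
        rcases mul_eq_zero.1 (by simpa using b0 : x 2 * (thi d ^ 2 + e * th d) = 0) with h4 | h4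
        · exact absurd h4 hx2
        · exact h4
      have h4 : thi d ^ 3 = -e := by
        have : thi d ^ 3 + e * (th d * thi d) = 0 := by linear_combination thi d * h3
        rw [hth] at this
        linear_combination this
      have h5 : thi d ^ 12 = (thi d ^ 3) ^ 4 := by ring
      rw [h5, h4]
      linear_combination ((e : ℂ) ^ 2 + 1) * he2
    · have hs : s = -e := by
        have h3 : (s + e) * x 0 = 0 := by linear_combination -a0
        rcases mul_eq_zero.1 h3 with h4 | h4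
        · linear_combination h4
        · exact absurd h4 hx0
      -- `x 0 * th = t * s * x 2`
      have h3 : x 0 * th d = t * s * x 2 := by
        rw [a2] at b1
        rw [hs] at b1 ⊢
        linear_combination b1
      have h4 : x 0 = t * s * x 2 * thi d := by
        linear_combination thi d * h3 - x 0 * hth
      have h5 : (thi d ^ 5 + th d) * (e * x 2) = 0 := by
        rw [h4, hs, ht] at b0
        have h6 : (e * thi d ^ 2 * -(e : ℂ) * x 2 * thi d) * th d =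
            -((e : ℂ) ^ 2) * thi d ^ 2 * x 2 * (th d * thi d) := by ring
        rw [h6, hth, he2] at b0
        linear_combination b0 - e * thi d ^ 5 * x 2 * he2
      have h6 : thi d ^ 5 + th d = 0 := by
        rcases mul_eq_zero.1 h5 with h7 | h7
        · exact h7
        · exact absurd h7 (mul_ne_zero he0 hx2)
      have h7 : thi d ^ 6 = -1 := by
        have : thi d ^ 6 + th d * thi d = 0 := by linear_combination thi d * h6
        rw [hth] at this
        linear_combination this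
      have h8 : thi d ^ 12 = (thi d ^ 6) ^ 2 := by ring
      rw [h8, h7]
      norm_num
  refine ⟨hx2, hs2, ?_⟩
  rw [ht, mul_pow, ← pow_mul, h12]
  have : (e : ℂ) ^ 6 = ((e : ℂ) ^ 2) ^ 3 := by ring
  rw [this, he2]
  norm_num

theorem VAN1_cross {x y : Fin 3 → ℂ} (hx : x ≠ 0) (hxy : ∀ t : ℂ, y ≠ t • x) :
    ∃ l : Fin 3 → ℂ, l ≠ 0 ∧ ∀ v : Fin 3 → ℂ, v ⬝ᵥ x = 0 → v ⬝ᵥ y = 0 → ∃ c : ℂ, v = c • l := by
  let l : Fin 3 → ℂ :=
    ![x 1 * y 2 - x 2 * y 1, x 2 * y 0 - x 0 * y 2, x 0 * y 1 - x 1 * y 0]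
  have l0 : l 0 = x 1 * y 2 - x 2 * y 1 := rfl
  have l1 : l 1 = x 2 * y 0 - x 0 * y 2 := rfl
  have l2 : l 2 = x 0 * y 1 - x 1 * y 0 := rfl
  have hl : l ≠ 0 := by
    intro h
    have e0 : x 1 * y 2 - x 2 * y 1 = 0 := by rw [← l0, h]; rfl
    have e1 : x 2 * y 0 - x 0 * y 2 = 0 := by rw [← l1, h]; rfl
    have e2 : x 0 * y 1 - x 1 * y 0 = 0 := by rw [← l2, h]; rfl
    obtain ⟨i, hi⟩ : ∃ i, x i ≠ 0 := by
      by_contra hno
      push Not at hno
      exact hx (funext hno)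
    apply hxy (y i / x i)
    have key : ∀ j, x i * y j = x j * y i := by
      intro j
      fin_cases i <;> fin_cases j <;> simp only [Fin.zero_eta, Fin.mk_one, Fin.reduceFinMk] <;>
        first
          | ring1
          | linear_combination e0
          | linear_combination -e0
          | linear_combination e1
          | linear_combination -e1
          | linear_combination e2
          | linear_combination -e2
    ext j
    rw [Pi.smul_apply, smul_eq_mul, div_mul_eq_mul_div, eq_div_iff hi]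
    linear_combination key j
  refine ⟨l, hl, ?_⟩
  intro v h1 h2
  have h1' : v 0 * x 0 + v 1 * x 1 + v 2 * x 2 = 0 := by
    simpa [dotProduct, Fin.sum_univ_three] using h1
  have h2' : v 0 * y 0 + v 1 * y 1 + v 2 * y 2 = 0 := by
    simpa [dotProduct, Fin.sum_univ_three] using h2
  have k01 : v 0 * l 1 = v 1 * l 0 := by
    rw [l0, l1]; linear_combination x 2 * h2' - y 2 * h1'
  have k12 : v 1 * l 2 = v 2 * l 1 := by
    rw [l1, l2]; linear_combination x 0 * h2' - y 0 * h1'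
  have k20 : v 2 * l 0 = v 0 * l 2 := by
    rw [l2, l0]; linear_combination x 1 * h2' - y 1 * h1'
  obtain ⟨i, hi⟩ : ∃ i, l i ≠ 0 := by
    by_contra hno
    push Not at hno
    exact hl (funext hno)
  refine ⟨v i / l i, ?_⟩
  have key : ∀ j, v j * l i = v i * l j := by
    intro j
    fin_cases i <;> fin_cases j <;> simp only [Fin.zero_eta, Fin.mk_one, Fin.reduceFinMk] <;>
      first
        | ring1
        | linear_combination k01
        | linear_combination -k01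
        | linear_combination k12
        | linear_combination -k12
        | linear_combination k20
        | linear_combination -k20
  ext j
  rw [Pi.smul_apply, smul_eq_mul, div_mul_eq_mul_div, eq_div_iff hi]
  exact key j

/-- rank 1 is impossible -/
theorem VAN1_blk (hd : 1 ≤ d) (he : e = 1 ∨ e = -1) (h : Row d e ψ C a) (x y : Fin 3 → ℂ)
    (hx : x ≠ 0) (hx0 : ∀ z ∈ H, ψ z ⬝ᵥ x = 0) (hy0 : ∀ z ∈ H, ψ z ⬝ᵥ y = 0)
    (hxy : ∀ t : ℂ, y ≠ t • x) : ∀ z ∈ H, ψ z = 0 := by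
  obtain ⟨l, hl, hspan⟩ := VAN1_cross hx hxy
  have hc : ∀ z ∈ H, ∃ c : ℂ, ψ z = c • l := fun z hz => hspan _ (hx0 z hz) (hy0 z hz)
  by_contra hno
  push Not at hno
  obtain ⟨z0, hz0, hψ0⟩ := hno
  obtain ⟨c0, hc0⟩ := hc z0 hz0
  obtain ⟨c1, hc1⟩ := hc (z0 + 1) (T_mem hz0)
  obtain ⟨c2, hc2⟩ := hc (-1 / z0) (S_mem hz0)
  have hc0' : c0 ≠ 0 := by
    rintro rfl
    exact hψ0 (by rw [hc0, zero_smul])
  have hz00 : z0 ≠ 0 := by
    rintro rfl
    exact absurd hz0 (by simp [H])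
  have hT := h.T z0 hz0
  rw [hc1, hc0, Matrix.smul_vecMul] at hT
  have hS := h.S z0 hz0
  rw [hc2, hc0, Matrix.smul_vecMul] at hS
  have hne : ∀ c : ℂ, c ≠ 0 → c • l ≠ 0 := fun c hc => smul_ne_zero hc hl
  have hc1' : c1 ≠ 0 := by
    rintro rfl
    rw [zero_smul] at hT
    exact hne c0 hc0' hT.symm
  have hc2' : c2 ≠ 0 := by
    rintro rfl
    rw [zero_smul, smul_smul] at hS
    exact hne _ (mul_ne_zero (pow_ne_zero 2 hz00) hc0') hS.symm
  obtain ⟨t, hT'⟩ : ∃ t : ℂ, l ᵥ* AT d e = t • l := by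
    refine ⟨c0 / c1, ?_⟩
    rw [div_eq_inv_mul, mul_smul, ← hT, smul_smul, inv_mul_cancel₀ hc1', one_smul]
  obtain ⟨s, hS'⟩ : ∃ s : ℂ, l ᵥ* AS e = s • l := by
    refine ⟨z0 ^ 2 * c0 / c2, ?_⟩
    rw [div_eq_inv_mul, mul_smul, mul_smul, ← hS, smul_smul, inv_mul_cancel₀ hc2', one_smul]
  obtain ⟨hl2, hs, ht⟩ := EIGR_blk he l hl _ _ hS' hT'
  -- the scalar function
  have hg : ∀ z ∈ H, ψ z = (ψ z 2 / l 2) • l := by
    intro z hz
    obtain ⟨c, hcz⟩ := hc z hz
    have h1 : ψ z 2 / l 2 = c := by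
      rw [hcz, Pi.smul_apply, smul_eq_mul, mul_div_assoc, div_self hl2, mul_one]
    rw [h1, ← hcz]
  have hgT : ∀ z ∈ H, (ψ (z + 1) 2 / l 2) * t = ψ z 2 / l 2 := by
    intro z hz
    have h1 := h.T z hz
    rw [hg (z + 1) (T_mem hz), Matrix.smul_vecMul, hT'] at h1
    have h2 := congrFun h1 2
    rw [Pi.smul_apply, Pi.smul_apply, smul_eq_mul, smul_eq_mul] at h2
    rw [← h2, ← mul_assoc, mul_div_assoc, div_self hl2, mul_one]
  have hgS : ∀ z ∈ H, (ψ (-1 / z) 2 / l 2) * s = z ^ 2 * (ψ z 2 / l 2) := by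
    intro z hz
    have h1 := h.S z hz
    rw [hg (-1 / z) (S_mem hz), Matrix.smul_vecMul, hS'] at h1
    have h2 := congrFun h1 2
    rw [Pi.smul_apply, Pi.smul_apply, Pi.smul_apply, smul_eq_mul, smul_eq_mul, smul_eq_mul] at h2
    rw [← mul_div_assoc (z ^ 2), ← h2, ← mul_assoc, mul_div_assoc _ (l 2), div_self hl2, mul_one]
  obtain ⟨hν0, hν1, hν2⟩ := nu_bds d hd e he
  have hF : ∀ z ∈ H, (fun z => (ψ z 2 / l 2) ^ 6) z = 0 := by
    refine WGT_blk 1 (fun z => (ψ z 2 / l 2) ^ 6) ?_ ?_ ?_ (C ^ 6 / ‖l 2‖ ^ 6)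
      ((d : ℝ) / 4 + 6 * (1 - nu d e)) (6 * a) (by push_cast; exact hν2) ?_
    · exact ((h.hol 2).div_const _).pow 6
    · intro z hz
      show (ψ (z + 1) 2 / l 2) ^ 6 = (ψ z 2 / l 2) ^ 6
      rw [← hgT z hz, mul_pow, ht, mul_one]
    · intro z hz
      show (ψ (-1 / z) 2 / l 2) ^ 6 = z ^ (12 * 1) * (ψ z 2 / l 2) ^ 6
      have h1 : s ^ 6 = 1 := by
        have : s ^ 6 = (s ^ 2) ^ 3 := by ring
        rw [this, hs, one_pow]
      have h2 : z ^ (12 * 1) * (ψ z 2 / l 2) ^ 6 = (z ^ 2 * (ψ z 2 / l 2)) ^ 6 := by ring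
      rw [h2, ← hgS z hz, mul_pow, h1, mul_one]
    · intro z hz
      have hu := h.u z (by linarith)
      have h1 : ‖(ψ z 2 / l 2) ^ 6‖ = ‖ψ z 2‖ ^ 6 / ‖l 2‖ ^ 6 := by
        rw [norm_pow, norm_div, div_pow]
      show ‖(ψ z 2 / l 2) ^ 6‖ ≤ _
      rw [h1]
      have h2 := pow_le_pow_left₀ (norm_nonneg _) hu 6
      have h3 : 0 < ‖l 2‖ ^ 6 := by positivity
      have h4 : (C * mu z ^ a * Real.exp (-(2 * π * (((d : ℝ) / 24 + 1 - nu d e) * z.im)))) ^ 6 =
          C ^ 6 * mu z ^ (6 * a) *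
            Real.exp (-(2 * π * (((d : ℝ) / 4 + 6 * (1 - nu d e)) * z.im))) := by
        rw [mul_pow, mul_pow, ← pow_mul, mul_comm a 6, ← Real.exp_nat_mul]
        congr 2
        push_cast
        ring
      rw [h4] at h2
      calc ‖ψ z 2‖ ^ 6 / ‖l 2‖ ^ 6 ≤ (C ^ 6 * mu z ^ (6 * a) *
            Real.exp (-(2 * π * (((d : ℝ) / 4 + 6 * (1 - nu d e)) * z.im)))) / ‖l 2‖ ^ 6 := by
            gcongr
        _ = C ^ 6 / ‖l 2‖ ^ 6 * mu z ^ (6 * a) *
            Real.exp (-(2 * π * (((d : ℝ) / 4 + 6 * (1 - nu d e)) * z.im))) := by ring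
  have h1 := hF z0 hz0
  have h2 : ψ z0 2 / l 2 = 0 := by
    have h3 : (ψ z0 2 / l 2) ^ 6 = 0 := h1
    exact pow_eq_zero_iff (by norm_num) |>.1 h3
  apply hψ0
  rw [hg z0 hz0, h2, zero_smul]

end Pool.Agent.K2
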