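import Pool.Agent.Lib_helper98.K2.Defs
import Pool.Agent.Lib_helper98.K2.W.MOB1

set_option autoImplicit false

namespace Pool.Agent.K2

open Complex Matrix MeasureTheory
open scoped MatrixGroups Real

/-- Cauchy estimate for the derivative -/
theorem CAU_blk (f : ℂ → ℂ) (hf : DifferentiableOn ℂ f H) (Y0 C s : ℝ) (a : ℕ) (hY : 1 ≤ Y0)
    (hg : ∀ z : ℂ, Y0 ≤ z.im → ‖f z‖ ≤ C * mu z ^ a * Real.exp (-(2 * π * (s * z.im)))) :
    ∃ C' : ℝ, ∀ z : ℂ, Y0 + 1 / 2 ≤ z.im →
      ‖deriv f z‖ ≤ C' * mu z ^ a * Real.exp (-(2 * π * (s * z.im))) := by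
  refine ⟨2 * (|C| * Real.exp (2 * π * |s|) * 3 ^ a), ?_⟩
  intro z hz
  have hz0 : 0 < z.im := by linarith
  have hsph : ∀ w ∈ Metric.sphere z (1 / 2), Y0 ≤ w.im ∧ w.im ≤ z.im + 1 / 2 ∧
      z.im - 1 / 2 ≤ w.im ∧ ‖w‖ ≤ ‖z‖ + 1 / 2 := by
    intro w hw
    rw [mem_sphere_iff_norm] at hw
    have h1 := Complex.abs_im_le_norm (w - z)
    rw [hw, Complex.sub_im, abs_le] at h1
    refine ⟨by linarith [h1.1], by linarith [h1.2], by linarith [h1.1], ?_⟩
    calc ‖w‖ = ‖z + (w - z)‖ := by congr 1; ring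
      _ ≤ ‖z‖ + ‖w - z‖ := norm_add_le _ _
      _ = ‖z‖ + 1 / 2 := by rw [hw]
  have key := Complex.norm_deriv_le_of_forall_mem_sphere_norm_le (c := z) (R := 1 / 2)
    (C := |C| * Real.exp (2 * π * |s|) * 3 ^ a * mu z ^ a * Real.exp (-(2 * π * (s * z.im))))
    (f := f) (by norm_num) ?_ ?_
  · calc ‖deriv f z‖ ≤ _ := key
      _ = _ := by ring
  · refine DifferentiableOn.diffContOnCl (hf.mono ?_)
    rw [closure_ball z (by norm_num : (1 / 2 : ℝ) ≠ 0)]
    intro w hw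
    rw [Metric.mem_closedBall, dist_eq_norm] at hw
    have h1 := Complex.abs_im_le_norm (w - z)
    rw [Complex.sub_im] at h1
    have h2 := (abs_le.1 (h1.trans hw)).1
    show 0 < w.im
    linarith
  · intro w hw
    obtain ⟨h1, h2, h3, h4⟩ := hsph w hw
    have hw0 : 0 < w.im := by linarith
    refine (hg w h1).trans ?_
    have e1 : Real.exp (-(2 * π * (s * w.im))) ≤
        Real.exp (2 * π * |s|) * Real.exp (-(2 * π * (s * z.im))) := by
      rw [← Real.exp_add]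
      apply Real.exp_le_exp.2
      have : s * (z.im - w.im) ≤ |s| * 1 := by
        refine (le_abs_self _).trans ?_
        rw [abs_mul]
        exact mul_le_mul_of_nonneg_left (abs_le.2 ⟨by linarith, by linarith⟩) (abs_nonneg _)
      nlinarith [Real.pi_pos]
    have e2 : mu w ≤ 3 * mu z := by
      unfold mu
      have hn : 1 + ‖w‖ ^ 2 ≤ 2 * (1 + ‖z‖ ^ 2) := by
        nlinarith [norm_nonneg w, norm_nonneg z, sq_nonneg (‖z‖ - 1 / 2)]
      have hwi : 2 * z.im ≤ 3 * w.im := by linarith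
      rw [div_le_iff₀ hw0]
      have e3 : 3 * ((1 + ‖z‖ ^ 2) / z.im) * w.im
          = 2 * (1 + ‖z‖ ^ 2) * ((3 * w.im) / (2 * z.im)) := by
        field_simp
      rw [e3]
      have : 1 ≤ (3 * w.im) / (2 * z.im) := by
        rw [le_div_iff₀ (by positivity)]; linarith
      calc 1 + ‖w‖ ^ 2 ≤ 2 * (1 + ‖z‖ ^ 2) := hn
        _ = 2 * (1 + ‖z‖ ^ 2) * 1 := by ring
        _ ≤ _ := mul_le_mul_of_nonneg_left this (by positivity)
    have hmw : 0 ≤ mu w := by unfold mu; positivity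
    have hmz : 0 ≤ mu z := by unfold mu; positivity
    have e4 : mu w ^ a ≤ 3 ^ a * mu z ^ a := by
      rw [← mul_pow]
      exact pow_le_pow_left₀ hmw e2 a
    calc C * mu w ^ a * Real.exp (-(2 * π * (s * w.im)))
        ≤ |C| * mu w ^ a * Real.exp (-(2 * π * (s * w.im))) := by
          have := le_abs_self C
          gcongr
      _ ≤ |C| * (3 ^ a * mu z ^ a) *
          (Real.exp (2 * π * |s|) * Real.exp (-(2 * π * (s * z.im)))) := by gcongr
      _ = _ := by ring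

end Pool.Agent.K2
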