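import Pool.Agent.Lib_helper98.K2.Defs
import Pool.Agent.Lib_helper98.K2.W.MOB1

set_option autoImplicit false

namespace Pool.Agent.K2.DEP

open Complex Set Filter Topology

lemma wr_open : IsOpen {z : ℂ | 0 < z.im} := isOpen_lt continuous_const Complex.continuous_im

lemma wr_conn : IsPreconnected {z : ℂ | 0 < z.im} := (convex_halfSpace_im_gt 0).isPreconnected

/-- identity theorem on `H`. -/
lemma wr_ident {f : ℂ → ℂ} (hf : DifferentiableOn ℂ f {z | 0 < z.im}) {z0 : ℂ} (h0 : 0 < z0.im)
    (h : ∀ᶠ z in 𝓝 z0, f z = 0) : ∀ z, 0 < z.im → f z = 0 := by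
  have hA : AnalyticOnNhd ℂ f {z | 0 < z.im} := hf.analyticOnNhd wr_open
  have hE := hA.eqOn_zero_of_preconnected_of_eventuallyEq_zero wr_conn h0 h
  intro z hz
  exact hE hz

lemma wr_deriv {f : ℂ → ℂ} (hf : DifferentiableOn ℂ f {z | 0 < z.im}) :
    DifferentiableOn ℂ (deriv f) {z | 0 < z.im} := hf.deriv wr_open

lemma wr_at {f : ℂ → ℂ} (hf : DifferentiableOn ℂ f {z | 0 < z.im}) {z : ℂ} (hz : 0 < z.im) :
    DifferentiableAt ℂ f z := hf.differentiableAt (wr_open.mem_nhds hz)

/-- If `n' d = n d'` near `z0` and `d z0 ≠ 0`, then `n = c d` near `z0`, so `n = c d` on `H`. -/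
lemma wr_quot {n d : ℂ → ℂ} (hn : DifferentiableOn ℂ n {z | 0 < z.im})
    (hd : DifferentiableOn ℂ d {z | 0 < z.im}) {z0 : ℂ} (h0 : 0 < z0.im) (hz0 : d z0 ≠ 0)
    (h : ∀ z, 0 < z.im → deriv n z * d z - n z * deriv d z = 0) :
    ∃ c : ℂ, ∀ z, 0 < z.im → n z - c * d z = 0 := by
  have hdc : ContinuousAt d z0 := (wr_at hd h0).continuousAt
  have hev : ∀ᶠ z in 𝓝 z0, d z ≠ 0 ∧ 0 < z.im :=
    (hdc.eventually_ne hz0).and (wr_open.mem_nhds h0)
  obtain ⟨r, hr, hball⟩ := Metric.eventually_nhds_iff_ball.1 hev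
  have hc : ∀ z ∈ Metric.ball z0 r, n z / d z = n z0 / d z0 := by
    intro z hz
    refine Metric.isOpen_ball.is_const_of_deriv_eq_zero
      (f := fun w => n w / d w) (s := Metric.ball z0 r)
      (convex_ball z0 r).isPreconnected ?_ ?_ hz (Metric.mem_ball_self hr)
    · intro w hw
      exact ((wr_at hn (hball w hw).2).div (wr_at hd (hball w hw).2)
        (hball w hw).1).differentiableWithinAt
    · intro w hw
      have := ((wr_at hn (hball w hw).2).hasDerivAt.div (wr_at hd (hball w hw).2).hasDerivAt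
        (hball w hw).1).deriv
      have h2 := h w (hball w hw).2
      simp only [Pi.zero_apply]
      rw [show (fun w => n w / d w) = n / d from rfl, this, h2, zero_div]
  refine ⟨n z0 / d z0, ?_⟩
  refine wr_ident (f := fun z => n z - n z0 / d z0 * d z)
    (hn.sub ((differentiableOn_const _).mul hd)) h0 ?_
  filter_upwards [Metric.ball_mem_nhds z0 hr] with z hz
  have h1 := hc z hz
  have h2 := (hball z hz).1
  field_simp at h1 ⊢
  linear_combination h1

theorem wr2 {f g : ℂ → ℂ} (hf : DifferentiableOn ℂ f {z | 0 < z.im})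
    (hg : DifferentiableOn ℂ g {z | 0 < z.im})
    (h : ∀ z : ℂ, 0 < z.im → f z * deriv g z - deriv f z * g z = 0) :
    ∃ a b : ℂ, (a ≠ 0 ∨ b ≠ 0) ∧ ∀ z : ℂ, 0 < z.im → a * f z + b * g z = 0 := by
  by_cases hz : ∀ z : ℂ, 0 < z.im → f z = 0
  · exact ⟨1, 0, Or.inl one_ne_zero, fun z h => by rw [hz z h]; ring⟩
  · push Not at hz
    obtain ⟨z0, h0, hz0⟩ := hz
    obtain ⟨c, hc⟩ := wr_quot (n := g) (d := f) hg hf h0 hz0
      (fun z hz => by linear_combination h z hz)
    exact ⟨-c, 1, Or.inr one_ne_zero, fun z h => by linear_combination hc z h⟩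

theorem wr3 {f g h : ℂ → ℂ} (hf : DifferentiableOn ℂ f {z | 0 < z.im})
    (hg : DifferentiableOn ℂ g {z | 0 < z.im}) (hh : DifferentiableOn ℂ h {z | 0 < z.im})
    (hW : ∀ z : ℂ, 0 < z.im →
      Matrix.det !![f z, g z, h z; deriv f z, deriv g z, deriv h z;
        deriv (deriv f) z, deriv (deriv g) z, deriv (deriv h) z] = 0) :
    ∃ a b c : ℂ, (a ≠ 0 ∨ b ≠ 0 ∨ c ≠ 0) ∧
      ∀ z : ℂ, 0 < z.im → a * f z + b * g z + c * h z = 0 := by
  by_cases hz : ∀ z : ℂ, 0 < z.im → f z * deriv g z - deriv f z * g z = 0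
  · obtain ⟨a, b, hab, H⟩ := wr2 hf hg hz
    refine ⟨a, b, 0, ?_, fun z hz => by linear_combination H z hz⟩
    rcases hab with h | h
    · exact Or.inl h
    · exact Or.inr (Or.inl h)
  · push Not at hz
    obtain ⟨z0, h0, hz0⟩ := hz
    have f1 := wr_deriv hf
    have g1 := wr_deriv hg
    have h1 := wr_deriv hh
    have hdW : ∀ z : ℂ, 0 < z.im → deriv (fun z => f z * deriv g z - deriv f z * g z) z
        = f z * deriv (deriv g) z - deriv (deriv f) z * g z := by
      intro z hz
      have := ((wr_at hf hz).hasDerivAt.mul (wr_at g1 hz).hasDerivAt).sub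
        ((wr_at f1 hz).hasDerivAt.mul (wr_at hg hz).hasDerivAt)
      have e := this.deriv
      have e2 : (fun z => f z * deriv g z - deriv f z * g z) = f * deriv g - deriv f * g := rfl
      rw [e2, e]; ring
    have hdA : ∀ z : ℂ, 0 < z.im → deriv (fun z => h z * deriv g z - deriv h z * g z) z
        = h z * deriv (deriv g) z - deriv (deriv h) z * g z := by
      intro z hz
      have := ((wr_at hh hz).hasDerivAt.mul (wr_at g1 hz).hasDerivAt).sub
        ((wr_at h1 hz).hasDerivAt.mul (wr_at hg hz).hasDerivAt)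
      have e := this.deriv
      have e2 : (fun z => h z * deriv g z - deriv h z * g z) = h * deriv g - deriv h * g := rfl
      rw [e2, e]; ring
    have hdB : ∀ z : ℂ, 0 < z.im → deriv (fun z => f z * deriv h z - deriv f z * h z) z
        = f z * deriv (deriv h) z - deriv (deriv f) z * h z := by
      intro z hz
      have := ((wr_at hf hz).hasDerivAt.mul (wr_at h1 hz).hasDerivAt).sub
        ((wr_at f1 hz).hasDerivAt.mul (wr_at hh hz).hasDerivAt)
      have e := this.deriv
      have e2 : (fun z => f z * deriv h z - deriv f z * h z) = f * deriv h - deriv f * h := rfl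
      rw [e2, e]; ring
    have dW : DifferentiableOn ℂ (fun z => f z * deriv g z - deriv f z * g z) {z | 0 < z.im} :=
      (hf.mul g1).sub (f1.mul hg)
    have dA : DifferentiableOn ℂ (fun z => h z * deriv g z - deriv h z * g z) {z | 0 < z.im} :=
      (hh.mul g1).sub (h1.mul hg)
    have dB : DifferentiableOn ℂ (fun z => f z * deriv h z - deriv f z * h z) {z | 0 < z.im} :=
      (hf.mul h1).sub (f1.mul hh)
    obtain ⟨a, ha⟩ := wr_quot (n := fun z => h z * deriv g z - deriv h z * g z)
      (d := fun z => f z * deriv g z - deriv f z * g z) dA dW h0 hz0 (by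
        intro z hz
        rw [hdA z hz, hdW z hz]
        have := hW z hz
        rw [Matrix.det_fin_three] at this
        simp at this
        linear_combination (-(g z)) * this)
    obtain ⟨b, hb⟩ := wr_quot (n := fun z => f z * deriv h z - deriv f z * h z)
      (d := fun z => f z * deriv g z - deriv f z * g z) dB dW h0 hz0 (by
        intro z hz
        rw [hdB z hz, hdW z hz]
        have := hW z hz
        rw [Matrix.det_fin_three] at this
        simp at this
        linear_combination (f z) * this)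
    refine ⟨a, b, -1, Or.inr (Or.inr (by norm_num)), ?_⟩
    refine wr_ident (f := fun z => a * f z + b * g z + (-1) * h z)
      ((((differentiableOn_const _).mul hf).add ((differentiableOn_const _).mul hg)).add
        ((differentiableOn_const _).mul hh)) h0 ?_
    have hWc : ContinuousAt (fun z => f z * deriv g z - deriv f z * g z) z0 :=
      (wr_at dW h0).continuousAt
    filter_upwards [hWc.eventually_ne hz0, wr_open.mem_nhds h0] with z hne hz
    have h1 := ha z hz
    have h2 := hb z hz
    have : (f z * deriv g z - deriv f z * g z) * (a * f z + b * g z + -1 * h z) = 0 := by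
      linear_combination (-f z) * h1 + (- g z) * h2
    exact (mul_eq_zero.1 this).resolve_left hne

end Pool.Agent.K2.DEP

namespace Pool.Agent.K2

open Complex Matrix MeasureTheory
open scoped MatrixGroups Real

/-- Wronskian of two functions -/
theorem DEP2_blk (f g : ℂ → ℂ) (hf : DifferentiableOn ℂ f H) (hg : DifferentiableOn ℂ g H)
    (h : ∀ z ∈ H, f z * deriv g z - g z * deriv f z = 0) :
    ∃ a b : ℂ, (a ≠ 0 ∨ b ≠ 0) ∧ ∀ z ∈ H, a * f z + b * g z = 0 :=
  DEP.wr2 hf hg (fun z hz => by linear_combination h z hz)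

/-- Wronskian of three functions -/
theorem DEP3_blk (f : ℂ → Fin 3 → ℂ) (hf : ∀ i, DifferentiableOn ℂ (fun z => f z i) H)
    (h : ∀ z ∈ H, (WM f z).det = 0) :
    ∃ x : Fin 3 → ℂ, x ≠ 0 ∧ ∀ z ∈ H, f z ⬝ᵥ x = 0 := by
  obtain ⟨a, b, c, habc, H1⟩ := DEP.wr3 (f := fun z => f z 0) (g := fun z => f z 1)
    (h := fun z => f z 2) (hf 0) (hf 1) (hf 2) (by
      intro z hz
      rw [← h z hz]
      congr 1
      ext i j
      fin_cases i <;> fin_cases j <;> simp [WM])
  refine ⟨![a, b, c], ?_, ?_⟩
  · intro h0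
    have e0 := congrFun h0 0
    have e1 := congrFun h0 1
    have e2 := congrFun h0 2
    simp at e0 e1 e2
    rcases habc with h | h | h
    · exact h e0
    · exact h e1
    · exact h e2
  · intro z hz
    have := H1 z hz
    simp [dotProduct, Fin.sum_univ_three]
    linear_combination this

end Pool.Agent.K2
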