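import Pool.Agent.Lib_helper98.K2.Defs
import Pool.Agent.Lib_helper98.K2.W.MOB1

set_option autoImplicit false

namespace Pool.Agent.K2.WTR

open Complex Set Filter Topology

lemma wr_open : IsOpen {z : ℂ | 0 < z.im} := isOpen_lt continuous_const Complex.continuous_im

lemma wr_deriv {f : ℂ → ℂ} (hf : DifferentiableOn ℂ f {z | 0 < z.im}) :
    DifferentiableOn ℂ (deriv f) {z | 0 < z.im} := hf.deriv wr_open

lemma wr_at {f : ℂ → ℂ} (hf : DifferentiableOn ℂ f {z | 0 < z.im}) {z : ℂ} (hz : 0 < z.im) :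
    DifferentiableAt ℂ f z := hf.differentiableAt (wr_open.mem_nhds hz)

lemma S_im {z : ℂ} (hz : 0 < z.im) : 0 < (-1 / z).im := by
  have hne : z ≠ 0 := by rintro rfl; simp at hz
  rw [neg_div, one_div, Complex.neg_im, Complex.inv_im]
  have : 0 < Complex.normSq z := Complex.normSq_pos.2 hne
  rw [neg_div, neg_neg]
  positivity

/-- derivative under `z ↦ z + 1` -/
lemma d_T {h k : ℂ → ℂ} (hE : ∀ z : ℂ, 0 < z.im → h (z + 1) = k z) {z : ℂ} (hz : 0 < z.im) :
    deriv h (z + 1) = deriv k z := by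
  have h1 : (fun w => h (w + 1)) =ᶠ[𝓝 z] k := by
    filter_upwards [wr_open.mem_nhds hz] with w hw
    exact hE w hw
  rw [← h1.deriv_eq, deriv_comp_add_const]

/-- derivative under `z ↦ -1/z` -/
lemma d_S {h k : ℂ → ℂ} (hh : DifferentiableOn ℂ h {z | 0 < z.im})
    (hE : ∀ z : ℂ, 0 < z.im → h (-1 / z) = k z) {z : ℂ} (hz : 0 < z.im) :
    deriv h (-1 / z) = z ^ 2 * deriv k z := by
  have hne : z ≠ 0 := by rintro rfl; simp at hz
  have h1 : (fun w => h (-1 / w)) =ᶠ[𝓝 z] k := by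
    filter_upwards [wr_open.mem_nhds hz] with w hw
    exact hE w hw
  have h2 : HasDerivAt (fun w : ℂ => -1 / w) (1 / z ^ 2) z := by
    have := (hasDerivAt_inv hne).neg
    have e : (fun w : ℂ => -1 / w) = fun w : ℂ => -w⁻¹ := by
      funext w; rw [neg_div, one_div]
    rw [e]
    convert! this using 1
    field_simp
  have h3 := (wr_at hh (S_im hz)).hasDerivAt.comp z h2
  have h4 : deriv (fun w => h (-1 / w)) z = deriv h (-1 / z) * (1 / z ^ 2) := h3.deriv
  rw [← h1.deriv_eq, h4]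
  field_simp

end Pool.Agent.K2.WTR

namespace Pool.Agent.K2

open Complex Matrix MeasureTheory
open scoped MatrixGroups Real

theorem WM_hol (f : ℂ → Fin 3 → ℂ) (hf : ∀ i, DifferentiableOn ℂ (fun z => f z i) H) :
    DifferentiableOn ℂ (fun z => (WM f z).det) H := by
  have h0 := fun i => WTR.wr_deriv (hf i)
  have h1 := fun i => WTR.wr_deriv (h0 i)
  simp only [Matrix.det_fin_three, WM, Matrix.of_apply, Matrix.cons_val_zero, Matrix.cons_val_one,
    Matrix.cons_val]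
  have a0 : DifferentiableOn ℂ (fun z => f z 0) {z | 0 < z.im} := hf 0
  have a1 : DifferentiableOn ℂ (fun z => f z 1) {z | 0 < z.im} := hf 1
  have a2 : DifferentiableOn ℂ (fun z => f z 2) {z | 0 < z.im} := hf 2
  exact (((((((a0.mul (h0 1)).mul (h1 2)).sub ((a0.mul (h0 2)).mul (h1 1))).sub
    ((a1.mul (h0 0)).mul (h1 2))).add ((a1.mul (h0 2)).mul (h1 0))).add
    ((a2.mul (h0 0)).mul (h1 1))).sub ((a2.mul (h0 1)).mul (h1 0)))


lemma WTR.vm (x : Fin 3 → ℂ) (A : Matrix (Fin 3) (Fin 3) ℂ) (i : Fin 3) :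
    (x ᵥ* A) i = x 0 * A 0 i + x 1 * A 1 i + x 2 * A 2 i := by
  simp [Matrix.vecMul, dotProduct, Fin.sum_univ_three]

lemma WTR.lin3 {a b c : ℂ → ℂ} (ha : DifferentiableOn ℂ a H) (hb : DifferentiableOn ℂ b H)
    (hc : DifferentiableOn ℂ c H) (s t u : ℂ) {z : ℂ} (hz : z ∈ H) :
    deriv (fun w => a w * s + b w * t + c w * u) z = deriv a z * s + deriv b z * t +
      deriv c z * u :=
  ((((WTR.wr_at ha hz).hasDerivAt.mul_const s).add ((WTR.wr_at hb hz).hasDerivAt.mul_const t)).add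
    ((WTR.wr_at hc hz).hasDerivAt.mul_const u)).deriv

theorem WM_T (f : ℂ → Fin 3 → ℂ) (hf : ∀ i, DifferentiableOn ℂ (fun z => f z i) H)
    (A : Matrix (Fin 3) (Fin 3) ℂ) (h : ∀ z ∈ H, f (z + 1) = f z ᵥ* A) :
    ∀ z ∈ H, (WM f (z + 1)).det = A.det * (WM f z).det := by
  intro z hz
  have k0 : ∀ i, ∀ z : ℂ, 0 < z.im → (fun w => f w i) (z + 1) =
      (fun w => f w 0 * A 0 i + f w 1 * A 1 i + f w 2 * A 2 i) z := by
    intro i z hz
    simp only
    rw [h z hz, WTR.vm]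
  have k1 : ∀ i, ∀ z : ℂ, 0 < z.im → deriv (fun w => f w i) (z + 1) =
      (fun w => deriv (fun w => f w 0) w * A 0 i + deriv (fun w => f w 1) w * A 1 i +
        deriv (fun w => f w 2) w * A 2 i) z := by
    intro i z hz
    rw [WTR.d_T (k0 i) hz, WTR.lin3 (hf 0) (hf 1) (hf 2) _ _ _ hz]
  have k2 : ∀ i, ∀ z : ℂ, 0 < z.im → deriv (deriv (fun w => f w i)) (z + 1) =
      (fun w => deriv (deriv (fun w => f w 0)) w * A 0 i + deriv (deriv (fun w => f w 1)) w * A 1 i +
        deriv (deriv (fun w => f w 2)) w * A 2 i) z := by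
    intro i z hz
    rw [WTR.d_T (k1 i) hz, WTR.lin3 (WTR.wr_deriv (hf 0)) (WTR.wr_deriv (hf 1)) (WTR.wr_deriv (hf 2))
      _ _ _ hz]
  have e : WM f (z + 1) = WM f z * A := by
    ext i j
    fin_cases i
    · simp only [WM, Matrix.of_apply, Matrix.mul_apply, Fin.sum_univ_three]
      simpa using k0 j z hz
    · simp only [WM, Matrix.of_apply, Matrix.mul_apply, Fin.sum_univ_three]
      simpa using k1 j z hz
    · simp only [WM, Matrix.of_apply, Matrix.mul_apply, Fin.sum_univ_three]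
      simpa using k2 j z hz
  rw [e, Matrix.det_mul, mul_comm]

theorem WM_S (f : ℂ → Fin 3 → ℂ) (hf : ∀ i, DifferentiableOn ℂ (fun z => f z i) H)
    (B : Matrix (Fin 3) (Fin 3) ℂ) (h : ∀ z ∈ H, f (-1 / z) = z ^ 2 • (f z ᵥ* B)) :
    ∀ z ∈ H, (WM f (-1 / z)).det = B.det * z ^ 12 * (WM f z).det := by
  intro z hz
  have f1 := fun i => WTR.wr_deriv (hf i)
  have k0 : ∀ i, ∀ z : ℂ, 0 < z.im → (fun w => f w i) (-1 / z) =
      (fun w => w ^ 2 * (f w 0 * B 0 i + f w 1 * B 1 i + f w 2 * B 2 i)) z := by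
    intro i z hz
    simp only
    rw [h z hz, Pi.smul_apply, WTR.vm, smul_eq_mul]
  have k1 : ∀ i, ∀ z : ℂ, 0 < z.im → deriv (fun w => f w i) (-1 / z) =
      (fun w => 2 * w ^ 3 * (f w 0 * B 0 i + f w 1 * B 1 i + f w 2 * B 2 i) +
        w ^ 4 * (deriv (fun w => f w 0) w * B 0 i + deriv (fun w => f w 1) w * B 1 i +
        deriv (fun w => f w 2) w * B 2 i)) z := by
    intro i z hz
    rw [WTR.d_S (hf i) (k0 i) hz]
    have hl := (((WTR.wr_at (hf 0) hz).hasDerivAt.mul_const (B 0 i)).add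
      ((WTR.wr_at (hf 1) hz).hasDerivAt.mul_const (B 1 i))).add
      ((WTR.wr_at (hf 2) hz).hasDerivAt.mul_const (B 2 i))
    have := ((hasDerivAt_pow 2 z).mul hl).deriv
    have e : (fun w => w ^ 2 * (f w 0 * B 0 i + f w 1 * B 1 i + f w 2 * B 2 i)) =
      ((fun w : ℂ => w ^ 2) * (((fun w => f w 0 * B 0 i) + fun w => f w 1 * B 1 i) +
        fun w => f w 2 * B 2 i)) := rfl
    rw [e, this]
    simp only [Pi.add_apply]
    push_cast
    ring
  have k2 : ∀ i, ∀ z : ℂ, 0 < z.im → deriv (deriv (fun w => f w i)) (-1 / z) =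
      6 * z ^ 4 * (f z 0 * B 0 i + f z 1 * B 1 i + f z 2 * B 2 i) +
        6 * z ^ 5 * (deriv (fun w => f w 0) z * B 0 i + deriv (fun w => f w 1) z * B 1 i +
        deriv (fun w => f w 2) z * B 2 i) +
        z ^ 6 * (deriv (deriv (fun w => f w 0)) z * B 0 i +
          deriv (deriv (fun w => f w 1)) z * B 1 i +
        deriv (deriv (fun w => f w 2)) z * B 2 i) := by
    intro i z hz
    rw [WTR.d_S (f1 i) (k1 i) hz]
    have hl := (((WTR.wr_at (hf 0) hz).hasDerivAt.mul_const (B 0 i)).add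
      ((WTR.wr_at (hf 1) hz).hasDerivAt.mul_const (B 1 i))).add
      ((WTR.wr_at (hf 2) hz).hasDerivAt.mul_const (B 2 i))
    have hl' := (((WTR.wr_at (f1 0) hz).hasDerivAt.mul_const (B 0 i)).add
      ((WTR.wr_at (f1 1) hz).hasDerivAt.mul_const (B 1 i))).add
      ((WTR.wr_at (f1 2) hz).hasDerivAt.mul_const (B 2 i))
    have := ((((hasDerivAt_pow 3 z).const_mul 2).mul hl).add ((hasDerivAt_pow 4 z).mul hl')).deriv
    have e : (fun w => 2 * w ^ 3 * (f w 0 * B 0 i + f w 1 * B 1 i + f w 2 * B 2 i) +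
        w ^ 4 * (deriv (fun w => f w 0) w * B 0 i + deriv (fun w => f w 1) w * B 1 i +
        deriv (fun w => f w 2) w * B 2 i)) =
      ((fun w : ℂ => 2 * w ^ 3) * (((fun w => f w 0 * B 0 i) + fun w => f w 1 * B 1 i) +
        fun w => f w 2 * B 2 i) + (fun w : ℂ => w ^ 4) *
        (((fun w => deriv (fun w => f w 0) w * B 0 i) + fun w => deriv (fun w => f w 1) w * B 1 i) +
        fun w => deriv (fun w => f w 2) w * B 2 i)) := rfl
    rw [e, this]
    simp only [Pi.add_apply]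
    push_cast
    ring
  have e : WM f (-1 / z) = !![z ^ 2, 0, 0; 2 * z ^ 3, z ^ 4, 0; 6 * z ^ 4, 6 * z ^ 5, z ^ 6] *
      (WM f z * B) := by
    ext i j
    fin_cases i
    · simp only [WM, Matrix.of_apply, Matrix.mul_apply, Fin.sum_univ_three]
      have := k0 j z hz
      simp at this ⊢
      rw [this]
    · simp only [WM, Matrix.of_apply, Matrix.mul_apply, Fin.sum_univ_three]
      have := k1 j z hz
      simp at this ⊢
      rw [this]
    · simp only [WM, Matrix.of_apply, Matrix.mul_apply, Fin.sum_univ_three]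
      have := k2 j z hz
      simp at this ⊢
      rw [this]
  rw [e, Matrix.det_mul, Matrix.det_mul]
  have : Matrix.det !![z ^ 2, 0, 0; 2 * z ^ 3, z ^ 4, 0; 6 * z ^ 4, 6 * z ^ 5, z ^ 6] = z ^ 12 := by
    rw [Matrix.det_fin_three]
    simp
    ring
  rw [this]
  ring

theorem W2_T (f g : ℂ → ℂ) (hf : DifferentiableOn ℂ f H) (hg : DifferentiableOn ℂ g H)
    (a b c d : ℂ) (h1 : ∀ z ∈ H, f (z + 1) = a * f z + c * g z)
    (h2 : ∀ z ∈ H, g (z + 1) = b * f z + d * g z) :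
    ∀ z ∈ H, f (z + 1) * deriv g (z + 1) - g (z + 1) * deriv f (z + 1) =
      (a * d - b * c) * (f z * deriv g z - g z * deriv f z) := by
  intro z hz
  have lin : ∀ s t : ℂ, deriv (fun w => s * f w + t * g w) z = s * deriv f z + t * deriv g z :=
    fun s t => (((WTR.wr_at hf hz).hasDerivAt.const_mul s).add
      ((WTR.wr_at hg hz).hasDerivAt.const_mul t)).deriv
  have d1 : deriv f (z + 1) = a * deriv f z + c * deriv g z := by
    rw [WTR.d_T (k := fun w => a * f w + c * g w) h1 hz, lin]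
  have d2 : deriv g (z + 1) = b * deriv f z + d * deriv g z := by
    rw [WTR.d_T (k := fun w => b * f w + d * g w) h2 hz, lin]
  rw [d1, d2, h1 z hz, h2 z hz]
  ring

theorem W2_S (f g : ℂ → ℂ) (hf : DifferentiableOn ℂ f H) (hg : DifferentiableOn ℂ g H)
    (a b c d : ℂ) (h1 : ∀ z ∈ H, f (-1 / z) = z ^ 2 * (a * f z + c * g z))
    (h2 : ∀ z ∈ H, g (-1 / z) = z ^ 2 * (b * f z + d * g z)) :
    ∀ z ∈ H, f (-1 / z) * deriv g (-1 / z) - g (-1 / z) * deriv f (-1 / z) =
      z ^ 6 * (a * d - b * c) * (f z * deriv g z - g z * deriv f z) := by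
  intro z hz
  have lin : ∀ s t : ℂ, deriv (fun w => w ^ 2 * (s * f w + t * g w)) z =
      2 * z * (s * f z + t * g z) + z ^ 2 * (s * deriv f z + t * deriv g z) := by
    intro s t
    have hl := ((WTR.wr_at hf hz).hasDerivAt.const_mul s).add
      ((WTR.wr_at hg hz).hasDerivAt.const_mul t)
    have := ((hasDerivAt_pow 2 z).mul hl).deriv
    have e : (fun w => w ^ 2 * (s * f w + t * g w)) =
      ((fun w : ℂ => w ^ 2) * ((fun w => s * f w) + fun w => t * g w)) := rfl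
    rw [e, this]
    simp only [Pi.add_apply]
    push_cast
    ring
  have d1 : deriv f (-1 / z) = z ^ 2 * (2 * z * (a * f z + c * g z) +
      z ^ 2 * (a * deriv f z + c * deriv g z)) := by
    rw [WTR.d_S (k := fun w => w ^ 2 * (a * f w + c * g w)) hf h1 hz, lin]
  have d2 : deriv g (-1 / z) = z ^ 2 * (2 * z * (b * f z + d * g z) +
      z ^ 2 * (b * deriv f z + d * deriv g z)) := by
    rw [WTR.d_S (k := fun w => w ^ 2 * (b * f w + d * g w)) hg h2 hz, lin]
  rw [d1, d2, h1 z hz, h2 z hz]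
  ring

end Pool.Agent.K2
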