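import Pool.Agent.Lib_helper98.K2.Defs
import Pool.Agent.Lib_helper98.K2.W.MOB1
import Pool.Agent.Lib_helper98.K2.W.MOB2
import Pool.Agent.Lib_helper98.K2.W.ETA1
import Pool.Agent.Lib_helper98.K2.W.EMAT1
import Pool.Agent.Lib_helper98.K2.W.REP
import Pool.Agent.Lib_helper98.K2.W.LVL
import Pool.Agent.Lib_helper98.K2.W.CAU
import Pool.Agent.Lib_helper98.K2.W.DEP
import Pool.Agent.Lib_helper98.K2.W.WTR

set_option autoImplicit false

namespace Pool.Agent.K2

open Complex Matrix MeasureTheory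
open scoped MatrixGroups Real

variable {d : ℕ} {e : ℤ} {ψ : ℂ → Fin 3 → ℂ} {C : ℝ} {a : ℕ}

private theorem VAN2_pred {z : ℂ} (hz : z ∈ H) : z - 1 ∈ H := by
  show 0 < (z - 1).im
  have h1 : (z - 1).im = z.im := by simp
  rw [h1]
  exact hz

private theorem VAN2_S_S {z : ℂ} (hz : z ∈ H) : -1 / (-1 / z) = z := by
  have hz0 : z ≠ 0 := by
    intro h0
    rw [h0] at hz
    exact absurd hz (by simp [H])
  field_simp

/-- the space of relations is invariant -/
theorem REL_blk (he : e = 1 ∨ e = -1) (h : Row d e ψ C a) (x : Fin 3 → ℂ)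
    (hx : ∀ z ∈ H, ψ z ⬝ᵥ x = 0) :
    (∀ z ∈ H, ψ z ⬝ᵥ (AT d e *ᵥ x) = 0) ∧ ∀ z ∈ H, ψ z ⬝ᵥ (AS e *ᵥ x) = 0 := by
  constructor
  · intro z hz
    have h1 := h.T (z - 1) (VAN2_pred hz)
    rw [sub_add_cancel] at h1
    rw [Matrix.dotProduct_mulVec, h1]
    exact hx _ (VAN2_pred hz)
  · intro z hz
    have h1 := h.S (-1 / z) (S_mem hz)
    rw [VAN2_S_S hz] at h1
    rw [Matrix.dotProduct_mulVec, h1, smul_dotProduct, hx _ (S_mem hz), smul_zero]

private theorem VAN2_th (d : ℕ) : th d * thi d = 1 := by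
  unfold th thi
  rw [← Complex.exp_add]
  simp

private theorem VAN2_cc (d : ℕ) : cc d = thi d ^ 3 := by
  unfold cc thi
  rw [← Complex.exp_nat_mul]
  congr 1
  push_cast
  ring

private theorem VAN2_AT0 (d : ℕ) (e : ℤ) (x : Fin 3 → ℂ) :
    AT d e *ᵥ x = ![th d * x 0 + th d * x 1, th d * x 1,
      (thi d ^ 2 + e * th d) * x 0 + e * th d * x 1 + e * thi d ^ 2 * x 2] := by
  funext i
  fin_cases i <;>
    simp [AT, Matrix.mulVec, dotProduct, Fin.sum_univ_three]

private theorem VAN2_AS0 (e : ℤ) (x : Fin 3 → ℂ) :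
    AS e *ᵥ x = ![-(e : ℂ) * x 0, x 2, x 1] := by
  funext i
  fin_cases i <;>
    simp [AS, Matrix.mulVec, dotProduct, Fin.sum_univ_three]

private theorem VAN2_nu (d : ℕ) (e : ℤ) (he : e = 1 ∨ e = -1) (hc : cc d = -e) :
    nu d e = 1 / 2 := by
  have hl : lam d e = -1 := by
    unfold lam
    rw [hc]
    rcases he with rfl | rfl <;> norm_num
  have h1 := nu_exp d e he
  rw [hl, ← Complex.exp_pi_mul_I, Complex.exp_eq_exp_iff_exists_int] at h1
  obtain ⟨n, hn⟩ := h1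
  have hpi : (π : ℂ) ≠ 0 := by exact_mod_cast Real.pi_ne_zero
  have h2 : (nu d e : ℂ) = 1 / 2 + n := by
    have h3 : (2 * π * I : ℂ) * nu d e = (2 * π * I) * (1 / 2 + n) := by
      rw [hn]
      ring
    exact mul_left_cancel₀ (by simp [hpi]) h3
  have h3 : nu d e = 1 / 2 + (n : ℝ) := by
    have h4 : ((nu d e : ℝ) : ℂ) = ((1 / 2 + (n : ℝ) : ℝ) : ℂ) := by
      rw [h2]
      push_cast
      ring
    exact_mod_cast h4
  have h4 : 0 ≤ nu d e := Int.fract_nonneg _
  have h5 : nu d e < 1 := Int.fract_lt_one _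
  rw [h3] at h4 h5
  have h6 : (-1 : ℝ) < n := by linarith
  have h7 : (n : ℝ) < 1 := by linarith
  have h8 : (-1 : ℤ) < n := by exact_mod_cast h6
  have h9 : n < (1 : ℤ) := by exact_mod_cast h7
  have h10 : n = 0 := by omega
  rw [h3, h10]
  norm_num

/-- common eigenvectors of `AS`, `AT` (columns) -/
theorem EIGC_blk (he : e = 1 ∨ e = -1) (x : Fin 3 → ℂ) (hx : x ≠ 0) (s t : ℂ)
    (h1 : AS e *ᵥ x = s • x) (h2 : AT d e *ᵥ x = t • x) :
    x 1 = 0 ∧ x 2 = 0 ∧ cc d = -e ∧ nu d e = 1 / 2 := by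
  have hth : th d ≠ 0 := Complex.exp_ne_zero _
  rw [VAN2_AS0] at h1
  rw [VAN2_AT0] at h2
  have r0 := congrFun h2 0
  have r1 := congrFun h2 1
  have r2 := congrFun h2 2
  have s1 := congrFun h1 1
  simp only [Matrix.cons_val_zero, Matrix.cons_val_one, Matrix.cons_val, Pi.smul_apply,
    smul_eq_mul] at r0 r1 r2 s1
  have hx1 : x 1 = 0 := by
    by_contra hne
    have ht : th d = t := mul_right_cancel₀ hne r1
    rw [← ht] at r0
    have : th d * x 1 = 0 := by linear_combination r0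
    rcases mul_eq_zero.1 this with h | h
    · exact hth h
    · exact hne h
  have hx2 : x 2 = 0 := by
    rw [s1, hx1, mul_zero]
  have hx0 : x 0 ≠ 0 := by
    intro h0
    apply hx
    funext i
    fin_cases i
    · exact h0
    · exact hx1
    · exact hx2
  rw [hx1, hx2] at r2
  have h3 : thi d ^ 2 + e * th d = 0 := by
    have : (thi d ^ 2 + e * th d) * x 0 = 0 := by linear_combination r2
    exact (mul_eq_zero.1 this).resolve_right hx0
  have hc : cc d = -e := by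
    rw [VAN2_cc]
    have h4 := VAN2_th d
    linear_combination thi d * h3 - (e : ℂ) * h4
  exact ⟨hx1, hx2, hc, VAN2_nu d e he hc⟩

/-- rank 2 is impossible -/
theorem VAN2_blk (hd : 1 ≤ d) (he : e = 1 ∨ e = -1) (h : Row d e ψ C a) (x : Fin 3 → ℂ)
    (hx : x ≠ 0) (hx0 : ∀ z ∈ H, ψ z ⬝ᵥ x = 0) :
    ∃ y : Fin 3 → ℂ, (∀ z ∈ H, ψ z ⬝ᵥ y = 0) ∧ ∀ t : ℂ, y ≠ t • x := by
  by_contra hneg
  have hall : ∀ y : Fin 3 → ℂ, (∀ z ∈ H, ψ z ⬝ᵥ y = 0) → ∃ t : ℂ, y = t • x := by
    intro y hy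
    by_contra hy2
    exact hneg ⟨y, hy, fun t ht => hy2 ⟨t, ht⟩⟩
  obtain ⟨hrT, hrS⟩ := REL_blk he h x hx0
  obtain ⟨t, ht⟩ := hall _ hrT
  obtain ⟨s, hs⟩ := hall _ hrS
  obtain ⟨hx1, hx2, hc, hnu⟩ := EIGC_blk he x hx s t hs ht
  have hxx : x 0 ≠ 0 := by
    intro h0
    apply hx
    funext i
    fin_cases i
    · exact h0
    · exact hx1
    · exact hx2
  have hv : ∀ z ∈ H, ψ z 0 = 0 := by
    intro z hz
    have h1 := hx0 z hz
    simp only [dotProduct, Fin.sum_univ_three, hx1, hx2, mul_zero, add_zero] at h1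
    exact (mul_eq_zero.1 h1).resolve_right hxx
  have he2 : (e : ℂ) * e = 1 := by rcases he with rfl | rfl <;> norm_num
  have hth := VAN2_th d
  have hthi3 : thi d ^ 3 = -e := by rw [← VAN2_cc, hc]
  have hth3 : th d ^ 3 = -e := by
    have h1 : (th d * thi d) ^ 3 = 1 := by rw [hth, one_pow]
    rw [mul_pow, hthi3] at h1
    linear_combination (-(e : ℂ)) * h1 - th d ^ 3 * he2
  -- the action of T
  have hT2 : ∀ z ∈ H, ψ (z + 1) 2 = 0 * ψ z 1 + (e * th d ^ 2) * ψ z 2 := by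
    intro z hz
    have h1 := congrFun (h.T z hz) 2
    simp only [Matrix.vecMul, dotProduct, Fin.sum_univ_three, AT] at h1
    simp at h1
    have h3 : (th d * thi d) ^ 2 = 1 := by rw [hth, one_pow]
    linear_combination (e * th d ^ 2) * h1 - (ψ (z + 1) 2) * he2 * (th d * thi d) ^ 2 -
      (ψ (z + 1) 2) * h3
  have hT1 : ∀ z ∈ H, ψ (z + 1) 1 = thi d * ψ z 1 + (-th d ^ 2) * ψ z 2 := by
    intro z hz
    have h0 := hT2 z hz
    have h1 := congrFun (h.T z hz) 1
    simp only [Matrix.vecMul, dotProduct, Fin.sum_univ_three, AT] at h1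
    simp at h1
    rw [hv _ (T_mem hz)] at h1
    linear_combination thi d * h1 - (ψ (z + 1) 1 + e * ψ (z + 1) 2) * hth - e * h0 -
      th d ^ 2 * ψ z 2 * he2
  -- the action of S
  have hS1 : ∀ z ∈ H, ψ (-1 / z) 1 = z ^ 2 * (0 * ψ z 1 + 1 * ψ z 2) := by
    intro z hz
    have h1 := congrFun (h.S z hz) 2
    simp only [Matrix.vecMul, dotProduct, Fin.sum_univ_three, AS] at h1
    simp at h1
    linear_combination h1
  have hS2 : ∀ z ∈ H, ψ (-1 / z) 2 = z ^ 2 * (1 * ψ z 1 + 0 * ψ z 2) := by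
    intro z hz
    have h1 := congrFun (h.S z hz) 1
    simp only [Matrix.vecMul, dotProduct, Fin.sum_univ_three, AS] at h1
    simp at h1
    linear_combination h1
  obtain ⟨f, hf⟩ : ∃ f : ℂ → ℂ, f = fun z => ψ z 1 := ⟨_, rfl⟩
  obtain ⟨g, hg⟩ : ∃ g : ℂ → ℂ, g = fun z => ψ z 2 := ⟨_, rfl⟩
  have hfd : DifferentiableOn ℂ f H := by rw [hf]; exact h.hol 1
  have hgd : DifferentiableOn ℂ g H := by rw [hg]; exact h.hol 2
  have hWT := W2_T f g hfd hgd (thi d) 0 (-th d ^ 2) (e * th d ^ 2)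
    (fun z hz => by rw [hf, hg]; exact hT1 z hz) (fun z hz => by rw [hf, hg]; exact hT2 z hz)
  have hWS := W2_S f g hfd hgd 0 1 1 0
    (fun z hz => by rw [hf, hg]; exact hS1 z hz) (fun z hz => by rw [hf, hg]; exact hS2 z hz)
  obtain ⟨W, hW⟩ : ∃ W : ℂ → ℂ, W = fun z => f z * deriv g z - g z * deriv f z := ⟨_, rfl⟩
  have hWd : DifferentiableOn ℂ W H := by
    rw [hW]
    exact (hfd.mul (hgd.deriv isOpen_H)).sub (hgd.mul (hfd.deriv isOpen_H))
  -- growth
  have hfg : ∀ z : ℂ, 3 ≤ z.im →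
      ‖f z‖ ≤ C * mu z ^ a * Real.exp (-(2 * π * (((d : ℝ) / 24) * z.im))) := by
    intro z hz
    rw [hf]
    exact h.w z hz
  have hgg : ∀ z : ℂ, 3 ≤ z.im →
      ‖g z‖ ≤ C * mu z ^ a * Real.exp (-(2 * π * (((d : ℝ) / 24 + 1 / 2) * z.im))) := by
    intro z hz
    rw [hg]
    have h1 := h.u z hz
    rw [hnu] at h1
    rw [show (d : ℝ) / 24 + 1 - 1 / 2 = (d : ℝ) / 24 + 1 / 2 by ring] at h1
    exact h1
  obtain ⟨Cf, hCf⟩ := CAU_blk f hfd 3 C ((d : ℝ) / 24) a (by norm_num) hfg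
  obtain ⟨Cg, hCg⟩ := CAU_blk g hgd 3 C ((d : ℝ) / 24 + 1 / 2) a (by norm_num) hgg
  have hWg : ∀ z : ℂ, 4 ≤ z.im → ‖W z‖ ≤ (C * Cg + C * Cf) * mu z ^ (2 * a) *
      Real.exp (-(2 * π * (((d : ℝ) / 12 + 1 / 2) * z.im))) := by
    intro z hz
    have b1 := hfg z (by linarith)
    have b2 := hgg z (by linarith)
    have b3 := hCf z (by linarith)
    have b4 := hCg z (by linarith)
    have hE : Real.exp (-(2 * π * (((d : ℝ) / 24) * z.im))) *
        Real.exp (-(2 * π * (((d : ℝ) / 24 + 1 / 2) * z.im))) =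
        Real.exp (-(2 * π * (((d : ℝ) / 12 + 1 / 2) * z.im))) := by
      rw [← Real.exp_add]
      congr 1
      ring
    have c1 := mul_le_mul b1 b4 (norm_nonneg _) (le_trans (norm_nonneg _) b1)
    have c2 := mul_le_mul b2 b3 (norm_nonneg _) (le_trans (norm_nonneg _) b2)
    have c3 : ‖W z‖ ≤ ‖f z‖ * ‖deriv g z‖ + ‖g z‖ * ‖deriv f z‖ := by
      rw [hW]
      simp only
      refine (norm_sub_le _ _).trans ?_
      rw [norm_mul, norm_mul]
    refine (c3.trans (add_le_add c1 c2)).trans (le_of_eq ?_)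
    rw [← hE]
    ring
  have hW6 : ∀ z ∈ H, W z ^ 6 = 0 := by
    refine WGT_blk 3 (fun z => W z ^ 6) (hWd.pow 6) ?_ ?_ ((C * Cg + C * Cf) ^ 6)
      ((d : ℝ) / 2 + 3) (12 * a) ?_ ?_
    · intro z hz
      have h1 := hWT z hz
      have h2 : W (z + 1) = (e * th d) * W z := by
        rw [hW]
        simp only
        rw [h1]
        linear_combination (e * th d * (f z * deriv g z - g z * deriv f z)) * hth
      rw [h2, mul_pow, mul_pow]
      have h3 : th d ^ 6 = 1 := by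
        have : th d ^ 6 = (th d ^ 3) * (th d ^ 3) := by ring
        rw [this, hth3]
        linear_combination he2
      have h4 : (e : ℂ) ^ 6 = 1 := by
        have : (e : ℂ) ^ 6 = (e * e) ^ 3 := by ring
        rw [this, he2, one_pow]
      rw [h3, h4]
      ring
    · intro z hz
      have h1 := hWS z hz
      have h2 : W (-1 / z) = -(z ^ 6) * W z := by
        rw [hW]
        simp only
        rw [h1]
        ring
      rw [h2]
      ring
    · have : (0 : ℝ) < d := by exact_mod_cast hd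
      push_cast
      linarith
    · intro z hz
      have h1 := pow_le_pow_left₀ (norm_nonneg _) (hWg z hz) 6
      rw [norm_pow]
      refine h1.trans (le_of_eq ?_)
      rw [mul_pow, mul_pow, ← Real.exp_nat_mul, ← pow_mul]
      congr 1
      · congr 2
        ring
      · congr 1
        push_cast
        ring
  obtain ⟨α, β, hαβ, hlin⟩ := DEP2_blk f g hfd hgd (by
    intro z hz
    have h1 := hW6 z hz
    have h2 : W z = 0 := pow_eq_zero_iff (by norm_num) |>.1 h1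
    rw [hW] at h2
    exact h2)
  refine hneg ⟨![0, α, β], ?_, ?_⟩
  · intro z hz
    have h1 := hlin z hz
    rw [hf, hg] at h1
    simp only [dotProduct, Fin.sum_univ_three]
    simp
    linear_combination h1
  · intro t ht
    have h1 := congrFun ht 1
    have h2 := congrFun ht 2
    simp only [Pi.smul_apply, smul_eq_mul, hx1, hx2, mul_zero] at h1 h2
    simp at h1 h2
    rcases hαβ with h3 | h3
    · exact h3 h1
    · exact h3 h2

end Pool.Agent.K2
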