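import Pool.Agent.Lib_helper98.K2.Defs
import Pool.Agent.Lib_helper98.K2.W.MOB1
import Pool.Agent.Lib_helper98.K2.W.MOB2
import Pool.Agent.Lib_helper98.K2.W.ETA1
import Pool.Agent.Lib_helper98.K2.W.EMAT1
import Pool.Agent.Lib_helper98.K2.W.REP
import Pool.Agent.Lib_helper98.K2.W.LVL
import Pool.Agent.Lib_helper98.K2.W.CAU
import Pool.Agent.Lib_helper98.K2.W.DEP
import Pool.Agent.Lib_helper98.K2.W.WTR

set_option autoImplicit false

namespace Pool.Agent.K2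

open Complex Matrix MeasureTheory
open scoped MatrixGroups Real

variable {d : ℕ} {e : ℤ} {ψ : ℂ → Fin 3 → ℂ} {C : ℝ} {a : ℕ}

theorem VAN3_AS_sq (he : e = 1 ∨ e = -1) : AS e * AS e = 1 := by
  ext i j
  rcases he with h | h <;> subst h <;> fin_cases i <;> fin_cases j <;>
    simp [AS, Matrix.mul_apply, Fin.sum_univ_three]

theorem VAN3_six (t1 t2 t3 t4 t5 t6 : ℂ) :
    ‖t1 - t2 - t3 + t4 + t5 - t6‖ ≤ ‖t1‖ + ‖t2‖ + ‖t3‖ + ‖t4‖ + ‖t5‖ + ‖t6‖ := by
  have s6 := norm_sub_le (t1 - t2 - t3 + t4 + t5) t6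
  have s5 := norm_add_le (t1 - t2 - t3 + t4) t5
  have s4 := norm_add_le (t1 - t2 - t3) t4
  have s3 := norm_sub_le (t1 - t2) t3
  have s2 := norm_sub_le t1 t2
  linarith

/-- bounds for a function with its first two derivatives -/
theorem VAN3_three (f : ℂ → ℂ) (hf : DifferentiableOn ℂ f H) (C s : ℝ) (a : ℕ)
    (hg : ∀ z : ℂ, 3 ≤ z.im → ‖f z‖ ≤ C * mu z ^ a * Real.exp (-(2 * π * (s * z.im)))) :
    ∃ K : ℝ, 0 ≤ K ∧ ∀ z : ℂ, 4 ≤ z.im →
      ‖f z‖ ≤ K * mu z ^ a * Real.exp (-(2 * π * (s * z.im))) ∧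
      ‖deriv f z‖ ≤ K * mu z ^ a * Real.exp (-(2 * π * (s * z.im))) ∧
      ‖deriv (deriv f) z‖ ≤ K * mu z ^ a * Real.exp (-(2 * π * (s * z.im))) := by
  have hf' : DifferentiableOn ℂ (deriv f) H := hf.deriv isOpen_H
  obtain ⟨C1, h1⟩ := CAU_blk f hf 3 C s a (by norm_num) hg
  obtain ⟨C2, h2⟩ := CAU_blk (deriv f) hf' (3 + 1 / 2) C1 s a (by norm_num) h1
  refine ⟨|C| + |C1| + |C2|, by positivity, fun z hz => ?_⟩
  have hzH : z ∈ H := by
    show 0 < z.im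
    linarith
  have hmu : (0 : ℝ) ≤ mu z ^ a := by
    have := mu_ge_two hzH
    positivity
  have hexp := Real.exp_pos (-(2 * π * (s * z.im)))
  have k0 := hg z (by linarith)
  have k1 := h1 z (by linarith)
  have k2 := h2 z (by linarith)
  have hC := le_abs_self C
  have hC1 := le_abs_self C1
  have hC2 := le_abs_self C2
  have aC := abs_nonneg C
  have aC1 := abs_nonneg C1
  have aC2 := abs_nonneg C2
  refine ⟨k0.trans ?_, k1.trans ?_, k2.trans ?_⟩ <;> gcongr <;> linarith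

/-- rank 3 is impossible -/
theorem VAN3_blk (hd : 1 ≤ d) (he : e = 1 ∨ e = -1) (h : Row d e ψ C a) :
    ∃ x : Fin 3 → ℂ, x ≠ 0 ∧ ∀ z ∈ H, ψ z ⬝ᵥ x = 0 := by
  apply DEP3_blk ψ h.hol
  have he2 : (e : ℂ) * e = 1 := by
    rcases he with h | h <;> simp [h]
  have hdet := BT_det_blk d e he
  have hATu : IsUnit (AT d e).det := by
    rw [hdet.2.1]
    exact IsUnit.of_mul_eq_one _ he2
  -- transformation laws
  have hT : ∀ z ∈ H, ψ (z + 1) = ψ z ᵥ* (AT d e)⁻¹ := by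
    intro z hz
    rw [← h.T z hz, Matrix.vecMul_vecMul, Matrix.mul_nonsing_inv _ hATu, Matrix.vecMul_one]
  have hS : ∀ z ∈ H, ψ (-1 / z) = z ^ 2 • (ψ z ᵥ* AS e) := by
    intro z hz
    have h1 := h.S z hz
    have h2 : (ψ (-1 / z) ᵥ* AS e) ᵥ* AS e = ψ (-1 / z) := by
      rw [Matrix.vecMul_vecMul, VAN3_AS_sq he, Matrix.vecMul_one]
    rw [← h2, h1, Matrix.smul_vecMul]
  set W : ℂ → ℂ := fun z => (WM ψ z).det with hW
  have hWT : ∀ z ∈ H, W (z + 1) = e * W z := by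
    intro z hz
    have h1 := WM_T ψ h.hol _ hT z hz
    have h2 : ((AT d e)⁻¹).det = e := by
      rw [Matrix.det_nonsing_inv, hdet.2.1, Ring.inverse_eq_inv']
      exact inv_eq_of_mul_eq_one_right he2
    simpa [hW, h2] using h1
  have hWS : ∀ z ∈ H, W (-1 / z) = e * z ^ 12 * W z := by
    intro z hz
    have h1 := WM_S ψ h.hol _ hS z hz
    rw [hdet.2.2] at h1
    exact h1
  -- growth
  have hφ : DifferentiableOn ℂ (fun z => ψ z 0 - y0 d e * ψ z 2) H :=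
    (h.hol 0).sub ((h.hol 2).const_mul _)
  obtain ⟨K0, hK0, b0⟩ := VAN3_three (fun z => ψ z 0 - y0 d e * ψ z 2) hφ C
    ((d : ℝ) / 24 + 1) a h.v
  obtain ⟨K1, hK1, b1⟩ := VAN3_three (fun z => ψ z 1) (h.hol 1) C ((d : ℝ) / 24) a h.w
  obtain ⟨K2, hK2, b2⟩ := VAN3_three (fun z => ψ z 2) (h.hol 2) C
    ((d : ℝ) / 24 + 1 - nu d e) a h.u
  have hderiv : ∀ z ∈ H, deriv (fun z => ψ z 0 - y0 d e * ψ z 2) z =
      deriv (fun z => ψ z 0) z - y0 d e * deriv (fun z => ψ z 2) z := by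
    intro z hz
    have hn : H ∈ nhds z := isOpen_H.mem_nhds hz
    have d0 : DifferentiableAt ℂ (fun z => ψ z 0) z := (h.hol 0).differentiableAt hn
    have d2 : DifferentiableAt ℂ (fun z => ψ z 2) z := (h.hol 2).differentiableAt hn
    rw [deriv_fun_sub d0 (d2.const_mul _), deriv_const_mul _ d2]
  have hderiv2 : ∀ z ∈ H, deriv (deriv (fun z => ψ z 0 - y0 d e * ψ z 2)) z =
      deriv (deriv (fun z => ψ z 0)) z - y0 d e * deriv (deriv (fun z => ψ z 2)) z := by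
    intro z hz
    have hn : H ∈ nhds z := isOpen_H.mem_nhds hz
    have hev : deriv (fun z => ψ z 0 - y0 d e * ψ z 2) =ᶠ[nhds z]
        fun z => deriv (fun z => ψ z 0) z - y0 d e * deriv (fun z => ψ z 2) z := by
      filter_upwards [hn] with w hw using hderiv w hw
    have d0 : DifferentiableAt ℂ (deriv (fun z => ψ z 0)) z :=
      ((h.hol 0).deriv isOpen_H).differentiableAt hn
    have d2 : DifferentiableAt ℂ (deriv (fun z => ψ z 2)) z :=
      ((h.hol 2).deriv isOpen_H).differentiableAt hn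
    rw [hev.deriv_eq, deriv_fun_sub d0 (d2.const_mul _), deriv_const_mul _ d2]
  have hWdet : ∀ z ∈ H, W z =
      (ψ z 0 - y0 d e * ψ z 2) * (deriv (fun z => ψ z 1) z * deriv (deriv (fun z => ψ z 2)) z)
      - (ψ z 0 - y0 d e * ψ z 2) * (deriv (fun z => ψ z 2) z * deriv (deriv (fun z => ψ z 1)) z)
      - deriv (fun z => ψ z 0 - y0 d e * ψ z 2) z * (ψ z 1 * deriv (deriv (fun z => ψ z 2)) z)
      + deriv (fun z => ψ z 0 - y0 d e * ψ z 2) z * (ψ z 2 * deriv (deriv (fun z => ψ z 1)) z)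
      + deriv (deriv (fun z => ψ z 0 - y0 d e * ψ z 2)) z * (ψ z 1 * deriv (fun z => ψ z 2) z)
      - deriv (deriv (fun z => ψ z 0 - y0 d e * ψ z 2)) z * (ψ z 2 * deriv (fun z => ψ z 1) z) := by
    intro z hz
    rw [hderiv z hz, hderiv2 z hz]
    simp only [hW, WM, Matrix.det_fin_three, Matrix.of_apply, Matrix.cons_val_zero,
      Matrix.cons_val_one, Matrix.cons_val]
    ring
  have hbound : ∀ z : ℂ, 4 ≤ z.im → ‖W z‖ ≤ 6 * (K0 * K1 * K2) * mu z ^ (3 * a) *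
      Real.exp (-(2 * π * (((d : ℝ) / 8 + 2 - nu d e) * z.im))) := by
    intro z hz
    have hzH : z ∈ H := by
      show 0 < z.im
      linarith
    obtain ⟨p0, p1, p2⟩ := b0 z hz
    obtain ⟨q0, q1, q2⟩ := b1 z hz
    obtain ⟨r0, r1, r2⟩ := b2 z hz
    rw [hWdet z hzH]
    set B0 := K0 * mu z ^ a * Real.exp (-(2 * π * (((d : ℝ) / 24 + 1) * z.im))) with hB0
    set B1 := K1 * mu z ^ a * Real.exp (-(2 * π * (((d : ℝ) / 24) * z.im))) with hB1
    set B2 := K2 * mu z ^ a * Real.exp (-(2 * π * (((d : ℝ) / 24 + 1 - nu d e) * z.im))) with hB2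
    have P : ∀ x y w : ℂ, ‖x‖ ≤ B0 → ‖y‖ ≤ B1 → ‖w‖ ≤ B2 → ‖x * (y * w)‖ ≤ B0 * (B1 * B2) := by
      intro x y w hx hy hw
      rw [norm_mul, norm_mul]
      have hx0 := (norm_nonneg x).trans hx
      have hy0 := (norm_nonneg y).trans hy
      gcongr
    have P' : ∀ x y w : ℂ, ‖x‖ ≤ B0 → ‖y‖ ≤ B1 → ‖w‖ ≤ B2 → ‖x * (w * y)‖ ≤ B0 * (B1 * B2) := by
      intro x y w hx hy hw
      rw [mul_comm w y]
      exact P x y w hx hy hw
    have hprod : B0 * (B1 * B2) = K0 * K1 * K2 * mu z ^ (3 * a) *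
        Real.exp (-(2 * π * (((d : ℝ) / 8 + 2 - nu d e) * z.im))) := by
      rw [hB0, hB1, hB2]
      rw [show -(2 * π * (((d : ℝ) / 8 + 2 - nu d e) * z.im)) =
        -(2 * π * (((d : ℝ) / 24 + 1) * z.im)) + (-(2 * π * (((d : ℝ) / 24) * z.im)) +
        -(2 * π * (((d : ℝ) / 24 + 1 - nu d e) * z.im))) by ring, Real.exp_add, Real.exp_add,
        show 3 * a = a + (a + a) by ring, pow_add, pow_add]
      ring
    have t1 := P _ _ _ p0 q1 r2
    have t2 := P' _ _ _ p0 q2 r1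
    have t3 := P _ _ _ p1 q0 r2
    have t4 := P' _ _ _ p1 q2 r0
    have t5 := P _ _ _ p2 q0 r1
    have t6 := P' _ _ _ p2 q1 r0
    refine (VAN3_six _ _ _ _ _ _).trans ?_
    have hfin : 6 * (K0 * K1 * K2) * mu z ^ (3 * a) *
      Real.exp (-(2 * π * (((d : ℝ) / 8 + 2 - nu d e) * z.im))) = 6 * (B0 * (B1 * B2)) := by
      rw [hprod]; ring
    rw [hfin]
    linarith
  -- the square
  have hWhol : DifferentiableOn ℂ W H := WM_hol ψ h.hol
  have hF := WGT_blk 2 (fun z => W z ^ 2) (hWhol.pow 2) (fun z hz => by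
      show W (z + 1) ^ 2 = W z ^ 2
      rw [hWT z hz, mul_pow, pow_two (e : ℂ), he2, one_mul]) (fun z hz => by
      show W (-1 / z) ^ 2 = z ^ (12 * 2) * W z ^ 2
      rw [hWS z hz]
      linear_combination (z ^ 24 * W z ^ 2) * he2)
    ((6 * (K0 * K1 * K2)) ^ 2) (2 * ((d : ℝ) / 8 + 2 - nu d e)) (2 * (3 * a)) (by
      have h1 := (nu_bds d hd e he).2.1
      have h2 : (0 : ℝ) ≤ d := Nat.cast_nonneg d
      push_cast
      linarith) (fun z hz => by
      show ‖W z ^ 2‖ ≤ _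
      rw [norm_pow]
      refine (pow_le_pow_left₀ (norm_nonneg _) (hbound z hz) 2).trans (le_of_eq ?_)
      rw [show -(2 * π * (2 * ((d : ℝ) / 8 + 2 - nu d e) * z.im)) =
        -(2 * π * (((d : ℝ) / 8 + 2 - nu d e) * z.im)) +
        -(2 * π * (((d : ℝ) / 8 + 2 - nu d e) * z.im)) by ring, Real.exp_add]
      ring)
  intro z hz
  exact pow_eq_zero_iff (two_ne_zero) |>.1 (hF z hz)

end Pool.Agent.K2
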