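import Pool.Agent.Lib_helper98.K2.Defs
import Pool.Agent.Lib_helper98.K2.W.VAN3
import Pool.Agent.Lib_helper98.K2.W.VAN2
import Pool.Agent.Lib_helper98.K2.W.VAN1

set_option autoImplicit false

namespace Pool.Agent.K2

open Complex Matrix MeasureTheory
open scoped MatrixGroups Real

variable {d : ℕ} {e : ℤ} {ψ : ℂ → Fin 3 → ℂ} {C : ℝ} {a : ℕ}

/-- a row form with this growth vanishes -/
theorem VAN_blk (hd : 1 ≤ d) (he : e = 1 ∨ e = -1) (h : Row d e ψ C a) :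
    ∀ z ∈ H, ψ z = 0 := by
  obtain ⟨x, hx, hx0⟩ := VAN3_blk hd he h
  obtain ⟨y, hy0, hxy⟩ := VAN2_blk hd he h x hx hx0
  exact VAN1_blk hd he h x y hx hx0 hy0 hxy

end Pool.Agent.K2
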