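import Pool.Agent.Lib_helper98.K2.Defs
import Pool.Agent.Lib_helper98.K2.W.MOB1
import Pool.Agent.Lib_helper98.K2.W.MOB2
import Pool.Agent.Lib_helper98.K2.W.ETA1
import Pool.Agent.Lib_helper98.K2.W.ETA2
import Pool.Agent.Lib_helper98.K2.W.EMAT1
import Pool.Agent.Lib_helper98.K2.W.EMAT2
import Pool.Agent.Lib_helper98.K2.W.CFI3
import Pool.Agent.Lib_helper98.K2.W.PSIH
import Pool.Agent.Lib_helper98.K2.W.GRB
import Pool.Agent.Lib_helper98.K2.W.VAN

set_option autoImplicit false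

namespace Pool.Agent.K2

open Complex Matrix MeasureTheory
open scoped MatrixGroups Real

variable {d : ℕ} {e : ℤ} {ρ : SL(2, ℤ) →* Matrix (Fin 3) (Fin 3) ℂ} {C0 : ℝ} {a0 : ℕ}

/-- a functional which kills all homogeneous forms has no low coefficients -/
theorem XI_blk (hd : 1 ≤ d) (he : e = 1 ∨ e = -1) (hρ : IsRep d e ρ C0 a0) (n : ℕ)
    (hn : a0 + 20 ≤ 12 * n) (hn' : (d : ℝ) / 24 + 1 ≤ n)
    (ξ : ℕ → Fin 3 → ℂ) (h0 : ξ 0 0 = 0) (h2 : ξ 0 2 = 0)
    (hξ : ∀ G : ℂ → Fin 3 → ℂ, Hom d e n G → Lxi d e n ξ G 2 = 0)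
    (m : ℕ) (hm : m ≤ n) (hm' : (m : ℝ) < n - d / 24) (i : Fin 3) : ξ m i = 0 := by
  obtain ⟨ψ, hol, hT, hS, C, a, hexp⟩ := PSIH_blk he hρ n hn ξ hξ
  obtain ⟨C', a', hgr⟩ := GRB_blk he n hn' ξ h0 h2 ψ C a hexp
  have hrow : Row d e ψ C' a' :=
    ⟨hol, hT, hS, fun z hz => (hgr z hz).1, fun z hz => (hgr z hz).2.1,
      fun z hz => (hgr z hz).2.2⟩
  have hψ := VAN_blk hd he hrow
  obtain ⟨C2, hC2, het⟩ := et_cusp
  obtain ⟨C4, hC4⟩ := row_Einv d e
  have hbound : ∀ z : ℂ, 3 ≤ z.im → ∀ i,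
      ‖∑ m ∈ Finset.range (n + 1), ξ m i * cexp (2 * π * I * m * z)‖ ≤
        (C4 * (C2 ^ d * C)) * mu z ^ (a + 2) *
          Real.exp (-(2 * π * (n - (d : ℝ) / 24) * z.im)) := by
    intro z hz i
    have hzH : z ∈ H := by
      show 0 < z.im
      linarith
    have hmu : 0 < mu z := lt_of_lt_of_le (by norm_num) (mu_ge_two hzH)
    have hetz := (het z hzH (by linarith)).2
    have hb : ∀ j, ‖∑ i, (∑ m ∈ Finset.range (n + 1), ξ m i * cexp (2 * π * I * m * z)) *
        Einv d e z i j‖ ≤ (C2 ^ d * C) * mu z ^ a *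
          Real.exp (-(2 * π * (n - (d : ℝ) / 24) * z.im)) := by
      intro j
      have h1 := hexp z hz j
      rw [hψ z hzH] at h1
      simp only [Pi.zero_apply, zero_sub, norm_neg] at h1
      have h3 : (∑ m ∈ Finset.range (n + 1), ∑ i,
          ξ m i * Einv d e z i j * cexp (2 * π * I * m * z)) =
          ∑ i, (∑ m ∈ Finset.range (n + 1), ξ m i * cexp (2 * π * I * m * z)) *
            Einv d e z i j := by
        rw [Finset.sum_comm]
        refine Finset.sum_congr rfl fun i _ => ?_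
        rw [Finset.sum_mul]
        refine Finset.sum_congr rfl fun m _ => ?_
        ring
      rw [h3, norm_mul, norm_mul, norm_pow] at h1
      set R := ‖∑ i, (∑ m ∈ Finset.range (n + 1), ξ m i * cexp (2 * π * I * m * z)) *
            Einv d e z i j‖ with hR
      have h4 : (1 : ℝ) ≤ ‖(4 * π * I : ℂ)‖ := by
        simp only [norm_mul, Complex.norm_I, mul_one, Complex.norm_real, Real.norm_eq_abs,
          abs_of_pos Real.pi_pos, Complex.norm_ofNat]
        linarith [Real.pi_gt_three]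
      have h5 : ‖et z‖ ^ d * R ≤ C * mu z ^ a * Real.exp (-(2 * π * n * z.im)) := by
        refine le_trans ?_ h1
        have : 0 ≤ ‖et z‖ ^ d * R := by positivity
        calc ‖et z‖ ^ d * R = 1 * (‖et z‖ ^ d * R) := by ring
          _ ≤ ‖(4 * π * I : ℂ)‖ * (‖et z‖ ^ d * R) := by gcongr
          _ = _ := by ring
      have h6 : Real.exp (-(2 * π * (z.im / 24))) ^ d ≤ C2 ^ d * ‖et z‖ ^ d := by
        rw [← mul_pow]
        exact pow_le_pow_left₀ (Real.exp_pos _).le hetz d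
      have h7 : Real.exp (-(2 * π * (n - (d : ℝ) / 24) * z.im)) =
          Real.exp (-(2 * π * n * z.im)) * (Real.exp (-(2 * π * (z.im / 24))) ^ d)⁻¹ := by
        rw [← Real.exp_nat_mul, ← Real.exp_neg, ← Real.exp_add]
        congr 1
        ring
      rw [h7]
      have h8 : 0 < Real.exp (-(2 * π * (z.im / 24))) ^ d := by positivity
      rw [← mul_assoc, ← div_eq_mul_inv, le_div_iff₀ h8]
      calc R * Real.exp (-(2 * π * (z.im / 24))) ^ d ≤ R * (C2 ^ d * ‖et z‖ ^ d) := by gcongr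
        _ = C2 ^ d * (‖et z‖ ^ d * R) := by ring
        _ ≤ C2 ^ d * (C * mu z ^ a * Real.exp (-(2 * π * n * z.im))) := by gcongr
        _ = _ := by ring
    have h9 := hC4 (fun i => ∑ m ∈ Finset.range (n + 1), ξ m i * cexp (2 * π * I * m * z)) z
      hzH _ hb i
    refine h9.trans (le_of_eq ?_)
    ring
  exact qpoly_zero n (fun m => ξ m i) (n - (d : ℝ) / 24) _ (a + 2)
    (fun z hz => hbound z hz i) m hm hm'

end Pool.Agent.K2
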