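import Pool.Agent.Lib_helper98.K2.Defs
import Pool.Agent.Lib_helper98.K2.W.REP
import Pool.Agent.Lib_helper98.K2.W.XI
import Pool.Agent.Lib_helper98.K2.W.HOMV

set_option autoImplicit false

namespace Pool.Agent.K2

open Complex Matrix MeasureTheory
open scoped MatrixGroups Real

variable {d : ℕ} {e : ℤ} {ρ : SL(2, ℤ) →* Matrix (Fin 3) (Fin 3) ℂ} {C0 : ℝ} {a0 : ℕ}

/-- the coordinates of the principal part -/
noncomputable def SURJ_Phi (d : ℕ) (e : ℤ) (n : ℕ) (G : ℂ → Fin 3 → ℂ) :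
    Fin (n + 1) × Fin 3 → ℂ :=
  fun p => if (p.1 : ℕ) = 0 ∧ p.2 ≠ 1 then 0 else cf (Pc d e G p.2) (-((p.1 : ℕ) : ℤ)) 2

theorem SURJ_zero (n : ℕ) : SURJ_Phi d e n (fun _ => 0) = 0 := by
  funext p
  unfold SURJ_Phi
  split_ifs with h
  · rfl
  · have h1 : Pc d e (fun _ => (0 : Fin 3 → ℂ)) p.2 = fun _ => 0 := by
      funext z
      simp [Pc]
    rw [h1]
    simp [cf]

/-- the submodule of principal parts -/
noncomputable def SURJ_V (d : ℕ) (e : ℤ) (n : ℕ) : Submodule ℂ (Fin (n + 1) × Fin 3 → ℂ) where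
  carrier := {v | ∃ G, Hom d e n G ∧ v = SURJ_Phi d e n G}
  zero_mem' := ⟨fun _ => 0, Hom_zero n, (SURJ_zero n).symm⟩
  add_mem' := by
    rintro _ _ ⟨G1, h1, rfl⟩ ⟨G2, h2, rfl⟩
    obtain ⟨h3, h4⟩ := Hom_add n G1 G2 h1 h2 1
    refine ⟨_, h3, ?_⟩
    funext p
    simp only [SURJ_Phi, Pi.add_apply]
    split_ifs with h
    · simp
    · rw [h4]; ring
  smul_mem' := by
    rintro c _ ⟨G, h, rfl⟩
    obtain ⟨h3, h4⟩ := Hom_add n (fun _ => 0) G (Hom_zero n) h c
    refine ⟨_, h3, ?_⟩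
    funext p
    simp only [SURJ_Phi, Pi.smul_apply, smul_eq_mul]
    split_ifs with h
    · simp
    · rw [h4]
      have h1 : Pc d e (fun _ => (0 : Fin 3 → ℂ)) p.2 = fun _ => 0 := by
        funext z
        simp [Pc]
      rw [h1]
      simp [cf]

/-- existence of homogeneous forms with prescribed principal part -/
theorem SURJ_blk (hd : 1 ≤ d) (he : e = 1 ∨ e = -1) (hρ : IsRep d e ρ C0 a0) (n M : ℕ)
    (hn : a0 + 20 ≤ 12 * n) (hn' : (M : ℝ) + d / 24 + 1 < n) (c : ℕ → Fin 3 → ℂ) :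
    ∃ G : ℂ → Fin 3 → ℂ, Hom d e n G ∧
      (∀ m : ℕ, 1 ≤ m → m ≤ M → ∀ i, cf (Pc d e G i) (-(m : ℤ)) 2 = c m i) ∧
      (∀ m : ℕ, M < m → ∀ i, cf (Pc d e G i) (-(m : ℤ)) 2 = 0) ∧
      cf (Pc d e G 1) 0 2 = c 0 1 := by
  classical
  have hMn : M + 1 ≤ n := by
    have : ((M + 1 : ℕ) : ℝ) < n := by
      push_cast
      have : (0 : ℝ) ≤ d / 24 := by positivity
      linarith
    exact_mod_cast this.le
  have hn1 : (d : ℝ) / 24 + 1 ≤ n := by
    have : (0 : ℝ) ≤ M := by positivity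
    linarith
  set t : Fin (n + 1) × Fin 3 → ℂ := fun p =>
    if (p.1 : ℕ) = 0 ∧ p.2 ≠ 1 then 0 else if (p.1 : ℕ) ≤ M then c p.1 p.2 else 0 with ht
  have key : t ∈ SURJ_V d e n := by
    by_contra hcon
    obtain ⟨f, hft, hfV⟩ := Submodule.exists_le_ker_of_notMem hcon
    set ξ : ℕ → Fin 3 → ℂ := fun m i =>
      if h : m < n + 1 then (if m = 0 ∧ i ≠ 1 then 0 else f (Pi.single (⟨m, h⟩, i) 1)) else 0
      with hξ
    have hfsum : ∀ v : Fin (n + 1) × Fin 3 → ℂ,
        (∀ p : Fin (n + 1) × Fin 3, (p.1 : ℕ) = 0 ∧ p.2 ≠ 1 → v p = 0) →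
        f v = ∑ m ∈ Finset.range (n + 1), ∑ i,
          ξ m i * (if h : m < n + 1 then v (⟨m, h⟩, i) else 0) := by
      intro v hv
      rw [LinearMap.pi_apply_eq_sum_univ f v, Fintype.sum_prod_type, Finset.sum_range]
      refine Finset.sum_congr rfl fun m _ => Finset.sum_congr rfl fun i _ => ?_
      have hm : (m : ℕ) < n + 1 := m.2
      simp only [hξ, hm, dite_true, Fin.eta]
      by_cases h0 : (m : ℕ) = 0 ∧ i ≠ 1
      · rw [hv (m, i) h0]
        simp
      · rw [if_neg h0, smul_eq_mul, mul_comm]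
        congr 2
        funext q
        simp only [Pi.single_apply]
        by_cases hq : q = (m, i)
        · simp [hq]
        · simp [hq, Ne.symm hq]
    have hkill : ∀ G : ℂ → Fin 3 → ℂ, Hom d e n G → Lxi d e n ξ G 2 = 0 := by
      intro G hG
      have h1 : f (SURJ_Phi d e n G) = 0 := hfV ⟨G, hG, rfl⟩
      rw [hfsum _ (fun p hp => by simp only [SURJ_Phi]; rw [if_pos hp])] at h1
      rw [← h1]
      unfold Lxi
      refine Finset.sum_congr rfl fun m hm => Finset.sum_congr rfl fun i _ => ?_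
      have hm' : m < n + 1 := Finset.mem_range.1 hm
      rw [dif_pos hm']
      simp only [SURJ_Phi, hξ, hm', dite_true]
      by_cases h0 : m = 0 ∧ i ≠ 1
      · simp [h0]
      · simp [h0]
    have h0 : ξ 0 0 = 0 := by simp [hξ]
    have h2 : ξ 0 2 = 0 := by simp [hξ]
    have hlow : ∀ m : ℕ, m ≤ M → ∀ i, ξ m i = 0 := by
      intro m hm i
      refine XI_blk hd he hρ n hn hn1 ξ h0 h2 hkill m (by omega) ?_ i
      have : (m : ℝ) ≤ M := by exact_mod_cast hm
      linarith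
    apply hft
    rw [hfsum t (fun p hp => by simp only [ht]; rw [if_pos hp])]
    refine Finset.sum_eq_zero fun m hm => Finset.sum_eq_zero fun i _ => ?_
    have hm' : m < n + 1 := Finset.mem_range.1 hm
    rw [dif_pos hm']
    by_cases hmM : m ≤ M
    · rw [hlow m hmM i, zero_mul]
    · simp only [ht]
      have h3 : ¬ (m = 0 ∧ i ≠ 1) := by
        rintro ⟨rfl, _⟩
        exact hmM (Nat.zero_le _)
      rw [if_neg h3, if_neg hmM, mul_zero]
  obtain ⟨G, hG, hGt⟩ := key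
  have hval : ∀ m : ℕ, m ≤ n → ∀ i, ¬ (m = 0 ∧ i ≠ 1) →
      cf (Pc d e G i) (-(m : ℤ)) 2 = if m ≤ M then c m i else 0 := by
    intro m hm i h0
    have h1 := congrFun hGt (⟨m, by omega⟩, i)
    simp only [ht, SURJ_Phi] at h1
    rw [if_neg h0, if_neg h0] at h1
    exact h1.symm
  refine ⟨G, hG, ?_, ?_, ?_⟩
  · intro m h1 h2 i
    rw [hval m (by omega) i (by omega), if_pos h2]
  · intro m h1 i
    by_cases hmn : m ≤ n
    · rw [hval m hmn i (by omega), if_neg (by omega)]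
    · by_cases hi : i = 2
      · rw [hi]; exact Hom_low2 he n G hG m (by omega)
      · exact Hom_low he n G hG m (by omega) i hi
  · have := hval 0 (Nat.zero_le _) 1 (by simp)
    simpa using this

end Pool.Agent.K2
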