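import Pool.Agent.Lib_helper98.K2.Defs
import Pool.Agent.Lib_helper98.K2.W.MOB1
import Pool.Agent.Lib_helper98.K2.W.MOB2
import Pool.Agent.Lib_helper98.K2.W.ETA1
import Pool.Agent.Lib_helper98.K2.W.REP
import Pool.Agent.Lib_helper98.K2.W.CFI1
import Pool.Agent.Lib_helper98.K2.W.CFI3
import Pool.Agent.Lib_helper98.K2.W.EMAT1
import Pool.Agent.Lib_helper98.K2.W.EMAT2
import Pool.Agent.Lib_helper98.K2.W.INH
import Pool.Agent.Lib_helper98.K2.W.SURJ
import Pool.Agent.Lib_helper98.K2.W.HOMV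
import Pool.Agent.Lib_helper98.K2.W.RED
import Pool.Agent.Lib_helper98.K2.W.GOOD

set_option autoImplicit false

namespace Pool.Agent.K2

open Complex Matrix MeasureTheory
open scoped MatrixGroups Real

theorem GM_mulVec_le (A : Matrix (Fin 3) (Fin 3) ℂ) (B : ℝ) (hB : ∀ i j, ‖A i j‖ ≤ B)
    (v : Fin 3 → ℂ) : ‖A *ᵥ v‖ ≤ 3 * B * ‖v‖ := by
  have hB0 : 0 ≤ B := (norm_nonneg _).trans (hB 0 0)
  refine (pi_norm_le_iff_of_nonneg (by positivity)).2 fun i => ?_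
  calc ‖(A *ᵥ v) i‖ = ‖∑ j, A i j * v j‖ := rfl
    _ ≤ ∑ j, ‖A i j * v j‖ := norm_sum_le _ _
    _ ≤ ∑ _j : Fin 3, B * ‖v‖ := by
        refine Finset.sum_le_sum fun j _ => ?_
        rw [norm_mul]
        exact mul_le_mul (hB i j) (norm_le_pi_norm v j) (norm_nonneg _) hB0
    _ = 3 * B * ‖v‖ := by simp; ring

theorem GM_T_nat (d : ℕ) (e : ℤ) (G : ℂ → Fin 3 → ℂ)
    (hT : ∀ z ∈ H, G (z + 1) = BT d e *ᵥ G z) (m : ℕ) :
    ∀ z ∈ H, G (z + m) = (BT d e ^ m) *ᵥ G z := by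
  induction m with
  | zero => intro z _; simp
  | succ m ih =>
    intro z hz
    have hz' : z + m ∈ H := by
      have : 0 < z.im := hz
      simpa [H] using this
    have h1 := hT (z + m) hz'
    rw [ih z hz] at h1
    rw [show z + ((m + 1 : ℕ) : ℂ) = z + m + 1 by push_cast; ring, h1, pow_succ',
      Matrix.mulVec_mulVec]

theorem GM_T_neg (d : ℕ) (e : ℤ) (he : e = 1 ∨ e = -1) (G : ℂ → Fin 3 → ℂ)
    (hT : ∀ z ∈ H, G (z + 1) = BT d e *ᵥ G z) (m : ℕ) :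
    ∀ z ∈ H, G (z - m) = ((BT d e)⁻¹ ^ m) *ᵥ G z := by
  have hdet : IsUnit (BT d e).det := isUnit_iff_ne_zero.2 (BT_det_blk d e he).1
  induction m with
  | zero => intro z _; simp
  | succ m ih =>
    intro z hz
    have hz' : z - ((m + 1 : ℕ) : ℂ) ∈ H := by
      have : 0 < z.im := hz
      simpa [H] using this
    have h1 := hT _ hz'
    rw [show z - ((m + 1 : ℕ) : ℂ) + 1 = z - m by push_cast; ring, ih z hz] at h1
    rw [pow_succ', ← Matrix.mulVec_mulVec, h1, Matrix.mulVec_mulVec,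
      Matrix.nonsing_inv_mul _ hdet, Matrix.one_mulVec]

theorem GM_cf_sub (f g : ℂ → ℂ) (m : ℤ) (hf : DifferentiableOn ℂ f H)
    (hg : DifferentiableOn ℂ g H) :
    cf (fun z => f z - g z) m 2 = cf f m 2 - cf g m 2 := by
  have hline : ∀ x : ℝ, ((x : ℂ) + ((2 : ℝ) : ℂ) * I) ∈ H := by
    intro x; simp [H]
  have hcont : ∀ h : ℂ → ℂ, DifferentiableOn ℂ h H → Continuous fun X : ℝ =>
      h (X + (2 : ℝ) * I) * cexp (-(2 * π * I * m * (X + (2 : ℝ) * I))) := by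
    intro h hh
    refine Continuous.mul ?_ (by fun_prop)
    exact hh.continuousOn.comp_continuous (by fun_prop) hline
  unfold cf
  rw [← intervalIntegral.integral_sub ((hcont f hf).intervalIntegrable _ _)
    ((hcont g hg).intervalIntegrable _ _)]
  refine intervalIntegral.integral_congr fun x _ => ?_
  simp only
  ring

theorem GM_Pc_diff (d : ℕ) (e : ℤ) (G : ℂ → Fin 3 → ℂ)
    (hG : ∀ i, DifferentiableOn ℂ (fun z => G z i) H) (i : Fin 3) :
    DifferentiableOn ℂ (Pc d e G i) H := by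
  have : Pc d e G i = fun z => ∑ j, Einv d e z i j * G z j := rfl
  rw [this]
  refine DifferentiableOn.fun_sum fun j _ => ?_
  exact (Einv_diff d e i j).differentiableOn.mul (hG j)

/-- inhomogeneous solution, moderate on `H`, with `b_0 = 0` -/
theorem GM_blk (d : ℕ) (hd : 1 ≤ d) (e : ℤ) (he : e = 1 ∨ e = -1) (r : ℝ) :
    ∃ (G nn : ℂ → Fin 3 → ℂ), (∀ i, DifferentiableOn ℂ (fun z => G z i) H) ∧
      (∀ z ∈ H, G (z + 1) = BT d e *ᵥ G z) ∧
      (∀ z ∈ H, G (-1 / z) = Jd d z • (AS e *ᵥ G z + nn z)) ∧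
      (∀ z ∈ H, nn z 0 = e * DD d e r z) ∧ (∀ i, Mod (fun z => G z i)) ∧
      (∀ m : ℕ, 1 ≤ m → ∀ i, cf (Pc d e G i) (-(m : ℤ)) 2 = 0) ∧
      cf (Pc d e G 1) 0 2 = 0 := by
  obtain ⟨n1, G0, nn, hol0, hT0, hS0, hnM, hn0, C0, a0, hgr⟩ := INH_blk d hd e he r
  obtain ⟨ρ, Cr, ar, hρ⟩ := REP_blk d e he
  obtain ⟨n, hn⟩ : ∃ n : ℕ, ar + 20 ≤ 12 * n ∧ (n1 : ℝ) + d / 24 + 1 < n := by
    refine ⟨ar + n1 + d + 20, by omega, ?_⟩
    push_cast
    have h1 : (0 : ℝ) ≤ d := Nat.cast_nonneg d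
    have h2 : (0 : ℝ) ≤ ar := Nat.cast_nonneg ar
    linarith
  obtain ⟨Ψ, hΨ, hc1, hc2, hc3⟩ := SURJ_blk hd he hρ n n1 hn.1 hn.2
    (fun m i => cf (Pc d e G0 i) (-(m : ℤ)) 2)
  obtain ⟨hν0, hν1, -⟩ := nu_bds d hd e he
  set G : ℂ → Fin 3 → ℂ := fun z => G0 z - Ψ z with hGdef
  have hol : ∀ i, DifferentiableOn ℂ (fun z => G z i) H := fun i => (hol0 i).sub (hΨ.hol i)
  have hT : ∀ z ∈ H, G (z + 1) = BT d e *ᵥ G z := by
    intro z hz
    simp only [hGdef]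
    rw [hT0 z hz, hΨ.T z hz, Matrix.mulVec_sub]
  have hS : ∀ z ∈ H, G (-1 / z) = Jd d z • (AS e *ᵥ G z + nn z) := by
    intro z hz
    simp only [hGdef]
    rw [hS0 z hz, hΨ.S z hz, Matrix.mulVec_sub, ← smul_sub]
    congr 1
    abel
  have hPc : ∀ i, Pc d e G i = fun z => Pc d e G0 i z - Pc d e Ψ i z := by
    intro i; funext z
    simp [Pc, hGdef, Matrix.mulVec_sub]
  have hcf : ∀ i (m : ℤ), cf (Pc d e G i) m 2 = cf (Pc d e G0 i) m 2 - cf (Pc d e Ψ i) m 2 := by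
    intro i m
    rw [hPc i]
    exact GM_cf_sub _ _ m (GM_Pc_diff d e G0 hol0 i) (GM_Pc_diff d e Ψ hΨ.hol i)
  have hlow : ∀ m : ℕ, n1 < m → ∀ i, cf (Pc d e G0 i) (-(m : ℤ)) 2 = 0 := by
    intro m hm i
    obtain ⟨C1, hC1⟩ := Pc_le d e
    have hsub : {z : ℂ | 1 < z.im} ⊆ H := fun z (hz : 1 < z.im) => by
      show 0 < z.im
      linarith
    refine cf_growth (Pc d e G0 i) ((GM_Pc_diff d e G0 hol0 i).mono hsub)
      (fun z hz => Pc_T d e he G0 z (hT0 z (hsub hz)) i) (n1 + nu d e) (C1 * C0) (2 + a0)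
      (fun z hz => ?_) _ ?_ 2 (by norm_num)
    · have hzH : z ∈ H := hsub hz
      have h1 := hC1 G0 z hzH (by linarith) _ (hgr z hzH hz.le) i
      refine h1.trans (le_of_eq ?_)
      rw [show 2 * π * ((n1 + nu d e) * z.im) = 2 * π * nu d e * z.im + 2 * π * n1 * z.im by ring,
        Real.exp_add]
      ring
    · have h1 : (n1 : ℝ) + 1 ≤ m := by exact_mod_cast hm
      push_cast
      linarith
  have hcm : ∀ m : ℕ, 1 ≤ m → ∀ i, cf (Pc d e G i) (-(m : ℤ)) 2 = 0 := by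
    intro m hm i
    rw [hcf]
    by_cases h : m ≤ n1
    · rw [hc1 m hm h i, sub_self]
    · rw [hc2 m (by omega) i, hlow m (by omega) i, sub_self]
  have hc0 : cf (Pc d e G 1) 0 2 = 0 := by
    rw [hcf, hc3]; simp
  refine ⟨G, nn, hol, hT, hS, hn0, ?_, hcm, hc0⟩
  -- growth
  obtain ⟨Cg, ag, hgood⟩ := GOOD_blk d e he n G hol hT hcm
  obtain ⟨Cb, hBT⟩ := BT_pow_blk d e he
  have hnn : ∃ (C : ℝ) (a : ℕ), 0 ≤ C ∧ ∀ z ∈ H, ‖nn z‖ ≤ C * mu z ^ a := by
    choose Cn an hn' using hnM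
    refine ⟨∑ i, |Cn i|, ∑ i, an i, Finset.sum_nonneg fun i _ => abs_nonneg _, fun z hz => ?_⟩
    have hmu : (1 : ℝ) ≤ mu z := by linarith [mu_ge_two hz]
    have hmu0 : (0 : ℝ) ≤ mu z := by linarith
    refine (pi_norm_le_iff_of_nonneg (mul_nonneg (Finset.sum_nonneg fun i _ => abs_nonneg _)
      (pow_nonneg hmu0 _))).2 fun i => ?_
    calc ‖nn z i‖ ≤ Cn i * mu z ^ an i := hn' i z hz
      _ ≤ |Cn i| * mu z ^ an i := by gcongr; exact le_abs_self _
      _ ≤ (∑ i, |Cn i|) * mu z ^ (∑ i, an i) := by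
          gcongr
          · exact Finset.single_le_sum (f := fun i => |Cn i|) (fun i _ => abs_nonneg _)
              (Finset.mem_univ i)
          · exact Finset.single_le_sum (f := an) (fun i _ => Nat.zero_le _) (Finset.mem_univ i)
  obtain ⟨Cn, an, hCn0, hnn⟩ := hnn
  have hASb : ∀ i j, ‖AS e i j‖ ≤ 1 := by
    intro i j
    rcases he with h | h <;> subst h <;> fin_cases i <;> fin_cases j <;> simp [AS]
  set K : ℝ := |3 * Cb| + 3 + Cn + |Cg| with hK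
  have hK0 : 0 ≤ K := by positivity
  have key := RED_blk (fun z => ‖G z‖) ((d : ℝ) / 2) K (an + ag) (by positivity)
    (fun z => norm_nonneg _) ?_ ?_ ?_
  · obtain ⟨C', a', h⟩ := key
    intro i
    exact ⟨C', a', fun z hz => (norm_le_pi_norm (G z) i).trans (h z hz)⟩
  · -- T
    intro z hz m
    have hsq : (0 : ℝ) ≤ (1 + |(m : ℝ)|) ^ 2 := by positivity
    have hfin : 3 * (Cb * (1 + |(m : ℝ)|) ^ 2) * ‖G z‖ ≤ K * (1 + |(m : ℝ)|) ^ 2 * ‖G z‖ := by
      have : 3 * Cb ≤ K := by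
        have := le_abs_self (3 * Cb)
        have := abs_nonneg Cg
        rw [hK]; linarith
      nlinarith [mul_nonneg hsq (norm_nonneg (G z)), mul_nonneg (mul_nonneg hsq
        (norm_nonneg (G z))) (sub_nonneg.2 this)]
    refine le_trans ?_ hfin
    rcases le_total 0 m with h | h
    · have h2 : ((m.toNat : ℕ) : ℤ) = m := Int.toNat_of_nonneg h
      have h3 : z + (m : ℂ) = z + ((m.toNat : ℕ) : ℂ) := by
        rw [← Int.cast_natCast, h2]
      have h4 : (|(m : ℝ)|) = ((m.toNat : ℕ) : ℝ) := by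
        rw [← Int.cast_natCast (R := ℝ), h2, abs_of_nonneg (by exact_mod_cast h)]
      show ‖G (z + m)‖ ≤ _
      rw [h3, GM_T_nat d e G hT _ z hz, h4]
      exact GM_mulVec_le _ _ (fun i j => (hBT _ i j).1) _
    · have h2 : (((-m).toNat : ℕ) : ℤ) = -m := Int.toNat_of_nonneg (by omega)
      have h3 : z + (m : ℂ) = z - (((-m).toNat : ℕ) : ℂ) := by
        rw [← Int.cast_natCast, h2]; push_cast; ring
      have h4 : (|(m : ℝ)|) = (((-m).toNat : ℕ) : ℝ) := by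
        rw [← Int.cast_natCast (R := ℝ), h2, abs_of_nonpos (by exact_mod_cast h)]
        push_cast; ring
      show ‖G (z + m)‖ ≤ _
      rw [h3, GM_T_neg d e he G hT _ z hz, h4]
      exact GM_mulVec_le _ _ (fun i j => (hBT _ i j).2) _
  · -- S
    intro z hz
    have hmu : (1 : ℝ) ≤ mu z := by linarith [mu_ge_two hz]
    have hmu0 : (0 : ℝ) ≤ mu z := by linarith
    have hz0 : (0 : ℝ) ≤ ‖z‖ ^ ((d : ℝ) / 2) := by positivity
    show ‖G (-1 / z)‖ ≤ _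
    rw [hS z hz, norm_smul, Jd_norm d hz]
    have h1 : ‖AS e *ᵥ G z‖ ≤ 3 * 1 * ‖G z‖ := GM_mulVec_le _ _ hASb _
    have h2 := hnn z hz
    have h3 : mu z ^ an ≤ mu z ^ (an + ag) := pow_le_pow_right₀ hmu (by omega)
    have h4 : 3 ≤ K := by
      have := abs_nonneg (3 * Cb); have := abs_nonneg Cg
      rw [hK]; linarith
    have h5 : Cn ≤ K := by
      have := abs_nonneg (3 * Cb); have := abs_nonneg Cg
      rw [hK]; linarith
    calc ‖z‖ ^ ((d : ℝ) / 2) * ‖AS e *ᵥ G z + nn z‖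
        ≤ ‖z‖ ^ ((d : ℝ) / 2) * (3 * 1 * ‖G z‖ + Cn * mu z ^ an) := by
          gcongr
          exact (norm_add_le _ _).trans (add_le_add h1 h2)
      _ ≤ ‖z‖ ^ ((d : ℝ) / 2) * (K * ‖G z‖ + K * mu z ^ (an + ag)) := by
          gcongr
          linarith
      _ = K * ‖z‖ ^ ((d : ℝ) / 2) * (‖G z‖ + mu z ^ (an + ag)) := by ring
  · -- cusp
    intro z hz
    have hzH : z ∈ H := by
      show 0 < z.im
      linarith
    have hmu : (1 : ℝ) ≤ mu z := by linarith [mu_ge_two hzH]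
    have hmu0 : (0 : ℝ) ≤ mu z := by linarith
    show ‖G z‖ ≤ _
    have h5 : |Cg| ≤ K := by
      have := abs_nonneg (3 * Cb)
      rw [hK]; linarith
    refine (pi_norm_le_iff_of_nonneg (by positivity)).2 fun i => ?_
    calc ‖G z i‖ ≤ Cg * mu z ^ ag := hgood z hz i
      _ ≤ |Cg| * mu z ^ ag := by gcongr; exact le_abs_self _
      _ ≤ K * mu z ^ (an + ag) := by
          gcongr
          omega

end Pool.Agent.K2
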