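import Pool.Agent.Lib_helper98.K2.Defs
import Pool.Agent.Lib_helper98.K2.W.MOB1
import Pool.Agent.Lib_helper98.K2.W.MOB2
import Pool.Agent.Lib_helper98.K2.W.ETA1
import Pool.Agent.Lib_helper98.K2.W.DATA
import Pool.Agent.Lib_helper98.K2.W.CFI1
import Pool.Agent.Lib_helper98.K2.W.CFI3
import Pool.Agent.Lib_helper98.K2.W.CFI4
import Pool.Agent.Lib_helper98.K2.W.EMAT1
import Pool.Agent.Lib_helper98.K2.W.EMAT2
import Pool.Agent.Lib_helper98.K2.W.GM

set_option autoImplicit false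

namespace Pool.Agent.K2

open Complex Matrix MeasureTheory
open scoped MatrixGroups Real

theorem EXF_Pc0 (d : ℕ) (e : ℤ) (G : ℂ → Fin 3 → ℂ) (z : ℂ) :
    Pc d e G 0 z = G z 0 - z * G z 1 := by
  simp [Pc, Einv, Matrix.mulVec, dotProduct, Fin.sum_univ_three]
  ring

theorem EXF_Pc1 (d : ℕ) (e : ℤ) (G : ℂ → Fin 3 → ℂ) (z : ℂ) :
    Pc d e G 1 z = G z 1 := by
  simp [Pc, Einv, Matrix.mulVec, dotProduct, Fin.sum_univ_three]

/-- the interpolating function -/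
theorem EXF_blk (d : ℕ) (hd : 1 ≤ d) (e : ℤ) (he : e = 1 ∨ e = -1) (r : ℝ) :
    ∃ (F : ℂ → ℂ) (a b : ℕ → ℂ) (C : ℝ) (A : ℕ), DifferentiableOn ℂ F H ∧ Mod F ∧
      (∀ z ∈ H, HasSum (fun m : ℕ => (a m + z * b m) * cexp (2 * π * I * m * z)) (F z)) ∧
      b 0 = 0 ∧ (∀ m : ℕ, ‖a m‖ ≤ C * ((m : ℝ) + 1) ^ A ∧ ‖b m‖ ≤ C * ((m : ℝ) + 1) ^ A) ∧
      ∀ z ∈ H, F z + e * ((Jd d z)⁻¹ * F (-1 / z)) = DD d e r z := by
  obtain ⟨G, nn, hol, hT, hS, hnn, hM, hc, hc0⟩ := GM_blk d hd e he r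
  have hneg : ∀ (i : Fin 3) (m : ℤ), m < 0 → cf (Pc d e G i) m 2 = 0 := by
    intro i m hm
    have h1 := hc (-m).toNat (by omega) i
    have h2 : (-(((-m).toNat : ℕ) : ℤ)) = m := by omega
    rwa [h2] at h1
  have hp : ∀ i : Fin 3, ∀ z ∈ H, Pc d e G i (z + 1) = Pc d e G i z := fun i z hz =>
    Pc_T d e he G z (hT z hz) i
  have e0 : Pc d e G 0 = fun z => G z 0 - z * G z 1 := funext (EXF_Pc0 d e G)
  have e1 : Pc d e G 1 = fun z => G z 1 := funext (EXF_Pc1 d e G)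
  have hd0 : DifferentiableOn ℂ (Pc d e G 0) H := by
    rw [e0]; exact (hol 0).sub (differentiableOn_id.mul (hol 1))
  have hd1 : DifferentiableOn ℂ (Pc d e G 1) H := by
    rw [e1]; exact hol 1
  have hM1 : Mod (Pc d e G 1) := by rw [e1]; exact hM 1
  have hM0 : Mod (Pc d e G 0) := by
    rw [e0]
    obtain ⟨C0, a0, h0⟩ := hM 0
    obtain ⟨C1, a1, h1⟩ := hM 1
    refine ⟨|C0| + |C1|, a0 + (a1 + 1), fun z hz => ?_⟩
    have hmu := mu_ge_two hz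
    have hmu1 : (1 : ℝ) ≤ mu z := by linarith
    have hmu0 : (0 : ℝ) ≤ mu z := by linarith
    have k0 := h0 z hz
    have k1 := h1 z hz
    have kz := norm_le_mu hz
    calc ‖G z 0 - z * G z 1‖ ≤ ‖G z 0‖ + ‖z * G z 1‖ := norm_sub_le _ _
      _ = ‖G z 0‖ + ‖z‖ * ‖G z 1‖ := by rw [norm_mul]
      _ ≤ |C0| * mu z ^ (a0 + (a1 + 1)) + |C1| * mu z ^ (a0 + (a1 + 1)) := by
          refine add_le_add ?_ ?_
          · calc ‖G z 0‖ ≤ C0 * mu z ^ a0 := k0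
              _ ≤ |C0| * mu z ^ a0 := by gcongr; exact le_abs_self _
              _ ≤ |C0| * mu z ^ (a0 + (a1 + 1)) := by
                  gcongr
                  omega
          · calc ‖z‖ * ‖G z 1‖ ≤ mu z * (|C1| * mu z ^ a1) := by
                  gcongr
                  exact k1.trans (by gcongr; exact le_abs_self _)
              _ = |C1| * mu z ^ (a1 + 1) := by ring
              _ ≤ |C1| * mu z ^ (a0 + (a1 + 1)) :=
                  mul_le_mul_of_nonneg_left (pow_le_pow_right₀ hmu1 (by omega)) (abs_nonneg _)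
      _ = (|C0| + |C1|) * mu z ^ (a0 + (a1 + 1)) := by ring
  obtain ⟨Ca, Aa, hab, has⟩ := qexp_mod (Pc d e G 0) hd0 (hp 0) hM0 (hneg 0)
  obtain ⟨Cb, Ab, hbb, hbs⟩ := qexp_mod (Pc d e G 1) hd1 (hp 1) hM1 (hneg 1)
  refine ⟨fun z => G z 0, fun m => cf (Pc d e G 0) m 2, fun m => cf (Pc d e G 1) m 2,
    |Ca| + |Cb|, Aa + Ab, hol 0, hM 0, fun z hz => ?_, ?_, fun m => ⟨?_, ?_⟩, fun z hz => ?_⟩
  · have h1 := (has z hz).add ((hbs z hz).mul_left z)
    have h2 : Pc d e G 0 z + z * Pc d e G 1 z = G z 0 := by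
      rw [EXF_Pc0, EXF_Pc1]; ring
    rw [h2] at h1
    convert h1 using 1
    funext m
    ring
  · simpa using hc0
  · have hm1 : (1 : ℝ) ≤ (m : ℝ) + 1 := by linarith [Nat.cast_nonneg (α := ℝ) m]
    calc ‖cf (Pc d e G 0) m 2‖ ≤ Ca * ((m : ℝ) + 1) ^ Aa := hab m
      _ ≤ |Ca| * ((m : ℝ) + 1) ^ Aa := by gcongr; exact le_abs_self _
      _ ≤ (|Ca| + |Cb|) * ((m : ℝ) + 1) ^ (Aa + Ab) := by
          gcongr
          · linarith [abs_nonneg Cb]
          · omega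
  · have hm1 : (1 : ℝ) ≤ (m : ℝ) + 1 := by linarith [Nat.cast_nonneg (α := ℝ) m]
    calc ‖cf (Pc d e G 1) m 2‖ ≤ Cb * ((m : ℝ) + 1) ^ Ab := hbb m
      _ ≤ |Cb| * ((m : ℝ) + 1) ^ Ab := by gcongr; exact le_abs_self _
      _ ≤ (|Ca| + |Cb|) * ((m : ℝ) + 1) ^ (Aa + Ab) := by
          gcongr
          · linarith [abs_nonneg Ca]
          · omega
  · have h1 := congrFun (hS z hz) 0
    have hJ := Jd_ne d hz
    have h2 : (AS e *ᵥ G z) 0 = -(e : ℂ) * G z 0 := by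
      simp [AS, Matrix.mulVec, dotProduct, Fin.sum_univ_three]
    simp only [Pi.smul_apply, Pi.add_apply, smul_eq_mul] at h1
    rw [h2, hnn z hz] at h1
    show G z 0 + e * ((Jd d z)⁻¹ * G (-1 / z) 0) = DD d e r z
    rw [h1]
    have he2 : (e : ℂ) * e = 1 := by
      rcases he with h | h <;> simp [h]
    field_simp
    linear_combination (DD d e r z - G z 0) * he2

end Pool.Agent.K2
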