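import Pool.Agent.Lib_helper98.K2.Defs
import Pool.Agent.Lib_helper98.K2.W.MOB1
import Pool.Agent.Lib_helper98.K2.W.ETA1

set_option autoImplicit false

namespace Pool.Agent.K2

open Complex Matrix MeasureTheory
open scoped MatrixGroups Real

theorem Jd_inv_cpow (d : ℕ) {z : ℂ} (hz : z ∈ H) :
    (Jd d z)⁻¹ = (I / z) ^ ((d : ℂ) / 2) := by
  rw [Jd_cpow d hz]
  have hz' : 0 < z.im := hz
  have hz0 : z ≠ 0 := by
    rintro rfl
    simp at hz'
  have h1 : I / z = (-I * z)⁻¹ := by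
    rw [mul_inv, inv_neg, inv_I, neg_neg, div_eq_mul_inv]
  have h2 : (-I * z).arg ≠ π := by
    intro h
    have h3 := Complex.arg_eq_pi_iff.1 h
    simp at h3
    linarith [h3.1]
  rw [h1, Complex.inv_cpow _ _ h2]

end Pool.Agent.K2
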