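import Pool.Agent.Lib_helper98.K2.Defs
import Pool.Agent.Lib_helper98.K2.W.MOB1

set_option autoImplicit false

namespace Pool.Agent.K2

open Complex Matrix MeasureTheory
open scoped MatrixGroups Real

private theorem CUT_dist (a x : ℝ) (ζ : ℂ) : |ζ.im - a| ≤ ‖(x : ℂ) + a * I - ζ‖ := by
  have h := Complex.abs_im_le_norm ((x : ℂ) + a * I - ζ)
  have e : ((x : ℂ) + a * I - ζ).im = a - ζ.im := by simp
  rw [e, abs_sub_comm] at h
  exact h

private theorem CUT_ne {a : ℝ} (x : ℝ) {ζ : ℂ} (h : ζ.im ≠ a) : (x : ℂ) + a * I - ζ ≠ 0 := by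
  have h1 := CUT_dist a x ζ
  have h2 : 0 < |ζ.im - a| := abs_pos.2 (sub_ne_zero.2 h)
  exact norm_pos_iff.1 (lt_of_lt_of_le h2 h1)

private theorem CUT_hol (φ : ℝ → ℂ) (hφ : Integrable φ) (a : ℝ) (ζ : ℂ) (h : ζ.im ≠ a) :
    DifferentiableAt ℂ (fun w => ∫ x : ℝ, φ x / ((x : ℂ) + a * I - w)) ζ := by
  have h2 : 0 < |ζ.im - a| := abs_pos.2 (sub_ne_zero.2 h)
  set r : ℝ := |ζ.im - a| / 2 with hr
  have hr0 : 0 < r := by positivity
  have hball : ∀ w ∈ Metric.ball ζ r, ∀ x : ℝ, r ≤ ‖(x : ℂ) + a * I - w‖ := by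
    intro w hw x
    have h3 := CUT_dist a x w
    have h4 : |w.im - ζ.im| < r := by
      have := Complex.abs_im_le_norm (w - ζ)
      rw [Complex.sub_im] at this
      exact lt_of_le_of_lt this (by simpa [dist_eq_norm] using hw)
    have h5 : |ζ.im - a| ≤ |w.im - a| + |w.im - ζ.im| := by
      have := abs_sub_abs_le_abs_sub (ζ.im - a) (w.im - a)
      have e : (ζ.im - a) - (w.im - a) = -(w.im - ζ.im) := by ring
      rw [e, abs_neg] at this
      linarith
    linarith
  have hcont : ∀ w ∈ Metric.ball ζ r, Continuous (fun x : ℝ => ((x : ℂ) + a * I - w)⁻¹) := by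
    intro w hw
    refine Continuous.inv₀ (by fun_prop) ?_
    intro x hx
    have := hball w hw x
    rw [hx, norm_zero] at this
    linarith
  have hmem : ζ ∈ Metric.ball ζ r := Metric.mem_ball_self hr0
  have key := hasDerivAt_integral_of_dominated_loc_of_deriv_le (μ := volume)
    (F := fun (w : ℂ) (x : ℝ) => φ x / ((x : ℂ) + a * I - w))
    (F' := fun (w : ℂ) (x : ℝ) => φ x * (((x : ℂ) + a * I - w)⁻¹) ^ 2)
    (bound := fun x => ‖φ x‖ * (r⁻¹) ^ 2) (x₀ := ζ) (s := Metric.ball ζ r)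
    (Metric.ball_mem_nhds ζ hr0) ?_ ?_ ?_ ?_ ?_ ?_
  · exact key.2.differentiableAt
  · refine Filter.eventually_of_mem (Metric.ball_mem_nhds ζ hr0) ?_
    intro w hw
    simp only [div_eq_mul_inv]
    exact hφ.aestronglyMeasurable.mul (hcont w hw).aestronglyMeasurable
  · simp only [div_eq_mul_inv]
    refine (hφ.bdd_mul (c := r⁻¹) (hcont ζ hmem).aestronglyMeasurable ?_).congr ?_
    · refine Filter.Eventually.of_forall ?_
      intro x
      rw [norm_inv]
      exact inv_anti₀ hr0 (hball ζ hmem x)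
    · refine Filter.Eventually.of_forall ?_
      intro x
      exact mul_comm _ _
  · exact hφ.aestronglyMeasurable.mul ((hcont ζ hmem).pow 2).aestronglyMeasurable
  · refine Filter.Eventually.of_forall ?_
    intro x w hw
    rw [norm_mul, norm_pow, norm_inv]
    gcongr
    exact hball w hw x
  · exact hφ.norm.mul_const _
  · refine Filter.Eventually.of_forall ?_
    intro x w hw
    have hne : (x : ℂ) + a * I - w ≠ 0 := by
      intro h0
      have := hball w hw x
      rw [h0, norm_zero] at this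
      linarith
    have h1 : HasDerivAt (fun w : ℂ => (x : ℂ) + a * I - w) (-1) w := by
      simpa using (hasDerivAt_id w).const_sub ((x : ℂ) + a * I)
    have h2 := (h1.inv hne).const_mul (φ x)
    simp only [div_eq_mul_inv]
    refine h2.congr_deriv ?_
    rw [neg_neg, one_div, inv_pow]

private theorem CUT_bd (φ : ℝ → ℂ) (hφ : Integrable φ) (a : ℝ) (ζ : ℂ) (δ : ℝ) (hδ : 0 < δ)
    (h : δ ≤ |ζ.im - a|) :
    ‖∫ x : ℝ, φ x / ((x : ℂ) + a * I - ζ)‖ ≤ (∫ x : ℝ, ‖φ x‖) / δ := by
  have h1 : ‖∫ x : ℝ, φ x / ((x : ℂ) + a * I - ζ)‖ ≤ ∫ x : ℝ, ‖φ x‖ / δ := by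
    refine norm_integral_le_of_norm_le (hφ.norm.div_const δ) ?_
    refine Filter.Eventually.of_forall ?_
    intro x
    rw [norm_div]
    have := CUT_dist a x ζ
    gcongr
    linarith
  rwa [integral_div] at h1

/-- `∫_{-R}^{R} dx/(x - i y) = 2 i arctan (R/y)` -/
private theorem CUT_arc (R y : ℝ) (hy : y ≠ 0) :
    (∫ x in (-R)..R, ((x : ℂ) - y * I)⁻¹) = 2 * I * (Real.arctan (R / y) : ℂ) := by
  have hpos : ∀ x : ℝ, 0 < x ^ 2 + y ^ 2 := fun x => by positivity
  have hder : ∀ x : ℝ, HasDerivAt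
      (fun x : ℝ => ((Real.log (x ^ 2 + y ^ 2) / 2 : ℝ) : ℂ) + I * (Real.arctan (x / y) : ℂ))
      (((x : ℂ) - y * I)⁻¹) x := by
    intro x
    have h1 : HasDerivAt (fun x : ℝ => Real.log (x ^ 2 + y ^ 2) / 2)
        ((2 * x / (x ^ 2 + y ^ 2)) / 2) x := by
      have h0 : HasDerivAt (fun x : ℝ => x ^ 2 + y ^ 2) (2 * x) x := by
        have := (hasDerivAt_pow 2 x).add_const (y ^ 2)
        simpa using this
      exact (h0.log (hpos x).ne').div_const 2
    have h2 : HasDerivAt (fun x : ℝ => Real.arctan (x / y)) (1 / (1 + (x / y) ^ 2) * (1 / y)) x := by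
      have h0 : HasDerivAt (fun x : ℝ => x / y) (1 / y) x := (hasDerivAt_id x).div_const y
      exact h0.arctan
    have h3 := (h1.ofReal_comp).add ((h2.ofReal_comp).const_mul I)
    refine h3.congr_deriv ?_
    have hne : (x : ℂ) - y * I ≠ 0 := by
      intro h0
      have := congrArg Complex.im h0
      simp at this
      exact hy this
    have hne2 : ((x : ℂ) ^ 2 + (y : ℂ) ^ 2) ≠ 0 := by
      exact_mod_cast (hpos x).ne'
    have hyc : (y : ℂ) ≠ 0 := by exact_mod_cast hy
    have e1 : (((2 * x / (x ^ 2 + y ^ 2)) / 2 : ℝ) : ℂ) = (x : ℂ) / ((x : ℂ) ^ 2 + (y : ℂ) ^ 2) := by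
      push_cast
      field_simp
    have e2 : ((1 / (1 + (x / y) ^ 2) * (1 / y) : ℝ) : ℂ) = (y : ℂ) / ((x : ℂ) ^ 2 + (y : ℂ) ^ 2) := by
      have : (1 / (1 + (x / y) ^ 2) * (1 / y) : ℝ) = y / (x ^ 2 + y ^ 2) := by
        have := hpos x
        field_simp
        ring
      rw [this]
      push_cast
      rfl
    rw [e1, e2]
    have e3 : ((x : ℂ) ^ 2 + (y : ℂ) ^ 2) = ((x : ℂ) - y * I) * ((x : ℂ) + y * I) := by
      ring_nf
      rw [I_sq]
      ring
    have hne3 : (x : ℂ) + y * I ≠ 0 := by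
      intro h0
      rw [e3, h0, mul_zero] at hne2
      exact hne2 rfl
    rw [e3]
    field_simp
  have hcont : Continuous (fun x : ℝ => ((x : ℂ) - y * I)⁻¹) := by
    refine Continuous.inv₀ (by fun_prop) ?_
    intro x h0
    have := congrArg Complex.im h0
    simp at this
    exact hy this
  rw [intervalIntegral.integral_eq_sub_of_hasDerivAt (fun x _ => hder x)
    (hcont.intervalIntegrable _ _)]
  have e4 : ((-R) ^ 2 + y ^ 2) = R ^ 2 + y ^ 2 := by ring
  rw [e4, neg_div, Real.arctan_neg]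
  push_cast
  ring

private theorem CUT_inv_int (ζ : ℂ) (a R : ℝ) (h : ζ.im ≠ a) :
    (∫ x in (ζ.re - R)..(ζ.re + R), ((x : ℂ) + a * I - ζ)⁻¹) =
      2 * I * (Real.arctan (R / (ζ.im - a)) : ℂ) := by
  rw [← CUT_arc R (ζ.im - a) (sub_ne_zero.2 h)]
  have h1 := intervalIntegral.integral_comp_sub_right
    (a := ζ.re - R) (b := ζ.re + R)
    (fun x : ℝ => ((x : ℂ) - ((ζ.im - a : ℝ) : ℂ) * I)⁻¹) ζ.re
  rw [show ζ.re - R - ζ.re = -R by ring, show ζ.re + R - ζ.re = R by ring] at h1
  rw [← h1]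
  refine intervalIntegral.integral_congr ?_
  intro x _
  simp only
  congr 1
  apply Complex.ext
  · simp
  · simp

private theorem CUT_side (f : ℂ → ℂ) (ζ : ℂ) (a R : ℝ) (h : ζ.im ≠ a)
    (hf : Integrable (fun x : ℝ => f ((x : ℂ) + a * I))) :
    (∫ x in (ζ.re - R)..(ζ.re + R), dslope f ζ ((x : ℂ) + a * I)) =
      (∫ x in (ζ.re - R)..(ζ.re + R), f ((x : ℂ) + a * I) / ((x : ℂ) + a * I - ζ)) -
        f ζ * (2 * I * (Real.arctan (R / (ζ.im - a)) : ℂ)) := by
  rw [← CUT_inv_int ζ a R h, ← intervalIntegral.integral_const_mul,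
    ← intervalIntegral.integral_sub]
  · refine intervalIntegral.integral_congr ?_
    intro x _
    simp only
    have hne : (x : ℂ) + a * I ≠ ζ := by
      intro h0
      exact CUT_ne x h (by rw [h0, sub_self])
    rw [dslope_of_ne f hne, slope_def_field]
    ring
  · have hc : Continuous (fun x : ℝ => ((x : ℂ) + a * I - ζ)⁻¹) :=
      Continuous.inv₀ (by fun_prop) (fun x => CUT_ne x h)
    have h3 : IntervalIntegrable (fun x : ℝ => f ((x : ℂ) + a * I)) volume (ζ.re - R) (ζ.re + R) :=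
      hf.intervalIntegrable
    have h4 := h3.mul_continuousOn hc.continuousOn
    refine h4.congr ?_
    intro x _
    simp only [div_eq_mul_inv]
  · have hc : Continuous (fun x : ℝ => f ζ * ((x : ℂ) + a * I - ζ)⁻¹) :=
      continuous_const.mul (Continuous.inv₀ (by fun_prop) (fun x => CUT_ne x h))
    exact hc.intervalIntegrable _ _

private theorem CUT_int (f : ℂ → ℂ) (ζ : ℂ) (a : ℝ) (h : ζ.im ≠ a)
    (hf : Integrable (fun x : ℝ => f ((x : ℂ) + a * I))) :
    Integrable (fun x : ℝ => f ((x : ℂ) + a * I) / ((x : ℂ) + a * I - ζ)) := by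
  have hc : Continuous (fun x : ℝ => ((x : ℂ) + a * I - ζ)⁻¹) :=
      Continuous.inv₀ (by fun_prop) (fun x => CUT_ne x h)
  have h2 : 0 < |ζ.im - a| := abs_pos.2 (sub_ne_zero.2 h)
  refine (hf.bdd_mul (c := |ζ.im - a|⁻¹) hc.aestronglyMeasurable ?_).congr ?_
  · refine Filter.Eventually.of_forall ?_
    intro x
    rw [norm_inv]
    exact inv_anti₀ h2 (CUT_dist a x ζ)
  · refine Filter.Eventually.of_forall ?_
    intro x
    simp only
    rw [mul_comm, div_eq_mul_inv]

private theorem CUT_vert (f : ℂ → ℂ) (ζ : ℂ) (a b B : ℝ) (hab : a ≤ b) (s : ℝ) (hs : s ≠ 0)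
    (hB : ∀ x y : ℝ, a ≤ y → y ≤ b → ‖f ((x : ℂ) + y * I)‖ ≤ B) :
    ‖∫ y in a..b, dslope f ζ (((ζ.re + s : ℝ) : ℂ) + y * I)‖ ≤ (B + ‖f ζ‖) / |s| * |b - a| := by
  refine intervalIntegral.norm_integral_le_of_norm_le_const ?_
  intro y hy
  rw [Set.uIoc_of_le hab] at hy
  have h1 := hB (ζ.re + s) y hy.1.le hy.2
  have h2 : |s| ≤ ‖(((ζ.re + s : ℝ) : ℂ) + y * I) - ζ‖ := by
    have h := Complex.abs_re_le_norm ((((ζ.re + s : ℝ) : ℂ) + y * I) - ζ)
    have e : ((((ζ.re + s : ℝ) : ℂ) + y * I) - ζ).re = s := by simp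
    rw [e] at h
    exact h
  have h3 : 0 < |s| := abs_pos.2 hs
  have hne : (((ζ.re + s : ℝ) : ℂ) + y * I) ≠ ζ := by
    intro h0
    rw [h0, sub_self, norm_zero] at h2
    linarith
  rw [dslope_of_ne f hne, slope_def_field, norm_div]
  have h4 : ‖f (((ζ.re + s : ℝ) : ℂ) + y * I) - f ζ‖ ≤ B + ‖f ζ‖ :=
    (norm_sub_le _ _).trans (by linarith)
  have h5 : 0 ≤ B + ‖f ζ‖ := le_trans (norm_nonneg _) h4
  gcongr

private theorem CUT_cau (f : ℂ → ℂ) (s : Set ℂ) (hs : IsOpen s) (hf : DifferentiableOn ℂ f s)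
    (a b B : ℝ) (hsub : ∀ x y : ℝ, a ≤ y → y ≤ b → ((x : ℂ) + y * I) ∈ s)
    (hB : ∀ x y : ℝ, a ≤ y → y ≤ b → ‖f ((x : ℂ) + y * I)‖ ≤ B)
    (ha : Integrable (fun x : ℝ => f ((x : ℂ) + a * I)))
    (hb : Integrable (fun x : ℝ => f ((x : ℂ) + b * I)))
    (ζ : ℂ) (h1 : a < ζ.im) (h2 : ζ.im < b) :
    (∫ x : ℝ, f ((x : ℂ) + a * I) / ((x : ℂ) + a * I - ζ)) -
      (∫ x : ℝ, f ((x : ℂ) + b * I) / ((x : ℂ) + b * I - ζ)) = 2 * π * I * f ζ := by
  have hab : a ≤ b := by linarith
  have hζs : ζ ∈ s := by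
    have := hsub ζ.re ζ.im h1.le h2.le
    rwa [Complex.re_add_im] at this
  have hd : DifferentiableOn ℂ (dslope f ζ) s :=
    (differentiableOn_dslope (hs.mem_nhds hζs)).2 hf
  have key : ∀ R : ℝ, 0 < R →
      ((∫ x in (ζ.re - R)..(ζ.re + R), f ((x : ℂ) + a * I) / ((x : ℂ) + a * I - ζ)) -
        f ζ * (2 * I * (Real.arctan (R / (ζ.im - a)) : ℂ))) -
      ((∫ x in (ζ.re - R)..(ζ.re + R), f ((x : ℂ) + b * I) / ((x : ℂ) + b * I - ζ)) -
        f ζ * (2 * I * (Real.arctan (R / (ζ.im - b)) : ℂ))) =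
      -(I * (∫ y in a..b, dslope f ζ (((ζ.re + R : ℝ) : ℂ) + y * I)) -
        I * (∫ y in a..b, dslope f ζ (((ζ.re + -R : ℝ) : ℂ) + y * I))) := by
    intro R hR
    have h3 := Complex.integral_boundary_rect_eq_zero_of_differentiableOn (dslope f ζ)
      (((ζ.re - R : ℝ) : ℂ) + a * I) (((ζ.re + R : ℝ) : ℂ) + b * I) ?_
    · have e1 : (((ζ.re - R : ℝ) : ℂ) + a * I).re = ζ.re - R := by simp
      have e2 : (((ζ.re - R : ℝ) : ℂ) + a * I).im = a := by simp
      have e3 : (((ζ.re + R : ℝ) : ℂ) + b * I).re = ζ.re + R := by simp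
      have e4 : (((ζ.re + R : ℝ) : ℂ) + b * I).im = b := by simp
      rw [e1, e2, e3, e4, CUT_side f ζ a R h1.ne' ha, CUT_side f ζ b R h2.ne hb] at h3
      rw [show ζ.re + -R = ζ.re - R by ring]
      simp only [smul_eq_mul] at h3
      linear_combination h3
    · refine hd.mono ?_
      intro w hw
      have e2 : (((ζ.re - R : ℝ) : ℂ) + a * I).im = a := by simp
      have e4 : (((ζ.re + R : ℝ) : ℂ) + b * I).im = b := by simp
      rw [Complex.mem_reProdIm, e2, e4, Set.uIcc_of_le hab] at hw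
      have := hsub w.re w.im hw.2.1 hw.2.2
      rwa [Complex.re_add_im] at this
  have hL : Filter.Tendsto (fun R : ℝ => ζ.re - R) Filter.atTop Filter.atBot :=
    Filter.tendsto_atBot_add_const_left _ _ Filter.tendsto_neg_atTop_atBot
  have hU : Filter.Tendsto (fun R : ℝ => ζ.re + R) Filter.atTop Filter.atTop :=
    Filter.tendsto_atTop_add_const_left _ _ Filter.tendsto_id
  have t1 := intervalIntegral_tendsto_integral (CUT_int f ζ a h1.ne' ha) hL hU
  have t2 := intervalIntegral_tendsto_integral (CUT_int f ζ b h2.ne hb) hL hU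
  have t3 : Filter.Tendsto (fun R : ℝ => f ζ * (2 * I * (Real.arctan (R / (ζ.im - a)) : ℂ)))
      Filter.atTop (nhds (f ζ * (2 * I * ((π / 2 : ℝ) : ℂ)))) := by
    refine Filter.Tendsto.const_mul _ (Filter.Tendsto.const_mul _ ?_)
    refine (Complex.continuous_ofReal.tendsto _).comp ?_
    refine (Real.tendsto_arctan_atTop.mono_right nhdsWithin_le_nhds).comp ?_
    exact Filter.tendsto_id.atTop_div_const (by linarith)
  have t4 : Filter.Tendsto (fun R : ℝ => f ζ * (2 * I * (Real.arctan (R / (ζ.im - b)) : ℂ)))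
      Filter.atTop (nhds (f ζ * (2 * I * ((-(π / 2) : ℝ) : ℂ)))) := by
    refine Filter.Tendsto.const_mul _ (Filter.Tendsto.const_mul _ ?_)
    refine (Complex.continuous_ofReal.tendsto _).comp ?_
    refine (Real.tendsto_arctan_atBot.mono_right nhdsWithin_le_nhds).comp ?_
    exact Filter.tendsto_id.atTop_div_const_of_neg (by linarith)
  have t5 : ∀ σ : ℝ, |σ| = 1 → Filter.Tendsto
      (fun R : ℝ => I * (∫ y in a..b, dslope f ζ (((ζ.re + σ * R : ℝ) : ℂ) + y * I)))
      Filter.atTop (nhds 0) := by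
    intro σ hσ
    have t6 : Filter.Tendsto (fun R : ℝ => (B + ‖f ζ‖) * |b - a| / R) Filter.atTop (nhds 0) :=
      Filter.Tendsto.div_atTop tendsto_const_nhds Filter.tendsto_id
    refine squeeze_zero_norm' ?_ t6
    refine (Filter.eventually_gt_atTop (0 : ℝ)).mono ?_
    intro R hR
    have hσ0 : σ ≠ 0 := by
      intro h0
      rw [h0, abs_zero] at hσ
      exact zero_ne_one hσ
    have h7 := CUT_vert f ζ a b B hab (σ * R) (mul_ne_zero hσ0 hR.ne') hB
    rw [abs_mul, hσ, one_mul, abs_of_pos hR] at h7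
    rw [norm_mul, Complex.norm_I, one_mul]
    refine h7.trans (le_of_eq ?_)
    ring
  have t7 := ((t1.sub t3).sub (t2.sub t4))
  have t8 := ((t5 1 (by simp)).sub (t5 (-1) (by simp))).neg
  have h9 := tendsto_nhds_unique (t7.congr' ?_) t8
  · rw [sub_zero, neg_zero] at h9
    push_cast at h9
    linear_combination h9
  · refine (Filter.eventually_gt_atTop (0 : ℝ)).mono ?_
    intro R hR
    have := key R hR
    simp only [one_mul, neg_one_mul]
    exact this

private theorem CUT_exp_mem {ζ : ℂ} (h1 : 0 < ζ.im) (h2 : ζ.im < π) : cexp ζ ∈ H := by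
  show 0 < (cexp ζ).im
  rw [Complex.exp_im]
  exact mul_pos (Real.exp_pos _) (Real.sin_pos_of_pos_of_lt_pi h1 h2)

private theorem CUT_cos {y : ℝ} (h1 : π / 4 ≤ y) (h2 : y ≤ 3 * π / 4) :
    |Real.cos y| ≤ Real.sin y := by
  have hπ := Real.pi_pos
  have hs : 0 ≤ Real.sin y := Real.sin_nonneg_of_nonneg_of_le_pi (by linarith) (by linarith)
  refine abs_le_of_sq_le_sq ?_ hs
  have h3 : Real.cos (2 * y) ≤ 0 := by
    refine Real.cos_nonpos_of_pi_div_two_le_of_le (by linarith) (by linarith)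
  have h4 := Real.cos_two_mul' y
  linarith

private theorem CUT_dec (g : ℂ → ℂ) (C : ℝ)
    (hb : ∀ z ∈ H, |z.re| ≤ z.im → ‖g z‖ ≤ C * (‖z‖ ^ 2 / (1 + ‖z‖ ^ 4)))
    (x y : ℝ) (h1 : π / 4 ≤ y) (h2 : y ≤ 3 * π / 4) :
    ‖g (cexp ((x : ℂ) + y * I))‖ ≤ |C| * (1 + x ^ 2)⁻¹ := by
  have hπ := Real.pi_pos
  have eim : ((x : ℂ) + y * I).im = y := by simp
  have ere : ((x : ℂ) + y * I).re = x := by simp
  have hm : cexp ((x : ℂ) + y * I) ∈ H := CUT_exp_mem (by rw [eim]; linarith)
    (by rw [eim]; linarith)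
  have h3 := hb _ hm ?_
  · have hn : ‖cexp ((x : ℂ) + y * I)‖ = Real.exp x := by rw [Complex.norm_exp, ere]
    rw [hn] at h3
    have h4 : C * (Real.exp x ^ 2 / (1 + Real.exp x ^ 4)) ≤
        |C| * (Real.exp x ^ 2 / (1 + Real.exp x ^ 4)) :=
      mul_le_mul_of_nonneg_right (le_abs_self C) (by positivity)
    have h5 : Real.exp x ^ 2 / (1 + Real.exp x ^ 4) ≤ (1 + x ^ 2)⁻¹ := by
      rw [← one_div, div_le_div_iff₀ (by positivity) (by positivity), one_mul]
      have e1 : Real.exp x ^ 2 = Real.exp (2 * x) := by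
        rw [← Real.exp_nat_mul]
        norm_num
      have e2 : Real.exp x ^ 4 = Real.exp (2 * x) * Real.exp (2 * x) := by
        rw [← e1]
        ring
      rw [e2, e1]
      have hp : 0 < Real.exp (2 * x) := Real.exp_pos _
      rcases le_total 0 x with hx | hx
      · have h6 := Real.quadratic_le_exp_of_nonneg (show 0 ≤ 2 * x by linarith)
        nlinarith [mul_nonneg hp.le (show 0 ≤ Real.exp (2 * x) - (1 + x ^ 2) by nlinarith)]
      · have h6 := Real.quadratic_le_exp_of_nonneg (show 0 ≤ -(2 * x) by linarith)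
        have h7 : Real.exp (2 * x) * Real.exp (-(2 * x)) = 1 := by
          rw [← Real.exp_add]
          simp
        have h8 : 1 + x ^ 2 ≤ Real.exp (-(2 * x)) := by nlinarith
        have h9 := mul_le_mul_of_nonneg_left h8 hp.le
        rw [h7] at h9
        nlinarith [mul_nonneg hp.le hp.le]
    exact h3.trans (h4.trans (mul_le_mul_of_nonneg_left h5 (abs_nonneg C)))
  · rw [Complex.exp_re, Complex.exp_im, eim, abs_mul, abs_of_pos (Real.exp_pos _)]
    exact mul_le_mul_of_nonneg_left (CUT_cos h1 h2) (Real.exp_pos _).le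

/-- Splitting of a function which is small in the sector `|Re z| ≤ Im z`. -/
theorem CUT_blk (g : ℂ → ℂ) (hg : DifferentiableOn ℂ g H) (C : ℝ)
    (hb : ∀ z ∈ H, |z.re| ≤ z.im → ‖g z‖ ≤ C * (‖z‖ ^ 2 / (1 + ‖z‖ ^ 4))) :
    ∃ (gp gm : ℂ → ℂ) (K : ℝ), DifferentiableOn ℂ gp H ∧ DifferentiableOn ℂ gm H ∧
      (∀ z ∈ H, g z = gp z - gm z) ∧ (∀ z ∈ H, 0 ≤ z.re → ‖gp z‖ ≤ K) ∧
      (∀ z ∈ H, z.re ≤ 0 → ‖gm z‖ ≤ K) := by
  have hπ := Real.pi_pos
  have hs : IsOpen {ζ : ℂ | 0 < ζ.im ∧ ζ.im < π} :=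
    (isOpen_lt continuous_const Complex.continuous_im).inter
      (isOpen_lt Complex.continuous_im continuous_const)
  have hopen : IsOpen H := isOpen_lt continuous_const Complex.continuous_im
  have hf : DifferentiableOn ℂ (fun ζ => g (cexp ζ)) {ζ : ℂ | 0 < ζ.im ∧ ζ.im < π} := by
    intro ζ hζ
    have h1 : DifferentiableAt ℂ g (cexp ζ) :=
      hg.differentiableAt (hopen.mem_nhds (CUT_exp_mem hζ.1 hζ.2))
    exact (h1.comp ζ Complex.differentiable_exp.differentiableAt).differentiableWithinAt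
  have hsub : ∀ x y : ℝ, π / 4 ≤ y → y ≤ 3 * π / 4 →
      ((x : ℂ) + y * I) ∈ {ζ : ℂ | 0 < ζ.im ∧ ζ.im < π} := by
    intro x y h1 h2
    have e : ((x : ℂ) + y * I).im = y := by simp
    show 0 < _ ∧ _
    rw [e]
    constructor <;> linarith
  have hint : ∀ y : ℝ, π / 4 ≤ y → y ≤ 3 * π / 4 →
      Integrable (fun x : ℝ => g (cexp ((x : ℂ) + y * I))) := by
    intro y h1 h2
    have hcont : Continuous (fun x : ℝ => g (cexp ((x : ℂ) + y * I))) := by
      rw [continuous_iff_continuousAt]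
      intro x
      have h3 : DifferentiableAt ℂ (fun ζ => g (cexp ζ)) ((x : ℂ) + y * I) :=
        hf.differentiableAt (hs.mem_nhds (hsub x y h1 h2))
      have h4 : ContinuousAt (fun x : ℝ => (x : ℂ) + y * I) x := by fun_prop
      exact ContinuousAt.comp (f := fun x : ℝ => (x : ℂ) + y * I) h3.continuousAt h4
    refine Integrable.mono' (integrable_inv_one_add_sq.const_mul |C|)
      hcont.aestronglyMeasurable ?_
    exact Filter.Eventually.of_forall (fun x => CUT_dec g C hb x y h1 h2)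
  have ha := hint (π / 4) le_rfl (by linarith)
  have hbI := hint (3 * π / 4) (by linarith) le_rfl
  have hbd : ∀ x y : ℝ, π / 4 ≤ y → y ≤ 3 * π / 4 →
      ‖g (cexp ((x : ℂ) + y * I))‖ ≤ |C| := by
    intro x y h1 h2
    refine (CUT_dec g C hb x y h1 h2).trans ?_
    refine mul_le_of_le_one_right (abs_nonneg C) ?_
    exact inv_le_one_of_one_le₀ (by nlinarith [sq_nonneg x])
  set A : ℝ := π / 4 with hA
  set B : ℝ := 3 * π / 4 with hB
  obtain ⟨L, hL⟩ : ∃ L : ℝ → ℂ → ℂ, L = fun (a : ℝ) (ζ : ℂ) =>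
      -(2 * π * I)⁻¹ * ∫ x : ℝ, g (cexp ((x : ℂ) + a * I)) / ((x : ℂ) + a * I - ζ) := ⟨_, rfl⟩
  have h2pi : (2 * π * I : ℂ) ≠ 0 := by
    have : (π : ℂ) ≠ 0 := by exact_mod_cast hπ.ne'
    simp [this]
  have hcau : ∀ z ∈ H, A < (Complex.log z).im → (Complex.log z).im < B →
      g z = L B (Complex.log z) - L A (Complex.log z) := by
    intro z hz h1 h2
    have h3 := CUT_cau (fun ζ => g (cexp ζ)) _ hs hf A B |C| hsub hbd ha hbI
      (Complex.log z) h1 h2
    have hz0 : z ≠ 0 := by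
      intro h0
      rw [h0] at hz
      exact absurd hz (by simp [H])
    simp only [Complex.exp_log hz0] at h3
    rw [hL]
    simp only
    have h4 : g z = (2 * π * I)⁻¹ * (2 * π * I * g z) := by
      rw [← mul_assoc, inv_mul_cancel₀ h2pi, one_mul]
    rw [h4, ← h3]
    ring
  have hdiff : ∀ (a : ℝ), Integrable (fun x : ℝ => g (cexp ((x : ℂ) + a * I))) → ∀ z ∈ H,
      (Complex.log z).im ≠ a → DifferentiableAt ℂ (fun w => L a (Complex.log w)) z := by
    intro a hai z hz hne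
    have hsl : z ∈ Complex.slitPlane := Or.inr (ne_of_gt hz)
    have h1 := CUT_hol (fun x : ℝ => g (cexp ((x : ℂ) + a * I))) hai a (Complex.log z) hne
    have h2 := h1.comp z (Complex.differentiableAt_log hsl)
    rw [hL]
    exact h2.const_mul _
  have hcl : ∀ z ∈ H, ContinuousAt (fun w => (Complex.log w).im) z := by
    intro z hz
    have hsl : z ∈ Complex.slitPlane := Or.inr (ne_of_gt hz)
    exact Complex.continuous_im.continuousAt.comp (continuousAt_clog hsl)
  refine ⟨fun z => if (Complex.log z).im < B then L B (Complex.log z)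
      else g z + L A (Complex.log z),
    fun z => if A < (Complex.log z).im then L A (Complex.log z)
      else L B (Complex.log z) - g z,
    max ((2 * π)⁻¹ * ((∫ x : ℝ, ‖g (cexp ((x : ℂ) + B * I))‖) / A))
      ((2 * π)⁻¹ * ((∫ x : ℝ, ‖g (cexp ((x : ℂ) + A * I))‖) / A)), ?_, ?_, ?_, ?_, ?_⟩
  · intro z hz
    refine DifferentiableAt.differentiableWithinAt ?_
    rcases lt_or_ge (Complex.log z).im B with h1 | h1
    · have h2 : ∀ᶠ w in nhds z, (Complex.log w).im < B :=
        (hcl z hz).eventually (eventually_lt_nhds h1)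
      refine (hdiff B hbI z hz h1.ne).congr_of_eventuallyEq ?_
      refine h2.mono ?_
      intro w hw
      simp only
      rw [if_pos hw]
    · have h3 : A < (Complex.log z).im := by linarith
      have h2 : ∀ᶠ w in nhds z, A < (Complex.log w).im :=
        (hcl z hz).eventually (eventually_gt_nhds h3)
      have h4 : DifferentiableAt ℂ (fun w => g w + L A (Complex.log w)) z :=
        (hg.differentiableAt (hopen.mem_nhds hz)).add (hdiff A ha z hz h3.ne')
      refine h4.congr_of_eventuallyEq ?_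
      refine (h2.and (hopen.mem_nhds hz)).mono ?_
      intro w hw
      simp only
      by_cases h5 : (Complex.log w).im < B
      · rw [if_pos h5, hcau w hw.2 hw.1 h5]
        ring
      · rw [if_neg h5]
  · intro z hz
    refine DifferentiableAt.differentiableWithinAt ?_
    rcases lt_or_ge A (Complex.log z).im with h1 | h1
    · have h2 : ∀ᶠ w in nhds z, A < (Complex.log w).im :=
        (hcl z hz).eventually (eventually_gt_nhds h1)
      refine (hdiff A ha z hz h1.ne').congr_of_eventuallyEq ?_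
      refine h2.mono ?_
      intro w hw
      simp only
      rw [if_pos hw]
    · have h3 : (Complex.log z).im < B := by linarith
      have h2 : ∀ᶠ w in nhds z, (Complex.log w).im < B :=
        (hcl z hz).eventually (eventually_lt_nhds h3)
      have h4 : DifferentiableAt ℂ (fun w => L B (Complex.log w) - g w) z :=
        (hdiff B hbI z hz h3.ne).sub (hg.differentiableAt (hopen.mem_nhds hz))
      refine h4.congr_of_eventuallyEq ?_
      refine (h2.and (hopen.mem_nhds hz)).mono ?_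
      intro w hw
      simp only
      by_cases h5 : A < (Complex.log w).im
      · rw [if_pos h5, hcau w hw.2 h5 hw.1]
        ring
      · rw [if_neg h5]
  · intro z hz
    simp only
    by_cases h1 : (Complex.log z).im < B
    · by_cases h2 : A < (Complex.log z).im
      · rw [if_pos h1, if_pos h2]
        exact hcau z hz h2 h1
      · rw [if_pos h1, if_neg h2]
        ring
    · have h2 : A < (Complex.log z).im := by linarith
      rw [if_neg h1, if_pos h2]
      ring
  · intro z hz hre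
    have harg : (Complex.log z).im ≤ π / 2 := by
      rw [Complex.log_im]
      exact (abs_le.1 (Complex.abs_arg_le_pi_div_two_iff.2 hre)).2
    simp only
    rw [if_pos (by linarith)]
    refine le_trans ?_ (le_max_left _ _)
    rw [hL]
    simp only
    rw [norm_mul, norm_neg, norm_inv]
    have e : ‖(2 * π * I : ℂ)‖ = 2 * π := by
      simp [abs_of_pos hπ]
    rw [e]
    refine mul_le_mul_of_nonneg_left ?_ (by positivity)
    refine CUT_bd (fun x : ℝ => g (cexp ((x : ℂ) + B * I))) hbI B _ A (by positivity) ?_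
    rw [abs_sub_comm]
    refine le_trans ?_ (le_abs_self _)
    linarith
  · intro z hz hre
    have harg : π / 2 ≤ (Complex.log z).im := by
      rw [Complex.log_im]
      by_contra hlt
      have h1 : 0 ≤ Complex.arg z := Complex.arg_nonneg_iff.2 (le_of_lt hz)
      have h2 : 0 < Real.cos (Complex.arg z) :=
        Real.cos_pos_of_mem_Ioo ⟨by linarith, by linarith⟩
      have h3 := Complex.norm_mul_cos_arg z
      have hz0 : z ≠ 0 := by
        intro h0
        rw [h0] at hz
        exact absurd hz (by simp [H])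
      have h4 := mul_pos (norm_pos_iff.2 hz0) h2
      linarith
    simp only
    rw [if_pos (by linarith)]
    refine le_trans ?_ (le_max_right _ _)
    rw [hL]
    simp only
    rw [norm_mul, norm_neg, norm_inv]
    have e : ‖(2 * π * I : ℂ)‖ = 2 * π := by
      simp [abs_of_pos hπ]
    rw [e]
    refine mul_le_mul_of_nonneg_left ?_ (by positivity)
    refine CUT_bd (fun x : ℝ => g (cexp ((x : ℂ) + A * I))) ha A _ A (by positivity) ?_
    refine le_trans ?_ (le_abs_self _)
    linarith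

end Pool.Agent.K2
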